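import Pool.Agent.SPO.Core1
import Pool.Agent.TwoSqPow.Density

/-!
# Package A19: density one

Copy the proofs of `b1_bound` and `density` in `Pool/Agent/TwoSqPow/Density.lean` with `core1` in
place of `core`: the number
`C` no longer depends on `η`. (`b0_step` is used as it is.)
-/

set_option autoImplicit false

namespace Pool.Agent.SPO

open Finset Filter Pool.Agent.TwoSqPow

open Classical in
private theorem final_b1 {k : ℕ} (hc : ∀ η : ℝ, 0 < η → ∃ m Y₀ : ℕ, 1 ≤ m ∧ ∀ Y ≥ Y₀,
    (#{N ∈ Ioc (m * Y) ((m + 1) * Y) | N % 4 = 1 ∧ ¬ Representable k N} : ℝ) ≤ η * Y) {η : ℝ}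
    (hη : 0 < η) : ∃ K : ℕ, ∀ x : ℕ, (b1 k x : ℝ) ≤ η * x + K := by
  obtain ⟨m, Y₀, hm, hcore⟩ := hc (η / 2) (half_pos hη)
  obtain ⟨Y₁, hY₁⟩ := exists_nat_ge (2 * ((m : ℝ) + 1) / η)
  set Y₂ := max 1 (max Y₀ Y₁) with hY₂
  refine ⟨(m + 1) * (Y₂ + 1), fun x => ?_⟩
  induction x using Nat.strong_induction_on with
  | _ x ih =>
    set Y := x / (m + 1) with hY
    have hm1 : 0 < m + 1 := by omega
    have e1 := Nat.div_add_mod x (m + 1)
    have e2 := Nat.mod_lt x hm1
    rw [← hY] at e1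
    by_cases hsmall : Y < Y₂
    · have h1 : x ≤ (m + 1) * (Y₂ + 1) := by nlinarith
      have h2 : (b1 k x : ℝ) ≤ x := by exact_mod_cast b1_le k x
      have h3 : (x : ℝ) ≤ (((m + 1) * (Y₂ + 1) : ℕ) : ℝ) := by exact_mod_cast h1
      have h4 : 0 ≤ η * x := by positivity
      linarith
    · push Not at hsmall
      have hY0 : Y₀ ≤ Y := ((le_max_left _ _).trans (le_max_right _ _)).trans hsmall
      have hY1 : Y₁ ≤ Y := ((le_max_right _ _).trans (le_max_right _ _)).trans hsmall
      have hYpos : 1 ≤ Y := (le_max_left _ _).trans hsmall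
      have hlt : m * Y < x := by
        have e3 : (m + 1) * Y = m * Y + Y := by ring
        omega
      have h1 := ih (m * Y) hlt
      have h2 := hcore Y hY0
      have hsub : (Icc 1 x).filter (fun N => N % 4 = 1 ∧ ¬ Representable k N) ⊆
          (Icc 1 (m * Y)).filter (fun N => N % 4 = 1 ∧ ¬ Representable k N) ∪
          ((Ioc (m * Y) ((m + 1) * Y)).filter (fun N => N % 4 = 1 ∧ ¬ Representable k N) ∪
            Ioc ((m + 1) * Y) x) := by
        intro N hN
        rw [mem_filter, mem_Icc] at hN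
        rw [mem_union, mem_union, mem_filter, mem_filter, mem_Icc, mem_Ioc, mem_Ioc]
        by_cases h3 : N ≤ m * Y
        · left; exact ⟨⟨hN.1.1, h3⟩, hN.2⟩
        · right
          by_cases h4 : N ≤ (m + 1) * Y
          · left; exact ⟨⟨by omega, h4⟩, hN.2⟩
          · right; exact ⟨by omega, hN.1.2⟩
      have h3 : b1 k x ≤ b1 k (m * Y) +
          (#{N ∈ Ioc (m * Y) ((m + 1) * Y) | N % 4 = 1 ∧ ¬ Representable k N} +
            (x - (m + 1) * Y)) := by
        unfold b1
        refine (card_le_card hsub).trans ((card_union_le _ _).trans ?_)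
        apply Nat.add_le_add_left
        refine (card_union_le _ _).trans ?_
        rw [Nat.card_Ioc]
      have h4 : x - (m + 1) * Y ≤ m + 1 := by omega
      have h5 : (b1 k x : ℝ) ≤ b1 k (m * Y) +
          (#{N ∈ Ioc (m * Y) ((m + 1) * Y) | N % 4 = 1 ∧ ¬ Representable k N} + (m + 1)) := by
        have : b1 k x ≤ b1 k (m * Y) +
          (#{N ∈ Ioc (m * Y) ((m + 1) * Y) | N % 4 = 1 ∧ ¬ Representable k N} + (m + 1)) := by
          omega
        exact_mod_cast this
      have h6 : ((m : ℝ) + 1) ≤ η / 2 * Y := by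
        have h7 : 2 * ((m : ℝ) + 1) / η ≤ Y := hY₁.trans (by exact_mod_cast hY1)
        rw [div_le_iff₀ hη] at h7
        linarith
      have h7 : (((m + 1) * Y : ℕ) : ℝ) ≤ x := by
        have : (m + 1) * Y ≤ x := by omega
        exact_mod_cast this
      push_cast at h1 h7 ⊢
      nlinarith

open Classical in
theorem density_one : ∃ C : ℕ, ∀ ε : ℝ, 0 < ε → ∀ᶠ X : ℕ in atTop,
    (((Finset.Icc 1 X).filter (fun N => ¬ Representable C N)).card : ℝ) ≤ ε * X := by
  obtain ⟨k, hc⟩ := core1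
  refine ⟨k + 1, fun ε hε => ?_⟩
  change ∀ᶠ X : ℕ in atTop, (b0 (k + 1) X : ℝ) ≤ ε * X
  set η := ε / 9 with hη
  have hη0 : 0 < η := by positivity
  obtain ⟨K, hb⟩ := final_b1 hc hη0
  have key : ∀ x : ℕ, (b0 (k + 1) x : ℝ) ≤ 8 * η * x + K / η := by
    intro x
    induction x using Nat.strong_induction_on with
    | _ x ih =>
      have hKη : 0 ≤ (K : ℝ) / η := by positivity
      by_cases hx : (x : ℝ) ≤ K / η
      · have h1 : (b0 (k + 1) x : ℝ) ≤ x := by exact_mod_cast b0_le (k + 1) x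
        have h2 : 0 ≤ 8 * η * x := by positivity
        linarith
      · push Not at hx
        have hx0 : 0 < x := by
          have : (0 : ℝ) < x := lt_of_le_of_lt hKη hx
          exact_mod_cast this
        have h1 := ih (x / 4) (by omega)
        have h2 := b0_step k x
        have h3 : (b0 (k + 1) x : ℝ) ≤ 3 * b1 k x + b0 (k + 1) (x / 4) := by exact_mod_cast h2
        have h4 := hb x
        have h5 : ((x / 4 : ℕ) : ℝ) ≤ (x : ℝ) / 4 := Nat.cast_div_le
        have h6 : (K : ℝ) ≤ η * x := by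
          rw [div_lt_iff₀ hη0] at hx
          linarith
        have h7 : 8 * η * ((x / 4 : ℕ) : ℝ) ≤ 2 * η * x := by nlinarith
        nlinarith
  rw [eventually_atTop]
  obtain ⟨X₀, hX₀⟩ := exists_nat_ge (K / η / η)
  refine ⟨X₀, fun X hX => ?_⟩
  have h1 := key X
  have h2 : (K : ℝ) / η ≤ η * X := by
    have h3 : (K : ℝ) / η / η ≤ X := hX₀.trans (by exact_mod_cast hX)
    rw [div_le_iff₀ hη0] at h3
    linarith
  have h3 : ε = 9 * η := by rw [hη]; ring
  rw [h3]
  linarith

end Pool.Agent.SPO
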