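import Pool.Agent.SPO.Defs

/-!
# Package P13: the order of 2 modulo a prime

`q` is an odd prime, `od q = orderOf (2 : ZMod q)`.
* `od_dvd`: Fermat. `od_pos`.
* `lt_two_pow_od`: `Pool/Agent/TwoSqPow/Order.lean`, `lt_two_pow_orderOf` (copy it).
* `card_od_le`: the primes `q ∈ T` with `od q = d` divide `2^d - 1`, so their product, at least
`3^#`, is
  `< 2^d`; hence `# ≤ d` (for `d = 0` there is none by `od_pos`).
* `pow_eq_one_of_not_dvd`: if `ℓ ∣ q - 1` and `v_ℓ(od q) = 0` then `od q` divides `(q-1)/ℓ`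
(compare
  factorizations, or: `od q ∣ q - 1 = ℓ ((q-1)/ℓ)` and `gcd(od q, ℓ) = 1`).
* `two_ne_zero'`, `unit2`: `2` is a unit modulo `q`.
-/

set_option autoImplicit false

namespace Pool.Agent.SPO

open Finset

theorem two_ne_zero_zmod {q : ℕ} (hq : q.Prime) (h2 : q ≠ 2) : (2 : ZMod q) ≠ 0 := by
  intro h
  have : ((2 : ℕ) : ZMod q) = 0 := by exact_mod_cast h
  rw [ZMod.natCast_eq_zero_iff] at this
  exact h2 ((Nat.prime_dvd_prime_iff_eq hq Nat.prime_two).mp this)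

theorem od_pos {q : ℕ} (hq : q.Prime) (h2 : q ≠ 2) : 0 < od q := by
  have : Fact q.Prime := ⟨hq⟩
  have hne := two_ne_zero_zmod hq h2
  unfold od
  rw [orderOf_pos_iff]
  have hu : IsOfFinOrder (Units.mk0 (2 : ZMod q) hne) := isOfFinOrder_of_finite _
  have := (Units.isOfFinOrder_val (u := Units.mk0 (2 : ZMod q) hne)).mpr hu
  simpa using this

theorem od_dvd {q : ℕ} (hq : q.Prime) (h2 : q ≠ 2) : od q ∣ q - 1 := by
  have : Fact q.Prime := ⟨hq⟩
  exact orderOf_dvd_of_pow_eq_one (ZMod.pow_card_sub_one_eq_one (two_ne_zero_zmod hq h2))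

private theorem dvd_two_pow_sub {q d : ℕ} (h : od q = d) : q ∣ 2 ^ d - 1 := by
  have h1 : (2 : ZMod q) ^ d = 1 := by
    rw [← h]
    exact pow_orderOf_eq_one _
  rw [← ZMod.natCast_eq_zero_iff, Nat.cast_sub Nat.one_le_two_pow]
  push_cast
  rw [h1]
  simp

theorem lt_two_pow_od {q : ℕ} (hq : q.Prime) (h2 : q ≠ 2) : q < 2 ^ od q := by
  have hpos := od_pos hq h2
  have h3 : q ∣ 2 ^ od q - 1 := dvd_two_pow_sub rfl
  have h4 : 0 < 2 ^ od q - 1 := by
    have : 2 ^ 1 ≤ 2 ^ od q := Nat.pow_le_pow_right (by norm_num) hpos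
    omega
  have := Nat.le_of_dvd h4 h3
  omega

theorem card_od_le (T : Finset ℕ) (hT : ∀ q ∈ T, q.Prime ∧ q ≠ 2) (d : ℕ) :
    #(T.filter (fun q => od q = d)) ≤ d := by
  rcases Nat.eq_zero_or_pos d with rfl | hd
  · rw [Nat.le_zero, Finset.card_eq_zero, Finset.filter_eq_empty_iff]
    intro q hq h
    have := od_pos (hT q hq).1 (hT q hq).2
    omega
  · have h1 : ∏ q ∈ T.filter (fun q => od q = d), q ∣ 2 ^ d - 1 := by
      refine Finset.prod_primes_dvd _ (fun q hq => ?_) fun q hq => ?_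
      · rw [Finset.mem_filter] at hq
        exact (hT q hq.1).1.prime
      · rw [Finset.mem_filter] at hq
        exact dvd_two_pow_sub hq.2
    have h2 : 2 ^ #(T.filter (fun q => od q = d)) ≤ ∏ q ∈ T.filter (fun q => od q = d), q := by
      refine Finset.pow_card_le_prod _ _ _ fun q hq => ?_
      rw [Finset.mem_filter] at hq
      exact (hT q hq.1).1.two_le
    have h4 : 0 < 2 ^ d - 1 := by
      have : 2 ^ 1 ≤ 2 ^ d := Nat.pow_le_pow_right (by norm_num) hd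
      omega
    have h5 := Nat.le_of_dvd h4 h1
    have h6 : 2 ^ #(T.filter (fun q => od q = d)) < 2 ^ d := by omega
    exact (Nat.pow_lt_pow_iff_right (by norm_num)).1 h6 |>.le

theorem pow_eq_one_of_not_dvd {q ℓ : ℕ} (hq : q.Prime) (h2 : q ≠ 2) (hℓ : ℓ.Prime)
    (hdvd : ℓ ∣ q - 1) (h : (od q).factorization ℓ = 0) :
    (2 : ZMod q) ^ ((q - 1) / ℓ) = 1 := by
  have h1 : ¬ ℓ ∣ od q := by
    intro h3
    rcases (Nat.factorization_eq_zero_iff _ _).1 h with h4 | h4 | h4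
    · exact h4 hℓ
    · exact h4 h3
    · exact (od_pos hq h2).ne' h4
  have h3 : Nat.Coprime (od q) ℓ := ((Nat.Prime.coprime_iff_not_dvd hℓ).2 h1).symm
  have h4 : od q ∣ ℓ * ((q - 1) / ℓ) := by
    rw [Nat.mul_div_cancel' hdvd]
    exact od_dvd hq h2
  exact orderOf_dvd_iff_pow_eq_one.1 (h3.dvd_of_dvd_mul_left h4)

/-- `od` as the order of a unit -/
theorem exists_unit_two {q : ℕ} (hq : q.Prime) (h2 : q ≠ 2) :
    ∃ g : (ZMod q)ˣ, (g : ZMod q) = 2 ∧ orderOf g = od q := by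
  have : Fact q.Prime := ⟨hq⟩
  refine ⟨Units.mk0 (2 : ZMod q) (two_ne_zero_zmod hq h2), rfl, ?_⟩
  rw [← orderOf_units]
  rfl

end Pool.Agent.SPO
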