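import Pool.Agent.SPO.ADefs
import Pool.Agent.TwoSqPow.Defs

/-!
# Package A14: `4 sB` is a sum of a fixed number of powers of 2

* `exists_list`: `4 sB l M b = ∑_t ∑_m (∏_{i<t} ∑_{j < l i} 2^{j c_i}) 2^{b t m + 2}` (`c_i = M/(l
i)^{...}`); the
product is a sum of `∏_{i<t} l i` powers of 2 (induction on `t`: multiplying a list of powers of
two by
`Psi (l i) M` gives a list of powers of two of `l i` times the length), so the total number is
`∑_t k ∏_{i<t} l i = Ctot l J k`. The auxiliary predicate `n` is the sum of exactly `r` powers of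
2
(a list of exponents of length `r`) is stable under addition, multiplication by `2^c`, finite sums.
* `representable_of_sB`: unfold `Representable` (`Pool/Agent/TwoSqPow/Defs.lean`).
* `exists_size`: `4 ∑_t coef l M t · ∑_m 2^{b t m} ≤ (4k ∑_{t ≤ J} coef l M t) 2^B`.
-/

set_option autoImplicit false

namespace Pool.Agent.SPO

open Finset Pool.Agent.TwoSqPow

/-- `n` is the sum of exactly `r` powers of two -/
private def PS (r n : ℕ) : Prop :=
  ∃ L : List ℕ, L.length = r ∧ (L.map (fun a => 2 ^ a)).sum = n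

private theorem PS.zero : PS 0 0 := ⟨[], rfl, rfl⟩

private theorem PS.add {r n r' n' : ℕ} (h : PS r n) (h' : PS r' n') : PS (r + r') (n + n') := by
  obtain ⟨L, h1, h2⟩ := h
  obtain ⟨L', h3, h4⟩ := h'
  exact ⟨L ++ L', by rw [List.length_append, h1, h3], by
    rw [List.map_append, List.sum_append, h2, h4]⟩

private theorem PS.mulPow {r n : ℕ} (h : PS r n) (c : ℕ) : PS r (n * 2 ^ c) := by
  obtain ⟨L, h1, h2⟩ := h
  refine ⟨L.map (· + c), by rw [List.length_map, h1], ?_⟩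
  rw [List.map_map, ← h2, ← List.sum_map_mul_right]
  congr 1
  refine List.map_congr_left fun a _ => ?_
  simp only [Function.comp_apply, pow_add]

private theorem PS.sum {ι : Type*} (s : Finset ι) (r n : ι → ℕ) (h : ∀ i ∈ s, PS (r i) (n i)) :
    PS (∑ i ∈ s, r i) (∑ i ∈ s, n i) := by
  classical
  induction s using Finset.induction_on with
  | empty => exact PS.zero
  | insert a s ha ih =>
    rw [sum_insert ha, sum_insert ha]
    exact (h a (mem_insert_self _ _)).add (ih fun i hi => h i (mem_insert_of_mem hi))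

private theorem PS.mulPsi {r n : ℕ} (h : PS r n) (ℓ M : ℕ) : PS (r * ℓ) (n * Psi ℓ M) := by
  have h1 : n * Psi ℓ M = ∑ j ∈ range ℓ, n * 2 ^ (j * (M / ℓ ^ M.factorization ℓ)) := by
    rw [Psi, mul_sum]
  have h2 : r * ℓ = ∑ _j ∈ range ℓ, r := by
    rw [sum_const, card_range, smul_eq_mul, mul_comm]
  rw [h1, h2]
  exact PS.sum _ _ _ fun j _ => h.mulPow _

private theorem PS.mulCoef {r n : ℕ} (h : PS r n) (l : ℕ → ℕ) (M t : ℕ) :
    PS (r * ∏ i ∈ range t, l i) (n * coef l M t) := by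
  induction t with
  | zero => simpa [coef] using h
  | succ t ih =>
    have h1 : coef l M (t + 1) = coef l M t * Psi (l t) M := by
      rw [coef, coef, prod_range_succ]
    rw [h1, prod_range_succ, ← mul_assoc, ← mul_assoc]
    exact ih.mulPsi _ _

private theorem PS.block {k B : ℕ} (c : Fin k → Fin B) : PS k (4 * ∑ m : Fin k, 2 ^ (c m : ℕ)) := by
  have h1 : 4 * ∑ m : Fin k, 2 ^ (c m : ℕ) = ∑ m : Fin k, 2 ^ ((c m : ℕ) + 2) := by
    rw [mul_sum]
    refine sum_congr rfl fun m _ => ?_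
    rw [pow_add]
    ring
  have h2 : k = ∑ _m : Fin k, 1 := by simp
  rw [h1]
  conv => arg 1; rw [h2]
  exact PS.sum _ _ _ fun m _ => ⟨[(c m : ℕ) + 2], rfl, by simp⟩

theorem exists_list (l : ℕ → ℕ) (M : ℕ) {J k B : ℕ} (b : Fin (J + 1) → Fin k → Fin B) :
    ∃ L : List ℕ, L.length = Ctot l J k ∧ (L.map (fun a => 2 ^ a)).sum = 4 * sB l M b := by
  have h1 : 4 * sB l M b = ∑ t : Fin (J + 1), (4 * ∑ m : Fin k, 2 ^ (b t m : ℕ)) * coef l M t := by
    rw [sB, mul_sum]
    refine sum_congr rfl fun t _ => ?_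
    ring
  have h2 : Ctot l J k = ∑ t : Fin (J + 1), k * ∏ i ∈ range t, l i := by
    rw [Ctot, mul_sum, Finset.sum_range]
  have h3 : PS (Ctot l J k) (4 * sB l M b) := by
    rw [h1, h2]
    exact PS.sum _ _ _ fun t _ => (PS.block (b t)).mulCoef _ _ _
  exact h3

theorem representable_of_sB (l : ℕ → ℕ) (M : ℕ) {J k B : ℕ} (b : Fin (J + 1) → Fin k → Fin B)
    {N : ℕ} (hN : 4 * sB l M b ≤ N) (h : ∃ x y : ℕ, N - 4 * sB l M b = x ^ 2 + y ^ 2) :
    Representable (Ctot l J k) N := by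
  obtain ⟨x, y, hxy⟩ := h
  obtain ⟨L, h1, h2⟩ := exists_list l M b
  refine ⟨x, y, L, h1.le, ?_⟩
  have h3 : (L.map (fun a => (2 : ℤ) ^ a)).sum = ((4 * sB l M b : ℕ) : ℤ) := by
    rw [← h2, Nat.cast_list_sum, List.map_map]
    congr 1
  rw [h3]
  have h4 : N = x ^ 2 + y ^ 2 + 4 * sB l M b := by omega
  exact_mod_cast h4

theorem exists_size (l : ℕ → ℕ) (M J k : ℕ) : ∃ S : ℕ, 0 < S ∧
    ∀ (B : ℕ) (b : Fin (J + 1) → Fin k → Fin B), 4 * sB l M b ≤ S * 2 ^ B := by
  refine ⟨4 * ∑ t : Fin (J + 1), coef l M t * k + 1, Nat.succ_pos _, fun B b => ?_⟩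
  have h1 : sB l M b ≤ (∑ t : Fin (J + 1), coef l M t * k) * 2 ^ B := by
    rw [sB, sum_mul]
    refine sum_le_sum fun t _ => ?_
    rw [mul_assoc]
    refine Nat.mul_le_mul_left _ ?_
    have h2 : ∀ m ∈ (univ : Finset (Fin k)), 2 ^ (b t m : ℕ) ≤ 2 ^ B := fun m _ =>
      Nat.pow_le_pow_right two_pos (b t m).2.le
    have h3 := sum_le_card_nsmul _ _ _ h2
    rw [card_univ, Fintype.card_fin, smul_eq_mul] at h3
    exact h3
  calc 4 * sB l M b ≤ 4 * ((∑ t : Fin (J + 1), coef l M t * k) * 2 ^ B) :=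
        Nat.mul_le_mul_left _ h1
    _ ≤ (4 * ∑ t : Fin (J + 1), coef l M t * k + 1) * 2 ^ B := by
        rw [← mul_assoc]
        exact Nat.mul_le_mul_right _ (Nat.le_succ _)

end Pool.Agent.SPO
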