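import Pool.Agent.SPO.Defs
import Pool.Agent.TwoSqPow.WBound

/-!
# Definitions of the analytic part of SPO

`chi` is the real character mod 4 (`Pool/Agent/TwoSqPow/PrimesThree.lean`), `ex t = e^{2πit}`, `RQ
Y` the set of the
rationals in `[0, 1)` with denominator `≤ Y` (`Pool/Agent/TwoSqPow/Expand.lean`).
-/

set_option autoImplicit false

namespace Pool.Agent.SPO

open Finset Complex Pool.Agent.TwoSqPow

variable {ι : Type*}

/-- `∑_{b ∈ A}` of the sum of `chi d` over the divisors `d ≤ Y` of `N - s b` which are prime to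
`P` -/
noncomputable def GA (A : Finset ι) (s : ι → ℕ) (P Y : ℕ) (N : ℤ) : ℝ :=
  ∑ b ∈ A, ∑ d ∈ (Icc 1 Y).filter (fun d => Nat.Coprime d P),
    if (d : ℤ) ∣ N - s b then chi d else 0

/-- the coefficient of the fractions with denominator `q` -/
noncomputable def cP (P Y q : ℕ) : ℝ :=
  ∑ d ∈ (Icc 1 Y).filter (fun d => Nat.Coprime d P ∧ q ∣ d), chi d / d

/-- the exponential sum over the shifts -/
noncomputable def TA (A : Finset ι) (s : ι → ℕ) (x : ℝ) : ℂ := ∑ b ∈ A, ex (-(x * s b))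

/-- a part of the expansion -/
noncomputable def FP (A : Finset ι) (s : ι → ℕ) (P Y : ℕ) (S : Finset ℚ) (N : ℤ) : ℂ :=
  ∑ x ∈ S, ((cP P Y x.den : ℝ) : ℂ) * TA A s (x : ℝ) * ex ((N : ℝ) * (x : ℝ))

/-- the number of pairs with `q ∣ s b - s b'` -/
def pr (A : Finset ι) (s : ι → ℕ) (q : ℕ) : ℕ :=
  #{y ∈ A ×ˢ A | (q : ℤ) ∣ (s y.1 : ℤ) - s y.2}

/-- the variance -/
noncomputable def vv (A : Finset ι) (s : ι → ℕ) (P Y lo hi : ℕ) : ℝ :=
  ∑ q ∈ Ioc lo hi, (cP P Y q) ^ 2 * (q * (pr A s q : ℝ))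

/-- the product of the odd primes up to `Z I` -/
noncomputable def PP (I : ℕ) : ℕ := ∏ q ∈ prs Set.univ I, q

/-- the number of powers of two -/
def Ctot (l : ℕ → ℕ) (J k : ℕ) : ℕ := k * ∑ t ∈ range (J + 1), ∏ i ∈ range t, l i

end Pool.Agent.SPO
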