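import Pool.Agent.SPO.Graph

/-!
# Package G02: the Balog-Szemeredi-Gowers theorem

Proof. `n = |A|`, `r(x) = #{(a,b) ∈ A × A : a + b = x}`, so `addEnergy A A = ∑_x r(x)²` (sum over
`x ∈ A + A`; the quadruples of Mathlib's `addEnergy` are `a₁ + b₁ = a₂ + b₂`). Call `x` popular if
`r(x) ≥ n/(2K)`; `Pop` = set of popular `x ∈ A + A`. The unpopular `x` contribute at most
`(n/(2K)) ∑ r(x) = n³/(2K)` to the energy `≥ n³/K`, so `∑_{Pop} r(x)² ≥ n³/(2K)`, and `r(x) ≤ n`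
gives
`∑_{Pop} r(x) ≥ n²/(2K)`. Let `E a b` mean `a + b ∈ Pop`: at least `n²/(2K)` pairs of `A × A`
satisfy it.
Also `|Pop| ≤ 2K n` (`∑ r = n²`).

`exists_paths` with `2K` instead of `K`: `A', B' ⊆ A` with `n ≤ 12 K |A'|`, `n ≤ 8 K |B'|` and for
`a ∈ A'`, `b ∈ B'` at least `n²/(2¹⁷K⁵)` pairs `(b₁, a')` with `a + b₁, a' + b₁, a' + b ∈ Pop`. As
`a + b = (a + b₁) - (a' + b₁) + (a' + b)` and `(b₁, a') ↦ (a + b₁, a' + b₁, a' + b)` is injective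
for
fixed `a, b`, every `v ∈ A' + B'` is `x - y + w` for at least `n²/(2¹⁷K⁵)` triples `(x,y,w) ∈
Pop³`. So
`|A' + B'| n²/(2¹⁷K⁵) ≤ |Pop|³ ≤ (2Kn)³`, `|A' + B'| ≤ 2²⁰K⁸n`.

Ruzsa triangle inequality (Mathlib: `Finset.ruzsa_triangle_inequality_sub_sub_sub` or the variant
`ruzsa_triangle_inequality_sub_add_add` for `A' - A'` via `A' + B'` and `B' + A'`):
`|A' - A'| |B'| ≤ |A' + B'|²`, so `|A' - A'| ≤ 2⁴⁰K¹⁶n² · 8K/n = 2⁴³K¹⁷n ≤ 2⁴⁷K¹⁸|A'|`.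
-/

set_option autoImplicit false

namespace Pool.Agent.SPO

open Finset
open scoped Pointwise

private theorem rep_le {G : Type*} [AddCommGroup G] [DecidableEq G] (A : Finset G) (x : G) :
    #{p ∈ A ×ˢ A | p.1 + p.2 = x} ≤ #A := by
  refine card_le_card_of_injOn Prod.fst (fun p hp => ?_) ?_
  · exact (mem_product.mp (mem_filter.mp (mem_coe.mp hp)).1).1
  · intro p hp q hq hpq
    have h1 := (mem_filter.mp (mem_coe.mp hp)).2
    have h2 := (mem_filter.mp (mem_coe.mp hq)).2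
    refine Prod.ext hpq ?_
    have h3 : p.1 + p.2 = q.1 + q.2 := h1.trans h2.symm
    rw [hpq] at h3
    exact add_left_cancel h3

/-- Balog-Szemeredi-Gowers. -/
theorem bsg {G : Type*} [AddCommGroup G] [DecidableEq G] {A : Finset G} (hA : A.Nonempty) {K : ℝ}
    (hK : 1 ≤ K) (hE : (#A : ℝ) ^ 3 ≤ K * A.addEnergy A) :
    ∃ A' ⊆ A, A'.Nonempty ∧ (#A : ℝ) ≤ 12 * K * #A' ∧
      (#(A' - A') : ℝ) ≤ 2 ^ 47 * K ^ 18 * #A' := by
  classical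
  set n : ℝ := (#A : ℝ) with hn
  have hn0 : 0 < n := by
    rw [hn]
    exact_mod_cast card_pos.mpr hA
  have hK0 : 0 < K := lt_of_lt_of_le one_pos hK
  set r : G → ℕ := fun x => #{p ∈ A ×ˢ A | p.1 + p.2 = x} with hr
  have hrn : ∀ x, (r x : ℝ) ≤ n := fun x => by
    rw [hn]
    exact_mod_cast rep_le A x
  have hen : (A.addEnergy A : ℝ) = ∑ x ∈ A + A, (r x : ℝ) ^ 2 := by
    rw [addEnergy_eq_sum_sq']
    push_cast
    rfl
  have hsum : ∑ x ∈ A + A, (r x : ℝ) = n ^ 2 := by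
    have h1 : ∑ x ∈ A + A, r x = #(A ×ˢ A) := by
      rw [hr]
      rw [← card_eq_sum_card_fiberwise]
      intro p hp
      have hp' := mem_product.mp (mem_coe.mp hp)
      exact mem_coe.mpr (add_mem_add hp'.1 hp'.2)
    rw [card_product] at h1
    have h2 : ((∑ x ∈ A + A, r x : ℕ) : ℝ) = ((#A * #A : ℕ) : ℝ) := by rw [h1]
    push_cast at h2
    rw [h2, hn]
    ring
  -- popular sums
  set Pop : Finset G := {x ∈ A + A | n / (2 * K) ≤ r x} with hPop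
  have hsplit : ∑ x ∈ A + A, (r x : ℝ) ^ 2 ≤ n * ∑ x ∈ Pop, (r x : ℝ) + n / (2 * K) * n ^ 2 := by
    have h1 : ∑ x ∈ A + A, (r x : ℝ) ^ 2 = ∑ x ∈ Pop, (r x : ℝ) ^ 2 +
        ∑ x ∈ (A + A) with ¬ n / (2 * K) ≤ r x, (r x : ℝ) ^ 2 := by
      rw [hPop, sum_filter_add_sum_filter_not]
    rw [h1]
    refine add_le_add ?_ ?_
    · rw [mul_sum]
      refine sum_le_sum fun x _ => ?_
      rw [sq]
      exact mul_le_mul_of_nonneg_right (hrn x) (Nat.cast_nonneg _)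
    · calc ∑ x ∈ (A + A) with ¬ n / (2 * K) ≤ r x, (r x : ℝ) ^ 2
          ≤ ∑ x ∈ (A + A) with ¬ n / (2 * K) ≤ r x, n / (2 * K) * (r x : ℝ) := by
            refine sum_le_sum fun x hx => ?_
            rw [sq]
            exact mul_le_mul_of_nonneg_right (not_le.mp (mem_filter.mp hx).2).le
              (Nat.cast_nonneg _)
        _ ≤ ∑ x ∈ A + A, n / (2 * K) * (r x : ℝ) :=
            sum_le_sum_of_subset_of_nonneg (filter_subset _ _) fun x _ _ => by positivity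
        _ = n / (2 * K) * n ^ 2 := by rw [← mul_sum, hsum]
  have hpopsum : n ^ 2 ≤ 2 * K * ∑ x ∈ Pop, (r x : ℝ) := by
    rw [hen] at hE
    have h1 : n ^ 3 ≤ K * (n * ∑ x ∈ Pop, (r x : ℝ) + n / (2 * K) * n ^ 2) :=
      hE.trans (mul_le_mul_of_nonneg_left hsplit hK0.le)
    have h2 : K * (n * ∑ x ∈ Pop, (r x : ℝ) + n / (2 * K) * n ^ 2) =
        n * (K * ∑ x ∈ Pop, (r x : ℝ)) + n ^ 3 / 2 := by
      field_simp
    rw [h2] at h1
    have h3 : n * n ^ 2 ≤ n * (2 * K * ∑ x ∈ Pop, (r x : ℝ)) := by nlinarith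
    exact le_of_mul_le_mul_left h3 hn0
  have hpopcard : (#Pop : ℝ) ≤ 2 * K * n := by
    have h1 : (#Pop : ℝ) * (n / (2 * K)) ≤ ∑ x ∈ Pop, (r x : ℝ) := by
      rw [← nsmul_eq_mul]
      exact card_nsmul_le_sum _ _ _ fun x hx => (mem_filter.mp hx).2
    have h2 : ∑ x ∈ Pop, (r x : ℝ) ≤ n ^ 2 := by
      rw [← hsum]
      exact sum_le_sum_of_subset_of_nonneg (filter_subset _ _) fun x _ _ => Nat.cast_nonneg _
    have h3 : (#Pop : ℝ) * (n / (2 * K)) ≤ n ^ 2 := h1.trans h2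
    have h4 : (#Pop : ℝ) * (n / (2 * K)) = n * ((#Pop : ℝ) / (2 * K)) := by ring
    have h5 : n * ((#Pop : ℝ) / (2 * K)) ≤ n * n := by
      rw [← h4, ← sq]
      exact h3
    have h6 := le_of_mul_le_mul_left h5 hn0
    rw [div_le_iff₀ (by positivity)] at h6
    linarith
  have hpairs : ((#{p ∈ A ×ˢ A | p.1 + p.2 ∈ Pop} : ℕ) : ℝ) = ∑ x ∈ Pop, (r x : ℝ) := by
    rw [← sum_card_fiberwise_eq_card_filter]
    push_cast
    rfl
  obtain ⟨A', hA', B', hB', h1, h2, h3⟩ := exists_paths A A (fun a b => a + b ∈ Pop) (n := n)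
    (K := 2 * K) hn0 le_rfl le_rfl (by linarith) (by rw [hpairs]; exact hpopsum)
  have hA'0 : 0 < (#A' : ℝ) := by
    by_contra h
    have h4 : (#A' : ℝ) = 0 := le_antisymm (not_lt.mp h) (Nat.cast_nonneg _)
    rw [h4] at h1
    linarith
  have hB'0 : 0 < (#B' : ℝ) := by
    by_contra h
    have h4 : (#B' : ℝ) = 0 := le_antisymm (not_lt.mp h) (Nat.cast_nonneg _)
    rw [h4] at h2
    linarith
  -- many representations
  let P3 : Finset (G × G × G) := Pop ×ˢ Pop ×ˢ Pop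
  have hrep : ∀ v ∈ A' + B', n ^ 2 ≤ 2 ^ 17 * K ^ 5 *
      ((#{t ∈ P3 | t.1 - t.2.1 + t.2.2 = v} : ℕ) : ℝ) := by
    intro v hv
    obtain ⟨a, ha, b, hb, rfl⟩ := mem_add.mp hv
    have h4 := h3 a ha b hb
    have h5 : #{x ∈ A ×ˢ A | a + x.1 ∈ Pop ∧ x.2 + x.1 ∈ Pop ∧ x.2 + b ∈ Pop} ≤
        #{t ∈ P3 | t.1 - t.2.1 + t.2.2 = a + b} := by
      refine card_le_card_of_injOn (fun x => (a + x.1, x.2 + x.1, x.2 + b)) (fun x hx => ?_) ?_
      · have hx' := (mem_filter.mp (mem_coe.mp hx)).2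
        refine mem_coe.mpr (mem_filter.mpr ⟨mem_product.mpr ⟨hx'.1, mem_product.mpr
          ⟨hx'.2.1, hx'.2.2⟩⟩, ?_⟩)
        show a + x.1 - (x.2 + x.1) + (x.2 + b) = a + b
        abel
      · intro x _ y _ hxy
        have h6 := congrArg Prod.fst hxy
        have h7 := congrArg (fun t : G × G × G => t.2.2) hxy
        exact Prod.ext (add_left_cancel h6) (add_right_cancel h7)
    have h6 : ((#{x ∈ A ×ˢ A | a + x.1 ∈ Pop ∧ x.2 + x.1 ∈ Pop ∧ x.2 + b ∈ Pop} : ℕ) : ℝ) ≤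
        ((#{t ∈ P3 | t.1 - t.2.1 + t.2.2 = a + b} : ℕ) : ℝ) := by exact_mod_cast h5
    calc n ^ 2 ≤ 2 ^ 12 * (2 * K) ^ 5 *
          ((#{x ∈ A ×ˢ A | a + x.1 ∈ Pop ∧ x.2 + x.1 ∈ Pop ∧ x.2 + b ∈ Pop} : ℕ) : ℝ) := h4
      _ ≤ 2 ^ 12 * (2 * K) ^ 5 * ((#{t ∈ P3 | t.1 - t.2.1 + t.2.2 = a + b} : ℕ) : ℝ) :=
          mul_le_mul_of_nonneg_left h6 (by positivity)
      _ = 2 ^ 17 * K ^ 5 * ((#{t ∈ P3 | t.1 - t.2.1 + t.2.2 = a + b} : ℕ) : ℝ) := by ring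
  have hsumset : (#(A' + B') : ℝ) ≤ 2 ^ 20 * K ^ 8 * n := by
    have h4 : (#(A' + B') : ℝ) * n ^ 2 ≤ ∑ v ∈ A' + B', 2 ^ 17 * K ^ 5 *
        ((#{t ∈ P3 | t.1 - t.2.1 + t.2.2 = v} : ℕ) : ℝ) := by
      rw [← nsmul_eq_mul]
      exact card_nsmul_le_sum _ _ _ hrep
    have h5 : ∑ v ∈ A' + B', #{t ∈ P3 | t.1 - t.2.1 + t.2.2 = v} ≤ #P3 := by
      rw [sum_card_fiberwise_eq_card_filter]
      exact card_filter_le _ _
    have h6 : #P3 = #Pop * (#Pop * #Pop) := by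
      simp only [P3, card_product]
    have h7 : (∑ v ∈ A' + B', ((#{t ∈ P3 | t.1 - t.2.1 + t.2.2 = v} : ℕ) : ℝ)) ≤
        (#Pop : ℝ) * ((#Pop : ℝ) * (#Pop : ℝ)) := by
      rw [h6] at h5
      exact_mod_cast h5
    have h8 : (#Pop : ℝ) * ((#Pop : ℝ) * (#Pop : ℝ)) ≤ (2 * K * n) * ((2 * K * n) * (2 * K * n)) := by
      have h9 : (0 : ℝ) ≤ (#Pop : ℝ) := Nat.cast_nonneg _
      exact mul_le_mul hpopcard (mul_le_mul hpopcard hpopcard h9 (by positivity))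
        (by positivity) (by positivity)
    rw [← mul_sum] at h4
    have h10 : (#(A' + B') : ℝ) * n ^ 2 ≤ 2 ^ 17 * K ^ 5 *
        ((2 * K * n) * ((2 * K * n) * (2 * K * n))) :=
      h4.trans (mul_le_mul_of_nonneg_left (h7.trans h8) (by positivity))
    have h11 : 2 ^ 17 * K ^ 5 * ((2 * K * n) * ((2 * K * n) * (2 * K * n))) =
        (2 ^ 20 * K ^ 8 * n) * n ^ 2 := by ring
    rw [h11] at h10
    exact le_of_mul_le_mul_right h10 (by positivity)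
  have hruzsa : (#(A' - A') : ℝ) * (#B' : ℝ) ≤ (#(A' + B') : ℝ) * (#(A' + B') : ℝ) := by
    have h4 := ruzsa_triangle_inequality_sub_add_add A' B' A'
    exact_mod_cast h4
  have hfin : (#(A' - A') : ℝ) ≤ 2 ^ 43 * K ^ 17 * n := by
    have h4 : (#(A' + B') : ℝ) * (#(A' + B') : ℝ) ≤
        (2 ^ 20 * K ^ 8 * n) * (2 ^ 20 * K ^ 8 * n) :=
      mul_le_mul hsumset hsumset (Nat.cast_nonneg _) (by positivity)
    have h5 : (#(A' - A') : ℝ) * n ≤ (#(A' - A') : ℝ) * (4 * (2 * K) * (#B' : ℝ)) :=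
      mul_le_mul_of_nonneg_left h2 (Nat.cast_nonneg _)
    have h6 : (#(A' - A') : ℝ) * (4 * (2 * K) * (#B' : ℝ)) =
        8 * K * ((#(A' - A') : ℝ) * (#B' : ℝ)) := by ring
    have h7 : 8 * K * ((#(A' - A') : ℝ) * (#B' : ℝ)) ≤
        8 * K * ((2 ^ 20 * K ^ 8 * n) * (2 ^ 20 * K ^ 8 * n)) :=
      mul_le_mul_of_nonneg_left (hruzsa.trans h4) (by positivity)
    have h8 : 8 * K * ((2 ^ 20 * K ^ 8 * n) * (2 ^ 20 * K ^ 8 * n)) =
        (2 ^ 43 * K ^ 17 * n) * n := by ring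
    have h9 : (#(A' - A') : ℝ) * n ≤ (2 ^ 43 * K ^ 17 * n) * n := by
      rw [← h8]
      exact h5.trans (h6.le.trans h7)
    exact le_of_mul_le_mul_right h9 hn0
  refine ⟨A', hA', ?_, ?_, ?_⟩
  · exact card_pos.mp (by exact_mod_cast hA'0)
  · calc n ≤ 6 * (2 * K) * (#A' : ℝ) := h1
      _ = 12 * K * (#A' : ℝ) := by ring
  · calc (#(A' - A') : ℝ) ≤ 2 ^ 43 * K ^ 17 * n := hfin
      _ ≤ 2 ^ 43 * K ^ 17 * (6 * (2 * K) * (#A' : ℝ)) :=
          mul_le_mul_of_nonneg_left h1 (by positivity)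
      _ = 12 * (2 ^ 43 * K ^ 18 * (#A' : ℝ)) := by ring
      _ ≤ 16 * (2 ^ 43 * K ^ 18 * (#A' : ℝ)) :=
          mul_le_mul_of_nonneg_right (by norm_num) (by positivity)
      _ = 2 ^ 47 * K ^ 18 * (#A' : ℝ) := by ring

end Pool.Agent.SPO
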