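import Pool.Agent.ExpSum.Sieve

/-!
# Package P02: the Selberg sum with a coprimality condition

`Pool.Agent.ExpSum.log_le_selS`: `log(z+1) ≤ ∑_{l ≤ z squarefree} 1/φ(l)`. Every squarefree `l ≤
z` is
uniquely `e m` with `e = gcd(l, D)` a squarefree divisor of `D` and `m` squarefree, coprime to `D`,
`m ≤ z`, and `φ(l) = φ(e) φ(m)`. So `log(z+1) ≤ (∑_{e ∣ D, e squarefree} 1/φ(e)) S_D`, `S_D` the
sum on the
right of the theorem, and `∑_{e ∣ D, e squarefree} 1/φ(e) = ∏_{p ∣ D} (1 + 1/(p-1)) = D/φ(D)`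
(`Nat.totient_eq_mul_prod_factors`).
-/

set_option autoImplicit false

namespace Pool.Agent.SPO

open Finset

private theorem rad_sqf {D : ℕ} : Squarefree (∏ p ∈ D.primeFactors, p) := by
  refine Finset.squarefree_prod_of_pairwise_isCoprime (fun a ha b hb hab => ?_) fun a ha => ?_
  · exact Nat.coprime_iff_isRelPrime.1 ((Nat.coprime_primes (Nat.prime_of_mem_primeFactors ha)
      (Nat.prime_of_mem_primeFactors hb)).2 hab)
  · exact (Nat.prime_of_mem_primeFactors ha).prime.squarefree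

private theorem tot_rad {D : ℕ} (hD : 1 ≤ D) :
    (D : ℝ) / Nat.totient D = ∑ k ∈ (∏ p ∈ D.primeFactors, p).divisors,
      1 / (Nat.totient k : ℝ) := by
  rw [← Pool.Agent.ExpSum.div_totient rad_sqf]
  have h1 := Pool.Agent.ExpSum.inv_totient D
  have h2 := Pool.Agent.ExpSum.inv_totient (∏ p ∈ D.primeFactors, p)
  rw [Nat.primeFactors_prod_primeFactors] at h2
  have hD0 : (D : ℝ) ≠ 0 := by
    have : D ≠ 0 := by omega
    exact_mod_cast this
  have hR0 : ((∏ p ∈ D.primeFactors, p : ℕ) : ℝ) ≠ 0 := by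
    exact_mod_cast (rad_sqf (D := D)).ne_zero
  rw [div_eq_mul_one_div, h1, div_eq_mul_one_div ((∏ p ∈ D.primeFactors, p : ℕ) : ℝ), h2,
    ← mul_assoc, ← mul_assoc, mul_one_div_cancel hD0, mul_one_div_cancel hR0]

theorem phi_sum_coprime {D z : ℕ} (hD : 1 ≤ D) :
    (Nat.totient D : ℝ) / D * Real.log ((z : ℝ) + 1) ≤
      ∑ l ∈ (Icc 1 z).filter (fun l => Squarefree l ∧ Nat.Coprime l D),
        1 / (Nat.totient l : ℝ) := by
  have hD0 : (0 : ℝ) < D := by exact_mod_cast hD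
  have hphi : (0 : ℝ) < Nat.totient D := by exact_mod_cast Nat.totient_pos.2 hD
  have h1 : Real.log ((z : ℝ) + 1) ≤ (D : ℝ) / Nat.totient D *
      ∑ l ∈ (Icc 1 z).filter (fun l => Squarefree l ∧ Nat.Coprime l D),
        1 / (Nat.totient l : ℝ) := by
    refine (Pool.Agent.ExpSum.log_le_selS z).trans ?_
    rw [tot_rad hD, Finset.sum_mul_sum, ← Finset.sum_product', Pool.Agent.ExpSum.selS]
    set R := ∏ p ∈ D.primeFactors, p with hR
    have hR0 : R ≠ 0 := (rad_sqf (D := D)).ne_zero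
    have hkey : ∀ l ∈ Pool.Agent.ExpSum.sqf z, l.gcd R * (l / l.gcd R) = l ∧
        Nat.Coprime (l.gcd R) (l / l.gcd R) ∧ Nat.Coprime (l / l.gcd R) D := by
      intro l hl
      have hl' := Pool.Agent.ExpSum.mem_sqf.1 hl
      have h2 : l.gcd R * (l / l.gcd R) = l := Nat.mul_div_cancel' (Nat.gcd_dvd_left l R)
      have h3 : Nat.Coprime (l.gcd R) (l / l.gcd R) := by
        have h4 := hl'.2
        rw [← h2] at h4
        exact Nat.coprime_of_squarefree_mul h4
      refine ⟨h2, h3, Nat.coprime_of_dvd fun p hp hp1 hp2 => ?_⟩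
      have h5 : p ∣ R := by
        rw [hR]
        exact Finset.dvd_prod_of_mem _ (Nat.mem_primeFactors.2 ⟨hp, hp2, by omega⟩)
      have h6 : p ∣ l.gcd R := Nat.dvd_gcd (hp1.trans (Nat.div_dvd_of_dvd
        (Nat.gcd_dvd_left l R))) h5
      exact hp.one_lt.ne' (Nat.eq_one_of_dvd_coprimes h3 h6 hp1)
    have hinj : Set.InjOn (fun l : ℕ => (l.gcd R, l / l.gcd R))
        (Pool.Agent.ExpSum.sqf z : Set ℕ) := by
      intro a ha b hb hab
      rw [Prod.mk.injEq] at hab
      calc a = a.gcd R * (a / a.gcd R) := (hkey a ha).1.symm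
        _ = b.gcd R * (b / b.gcd R) := congrArg₂ (· * ·) hab.1 hab.2
        _ = b := (hkey b hb).1
    have hsum : ∑ l ∈ Pool.Agent.ExpSum.sqf z, 1 / (Nat.totient l : ℝ) =
        ∑ x ∈ (Pool.Agent.ExpSum.sqf z).image (fun l : ℕ => (l.gcd R, l / l.gcd R)),
          1 / (Nat.totient x.1 : ℝ) * (1 / (Nat.totient x.2 : ℝ)) := by
      rw [Finset.sum_image hinj]
      refine Finset.sum_congr rfl fun l hl => ?_
      obtain ⟨h2, h3, -⟩ := hkey l hl
      have h4 : Nat.totient l = Nat.totient (l.gcd R) * Nat.totient (l / l.gcd R) := by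
        rw [← Nat.totient_mul h3, h2]
      rw [h4]
      push_cast
      rw [one_div_mul_one_div]
    rw [hsum]
    refine Finset.sum_le_sum_of_subset_of_nonneg ?_ fun x _ _ => by positivity
    intro x hx
    obtain ⟨l, hl, rfl⟩ := Finset.mem_image.1 hx
    obtain ⟨h2, h3, h4⟩ := hkey l hl
    have hl' := Pool.Agent.ExpSum.mem_sqf.1 hl
    have h5 : l / l.gcd R ∣ l := Nat.div_dvd_of_dvd (Nat.gcd_dvd_left l R)
    have h6 : 0 < l / l.gcd R := Nat.pos_of_ne_zero (ne_zero_of_dvd_ne_zero (by omega) h5)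
    rw [Finset.mem_product, Nat.mem_divisors, Finset.mem_filter, Finset.mem_Icc]
    refine ⟨⟨Nat.gcd_dvd_right l R, hR0⟩, ⟨h6, ?_⟩, hl'.2.squarefree_of_dvd h5, h4⟩
    exact (Nat.le_of_dvd (by omega) h5).trans hl'.1.2
  calc (Nat.totient D : ℝ) / D * Real.log ((z : ℝ) + 1)
      ≤ (Nat.totient D : ℝ) / D * ((D : ℝ) / Nat.totient D *
      ∑ l ∈ (Icc 1 z).filter (fun l => Squarefree l ∧ Nat.Coprime l D),
        1 / (Nat.totient l : ℝ)) := mul_le_mul_of_nonneg_left h1 (by positivity)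
    _ = _ := by
      rw [← mul_assoc, div_mul_div_cancel₀ hD0.ne', div_self hphi.ne', one_mul]

end Pool.Agent.SPO
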