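import Pool.Agent.SPO.SelG
import Pool.Agent.SPO.PhiSum

/-!
# Package P03: the Brun-Titchmarsh inequality in `(x, 2x]`

`C = 12`. If `gcd(r, D) > 1` then the set is empty: a prime divisor `p` of `gcd(r, D)` divides
`q`, so
`q = p ≤ D`, but `D < x < q` (`D² ≤ x`, `D ≥ 2`). Let `gcd(r, D) = 1`. Put `z = √√(x/D)`
(`Nat.sqrt` twice,
natural division), `S = {l ∈ [1, z] : squarefree, coprime to D}`, `I = {q ∈ (x, 2x] : q ≡ r mod
D}`,
`n = id`, `X = x/D` (real). For `l` coprime to `D` the conditions `q ≡ r mod D`, `l ∣ q` are one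
residue
class modulo `D l`, so their number in `(x, 2x]` differs from `x/(D l)` by at most `1` (`lcm(d,
e)` is
coprime to `D` for `d, e ∈ S`). `selberg_set` and `phi_sum_coprime`: the primes of `I` are `> x ≥
z` so
they have no divisor `d ∈ S`, `d ≠ 1`;
`# ≤ (x/D)/((φ(D)/D) log(z+1)) + z² = x/(φ(D) log(z+1)) + z²`.
`(z+1)⁴ > x/D ≥ √x`, so `log(z+1) ≥ (log x)/8`; and `z² ≤ √(x/D)`, `log x ≤ 4 x^(1/4) ≤ 4 √(x/D)`
(`x/D ≥ √x`) gives `z² ≤ 4 (x/D)/log x ≤ 4x/(φ(D) log x)`.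
-/

set_option autoImplicit false

namespace Pool.Agent.SPO

open Finset

private theorem bt_count {x M : ℕ} (hM : 0 < M) (v : ℕ) :
    |(#{q ∈ Ioc x (2 * x) | q ≡ v [MOD M]} : ℝ) - (x : ℝ) / M| ≤ 1 := by
  have h := Nat.Ioc_filter_modEq_card x (2 * x) hM v
  have hMq : (0 : ℚ) < M := by exact_mod_cast hM
  have hd : ((2 * x : ℕ) - v : ℚ) / M - ((x : ℕ) - v : ℚ) / M = (x : ℚ) / M := by
    push_cast
    field_simp
    ring
  have hx0 : (0 : ℚ) ≤ (x : ℚ) / M := by positivity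
  have hle : ⌊((x : ℕ) - v : ℚ) / M⌋ ≤ ⌊((2 * x : ℕ) - v : ℚ) / M⌋ :=
    Int.floor_le_floor (by linarith)
  rw [max_eq_left (by linarith)] at h
  have h1 := Int.floor_le (((2 * x : ℕ) - v : ℚ) / M)
  have h2 := Int.lt_floor_add_one (((2 * x : ℕ) - v : ℚ) / M)
  have h3 := Int.floor_le (((x : ℕ) - v : ℚ) / M)
  have h4 := Int.lt_floor_add_one (((x : ℕ) - v : ℚ) / M)
  have h5 : ((#{q ∈ Ioc x (2 * x) | q ≡ v [MOD M]} : ℤ) : ℚ) =
      (⌊((2 * x : ℕ) - v : ℚ) / M⌋ : ℚ) - (⌊((x : ℕ) - v : ℚ) / M⌋ : ℚ) := by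
    rw [h]
    push_cast
    ring
  rw [Int.cast_natCast] at h5
  have h6 : |(#{q ∈ Ioc x (2 * x) | q ≡ v [MOD M]} : ℚ) - (x : ℚ) / M| ≤ 1 := by
    rw [h5, abs_le]
    constructor <;> linarith
  have h7 : ((|(#{q ∈ Ioc x (2 * x) | q ≡ v [MOD M]} : ℚ) - (x : ℚ) / M| : ℚ) : ℝ) ≤
      ((1 : ℚ) : ℝ) := Rat.cast_le.2 h6
  push_cast at h7
  exact h7

private theorem bt_I {D x r m : ℕ} (hD : 0 < D) (hm : 0 < m) (hc : Nat.Coprime D m) :
    |(#{i ∈ {q ∈ Ioc x (2 * x) | q % D = r % D} | m ∣ i} : ℝ) - (x : ℝ) / D / m| ≤ 1 := by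
  obtain ⟨v, hv1, hv2⟩ := Nat.chineseRemainder hc r 0
  have h1 : {i ∈ {q ∈ Ioc x (2 * x) | q % D = r % D} | m ∣ i} =
      {q ∈ Ioc x (2 * x) | q ≡ v [MOD (D * m)]} := by
    ext q
    simp only [mem_filter]
    rw [← Nat.modEq_and_modEq_iff_modEq_mul hc]
    constructor
    · rintro ⟨⟨ha, hb⟩, hq⟩
      have hb' : q ≡ r [MOD D] := hb
      have hq' : q ≡ 0 [MOD m] := (Nat.modEq_zero_iff_dvd).2 hq
      exact ⟨ha, hb'.trans hv1.symm, hq'.trans hv2.symm⟩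
    · rintro ⟨ha, hb, hq⟩
      have hb' : q ≡ r [MOD D] := hb.trans hv1
      have hq' : q ≡ 0 [MOD m] := hq.trans hv2
      exact ⟨⟨ha, hb'⟩, (Nat.modEq_zero_iff_dvd).1 hq'⟩
  rw [h1]
  have h2 := bt_count (x := x) (M := D * m) (Nat.mul_pos hD hm) v
  rw [div_div]
  push_cast at h2
  exact h2

private theorem bt_sieve {D x r : ℕ} (hD : 1 ≤ D) (hx : 2 ≤ x) (z : ℕ) (hz : 1 ≤ z)
    (hzx : z ≤ x) :
    (#{q ∈ Ioc x (2 * x) | q.Prime ∧ q % D = r % D} : ℝ) ≤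
      x / (Nat.totient D * Real.log ((z : ℝ) + 1)) + (z : ℝ) ^ 2 := by
  set S : Finset ℕ := (Icc 1 z).filter (fun l => Squarefree l ∧ Nat.Coprime l D) with hS
  have h1 : 1 ∈ S := by
    rw [hS, mem_filter, mem_Icc]
    exact ⟨⟨le_rfl, hz⟩, squarefree_one, Nat.coprime_one_left D⟩
  have hsq : ∀ l ∈ S, Squarefree l := fun l hl => (mem_filter.1 hl).2.1
  have hcop : ∀ l ∈ S, Nat.Coprime l D := fun l hl => (mem_filter.1 hl).2.2
  have hpos : ∀ l ∈ S, 0 < l := fun l hl => (mem_Icc.1 (mem_filter.1 hl).1).1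
  have hlz : ∀ l ∈ S, l ≤ z := fun l hl => (mem_Icc.1 (mem_filter.1 hl).1).2
  have hdiv : ∀ l ∈ S, ∀ d, d ∣ l → d ∈ S := by
    intro l hl d hd
    have h2 : 0 < d := Nat.pos_of_dvd_of_pos hd (hpos l hl)
    rw [hS, mem_filter, mem_Icc]
    exact ⟨⟨h2, (Nat.le_of_dvd (hpos l hl) hd).trans (hlz l hl)⟩,
      (hsq l hl).squarefree_of_dvd hd, Nat.Coprime.coprime_dvd_left hd (hcop l hl)⟩
  have hX : (0 : ℝ) ≤ (x : ℝ) / D := by positivity
  have hR : ∀ d ∈ S, ∀ e ∈ S,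
      |(#{i ∈ {q ∈ Ioc x (2 * x) | q % D = r % D} | Nat.lcm d e ∣ id i} : ℝ) -
        (x : ℝ) / D / (Nat.lcm d e : ℝ)| ≤ 1 := by
    intro d hd e he
    have h2 : Nat.Coprime (d * e) D := Nat.Coprime.mul_left (hcop d hd) (hcop e he)
    have h3 : Nat.Coprime (Nat.lcm d e) D := Nat.Coprime.coprime_dvd_left (Nat.lcm_dvd_mul d e) h2
    exact bt_I hD (Nat.lcm_pos (hpos d hd) (hpos e he)) h3.symm
  have h2 := selberg_set h1 hsq hdiv {q ∈ Ioc x (2 * x) | q % D = r % D} id hX hR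
  have h3 := phi_sum_coprime (z := z) hD
  rw [← hS] at h3
  have hsub : {q ∈ Ioc x (2 * x) | q.Prime ∧ q % D = r % D} ⊆
      {i ∈ {q ∈ Ioc x (2 * x) | q % D = r % D} | ∀ d ∈ S, d ∣ id i → d = 1} := by
    intro q hq
    rw [mem_filter] at hq
    rw [mem_filter, mem_filter]
    refine ⟨⟨hq.1, hq.2.2⟩, fun d hd hdq => ?_⟩
    rcases (Nat.dvd_prime hq.2.1).1 hdq with h | h
    · exact h
    · have h4 := hlz d hd
      have h5 := (mem_Ioc.1 hq.1).1
      omega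
  have h4 : (#{q ∈ Ioc x (2 * x) | q.Prime ∧ q % D = r % D} : ℝ) ≤
      (#{i ∈ {q ∈ Ioc x (2 * x) | q % D = r % D} | ∀ d ∈ S, d ∣ id i → d = 1} : ℝ) := by
    exact_mod_cast Finset.card_le_card hsub
  have hDr : (0 : ℝ) < D := by exact_mod_cast hD
  have hphi : (0 : ℝ) < Nat.totient D := by exact_mod_cast Nat.totient_pos.2 hD
  have hzr : (1 : ℝ) ≤ z := by exact_mod_cast hz
  have hlog : 0 < Real.log ((z : ℝ) + 1) := Real.log_pos (by linarith)
  have h5 : (x : ℝ) / D / (∑ l ∈ S, 1 / (Nat.totient l : ℝ)) ≤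
      x / (Nat.totient D * Real.log ((z : ℝ) + 1)) := by
    have h6 : 0 < (Nat.totient D : ℝ) / D * Real.log ((z : ℝ) + 1) := by positivity
    have h7 : (x : ℝ) / D / (∑ l ∈ S, 1 / (Nat.totient l : ℝ)) ≤
        (x : ℝ) / D / ((Nat.totient D : ℝ) / D * Real.log ((z : ℝ) + 1)) :=
      div_le_div_of_nonneg_left hX h6 h3
    refine h7.trans (le_of_eq ?_)
    field_simp
  have h6 : (#S : ℝ) ^ 2 ≤ (z : ℝ) ^ 2 := by
    have h7 : #S ≤ z := by
      refine (Finset.card_filter_le _ _).trans ?_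
      rw [Nat.card_Icc]
      omega
    have h8 : (#S : ℝ) ≤ z := by exact_mod_cast h7
    exact pow_le_pow_left₀ (by positivity) h8 2
  linarith

private theorem bt_empty {D x r : ℕ} (hD : 1 ≤ D) (hDx : D ^ 2 ≤ x)
    (hr : ¬ Nat.Coprime r D) : {q ∈ Ioc x (2 * x) | q.Prime ∧ q % D = r % D} = ∅ := by
  rw [Finset.filter_eq_empty_iff]
  rintro q hq ⟨hp, hqr⟩
  obtain ⟨p, hp1, hp2, hp3⟩ := Nat.Prime.not_coprime_iff_dvd.1 hr
  have h1 : q ≡ r [MOD D] := hqr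
  have h2 : q ≡ r [MOD p] := h1.of_dvd hp3
  have h3 : p ∣ q := (Nat.modEq_zero_iff_dvd).1 (h2.trans ((Nat.modEq_zero_iff_dvd).2 hp2))
  have h4 : p = q := (Nat.prime_dvd_prime_iff_eq hp1 hp).1 h3
  have h5 : p ≤ D := Nat.le_of_dvd hD hp3
  have h6 := (mem_Ioc.1 hq).1
  nlinarith

theorem bt_dyadic : ∃ C : ℝ, 0 < C ∧ ∀ D x r : ℕ, 1 ≤ D → 2 ≤ x → D ^ 2 ≤ x →
    (#{q ∈ Ioc x (2 * x) | q.Prime ∧ q % D = r % D} : ℝ) ≤
      C * x / (Nat.totient D * Real.log x) := by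
  refine ⟨12, by norm_num, fun D x r hD hx hDx => ?_⟩
  have hDr : (1 : ℝ) ≤ D := by exact_mod_cast hD
  have hxr : (2 : ℝ) ≤ x := by exact_mod_cast hx
  have hphi : (0 : ℝ) < Nat.totient D := by exact_mod_cast Nat.totient_pos.2 hD
  have hphi' : (Nat.totient D : ℝ) ≤ D := by exact_mod_cast Nat.totient_le D
  have hL : 0 < Real.log x := Real.log_pos (by linarith)
  by_cases hr : Nat.Coprime r D
  swap
  · rw [bt_empty hD hDx hr]
    simp only [card_empty, Nat.cast_zero]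
    positivity
  set y : ℕ := x / D with hy
  set w : ℕ := Nat.sqrt y with hw
  set z : ℕ := Nat.sqrt w with hz
  have hy1 : 1 ≤ y := by
    rw [hy, Nat.le_div_iff_mul_le (by omega)]
    nlinarith
  have hyx : y ≤ x := Nat.div_le_self x D
  have hw1 : 1 ≤ w := by
    rw [hw, Nat.le_sqrt]
    omega
  have hz1 : 1 ≤ z := by
    rw [hz, Nat.le_sqrt]
    omega
  have hzw : z * z ≤ w := Nat.sqrt_le w
  have hwy : w * w ≤ y := Nat.sqrt_le y
  have hzx : z ≤ x := by nlinarith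
  have hzw' : w < (z + 1) * (z + 1) := Nat.lt_succ_sqrt w
  have hwy' : y < (w + 1) * (w + 1) := Nat.lt_succ_sqrt y
  have h0 := bt_sieve (r := r) hD hx z hz1 hzx
  set t : ℝ := Real.sqrt ((x : ℝ) / D) with ht
  have hX0 : (0 : ℝ) < (x : ℝ) / D := by positivity
  have ht2 : t ^ 2 = (x : ℝ) / D := Real.sq_sqrt hX0.le
  have ht0 : 0 < t := Real.sqrt_pos.2 hX0
  have hyX : (y : ℝ) ≤ (x : ℝ) / D := Nat.cast_div_le
  have hyX' : (x : ℝ) / D < (y : ℝ) + 1 := by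
    rw [div_lt_iff₀ (by linarith)]
    have h1 : x < (y + 1) * D := by
      have h2 := Nat.lt_mul_div_succ x (show 0 < D by omega)
      rw [mul_comm]
      exact h2
    exact_mod_cast h1
  have hz2 : (z : ℝ) ^ 2 ≤ t := by
    have h1 : ((z : ℝ) ^ 2) ^ 2 ≤ t ^ 2 := by
      rw [ht2]
      refine le_trans ?_ hyX
      have h2 : z * z * (z * z) ≤ y := by nlinarith
      have h3 : ((z * z * (z * z) : ℕ) : ℝ) ≤ y := by exact_mod_cast h2
      push_cast at h3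
      nlinarith
    exact (pow_le_pow_iff_left₀ (by positivity) ht0.le two_ne_zero).1 h1
  have hz4 : t ^ 2 ≤ ((z : ℝ) + 1) ^ 4 := by
    rw [ht2]
    refine hyX'.le.trans ?_
    have h1 : y + 1 ≤ (z + 1) ^ 4 := by
      have h2 : w + 1 ≤ (z + 1) * (z + 1) := hzw'
      have h3 : (w + 1) * (w + 1) ≤ ((z + 1) * (z + 1)) * ((z + 1) * (z + 1)) :=
        Nat.mul_le_mul h2 h2
      have h4 : (z + 1) ^ 4 = ((z + 1) * (z + 1)) * ((z + 1) * (z + 1)) := by ring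
      rw [h4]
      omega
    exact_mod_cast h1
  have ht4 : (x : ℝ) ≤ t ^ 4 := by
    have h1 : t ^ 4 = ((x : ℝ) / D) ^ 2 := by
      rw [← ht2]
      ring
    rw [h1, div_pow, le_div_iff₀ (by positivity)]
    have h2 : (D : ℝ) ^ 2 ≤ x := by exact_mod_cast hDx
    nlinarith
  have hlt : Real.log x ≤ 4 * Real.log t := by
    have h1 := Real.log_le_log (by linarith) ht4
    rw [Real.log_pow] at h1
    exact_mod_cast h1
  have hlt2 : 2 * Real.log t ≤ 4 * Real.log ((z : ℝ) + 1) := by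
    have h1 := Real.log_le_log (by positivity) hz4
    rw [Real.log_pow, Real.log_pow] at h1
    exact_mod_cast h1
  have hlt3 : Real.log t ≤ t := (Real.log_le_sub_one_of_pos ht0).trans (by linarith)
  have hl : Real.log x / 8 ≤ Real.log ((z : ℝ) + 1) := by linarith
  have h1 : (x : ℝ) / (Nat.totient D * Real.log ((z : ℝ) + 1)) ≤
      8 * x / (Nat.totient D * Real.log x) := by
    have h2 : (x : ℝ) / (Nat.totient D * Real.log ((z : ℝ) + 1)) ≤
        x / (Nat.totient D * (Real.log x / 8)) :=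
      div_le_div_of_nonneg_left (by positivity) (by positivity)
        (mul_le_mul_of_nonneg_left hl hphi.le)
    refine h2.trans (le_of_eq ?_)
    field_simp
  have h2 : (z : ℝ) ^ 2 ≤ 4 * x / (Nat.totient D * Real.log x) := by
    refine hz2.trans ?_
    rw [le_div_iff₀ (by positivity)]
    have h3 : t * Real.log x ≤ 4 * t ^ 2 := by nlinarith
    rw [ht2] at h3
    have h4 : (Nat.totient D : ℝ) * (4 * ((x : ℝ) / D)) ≤ 4 * x := by
      have h5 : (D : ℝ) * ((x : ℝ) / D) = x := by field_simp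
      nlinarith
    calc t * (Nat.totient D * Real.log x) = Nat.totient D * (t * Real.log x) := by ring
      _ ≤ Nat.totient D * (4 * ((x : ℝ) / D)) := mul_le_mul_of_nonneg_left h3 hphi.le
      _ ≤ 4 * x := h4
  have h3 : 8 * (x : ℝ) / (Nat.totient D * Real.log x) +
      4 * x / (Nat.totient D * Real.log x) = 12 * x / (Nat.totient D * Real.log x) := by
    rw [← add_div]
    congr 1
    ring
  linarith

end Pool.Agent.SPO
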