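import Mathlib

/-!
# Package C10: successive choices

Induction on `r`, with the equivalence `(Fin (r+1) → X) ≃ X × (Fin r → X)` (`Fin.snoc`,
`Fin.snocEquiv`, `Fin.init`): `x` satisfies the condition iff `Fin.init x` satisfies the condition
for `r` and
`x (Fin.last r) ∈ G r (Fin.init x)`; for each `Fin.init x` there are at least `w` choices.
-/

set_option autoImplicit false

namespace Pool.Agent.SPO

open Finset

private theorem bc_snoc {X : Type*} {r : ℕ} (x : Fin r → X) (a : X) (i : Fin r)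
    (h : (i : ℕ) < r + 1) : (Fin.snoc (α := fun _ => X) x a : Fin (r + 1) → X) ⟨i, h⟩ = x i :=
  Fin.snoc_castSucc (α := fun _ => X) a x i

private theorem bc_mem {X : Type*} {r : ℕ} (G : (t : ℕ) → (Fin t → X) → Finset X)
    (x : Fin r → X) (hx : ∀ t : Fin r, x t ∈ G t (fun i : Fin t => x ⟨i, i.2.trans t.2⟩))
    (a : X) (ha : a ∈ G r x) (t : Fin (r + 1)) :
    (Fin.snoc (α := fun _ => X) x a : Fin (r + 1) → X) t ∈
      G t (fun i : Fin t => (Fin.snoc (α := fun _ => X) x a : Fin (r + 1) → X)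
        ⟨i, i.2.trans t.2⟩) := by
  refine Fin.lastCases ?_ (fun t => ?_) t
  · rw [Fin.snoc_last]
    have e : (fun i : Fin r => (Fin.snoc (α := fun _ => X) x a : Fin (r + 1) → X)
        ⟨i, i.2.trans (Fin.last r).2⟩) = x := by
      funext i
      exact bc_snoc x a i _
    change a ∈ G r (fun i : Fin r => (Fin.snoc (α := fun _ => X) x a : Fin (r + 1) → X)
        ⟨i, i.2.trans (Fin.last r).2⟩)
    rw [e]
    exact ha
  · rw [Fin.snoc_castSucc]
    have e : (fun i : Fin t => (Fin.snoc (α := fun _ => X) x a : Fin (r + 1) → X)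
        ⟨i, i.2.trans (Fin.castSucc t).2⟩) = fun i : Fin t => x ⟨i, i.2.trans t.2⟩ := by
      funext i
      exact bc_snoc x a ⟨i, i.2.trans t.2⟩ _
    change x t ∈ G t (fun i : Fin t => (Fin.snoc (α := fun _ => X) x a : Fin (r + 1) → X)
        ⟨i, i.2.trans (Fin.castSucc t).2⟩)
    rw [e]
    exact hx t

theorem block_count {X : Type*} [Fintype X] [DecidableEq X] {w : ℝ} (hw : 0 ≤ w) (r : ℕ)
    (G : (t : ℕ) → (Fin t → X) → Finset X) (hG : ∀ t < r, ∀ x : Fin t → X, w ≤ #(G t x)) :
    w ^ r ≤ #{x : Fin r → X | ∀ t : Fin r, x t ∈ G t (fun i : Fin t => x ⟨i, i.2.trans t.2⟩)} := by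
  induction r with
  | zero =>
    have h : ({x : Fin 0 → X | ∀ t : Fin 0, x t ∈ G t (fun i : Fin t => x ⟨i, i.2.trans t.2⟩)} :
        Finset (Fin 0 → X)) = Finset.univ := by
      refine Finset.filter_true_of_mem fun x _ t => t.elim0
    rw [h, pow_zero, Finset.card_univ, Fintype.card_unique]
    simp
  | succ r ih =>
    have ih' := ih fun t ht => hG t (ht.trans (Nat.lt_succ_self r))
    set A : Finset (Fin r → X) :=
      {x : Fin r → X | ∀ t : Fin r, x t ∈ G t (fun i : Fin t => x ⟨i, i.2.trans t.2⟩)} with hA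
    have h1 : #(A.sigma fun x => G r x) ≤ #{x : Fin (r + 1) → X | ∀ t : Fin (r + 1),
        x t ∈ G t (fun i : Fin t => x ⟨i, i.2.trans t.2⟩)} := by
      refine Finset.card_le_card_of_injOn
        (fun y : (_ : Fin r → X) × X => (Fin.snoc (α := fun _ => X) y.1 y.2 : Fin (r + 1) → X))
        ?_ ?_
      · rintro ⟨x, a⟩ hxa
        rw [Finset.mem_coe, Finset.mem_sigma] at hxa
        obtain ⟨h2, h3⟩ := hxa
        rw [Finset.mem_coe, Finset.mem_filter]
        rw [hA, Finset.mem_filter] at h2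
        exact ⟨Finset.mem_univ _, bc_mem G x h2.2 a h3⟩
      · rintro ⟨x, a⟩ _ ⟨x', a'⟩ _ h
        have h2 : (Fin.snoc (α := fun _ => X) x a : Fin (r + 1) → X) =
          (Fin.snoc (α := fun _ => X) x' a' : Fin (r + 1) → X) := h
        have h3 : x = x' := by
          funext i
          have h4 := congrFun h2 (Fin.castSucc i)
          rwa [Fin.snoc_castSucc, Fin.snoc_castSucc] at h4
        have h5 : a = a' := by
          have h4 := congrFun h2 (Fin.last r)
          rwa [Fin.snoc_last, Fin.snoc_last] at h4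
        rw [h3, h5]
    have h2 : (#A : ℝ) * w ≤ #(A.sigma fun x => G r x) := by
      rw [Finset.card_sigma, Nat.cast_sum, ← nsmul_eq_mul]
      exact Finset.card_nsmul_le_sum A _ w fun x _ => hG r (Nat.lt_succ_self r) x
    have h3 : w ^ (r + 1) ≤ (#A : ℝ) * w := by
      rw [pow_succ]
      exact mul_le_mul_of_nonneg_right ih' hw
    exact h3.trans (h2.trans (by exact_mod_cast h1))

end Pool.Agent.SPO
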