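import Pool.Agent.SPO.ADefs

/-!
# Package A02: bounds for the coefficients `cP`

`cP_eq_zero`: if `q ∣ d` and `gcd(d, P) = 1` then `gcd(q, P) = 1`. `cP_even`: `chi d = 0` for even
`d`.
`abs_cP_le`: if `gcd(q, P) ≠ 1` it is `0`. Otherwise `d = q e` and `gcd(d, P) = 1` iff `gcd(e, P)
= 1`,
`cP P Y q = (chi q/q) ∑_{e ≤ Y/q, gcd(e,P)=1} chi e/e`, and (Moebius: `∑_{f ∣ gcd(e,P)} μ(f)`) the
sum is
`∑_{f ∣ P} μ(f) (chi f/f) A1((Y/q)/f)` with `0 ≤ A1 ≤ 1` (`A1_le_one`), in absolute value at most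
`∑_{f ∣ P} 1/f`. (See `cq_eq`, `abs_cq_le` in `Pool/Agent/TwoSqPow/Hyperbola.lean`.)
-/

set_option autoImplicit false

namespace Pool.Agent.SPO

open Finset Pool.Agent.TwoSqPow

theorem cP_eq_zero {P Y q : ℕ} (h : ¬ Nat.Coprime q P) : cP P Y q = 0 := by
  unfold cP
  refine sum_eq_zero fun d hd => ?_
  rw [mem_filter] at hd
  exact absurd (Nat.Coprime.coprime_dvd_left hd.2.2 hd.2.1) h

theorem cP_even {P Y q : ℕ} (h : q % 2 = 0) : cP P Y q = 0 := by
  unfold cP
  refine sum_eq_zero fun d hd => ?_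
  rw [mem_filter] at hd
  have h2 : d % 2 = 0 := by
    have : 2 ∣ d := (Nat.dvd_of_mod_eq_zero h).trans hd.2.2
    omega
  rw [chi_eq, if_pos h2, zero_div]

theorem cP_eq {P Y q : ℕ} (hq : 1 ≤ q) (hP : P ≠ 0) (h : Nat.Coprime q P) :
    cP P Y q = chi q / q * ∑ f ∈ P.divisors,
      (ArithmeticFunction.moebius f : ℝ) * (chi f / f) * A1 (Y / q / f) := by
  have h1 : cP P Y q = chi q / q * ∑ e ∈ (Icc 1 (Y / q)).filter (fun e => Nat.Coprime e P),
      chi e / e := by
    unfold cP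
    rw [mul_sum]
    symm
    apply sum_nbij' (fun m => q * m) (fun d => d / q)
    · intro m hm
      rw [mem_filter, mem_Icc] at hm
      rw [mem_filter, mem_Icc]
      refine ⟨⟨by nlinarith, ?_⟩, Nat.Coprime.mul_left h hm.2, dvd_mul_right _ _⟩
      calc q * m ≤ q * (Y / q) := Nat.mul_le_mul_left _ hm.1.2
        _ ≤ Y := Nat.mul_div_le Y q
    · intro d hd
      rw [mem_filter, mem_Icc] at hd
      obtain ⟨⟨h1, h2⟩, h3, m, rfl⟩ := hd
      rw [mem_filter, mem_Icc, Nat.mul_div_cancel_left _ hq]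
      refine ⟨⟨?_, ?_⟩, Nat.Coprime.coprime_dvd_left (dvd_mul_left m q) h3⟩
      · exact Nat.pos_of_ne_zero (by rintro rfl; omega)
      · rw [Nat.le_div_iff_mul_le hq, mul_comm]; exact h2
    · intro m _
      exact Nat.mul_div_cancel_left _ hq
    · intro d hd
      rw [mem_filter] at hd
      exact Nat.mul_div_cancel' hd.2.2
    · intro m _
      rw [chi_mul]
      push_cast
      rw [div_mul_div_comm]
  rw [h1]
  congr 1
  have h2 : ∀ e ∈ Icc 1 (Y / q), (if Nat.Coprime e P then chi e / (e : ℝ) else 0) =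
      ∑ f ∈ P.divisors, if f ∣ e then (ArithmeticFunction.moebius f : ℝ) * (chi e / e) else 0 := by
    intro e _
    rw [← sum_filter, ← sum_mul]
    have h3 : P.divisors.filter (fun f => f ∣ e) = (Nat.gcd e P).divisors := by
      ext f
      rw [mem_filter, Nat.mem_divisors, Nat.mem_divisors, Nat.dvd_gcd_iff]
      constructor
      · rintro ⟨⟨h4, -⟩, h5⟩
        exact ⟨⟨h5, h4⟩, fun h6 => hP (Nat.gcd_eq_zero_iff.1 h6).2⟩
      · rintro ⟨⟨h4, h5⟩, -⟩
        exact ⟨⟨h5, hP⟩, h4⟩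
    rw [h3]
    have h4 : (∑ f ∈ (Nat.gcd e P).divisors, (ArithmeticFunction.moebius f : ℝ)) =
        if Nat.gcd e P = 1 then 1 else 0 := by
      have h5 := congrArg (fun f : ArithmeticFunction ℤ => f (Nat.gcd e P))
        ArithmeticFunction.coe_zeta_mul_moebius
      simp only [ArithmeticFunction.coe_zeta_mul_apply, ArithmeticFunction.one_apply] at h5
      have h6 := congrArg (fun z : ℤ => (z : ℝ)) h5
      push_cast at h6
      exact h6
    rw [h4]
    by_cases h8 : Nat.Coprime e P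
    · rw [if_pos h8, if_pos h8, one_mul]
    · rw [if_neg h8, if_neg h8, zero_mul]
  rw [sum_filter, sum_congr rfl h2, sum_comm]
  refine sum_congr rfl fun f hf => ?_
  have hf1 : 1 ≤ f := Nat.pos_of_mem_divisors hf
  have h7 := cq_eq (Z := Y / q) hf1
  unfold cq at h7
  rw [← sum_filter, ← mul_sum, h7]
  ring

theorem abs_cP_le {P Y q : ℕ} (hq : 1 ≤ q) (hP : P ≠ 0) :
    |cP P Y q| ≤ (∑ f ∈ P.divisors, (1 : ℝ) / f) / q := by
  have hs : 0 ≤ ∑ f ∈ P.divisors, (1 : ℝ) / f := sum_nonneg fun f _ => by positivity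
  by_cases h : Nat.Coprime q P
  · rw [cP_eq hq hP h, abs_mul, abs_div, Nat.abs_cast, div_mul_eq_mul_div]
    refine div_le_div_of_nonneg_right ?_ (Nat.cast_nonneg q)
    have h1 : |∑ f ∈ P.divisors, (ArithmeticFunction.moebius f : ℝ) * (chi f / f) *
        A1 (Y / q / f)| ≤ ∑ f ∈ P.divisors, (1 : ℝ) / f := by
      refine (abs_sum_le_sum_abs _ _).trans (sum_le_sum fun f _ => ?_)
      rw [abs_mul, abs_mul, abs_div, Nat.abs_cast, abs_of_nonneg (A1_le_one _).1]
      have h2 : |(ArithmeticFunction.moebius f : ℝ)| ≤ 1 := by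
        exact_mod_cast ArithmeticFunction.abs_moebius_le_one (n := f)
      have h3 : |chi f| / (f : ℝ) ≤ 1 / f :=
        div_le_div_of_nonneg_right (abs_chi_le f) (Nat.cast_nonneg f)
      have h4 := (A1_le_one (Y / q / f)).2.1
      have h5 := (A1_le_one (Y / q / f)).1
      have h6 : 0 ≤ |chi f| / (f : ℝ) := by positivity
      calc |(ArithmeticFunction.moebius f : ℝ)| * (|chi f| / f) * A1 (Y / q / f)
          ≤ 1 * (1 / f) * 1 := by
            apply mul_le_mul _ h4 h5 (by positivity)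
            exact mul_le_mul h2 h3 h6 zero_le_one
        _ = 1 / f := by ring
    calc |chi q| * |∑ f ∈ P.divisors, (ArithmeticFunction.moebius f : ℝ) * (chi f / f) *
        A1 (Y / q / f)| ≤ 1 * ∑ f ∈ P.divisors, (1 : ℝ) / f :=
          mul_le_mul (abs_chi_le q) h1 (abs_nonneg _) zero_le_one
      _ = _ := one_mul _
  · rw [cP_eq_zero h, abs_zero]
    exact div_nonneg hs (Nat.cast_nonneg q)

end Pool.Agent.SPO
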