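import Pool.Agent.SPO.CP

/-!
# Package A03: the main term is not small

`A1 t = ∑_{m ≤ t} chi m/m` converges for `t → ∞` to a limit `L` (alternating series, or: by
`A1_four` and
`A1_succ` it is a Cauchy sequence, `|A1 t - A1 t'| ≤ 4/t` for `t ≤ t'`), and `L ≥ 2/3`
(`A1_le_one`).
By `cP_eq` with `q = 1`: `cP P Y 1 = ∑_{f ∣ P} μ(f) (chi f/f) A1(Y/f) → L ∑_{f ∣ P} μ(f) chi f/f =
L ∏_{p ∣ P} (1 - chi p/p) ≥ (2/3) ∏_{p ∣ P} (1 - 1/p) = (2/3) φ(P)/P`, which is larger than `(1/2)
φ(P)/P`.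
(`∑_{f ∣ P} μ(f) g(f) = ∏_{p ∣ P} (1 - g(p))` for multiplicative `g`:
`ArithmeticFunction.IsMultiplicative.prodPrimeFactors_one_sub_of_squarefree` on the radical, or the
analogous lemma; `Nat.totient_eq_mul_prod_factors`.)
-/

set_option autoImplicit false

namespace Pool.Agent.SPO

open Finset Filter Pool.Agent.TwoSqPow

private theorem A1_mono_four (k : ℕ) : A1 (4 * k) ≤ A1 (4 * (k + 1)) := by
  have e : 4 * (k + 1) = 4 * k + 1 + 1 + 1 + 1 := by ring
  have h0 : A1 (4 * (k + 1)) = A1 (4 * k) + 1 / (4 * k + 1 : ℕ) - 1 / (4 * k + 3 : ℕ) := by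
    rw [e, A1_succ, A1_succ, A1_succ, A1_succ, chi_eq, chi_eq, chi_eq, chi_eq]
    rw [if_neg (show ¬ (4 * k + 1) % 2 = 0 by omega), if_pos (show (4 * k + 1) % 4 = 1 by omega),
      if_pos (show (4 * k + 1 + 1) % 2 = 0 by omega),
      if_neg (show ¬ (4 * k + 1 + 1 + 1) % 2 = 0 by omega),
      if_neg (show ¬ (4 * k + 1 + 1 + 1) % 4 = 1 by omega),
      if_pos (show (4 * k + 1 + 1 + 1 + 1) % 2 = 0 by omega)]
    push_cast
    ring
  have h1 : (1 : ℝ) / (4 * k + 3 : ℕ) ≤ 1 / (4 * k + 1 : ℕ) := by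
    apply one_div_le_one_div_of_le
    · positivity
    · exact_mod_cast by omega
  rw [h0]
  linarith

private theorem A1_near (k r : ℕ) (hr : r < 4) :
    |A1 (4 * k + r) - A1 (4 * k)| ≤ 1 / ((k : ℝ) + 1) := by
  have e1 : A1 (4 * k + 1) = A1 (4 * k) + 1 / (4 * k + 1 : ℕ) := by
    rw [A1_succ, chi_eq, if_neg (by omega), if_pos (by omega)]
  have e2 : A1 (4 * k + 1 + 1) = A1 (4 * k + 1) := by
    rw [A1_succ, chi_eq, if_pos (by omega)]; simp
  have e3 : A1 (4 * k + 1 + 1 + 1) = A1 (4 * k) + 1 / (4 * k + 1 : ℕ) - 1 / (4 * k + 3 : ℕ) := by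
    rw [A1_succ, e2, e1, chi_eq, if_neg (by omega), if_neg (by omega)]
    have : 4 * k + 1 + 1 + 1 = 4 * k + 3 := by ring
    rw [this]
    ring
  have h1 : (1 : ℝ) / (4 * k + 3 : ℕ) ≤ 1 / (4 * k + 1 : ℕ) := by
    apply one_div_le_one_div_of_le
    · positivity
    · exact_mod_cast by omega
  have h2 : (1 : ℝ) / (4 * k + 1 : ℕ) ≤ 1 / ((k : ℝ) + 1) := by
    apply one_div_le_one_div_of_le
    · positivity
    · push_cast
      have : (0 : ℝ) ≤ k := by positivity
      linarith
  have h3 : (0 : ℝ) ≤ 1 / (4 * k + 3 : ℕ) := by positivity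
  have h4 : (0 : ℝ) ≤ 1 / (4 * k + 1 : ℕ) := by positivity
  have h5 : (0 : ℝ) ≤ 1 / ((k : ℝ) + 1) := by positivity
  interval_cases r
  · simpa using h5
  · rw [e1, abs_le]
    constructor <;> linarith
  · have : 4 * k + 2 = 4 * k + 1 + 1 := by ring
    rw [this, e2, e1, abs_le]
    constructor <;> linarith
  · have : 4 * k + 3 = 4 * k + 1 + 1 + 1 := by ring
    rw [this, e3, abs_le]
    constructor <;> linarith

private theorem A1_lim : ∃ L : ℝ, 2 / 3 ≤ L ∧ Tendsto A1 atTop (nhds L) := by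
  have hmono : Monotone fun k : ℕ => A1 (4 * k) := monotone_nat_of_le_succ A1_mono_four
  have hbdd : BddAbove (Set.range fun k : ℕ => A1 (4 * k)) :=
    ⟨1, by rintro _ ⟨k, rfl⟩; exact (A1_le_one _).2.1⟩
  have hL := tendsto_atTop_ciSup hmono hbdd
  set L := ⨆ k : ℕ, A1 (4 * k) with hLdef
  have hdiv : Tendsto (fun t : ℕ => t / 4) atTop atTop := by
    refine tendsto_atTop.2 fun b => ?_
    filter_upwards [eventually_ge_atTop (4 * b)] with t ht
    omega
  have h1 : Tendsto (fun t : ℕ => A1 (4 * (t / 4))) atTop (nhds L) := hL.comp hdiv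
  have h2 : Tendsto (fun t : ℕ => 1 / (((t / 4 : ℕ) : ℝ) + 1)) atTop (nhds 0) :=
    tendsto_one_div_add_atTop_nhds_zero_nat.comp hdiv
  have h3 : Tendsto (fun t : ℕ => A1 t - A1 (4 * (t / 4))) atTop (nhds 0) := by
    refine squeeze_zero_norm (fun t => ?_) h2
    have := A1_near (t / 4) (t % 4) (by omega)
    rw [show 4 * (t / 4) + t % 4 = t by omega] at this
    exact this
  have h4 : Tendsto A1 atTop (nhds L) := by
    have := h3.add h1
    simpa using this
  refine ⟨L, ?_, h4⟩
  refine ge_of_tendsto h4 ?_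
  filter_upwards [eventually_ge_atTop 1] with t ht
  exact (A1_le_one t).2.2 ht

/-- The arithmetic function `f ↦ chi f / f`. -/
private noncomputable def gg : ArithmeticFunction ℝ := ⟨fun f => chi f / f, by simp⟩

private theorem gg_apply (f : ℕ) : gg f = chi f / f := rfl

private theorem gg_mult : gg.IsMultiplicative := by
  refine ⟨?_, fun {m n} _ => ?_⟩
  · rw [gg_apply, chi_one]; simp
  · rw [gg_apply, gg_apply, gg_apply, chi_mul]
    push_cast
    rw [mul_div_mul_comm]

private noncomputable def mg : ArithmeticFunction ℝ :=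
  ((ArithmeticFunction.moebius : ArithmeticFunction ℤ) : ArithmeticFunction ℝ).pmul gg

private theorem mg_apply (f : ℕ) :
    mg f = (ArithmeticFunction.moebius f : ℝ) * (chi f / f) := by
  rw [mg, ArithmeticFunction.pmul_apply, gg_apply]
  simp

private theorem mg_mult : mg.IsMultiplicative :=
  (ArithmeticFunction.isMultiplicative_moebius.intCast).pmul gg_mult

private theorem sum_moebius {P : ℕ} (hP : P ≠ 0) :
    ∑ f ∈ P.divisors, (ArithmeticFunction.moebius f : ℝ) * (chi f / f) =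
      ∏ p ∈ P.primeFactors, (1 - chi p / p) := by
  have h1 : ∑ f ∈ P.divisors, (ArithmeticFunction.moebius f : ℝ) * (chi f / f) =
      (mg * (ArithmeticFunction.zeta : ArithmeticFunction ℝ)) P := by
    rw [ArithmeticFunction.coe_mul_zeta_apply]
    exact Finset.sum_congr rfl fun f _ => (mg_apply f).symm
  have hm : (mg * (ArithmeticFunction.zeta : ArithmeticFunction ℝ)).IsMultiplicative :=
    mg_mult.mul ArithmeticFunction.isMultiplicative_zeta.natCast
  rw [h1, hm.multiplicative_factorization _ hP, Finsupp.prod, Nat.support_factorization]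
  refine Finset.prod_congr rfl fun p hp => ?_
  have hpp := Nat.prime_of_mem_primeFactors hp
  have hk : P.factorization p ≠ 0 := by
    rw [← Finsupp.mem_support_iff, Nat.support_factorization]
    exact hp
  obtain ⟨k, hk'⟩ := Nat.exists_eq_succ_of_ne_zero hk
  rw [hk', ArithmeticFunction.coe_mul_zeta_apply, Nat.sum_divisors_prime_pow hpp,
    Finset.sum_range_succ', Finset.sum_range_succ']
  have h2 : ∀ i ∈ Finset.range k, mg (p ^ (i + 1 + 1)) = 0 := by
    intro i _
    rw [mg_apply, ArithmeticFunction.moebius_apply_prime_pow hpp (by omega), if_neg (by omega)]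
    simp
  rw [Finset.sum_eq_zero h2, mg_apply, mg_apply,
    ArithmeticFunction.moebius_apply_prime_pow hpp (by omega)]
  simp [chi_one]
  ring

theorem cP_lower {P : ℕ} (hP : 1 ≤ P) :
    ∀ᶠ Y : ℕ in atTop, (1 / 2) * ((Nat.totient P : ℝ) / P) ≤ cP P Y 1 := by
  have hP0 : P ≠ 0 := by omega
  obtain ⟨L, hL, hlim⟩ := A1_lim
  have hform : ∀ Y : ℕ, cP P Y 1 = ∑ f ∈ P.divisors,
      (ArithmeticFunction.moebius f : ℝ) * (chi f / f) * A1 (Y / f) := by
    intro Y
    rw [cP_eq le_rfl hP0 (Nat.coprime_one_left P), chi_one]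
    simp
  have hdiv : ∀ f ∈ P.divisors, Tendsto (fun Y : ℕ => A1 (Y / f)) atTop (nhds L) := by
    intro f hf
    refine hlim.comp ?_
    have hf0 : 0 < f := Nat.pos_of_mem_divisors hf
    refine tendsto_atTop.2 fun b => ?_
    filter_upwards [eventually_ge_atTop (b * f)] with t ht
    exact (Nat.le_div_iff_mul_le hf0).2 ht
  have hT : Tendsto (fun Y : ℕ => cP P Y 1) atTop
      (nhds (∑ f ∈ P.divisors, (ArithmeticFunction.moebius f : ℝ) * (chi f / f) * L)) := by
    simp only [hform]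
    exact tendsto_finsetSum _ fun f hf => (hdiv f hf).const_mul _
  rw [← Finset.sum_mul, sum_moebius hP0] at hT
  have htot : ((Nat.totient P : ℝ) / P) = ∏ p ∈ P.primeFactors, (1 - (p : ℝ)⁻¹) := by
    have h := Nat.totient_eq_mul_prod_factors P
    have h' : ((Nat.totient P : ℕ) : ℝ) = (P : ℝ) * ∏ p ∈ P.primeFactors, (1 - (p : ℝ)⁻¹) := by
      have h2 := congrArg (fun x : ℚ => (x : ℝ)) h
      push_cast at h2
      exact h2
    rw [h']
    have : (P : ℝ) ≠ 0 := by exact_mod_cast hP0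
    field_simp
  have hle : (Nat.totient P : ℝ) / P ≤ ∏ p ∈ P.primeFactors, (1 - chi p / p) := by
    rw [htot]
    refine Finset.prod_le_prod (fun p hp => ?_) (fun p hp => ?_)
    · have hpp := Nat.prime_of_mem_primeFactors hp
      have : (p : ℝ)⁻¹ ≤ 1 := inv_le_one_of_one_le₀ (by exact_mod_cast hpp.one_lt.le)
      linarith
    · have h1 := (abs_le.1 (abs_chi_le p)).2
      have h2 : chi p / p ≤ 1 / (p : ℝ) := by
        apply div_le_div_of_nonneg_right h1
        positivity
      rw [one_div] at h2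
      linarith
  have hpos : 0 < (Nat.totient P : ℝ) / P := by
    have : 0 < Nat.totient P := Nat.totient_pos.2 (by omega)
    have h2 : (0 : ℝ) < P := by exact_mod_cast hP
    positivity
  have hlt : (1 / 2) * ((Nat.totient P : ℝ) / P) <
      (∏ p ∈ P.primeFactors, (1 - chi p / p)) * L := by
    have : (Nat.totient P : ℝ) / P * (2 / 3) ≤ (∏ p ∈ P.primeFactors, (1 - chi p / p)) * L :=
      mul_le_mul hle hL (by norm_num) (hpos.le.trans hle)
    linarith
  filter_upwards [hT.eventually_const_lt hlt] with Y hY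
  exact hY.le

end Pool.Agent.SPO
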