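import Mathlib

/-!
# Package C03: counting with the Chinese remainder theorem

Induction on `T`. `T = insert q T'`: the condition is a condition modulo `q` and one modulo
`P' = ∏_{T'} q`, which is coprime to `q`; by `Nat.chineseRemainder` / `ZMod.chineseRemainder` the
number of
solutions in `range (q P')` is the product of the numbers of solutions in `range q` (all but one
residue: `q - 1`) and in `range P'`.
-/

set_option autoImplicit false

namespace Pool.Agent.SPO

open Finset

private theorem crt_one {q : ℕ} (hq : q.Prime) (z : ZMod q) :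
    #((range q).filter fun x : ℕ => (x : ZMod q) ≠ z) = q - 1 := by
  have : NeZero q := ⟨hq.ne_zero⟩
  have h1 : ((range q).filter fun x : ℕ => (x : ZMod q) ≠ z) = (range q).erase z.val := by
    ext x
    rw [mem_filter, mem_erase, mem_range]
    constructor
    · rintro ⟨h2, h3⟩
      refine ⟨fun h4 => h3 ?_, h2⟩
      rw [h4, ZMod.natCast_zmod_val]
    · rintro ⟨h2, h3⟩
      refine ⟨h3, fun h4 => h2 ?_⟩
      rw [← h4, ZMod.val_cast_of_lt h3]
  rw [h1, card_erase_of_mem (mem_range.2 (ZMod.val_lt z)), card_range]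

theorem crt_count (T : Finset ℕ) (hT : ∀ q ∈ T, q.Prime) (z : (q : ℕ) → ZMod q) :
    #{x ∈ range (∏ q ∈ T, q) | ∀ q ∈ T, (x : ZMod q) ≠ z q} = ∏ q ∈ T, (q - 1) := by
  classical
  induction T using Finset.induction_on with
  | empty => simp
  | insert q T' hq ih =>
    have hT' : ∀ p ∈ T', p.Prime := fun p hp => hT p (mem_insert_of_mem hp)
    have hqp : q.Prime := hT q (mem_insert_self q T')
    have hP0 : (∏ p ∈ T', p) ≠ 0 := prod_ne_zero_iff.2 fun p hp => (hT' p hp).ne_zero
    have hco : Nat.Coprime q (∏ p ∈ T', p) := by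
      refine Nat.Coprime.prod_right fun p hp => (Nat.coprime_primes hqp (hT' p hp)).2 ?_
      rintro rfl
      exact hq hp
    rw [prod_insert hq, prod_insert hq, ← ih hT', ← crt_one hqp (z q), ← card_product]
    have hmodP : ∀ x y : ℕ, x ≡ y [MOD ∏ p ∈ T', p] → ∀ p ∈ T', (x : ZMod p) = (y : ZMod p) :=
      fun x y h p hp => (ZMod.natCast_eq_natCast_iff _ _ _).2 (h.of_dvd (dvd_prod_of_mem _ hp))
    refine card_bij (fun x _ => (x % q, x % ∏ p ∈ T', p)) ?_ ?_ ?_
    · intro x hx
      rw [mem_filter, mem_range] at hx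
      rw [mem_product, mem_filter, mem_filter, mem_range, mem_range]
      refine ⟨⟨Nat.mod_lt _ hqp.pos, ?_⟩, Nat.mod_lt _ (Nat.pos_of_ne_zero hP0), fun p hp => ?_⟩
      · change ((x % q : ℕ) : ZMod q) ≠ z q
        rw [ZMod.natCast_mod]
        exact hx.2 q (mem_insert_self q T')
      · change ((x % ∏ p ∈ T', p : ℕ) : ZMod p) ≠ z p
        rw [hmodP _ x (Nat.mod_modEq x _) p hp]
        exact hx.2 p (mem_insert_of_mem hp)
    · intro x hx y hy hxy
      rw [mem_filter, mem_range] at hx hy
      rw [Prod.mk.injEq] at hxy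
      exact Nat.ModEq.eq_of_lt_of_lt
        ((Nat.modEq_and_modEq_iff_modEq_mul hco).1 ⟨hxy.1, hxy.2⟩) hx.1 hy.1
    · rintro ⟨a, b⟩ hab
      rw [mem_product, mem_filter, mem_filter, mem_range, mem_range] at hab
      obtain ⟨⟨ha1, ha2⟩, hb1, hb2⟩ := hab
      obtain ⟨h1, h2⟩ := (Nat.chineseRemainder hco a b).2
      refine ⟨Nat.chineseRemainder hco a b, ?_, ?_⟩
      · rw [mem_filter, mem_range]
        refine ⟨Nat.chineseRemainder_lt_mul hco a b hqp.ne_zero hP0, fun p hp => ?_⟩
        rcases mem_insert.1 hp with rfl | hp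
        · rw [(ZMod.natCast_eq_natCast_iff _ _ _).2 h1]
          exact ha2
        · rw [hmodP _ b h2 p hp]
          exact hb2 p hp
      · refine Prod.ext ?_ ?_
        · change (Nat.chineseRemainder hco a b : ℕ) % q = a
          rw [show (Nat.chineseRemainder hco a b : ℕ) % q = a % q from h1, Nat.mod_eq_of_lt ha1]
        · change (Nat.chineseRemainder hco a b : ℕ) % (∏ p ∈ T', p) = b
          rw [show (Nat.chineseRemainder hco a b : ℕ) % (∏ p ∈ T', p) = b % (∏ p ∈ T', p) from h2,
            Nat.mod_eq_of_lt hb1]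

end Pool.Agent.SPO
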