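import Pool.Agent.SPO.Iter

/-!
# Package G11: exponential sums over subgroups of size `≥ p^(1/8)`

`ft f b = ∑_x f(x) e_p(b x)` with `e_p = ZMod.stdAddChar`.

* `ft_conv`: the transform of a convolution is the product. `ft_itc`: `ft (itc f j) b = (ft f
b)^(2^j)`.
* `parseval`: `∑_b ‖ft f b‖² = p · sq f` (orthogonality: `∑_b e_p(b x) = p` if `x = 0` and `0`
otherwise,
  `AddChar.sum_mulShift` with `ZMod.isPrimitive_stdAddChar`).
* `inversion`: `p f(x) = ∑_b ft f b · e_p(-b x)`.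
* `char_bound`: take `J, d₀` from `iter_bound`, `H` with `p ≤ d⁸`, `d = |H|`; for `p ≥ q₀ := d₀⁸`
we have
  `d ≥ d₀`. `d^(-9) ≤ p^(-9/8) ≤ p^(-15/16)`, so `∑_b ‖ft (unif H) b‖^(2·2^J) = p sq(itc ..) ≤
p^(1/16)`.
  `ft (unif H)` is constant on the orbit `{h b : h ∈ H}` of `b ≠ 0` (substitution `x → h⁻¹x`,
`unif_dil`),
  which has `d` elements. So `d ‖ft (unif H) b‖^(2^(J+1)) ≤ p^(1/16)`, and `d ≥ p^(1/8)` gives
  `‖ft (unif H) b‖^(2^(J+1)) ≤ p^(-1/16)`. `δ = 1/(16 · 2^(J+1))`.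
-/

set_option autoImplicit false

namespace Pool.Agent.SPO

open Finset

/-- the Fourier transform on `ZMod p` -/
noncomputable def ft {p : ℕ} [NeZero p] (f : ZMod p → ℝ) (b : ZMod p) : ℂ :=
  ∑ x, (f x : ℂ) * ZMod.stdAddChar (b * x)

theorem ft_conv {p : ℕ} [NeZero p] (f g : ZMod p → ℝ) (b : ZMod p) :
    ft (conv f g) b = ft f b * ft g b := by
  unfold ft conv
  rw [Finset.sum_mul]
  have h1 : ∀ y : ZMod p, (f y : ℂ) * ZMod.stdAddChar (b * y) *
      ∑ x, (g x : ℂ) * ZMod.stdAddChar (b * x) =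
      ∑ x, (f y : ℂ) * (g (x - y) : ℂ) * ZMod.stdAddChar (b * x) := by
    intro y
    rw [← (Equiv.subRight y).sum_comp (fun x => (g x : ℂ) * ZMod.stdAddChar (b * x)),
      Finset.mul_sum]
    refine Finset.sum_congr rfl fun x _ => ?_
    have h2 : b * x = b * y + b * (x - y) := by ring
    rw [Equiv.subRight_apply, h2, AddChar.map_add_eq_mul]
    ring
  rw [Finset.sum_congr rfl fun y _ => h1 y, Finset.sum_comm]
  refine Finset.sum_congr rfl fun x _ => ?_
  rw [← Finset.sum_mul]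
  push_cast
  rfl

theorem ft_itc {p : ℕ} [NeZero p] (f : ZMod p → ℝ) (j : ℕ) (b : ZMod p) :
    ft (itc f j) b = ft f b ^ (2 ^ j) := by
  induction j with
  | zero => simp [itc]
  | succ j ih =>
    rw [itc, ft_conv, ih, ← pow_add, pow_succ]
    congr 1
    ring

private theorem inversion_aux {p : ℕ} [NeZero p] (f : ZMod p → ℝ) (x : ZMod p) :
    ∑ b, ft f b * ZMod.stdAddChar (-(b * x)) = (p : ℂ) * (f x : ℂ) := by
  unfold ft
  have h1 : ∀ b : ZMod p, (∑ y, (f y : ℂ) * ZMod.stdAddChar (b * y)) *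
      ZMod.stdAddChar (-(b * x)) = ∑ y, (f y : ℂ) * ZMod.stdAddChar (b * (y - x)) := by
    intro b
    rw [Finset.sum_mul]
    refine Finset.sum_congr rfl fun y _ => ?_
    have h2 : b * (y - x) = b * y + -(b * x) := by ring
    rw [h2, AddChar.map_add_eq_mul]
    ring
  rw [Finset.sum_congr rfl fun b _ => h1 b, Finset.sum_comm]
  have h3 : ∀ y : ZMod p, ∑ b, (f y : ℂ) * ZMod.stdAddChar (b * (y - x)) =
      if y = x then (p : ℂ) * (f x : ℂ) else 0 := by
    intro y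
    rw [← Finset.mul_sum, AddChar.sum_mulShift _ (ZMod.isPrimitive_stdAddChar p)]
    by_cases hy : y = x
    · subst hy
      simp [ZMod.card, mul_comm]
    · rw [if_neg hy, if_neg (sub_ne_zero.2 hy)]
      simp
  rw [Finset.sum_congr rfl fun y _ => h3 y, Finset.sum_ite_eq' Finset.univ x, if_pos
    (Finset.mem_univ x)]

theorem parseval {p : ℕ} [NeZero p] (f : ZMod p → ℝ) : ∑ b, ‖ft f b‖ ^ 2 = p * sq f := by
  have key : ((∑ b, ‖ft f b‖ ^ 2 : ℝ) : ℂ) = ((p * sq f : ℝ) : ℂ) := by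
    push_cast
    have h1 : ∀ b : ZMod p, ((‖ft f b‖ : ℂ)) ^ 2 =
        ∑ y, (f y : ℂ) * (ft f b * ZMod.stdAddChar (-(b * y))) := by
      intro b
      rw [← Complex.mul_conj' (ft f b)]
      have h2 : (starRingEnd ℂ) (ft f b) = ∑ y, (f y : ℂ) * ZMod.stdAddChar (-(b * y)) := by
        unfold ft
        rw [map_sum]
        refine Finset.sum_congr rfl fun y _ => ?_
        rw [map_mul, AddChar.map_neg_eq_conj, Complex.conj_ofReal]
      rw [h2, Finset.mul_sum]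
      refine Finset.sum_congr rfl fun y _ => ?_
      ring
    rw [Finset.sum_congr rfl fun b _ => h1 b, Finset.sum_comm]
    have h3 : ∀ y : ZMod p, ∑ b, (f y : ℂ) * (ft f b * ZMod.stdAddChar (-(b * y))) =
        (p : ℂ) * (f y : ℂ) ^ 2 := by
      intro y
      rw [← Finset.mul_sum, inversion_aux]
      ring
    rw [Finset.sum_congr rfl fun y _ => h3 y, ← Finset.mul_sum]
    unfold sq
    push_cast
    rfl
  exact_mod_cast key

theorem inversion {p : ℕ} [NeZero p] (f : ZMod p → ℝ) (x : ZMod p) :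
    ((p * f x : ℝ) : ℂ) = ∑ b, ft f b * ZMod.stdAddChar (-(b * x)) := by
  rw [inversion_aux]
  push_cast
  rfl

private theorem ft_orbit {p : ℕ} [Fact p.Prime] (H : Subgroup (ZMod p)ˣ) {h : (ZMod p)ˣ}
    (hh : h ∈ H) (b : ZMod p) : ft (unif H) ((h : ZMod p) * b) = ft (unif H) b := by
  unfold ft
  have hb : Function.Bijective (fun x : ZMod p => (h : ZMod p) * x) :=
    (Units.mulLeft_bijective h)
  rw [← Function.Bijective.sum_comp hb (fun x => (unif H x : ℂ) * ZMod.stdAddChar (b * x))]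
  refine Finset.sum_congr rfl fun x _ => ?_
  rw [unif_dil H hh]
  congr 2
  ring

private theorem orbit_sum {p : ℕ} [Fact p.Prime] (H : Subgroup (ZMod p)ˣ) {b : ZMod p}
    (hb : b ≠ 0) {F : ZMod p → ℝ} (hF : ∀ x, 0 ≤ F x)
    (hinv : ∀ h ∈ H, F ((h : ZMod p) * b) = F b) :
    (Nat.card H : ℝ) * F b ≤ ∑ x, F x := by
  classical
  have : Fintype H := Fintype.ofFinite H
  have hinj : Function.Injective (fun h : H => ((h : (ZMod p)ˣ) : ZMod p) * b) := by
    intro h h' hh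
    have := mul_right_cancel₀ hb hh
    exact Subtype.ext (Units.ext this)
  have h1 : ∑ h : H, F (((h : (ZMod p)ˣ) : ZMod p) * b) = (Nat.card H : ℝ) * F b := by
    rw [Finset.sum_congr rfl fun h _ => hinv h.1 h.2]
    simp [Nat.card_eq_fintype_card]
  rw [← h1, ← Finset.sum_image (f := F) (s := Finset.univ)
    (g := fun h : H => ((h : (ZMod p)ˣ) : ZMod p) * b) (fun x _ y _ h => hinj h)]
  exact Finset.sum_le_sum_of_subset_of_nonneg (Finset.subset_univ _) fun x _ _ => hF x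

theorem char_bound : ∃ (δ : ℝ) (q₀ : ℕ), 0 < δ ∧ ∀ (p : ℕ) [Fact p.Prime]
    (H : Subgroup (ZMod p)ˣ), q₀ ≤ p → p ≤ Nat.card H ^ 8 → ∀ b : ZMod p, b ≠ 0 →
    ‖ft (unif H) b‖ ≤ (p : ℝ) ^ (-δ) := by
  obtain ⟨J, d₀, hJ⟩ := iter_bound
  refine ⟨1 / (16 * 2 ^ (J + 1)), d₀ ^ 8, by positivity, ?_⟩
  intro p _ H hp hd b hb
  have hd0 : d₀ ≤ Nat.card H := by
    by_contra hcon
    push Not at hcon
    exact absurd (hp.trans hd) (not_le.2 (Nat.pow_lt_pow_left hcon (by norm_num)))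
  have hIt := hJ p H hd0
  have hcard : 0 < Nat.card H := Nat.card_pos
  set d : ℝ := (Nat.card H : ℝ) with hdd
  set P : ℝ := (p : ℝ) with hPP
  have hd1 : 1 ≤ d := by rw [hdd]; exact_mod_cast hcard
  have hP1 : 1 ≤ P := by rw [hPP]; exact_mod_cast (Fact.out : p.Prime).one_lt.le
  have hP0 : 0 < P := by linarith
  have hPd : P ≤ d ^ 8 := by rw [hdd, hPP]; exact_mod_cast hd
  have hm : sq (itc (unif H) J) ≤ P ^ (-(15 / 16) : ℝ) := by
    refine hIt.trans (max_le ?_ le_rfl)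
    calc d ^ (-9 : ℝ) ≤ d ^ (8 * (-(15 / 16)) : ℝ) :=
          Real.rpow_le_rpow_of_exponent_le hd1 (by norm_num)
      _ = (d ^ 8) ^ (-(15 / 16) : ℝ) := by
          rw [Real.rpow_mul (by linarith)]
          norm_cast
      _ ≤ P ^ (-(15 / 16) : ℝ) := Real.rpow_le_rpow_of_nonpos hP0 hPd (by norm_num)
  set N : ℕ := 2 ^ (J + 1) with hN
  have hN0 : 0 < N := by positivity
  have hsum : ∑ x, ‖ft (unif H) x‖ ^ N ≤ P ^ (1 / 16 : ℝ) := by
    have h1 : ∀ x, ‖ft (unif H) x‖ ^ N = ‖ft (itc (unif H) J) x‖ ^ 2 := by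
      intro x
      rw [ft_itc, norm_pow, ← pow_mul, hN, pow_succ]
    rw [Finset.sum_congr rfl fun x _ => h1 x, parseval]
    calc P * sq (itc (unif H) J) ≤ P * P ^ (-(15 / 16) : ℝ) :=
          mul_le_mul_of_nonneg_left hm hP0.le
      _ = P ^ (1 / 16 : ℝ) := by
          nth_rewrite 1 [← Real.rpow_one P]
          rw [← Real.rpow_add hP0]
          norm_num
  have horb : d * ‖ft (unif H) b‖ ^ N ≤ P ^ (1 / 16 : ℝ) :=
    (orbit_sum H hb (F := fun x => ‖ft (unif H) x‖ ^ N) (fun x => by positivity)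
      (fun h hh => by simp only [ft_orbit H hh])).trans hsum
  have hP8 : P ^ (1 / 8 : ℝ) ≤ d := by
    calc P ^ (1 / 8 : ℝ) ≤ (d ^ 8) ^ (1 / 8 : ℝ) :=
          Real.rpow_le_rpow hP0.le hPd (by norm_num)
      _ = d := by
          rw [← Real.rpow_natCast, ← Real.rpow_mul (by linarith)]
          norm_num
  set u : ℝ := ‖ft (unif H) b‖ with hu
  have hu0 : 0 ≤ u := norm_nonneg _
  have huN : u ^ N ≤ P ^ (-(1 / 16) : ℝ) := by
    have h2 : P ^ (1 / 8 : ℝ) * u ^ N ≤ P ^ (1 / 16 : ℝ) :=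
      (mul_le_mul_of_nonneg_right hP8 (by positivity)).trans horb
    have h3 : P ^ (-(1 / 16) : ℝ) = P ^ (-(1 / 8) : ℝ) * P ^ (1 / 16 : ℝ) := by
      rw [← Real.rpow_add hP0]
      norm_num
    have h4 : P ^ (-(1 / 8) : ℝ) * P ^ (1 / 8 : ℝ) = 1 := by
      rw [← Real.rpow_add hP0]
      norm_num
    calc u ^ N = P ^ (-(1 / 8) : ℝ) * (P ^ (1 / 8 : ℝ) * u ^ N) := by
          rw [← mul_assoc, h4, one_mul]
      _ ≤ P ^ (-(1 / 8) : ℝ) * P ^ (1 / 16 : ℝ) :=
          mul_le_mul_of_nonneg_left h2 (by positivity)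
      _ = P ^ (-(1 / 16) : ℝ) := h3.symm
  have hNr : (0 : ℝ) < N := by exact_mod_cast hN0
  calc u = (u ^ N) ^ (1 / (N : ℝ)) := by
        rw [← Real.rpow_natCast, ← Real.rpow_mul hu0, mul_one_div_cancel hNr.ne', Real.rpow_one]
    _ ≤ (P ^ (-(1 / 16) : ℝ)) ^ (1 / (N : ℝ)) :=
        Real.rpow_le_rpow (by positivity) huN (by positivity)
    _ = P ^ (-(1 / (16 * 2 ^ (J + 1))) : ℝ) := by
        rw [← Real.rpow_mul hP0.le]
        congr 1
        rw [hN]
        push_cast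
        field_simp

end Pool.Agent.SPO
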