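import Pool.Agent.SPO.Shift
import Pool.Agent.SPO.ADefs

/-!
# Package A15: from exponents modulo `M` to exponents below `M B'`

The map `Fin (M B') → ZMod M`, `x ↦ (x : ZMod M)`, has all fibres of size `B'`; apply it to all
`(J+1) k` coordinates:
all fibres of `b ↦ b̄` have size `B'^{k(J+1)}`. For `q ∈ T`: `2^{b t m} = 2^{(b̄ t m).val}` modulo
`q` since
`(b̄ t m).val ≡ b t m mod M` and `od q ∣ M`. So `(sB l M b : ZMod q) = ∑_t coef l M t · SS q (b̄
t)`, and
`((4 sB l M b : ℕ) : ZMod q) ≠ z q` iff `∑_t coef · SS q (b̄ t) ≠ 4⁻¹ z q` (`4` is a unit modulo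
the odd prime `q`).
-/

set_option autoImplicit false

namespace Pool.Agent.SPO

open Finset

/-- the residue modulo `M` and the quotient -/
private def lf_equiv (M B' : ℕ) [NeZero M] : Fin (M * B') ≃ Fin B' × ZMod M where
  toFun x := (⟨x / M, Nat.div_lt_of_lt_mul x.2⟩, ((x : ℕ) : ZMod M))
  invFun y := ⟨y.2.val + M * y.1, by
    have h1 := ZMod.val_lt y.2
    have h2 : (y.1 : ℕ) + 1 ≤ B' := y.1.2
    calc y.2.val + M * (y.1 : ℕ) < M + M * (y.1 : ℕ) := Nat.add_lt_add_right h1 _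
      _ = M * ((y.1 : ℕ) + 1) := by ring
      _ ≤ M * B' := Nat.mul_le_mul_left M h2⟩
  left_inv x := by
    ext
    simp only [ZMod.val_natCast]
    exact Nat.mod_add_div _ _
  right_inv y := by
    obtain ⟨a, b⟩ := y
    have h1 := ZMod.val_lt b
    have hM : 0 < M := Nat.pos_of_ne_zero (NeZero.ne M)
    refine Prod.ext (Fin.ext ?_) ?_
    · simp only
      rw [Nat.add_mul_div_left _ _ hM, Nat.div_eq_of_lt h1, zero_add]
    · simp only
      push_cast
      rw [ZMod.natCast_self, zero_mul, add_zero, ZMod.natCast_zmod_val]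

private def lf_fun {ι κ α β γ : Type*} (e : α ≃ β × γ) :
    (ι → κ → α) ≃ (ι → κ → β) × (ι → κ → γ) where
  toFun b := (fun t m => (e (b t m)).1, fun t m => (e (b t m)).2)
  invFun p := fun t m => e.symm (p.1 t m, p.2 t m)
  left_inv b := by
    funext t m
    simp
  right_inv p := by
    refine Prod.ext ?_ ?_
    · funext t m
      simp
    · funext t m
      simp

private theorem lf_pow {q M : ℕ} [NeZero M] (h : od q ∣ M) (n : ℕ) :
    (2 : ZMod q) ^ ((n : ZMod M)).val = 2 ^ n := by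
  have h1 : (2 : ZMod q) ^ M = 1 := orderOf_dvd_iff_pow_eq_one.1 h
  rw [ZMod.val_natCast, ← pow_eq_pow_mod n h1]

private theorem lf_four {q : ℕ} (hq : q.Prime) (hq2 : q ≠ 2) : (4 : ZMod q) ≠ 0 := by
  intro h
  have h1 : ((4 : ℕ) : ZMod q) = 0 := by exact_mod_cast h
  rw [ZMod.natCast_eq_zero_iff] at h1
  have h2 : q ∣ 2 ^ 2 := h1
  have h3 := hq.dvd_of_dvd_pow h2
  exact hq2 ((Nat.prime_dvd_prime_iff_eq hq Nat.prime_two).1 h3)

theorem lift {J k M B' : ℕ} [NeZero M] (l : ℕ → ℕ) {T : Finset ℕ}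
    (hT : ∀ q ∈ T, (q.Prime ∧ q ≠ 2) ∧ od q ∣ M) (z : (q : ℕ) → ZMod q) :
    #{b : Fin (J + 1) → Fin k → Fin (M * B') | ∀ q ∈ T,
      ((4 * sB l M b : ℕ) : ZMod q) ≠ z q} =
    B' ^ (k * (J + 1)) * #{b : Fin (J + 1) → Fin k → ZMod M | ∀ q ∈ T,
      ∑ t : Fin (J + 1), (coef l M t : ZMod q) * SS q (b t) ≠ (4 : ZMod q)⁻¹ * z q} := by
  classical
  have h1 := card_equiv (lf_fun (ι := Fin (J + 1)) (κ := Fin k) (lf_equiv M B'))
    (s := univ.filter fun b : Fin (J + 1) → Fin k → Fin (M * B') => ∀ q ∈ T,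
      ((4 * sB l M b : ℕ) : ZMod q) ≠ z q)
    (t := (univ : Finset (Fin (J + 1) → Fin k → Fin B')) ×ˢ
      univ.filter fun b : Fin (J + 1) → Fin k → ZMod M => ∀ q ∈ T,
        ∑ t : Fin (J + 1), (coef l M t : ZMod q) * SS q (b t) ≠ (4 : ZMod q)⁻¹ * z q) ?_
  · rw [h1, card_product, card_univ, Fintype.card_fun, Fintype.card_fun, Fintype.card_fin,
      Fintype.card_fin, Fintype.card_fin, ← pow_mul]
  · intro b
    rw [mem_product, mem_filter, mem_filter]
    simp only [mem_univ, true_and]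
    refine forall₂_congr fun q hq => ?_
    obtain ⟨⟨hp, hp2⟩, hod⟩ := hT q hq
    haveI : Fact q.Prime := ⟨hp⟩
    have h4 := lf_four hp hp2
    have h5 : ((4 * sB l M b : ℕ) : ZMod q) = 4 * ∑ t : Fin (J + 1), (coef l M t : ZMod q) *
        SS q ((lf_fun (lf_equiv M B') b).2 t) := by
      unfold sB SS
      push_cast
      congr 1
      refine sum_congr rfl fun t _ => ?_
      congr 1
      refine sum_congr rfl fun m _ => ?_
      exact (lf_pow hod (b t m : ℕ)).symm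
    rw [h5, Ne, Ne, not_iff_not, eq_inv_mul_iff_mul_eq₀ h4]

end Pool.Agent.SPO
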