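import Pool.Agent.SPO.ADefs

/-!
# Package A16: the product of the odd primes up to `Z I`

`PP I` is odd, positive and squarefree with prime factors `prs univ I`.
* `sum_divisors_le`: for a squarefree number `∑_{f ∣ P} 1/f = ∏_{q ∣ P} (1 + 1/q) ≤ exp(∑ 1/q) ≤
exp(C₁ I)`, as
`prs univ I` is contained in the union of the `win i`, `i < I`.
* `totient_ge`: `φ(P)/P = ∏ (1 - 1/q) ≥ exp(-2 ∑ 1/q)` (`1 - x ≥ exp(-2x)` for `0 ≤ x ≤ 1/2`).
* `le_of_coprime`: an odd `q > 1` coprime to `PP I` has all its prime factors `> Z I =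
2^(2^(I-1))`.
* `coprime_PP_iff`: `n` is coprime to `PP I` iff no `q ∈ prs univ I` divides `n`.
-/

set_option autoImplicit false

namespace Pool.Agent.SPO

open Finset

private theorem prs_prime {I q : ℕ} (h : q ∈ prs Set.univ I) : q.Prime ∧ q ≠ 2 :=
  (mem_prs.1 h).2.1

private theorem mem_prs' {I q : ℕ} (h : q.Prime) (h2 : q ≠ 2) (hI : q ≤ Z I) :
    q ∈ prs Set.univ I :=
  mem_prs.2 ⟨⟨h.one_lt, hI⟩, ⟨h, h2⟩, Set.mem_univ q⟩

private theorem pf_PP (I : ℕ) : (PP I).primeFactors = prs Set.univ I :=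
  Nat.primeFactors_prod fun _ hq => (prs_prime hq).1

theorem PP_pos (I : ℕ) : 0 < PP I :=
  Finset.prod_pos fun _ hq => (prs_prime hq).1.pos

theorem PP_odd (I : ℕ) : PP I % 2 = 1 := by
  rw [← Nat.odd_iff]
  exact Finset.prod_induction _ Odd (fun _ _ => Odd.mul) odd_one
    fun q hq => (prs_prime hq).1.odd_of_ne_two (prs_prime hq).2

theorem coprime_PP_iff {I n : ℕ} : Nat.Coprime n (PP I) ↔ ∀ q ∈ prs Set.univ I, ¬ q ∣ n := by
  unfold PP
  rw [Nat.coprime_prod_right_iff]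
  refine forall₂_congr fun q hq => ?_
  rw [Nat.coprime_comm, (prs_prime hq).1.coprime_iff_not_dvd]

private theorem sqf_PP (I : ℕ) : Squarefree (PP I) := by
  refine Finset.squarefree_prod_of_pairwise_isCoprime (fun p hp q hq hpq => ?_)
    fun q hq => (prs_prime hq).1.squarefree
  change IsRelPrime p q
  rw [← Nat.coprime_iff_isRelPrime]
  exact (Nat.coprime_primes (prs_prime (mem_coe.1 hp)).1 (prs_prime (mem_coe.1 hq)).1).2 hpq

private theorem sum_prs {C₁ : ℝ} (hC : ∀ i, ∑ q ∈ win i, (1 : ℝ) / q ≤ C₁) (I : ℕ) :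
    ∑ q ∈ prs Set.univ I, (1 : ℝ) / q ≤ C₁ * I := by
  induction I with
  | zero =>
    have h : prs Set.univ 0 = ∅ := by
      rw [eq_empty_iff_forall_notMem]
      intro q hq
      have h1 := (mem_prs.1 hq).1
      have h2 : Z 0 = 1 := rfl
      omega
    rw [h, sum_empty]
    simp
  | succ I ih =>
    have h : prs Set.univ (I + 1) ⊆ prs Set.univ I ∪ win I := by
      intro q hq
      have h1 := (mem_prs.1 hq).1
      rw [mem_union]
      rcases le_or_gt q (Z I) with h2 | h2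
      · exact Or.inl (mem_prs' (prs_prime hq).1 (prs_prime hq).2 h2)
      · exact Or.inr (mem_filter.2 ⟨mem_Ioc.2 ⟨h2, h1.2⟩, prs_prime hq⟩)
    have h0 : ∀ q : ℕ, (0 : ℝ) ≤ 1 / q := fun q => by positivity
    calc ∑ q ∈ prs Set.univ (I + 1), (1 : ℝ) / q
        ≤ ∑ q ∈ prs Set.univ I ∪ win I, (1 : ℝ) / q :=
          sum_le_sum_of_subset_of_nonneg h fun q _ _ => h0 q
      _ ≤ ∑ q ∈ prs Set.univ I, (1 : ℝ) / q + ∑ q ∈ win I, (1 : ℝ) / q := by
          rw [← sum_union_inter]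
          have := sum_nonneg (s := prs Set.univ I ∩ win I) fun q _ => h0 q
          linarith
      _ ≤ C₁ * I + C₁ := add_le_add ih (hC I)
      _ = C₁ * ((I + 1 : ℕ) : ℝ) := by
          push_cast
          ring

private noncomputable def rcp : ArithmeticFunction ℝ := ⟨fun n => 1 / (n : ℝ), by simp⟩

private theorem rcp_mult : rcp.IsMultiplicative := by
  refine ⟨?_, fun {m n} _ => ?_⟩
  · change (1 : ℝ) / ((1 : ℕ) : ℝ) = 1
    simp
  · change (1 : ℝ) / ((m * n : ℕ) : ℝ) = 1 / (m : ℝ) * (1 / (n : ℝ))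
    push_cast
    rw [one_div_mul_one_div]

theorem sum_divisors_le {C₁ : ℝ} (hC : ∀ i, ∑ q ∈ win i, (1 : ℝ) / q ≤ C₁) (I : ℕ) :
    ∑ f ∈ (PP I).divisors, (1 : ℝ) / f ≤ Real.exp (C₁ * I) := by
  have h := rcp_mult.prodPrimeFactors_one_add_of_squarefree (sqf_PP I)
  rw [pf_PP] at h
  have h1 : ∑ f ∈ (PP I).divisors, (1 : ℝ) / f = ∏ p ∈ prs Set.univ I, (1 + 1 / (p : ℝ)) :=
    h.symm
  rw [h1]
  refine le_trans ?_ (Real.exp_le_exp.2 (sum_prs hC I))
  rw [Real.exp_sum]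
  refine prod_le_prod (fun q _ => by positivity) fun q _ => ?_
  rw [add_comm]
  exact Real.add_one_le_exp _

theorem totient_ge {C₁ : ℝ} (hC : ∀ i, ∑ q ∈ win i, (1 : ℝ) / q ≤ C₁) (I : ℕ) :
    Real.exp (-(2 * C₁ * I)) ≤ (Nat.totient (PP I) : ℝ) / PP I := by
  have h := Nat.totient_eq_mul_prod_factors (PP I)
  rw [pf_PP] at h
  have h1 : (Nat.totient (PP I) : ℝ) = (PP I : ℝ) * ∏ p ∈ prs Set.univ I, (1 - (p : ℝ)⁻¹) := by
    have := congrArg (fun x : ℚ => (x : ℝ)) h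
    push_cast at this
    exact this
  have hp : (0 : ℝ) < PP I := by exact_mod_cast PP_pos I
  rw [h1, mul_div_cancel_left₀ _ hp.ne']
  refine le_trans (b := Real.exp (∑ q ∈ prs Set.univ I, -(2 * (q : ℝ)⁻¹)))
    (Real.exp_le_exp.2 ?_) ?_
  · rw [sum_neg_distrib, ← mul_sum]
    have h2 := sum_prs hC I
    simp only [one_div] at h2
    have h3 : 2 * ∑ q ∈ prs Set.univ I, (q : ℝ)⁻¹ ≤ 2 * (C₁ * I) := by linarith
    have h4 : 2 * C₁ * I = 2 * (C₁ * I) := by ring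
    rw [h4]
    linarith
  · rw [Real.exp_sum]
    refine prod_le_prod (fun q _ => (Real.exp_pos _).le) fun q hq => ?_
    have h2 : (2 : ℝ) ≤ q := by exact_mod_cast (prs_prime hq).1.two_le
    have h3 : (q : ℝ)⁻¹ ≤ 1 / 2 := by
      rw [← one_div]
      exact one_div_le_one_div_of_le two_pos h2
    have h4 : 0 ≤ (q : ℝ)⁻¹ := by positivity
    have h5 : 1 + 2 * (q : ℝ)⁻¹ ≤ Real.exp (2 * (q : ℝ)⁻¹) := by
      rw [add_comm]
      exact Real.add_one_le_exp _
    rw [Real.exp_neg]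
    refine le_trans (inv_anti₀ (by positivity) h5) ?_
    rw [inv_le_comm₀ (by positivity) (by linarith), ← one_div, div_le_iff₀ (by linarith)]
    nlinarith

theorem le_of_coprime {I q : ℕ} (hI : 1 ≤ I) (hq : 1 < q) (hodd : q % 2 = 1)
    (h : Nat.Coprime q (PP I)) : 2 ^ 2 ^ (I - 1) ≤ q := by
  obtain ⟨k, rfl⟩ : ∃ k, I = k + 1 := ⟨I - 1, by omega⟩
  have hp : q.minFac.Prime := Nat.minFac_prime (by omega)
  have h2 : q.minFac ≠ 2 := by
    intro h2
    have h3 := Nat.minFac_dvd q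
    rw [h2] at h3
    omega
  by_contra h3
  have h4 : q.minFac ≤ Z (k + 1) := (Nat.minFac_le (by omega)).trans (not_le.1 h3).le
  exact coprime_PP_iff.1 h _ (mem_prs' hp h2 h4) (Nat.minFac_dvd q)

theorem od_dvd_factorial {I q : ℕ} (h : q ∈ prs Set.univ I) : od q ∣ (Z I).factorial := by
  obtain ⟨hq, h2⟩ := prs_prime h
  have h1 := (mem_prs.1 h).1
  have : Fact q.Prime := ⟨hq⟩
  have h3 : (2 : ZMod q) ≠ 0 := by
    intro h4
    have h5 : ((2 : ℕ) : ZMod q) = 0 := by exact_mod_cast h4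
    rw [ZMod.natCast_eq_zero_iff] at h5
    exact h2 ((Nat.prime_dvd_prime_iff_eq hq Nat.prime_two).1 h5)
  have h4 : od q ∣ q - 1 := ZMod.orderOf_dvd_card_sub_one h3
  have h5 : 0 < q - 1 := by omega
  exact Nat.dvd_factorial (Nat.pos_of_dvd_of_pos h4 h5)
    ((Nat.le_of_dvd h5 h4).trans (by omega))

end Pool.Agent.SPO
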