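import Pool.Agent.SPO.RepK
import Pool.Agent.TwoSqPow.PowSum

/-!
# Package A12: pairs of sums of `k` powers of 2 which are congruent modulo `g`

Let `ℓ = Nat.log 2 g ≥ 1`, `κ` with `2k ≤ 2^κ`. If `ℓ < 2κ`: the number is at most `B^(2k)` and
`ℓ^k ≤ (2κ)^k`.

Let `ℓ ≥ 2κ`, `w = ℓ - κ ≥ ℓ/2`, `w ≥ 1`. `T(x) = ∑_{j < B} ex(x 2^j)`. By orthogonality
(`ex_sum_range`) the number is
`(1/g) ∑_{r < g} ex(r h/g) |T(r/g)|^{2k} ≤ (1/g) ∑_{r < g} |T(r/g)|^{2k}`.
Split `[0, B)` into `n = B/w + 1 ≤ 2B/w` windows `[iw, (i+1)w) ∩ [0, B)` (`w ≤ ℓ ≤ B`), `T = ∑_i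
T_i`, and
`|T|^{2k} ≤ n^{2k-1} ∑_i |T_i|^{2k}` (power mean, `inner_le_nnorm_mul_nnorm` or
`inner_mul_le_norm_mul_norm`; `Finset.inner_mul_le...`; `Real.pow_sum_div_card_le_sum_pow`).
`(1/g) ∑_r |T_i(r/g)|^{2k}` is the number of `(a, a')`, all exponents in the window `i`, with
`∑ 2^{a_m} ≡ ∑ 2^{a'_m} mod g`. Divide by `2^{iw}` (`g` is odd): the exponents are in `[0, w)`,
both sums are
`≤ k 2^{w-1} < 2^ℓ ≤ g`, so the sums are equal; by `rep_count` there are at most `C_k w^k` such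
pairs. So the number
is at most `n^{2k} C_k w^k ≤ (2B/w)^{2k} C_k w^k = 4^k C_k B^{2k} w^{-k} ≤ 8^k C_k B^{2k} ℓ^{-k}`.
-/

set_option autoImplicit false

namespace Pool.Agent.SPO

open Finset Pool.Agent.TwoSqPow

section

variable {k : ℕ}

/-- the functions from `Fin k` to `D` -/
private def PP (k : ℕ) (D : Finset ℕ) : Finset (Fin k → ℕ) := Fintype.piFinset fun _ => D

/-- the sum of the powers -/
private def fs (a : Fin k → ℕ) : ℤ := ∑ m, (2 : ℤ) ^ a m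

/-- the pairs which are congruent up to `h` -/
private def cnt (k g : ℕ) (h : ℤ) (D : Finset ℕ) : ℕ :=
  #{x ∈ PP k D ×ˢ PP k D | (g : ℤ) ∣ fs x.1 - fs x.2 + h}

/-- the exponential sum -/
private noncomputable def TT (D : Finset ℕ) (t : ℝ) : ℂ := ∑ j ∈ D, ex (t * (2 : ℝ) ^ j)

private lemma ex_fs (t : ℝ) (a : Fin k → ℕ) : ex (t * (fs a : ℤ)) = ∏ m, ex (t * (2 : ℝ) ^ a m) := by
  classical
  have h : ∀ s : Finset (Fin k), ex (t * ((∑ m ∈ s, (2 : ℤ) ^ a m : ℤ) : ℝ)) =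
      ∏ m ∈ s, ex (t * (2 : ℝ) ^ a m) := by
    intro s
    induction s using Finset.induction_on with
    | empty => simp [ex_zero]
    | insert m s hm ih =>
      rw [sum_insert hm, prod_insert hm, ← ih, ← ex_add]
      congr 1
      push_cast
      ring
  exact h univ

private lemma tt_pow (k : ℕ) (D : Finset ℕ) (t : ℝ) :
    TT D t ^ k = ∑ a ∈ PP k D, ex (t * (fs a : ℤ)) := by
  have h := Finset.prod_univ_sum (ι := Fin k) (fun _ => D) fun _ j => ex (t * (2 : ℝ) ^ j)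
  rw [prod_const, card_univ, Fintype.card_fin] at h
  unfold TT PP
  rw [h]
  exact sum_congr rfl fun a _ => (ex_fs t a).symm

private lemma tt_conj (k : ℕ) (D : Finset ℕ) (t : ℝ) :
    (starRingEnd ℂ) (TT D t) ^ k = ∑ a ∈ PP k D, ex (-(t * (fs a : ℤ))) := by
  rw [← map_pow, tt_pow, map_sum]
  exact sum_congr rfl fun a _ => (ex_neg _).symm

private lemma cnt_eq {g : ℕ} (hg : 0 < g) (h : ℤ) (D : Finset ℕ) :
    ((cnt k g h D : ℝ) * g : ℂ) = ∑ r ∈ range g, ex ((r : ℝ) / g * h) *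
      (TT D ((r : ℝ) / g) ^ k * (starRingEnd ℂ) (TT D ((r : ℝ) / g)) ^ k) := by
  have e1 : ∀ r ∈ range g, ex ((r : ℝ) / g * h) *
      (TT D ((r : ℝ) / g) ^ k * (starRingEnd ℂ) (TT D ((r : ℝ) / g)) ^ k) =
      ∑ x ∈ PP k D ×ˢ PP k D, ex ((r : ℝ) / g * ((fs x.1 - fs x.2 + h : ℤ) : ℝ)) := by
    intro r _
    rw [tt_pow, tt_conj, sum_mul_sum, mul_sum, sum_product]
    refine sum_congr rfl fun a _ => ?_
    rw [mul_sum]
    refine sum_congr rfl fun b _ => ?_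
    rw [← ex_add, ← ex_add]
    congr 1
    push_cast
    ring
  rw [sum_congr rfl e1, sum_comm]
  simp_rw [ex_sum_range hg]
  rw [← sum_filter, sum_const, nsmul_eq_mul]
  unfold cnt
  push_cast
  rfl

private lemma cnt_le {g : ℕ} (hg : 0 < g) (h : ℤ) (D : Finset ℕ) :
    (cnt k g h D : ℝ) * g ≤ ∑ r ∈ range g, ‖TT D ((r : ℝ) / g)‖ ^ (2 * k) := by
  have h1 := congrArg (fun z : ℂ => ‖z‖) (cnt_eq (k := k) hg h D)
  have h2 : ‖((cnt k g h D : ℝ) * g : ℂ)‖ = (cnt k g h D : ℝ) * g := by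
    rw [norm_mul, Complex.norm_real, Complex.norm_natCast, Real.norm_of_nonneg (Nat.cast_nonneg _)]
  simp only [h2] at h1
  rw [h1]
  refine (norm_sum_le _ _).trans (sum_le_sum fun r _ => ?_)
  rw [norm_mul, norm_ex, one_mul, norm_mul, norm_pow, norm_pow, RCLike.norm_conj, ← pow_add,
    two_mul]

private lemma cnt_zero {g : ℕ} (hg : 0 < g) (D : Finset ℕ) :
    ∑ r ∈ range g, ‖TT D ((r : ℝ) / g)‖ ^ (2 * k) = (cnt k g 0 D : ℝ) * g := by
  apply Complex.ofReal_injective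
  have h1 := cnt_eq (k := k) hg 0 D
  rw [Complex.ofReal_sum, Complex.ofReal_mul, Complex.ofReal_natCast (g : ℕ), h1]
  refine sum_congr rfl fun r _ => ?_
  rw [Int.cast_zero, mul_zero, ex_zero, one_mul, ← mul_pow, Complex.mul_conj,
    Complex.normSq_eq_norm_sq, pow_mul]
  push_cast
  rfl

private lemma mem_pp {D : Finset ℕ} {a : Fin k → ℕ} : a ∈ PP k D ↔ ∀ m, a m ∈ D := by
  unfold PP
  exact Fintype.mem_piFinset

/-- in a window congruent sums are equal -/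
private lemma win_eq {g w s : ℕ} (hodd : g % 2 = 1) (hw : 1 ≤ w) (hg : k * 2 ^ (w - 1) < g)
    {a b : Fin k → ℕ} (ha : ∀ m, s ≤ a m ∧ a m < s + w) (hb : ∀ m, s ≤ b m ∧ b m < s + w)
    (h : (g : ℤ) ∣ fs a - fs b) : fs a = fs b := by
  have e : ∀ c : Fin k → ℕ, (∀ m, s ≤ c m ∧ c m < s + w) →
      fs c = 2 ^ s * ∑ m, (2 : ℤ) ^ (c m - s) ∧ 0 ≤ ∑ m, (2 : ℤ) ^ (c m - s) ∧
        ∑ m, (2 : ℤ) ^ (c m - s) ≤ k * 2 ^ (w - 1) := by
    intro c hc
    refine ⟨?_, sum_nonneg fun m _ => by positivity, ?_⟩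
    · unfold fs
      rw [mul_sum]
      refine sum_congr rfl fun m _ => ?_
      rw [← pow_add]
      congr 1
      have := hc m
      omega
    · calc ∑ m, (2 : ℤ) ^ (c m - s) ≤ ∑ _m : Fin k, (2 : ℤ) ^ (w - 1) := by
            refine sum_le_sum fun m _ => ?_
            refine pow_le_pow_right₀ (by norm_num) ?_
            have := hc m
            omega
        _ = k * 2 ^ (w - 1) := by simp
  obtain ⟨a1, a2, a3⟩ := e a ha
  obtain ⟨b1, b2, b3⟩ := e b hb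
  rw [a1, b1, ← mul_sub] at h
  have hcop : IsCoprime (g : ℤ) (2 ^ s) := by
    apply IsCoprime.pow_right
    rw [Int.isCoprime_iff_gcd_eq_one]
    have : Nat.Coprime g 2 := by
      rw [Nat.coprime_two_right]
      exact Nat.odd_iff.mpr hodd
    exact_mod_cast this
  have h1 := hcop.dvd_of_dvd_mul_left h
  have hg' : ((k : ℤ) * 2 ^ (w - 1)) < g := by exact_mod_cast hg
  have h2 : (∑ m, (2 : ℤ) ^ (a m - s)) - ∑ m, (2 : ℤ) ^ (b m - s) = 0 := by
    refine Int.eq_zero_of_abs_lt_dvd h1 ?_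
    rw [abs_lt]
    constructor
    · linarith
    · linarith
  rw [a1, b1]
  congr 1
  linarith

private lemma cnt_win {C : ℕ} (hC : ∀ (n : ℕ) (S : Finset (Fin k → ℕ)),
    (∀ a ∈ S, ∑ m, 2 ^ a m = n) → #S ≤ C) {g w s : ℕ} (hodd : g % 2 = 1) (hw : 1 ≤ w)
    (hg : k * 2 ^ (w - 1) < g) {D : Finset ℕ} (hD : ∀ j ∈ D, s ≤ j ∧ j < s + w) :
    cnt k g 0 D ≤ w ^ k * C := by
  have hDc : #D ≤ w := by
    have h1 : D ⊆ Finset.Ico s (s + w) := fun j hj => Finset.mem_Ico.2 (hD j hj)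
    have h2 := card_le_card h1
    rwa [Nat.card_Ico, Nat.add_sub_cancel_left] at h2
  have hP : #(PP k D) ≤ w ^ k := by
    unfold PP
    rw [Fintype.card_piFinset_const]
    exact Nat.pow_le_pow_left hDc k
  unfold cnt
  have h1 : ∀ a ∈ PP k D, #{b ∈ PP k D | (g : ℤ) ∣ fs a - fs b + 0} ≤ C := by
    intro a ha
    refine hC (∑ m, 2 ^ a m) _ fun b hb => ?_
    obtain ⟨hb1, hb2⟩ := mem_filter.1 hb
    rw [add_zero] at hb2
    have h2 := win_eq hodd hw hg (fun m => hD _ (mem_pp.1 ha m)) (fun m => hD _ (mem_pp.1 hb1 m))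
      hb2
    unfold fs at h2
    exact_mod_cast h2.symm
  calc #{x ∈ PP k D ×ˢ PP k D | (g : ℤ) ∣ fs x.1 - fs x.2 + 0}
      = ∑ a ∈ PP k D, #{b ∈ PP k D | (g : ℤ) ∣ fs a - fs b + 0} := by
        rw [card_filter, sum_product]
        exact sum_congr rfl fun a _ => (card_filter _ _).symm
    _ ≤ ∑ _a ∈ PP k D, C := sum_le_sum h1
    _ = #(PP k D) * C := by rw [sum_const, smul_eq_mul]
    _ ≤ w ^ k * C := Nat.mul_le_mul_right _ hP

end

theorem pair_count {k : ℕ} (hk : 1 ≤ k) : ∃ C : ℝ, 0 < C ∧ ∀ (g B : ℕ) (h : ℤ), 3 ≤ g →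
    g % 2 = 1 → Nat.log 2 g ≤ B →
    (#{x : (Fin k → Fin B) × (Fin k → Fin B) | (g : ℤ) ∣
      (∑ m, (2 : ℤ) ^ (x.1 m : ℕ)) - (∑ m, (2 : ℤ) ^ (x.2 m : ℕ)) + h} : ℝ) *
      (Nat.log 2 g : ℝ) ^ k ≤ C * (B : ℝ) ^ (2 * k) := by
  classical
  obtain ⟨C, hC⟩ := rep_count k
  refine ⟨C * 8 ^ k + (2 * k) ^ k, by positivity, fun g B h hg hodd hB => ?_⟩
  have hg0 : 0 < g := by omega
  set N := #{x : (Fin k → Fin B) × (Fin k → Fin B) | (g : ℤ) ∣
      (∑ m, (2 : ℤ) ^ (x.1 m : ℕ)) - (∑ m, (2 : ℤ) ^ (x.2 m : ℕ)) + h} with hN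
  set l := Nat.log 2 g with hl
  have hB0 : (0 : ℝ) ≤ (B : ℝ) ^ (2 * k) := by positivity
  by_cases hlk : l < 2 * k
  · have h1 : N ≤ B ^ (2 * k) := by
      refine (card_le_univ _).trans (le_of_eq ?_)
      rw [Fintype.card_prod, Fintype.card_fun, Fintype.card_fin, Fintype.card_fin]
      ring
    have h2 : (N : ℝ) ≤ (B : ℝ) ^ (2 * k) := by exact_mod_cast h1
    have h3 : (l : ℝ) ^ k ≤ (2 * k) ^ k := by
      have h4 : (l : ℝ) ≤ 2 * k := by exact_mod_cast hlk.le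
      exact pow_le_pow_left₀ (Nat.cast_nonneg _) h4 k
    calc (N : ℝ) * (l : ℝ) ^ k ≤ (B : ℝ) ^ (2 * k) * (2 * k) ^ k :=
          mul_le_mul h2 h3 (by positivity) (by positivity)
      _ ≤ (C * 8 ^ k + (2 * k) ^ k) * (B : ℝ) ^ (2 * k) := by
          have h5 : (0 : ℝ) ≤ (C : ℝ) * 8 ^ k * (B : ℝ) ^ (2 * k) := by positivity
          nlinarith
  · have hlk' : 2 * k ≤ l := not_lt.1 hlk
    set w := l - k with hw
    have hw1 : 1 ≤ w := by omega
    have hlw : l ≤ 2 * w := by omega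
    have hgw : k * 2 ^ (w - 1) < g := by
      have h1 : k < 2 ^ k := Nat.lt_two_pow_self
      have h2 : k * 2 ^ (w - 1) < 2 ^ k * 2 ^ (w - 1) :=
        Nat.mul_lt_mul_of_pos_right h1 (by positivity)
      have h3 : 2 ^ k * 2 ^ (w - 1) ≤ 2 ^ l := by
        rw [← pow_add]
        exact Nat.pow_le_pow_right (by norm_num) (by omega)
      have h4 : 2 ^ l ≤ g := Nat.pow_log_le_self 2 (by omega)
      omega
    set n := B / w + 1 with hn
    have hnw : n * w ≤ 2 * B := by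
      have h1 : B / w * w ≤ B := Nat.div_mul_le_self B w
      have h2 : w ≤ B := by omega
      rw [hn, add_mul, one_mul]
      omega
    -- the windows
    set Dw : ℕ → Finset ℕ := fun i => {j ∈ range B | j / w = i} with hDw
    have hsplit : ∀ t : ℝ, TT (range B) t = ∑ i ∈ range n, TT (Dw i) t := by
      intro t
      unfold TT
      rw [hDw]
      refine (sum_fiberwise_of_maps_to (fun j hj => ?_) _).symm
      rw [mem_range] at hj ⊢
      have : j / w ≤ B / w := Nat.div_le_div_right hj.le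
      omega
    have hmom : ∀ i, ∑ r ∈ range g, ‖TT (Dw i) ((r : ℝ) / g)‖ ^ (2 * k) ≤
        ((w : ℝ) ^ k * C) * g := by
      intro i
      rw [cnt_zero hg0]
      have h1 := cnt_win hC hodd hw1 hgw (D := Dw i) (s := i * w) fun j hj => by
        rw [hDw] at hj
        obtain ⟨-, hj2⟩ := mem_filter.1 hj
        have h2 := Nat.div_add_mod j w
        have h3 := Nat.mod_lt j (show 0 < w by omega)
        rw [hj2, mul_comm] at h2
        omega
      have h2 : (cnt k g 0 (Dw i) : ℝ) ≤ (w : ℝ) ^ k * C := by exact_mod_cast h1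
      exact mul_le_mul_of_nonneg_right h2 (Nat.cast_nonneg _)
    have hpm : ∀ t : ℝ, ‖TT (range B) t‖ ^ (2 * k) ≤
        (n : ℝ) ^ (2 * k - 1) * ∑ i ∈ range n, ‖TT (Dw i) t‖ ^ (2 * k) := by
      intro t
      rw [hsplit]
      have h1 : ‖∑ i ∈ range n, TT (Dw i) t‖ ^ (2 * k) ≤
          (∑ i ∈ range n, ‖TT (Dw i) t‖) ^ (2 * k) :=
        pow_le_pow_left₀ (norm_nonneg _) (norm_sum_le _ _) _
      have h2 := pow_sum_div_card_le_sum_pow (s := range n) (f := fun i => ‖TT (Dw i) t‖)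
        (fun i _ => norm_nonneg _) (2 * k - 1)
      rw [card_range, Nat.sub_add_cancel (by omega), div_le_iff₀' (by positivity)] at h2
      exact h1.trans h2
    have hcle : (cnt k g h (range B) : ℝ) ≤ (n : ℝ) ^ (2 * k) * ((w : ℝ) ^ k * C) := by
      have h1 : (cnt k g h (range B) : ℝ) * g ≤
          (n : ℝ) ^ (2 * k) * ((w : ℝ) ^ k * C) * g := by
        calc (cnt k g h (range B) : ℝ) * g
            ≤ ∑ r ∈ range g, ‖TT (range B) ((r : ℝ) / g)‖ ^ (2 * k) := cnt_le hg0 h _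
          _ ≤ ∑ r ∈ range g, (n : ℝ) ^ (2 * k - 1) *
              ∑ i ∈ range n, ‖TT (Dw i) ((r : ℝ) / g)‖ ^ (2 * k) := sum_le_sum fun r _ => hpm _
          _ = (n : ℝ) ^ (2 * k - 1) *
              ∑ i ∈ range n, ∑ r ∈ range g, ‖TT (Dw i) ((r : ℝ) / g)‖ ^ (2 * k) := by
              rw [← mul_sum, sum_comm]
          _ ≤ (n : ℝ) ^ (2 * k - 1) * ∑ _i ∈ range n, ((w : ℝ) ^ k * C) * g :=
              mul_le_mul_of_nonneg_left (sum_le_sum fun i _ => hmom i) (by positivity)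
          _ = (n : ℝ) ^ (2 * k - 1) * n * ((w : ℝ) ^ k * C) * g := by
              rw [sum_const, card_range, nsmul_eq_mul]
              ring
          _ = (n : ℝ) ^ (2 * k) * ((w : ℝ) ^ k * C) * g := by
              rw [← pow_succ, Nat.sub_add_cancel (by omega)]
      exact le_of_mul_le_mul_right h1 (by exact_mod_cast hg0)
    have hNle : N ≤ cnt k g h (range B) := by
      rw [hN]
      unfold cnt
      refine card_le_card_of_injOn
        (fun x => ((fun m => (x.1 m : ℕ)), fun m => (x.2 m : ℕ))) ?_ ?_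
      · intro x hx
        have hx' := (mem_filter.1 (mem_coe.1 hx)).2
        refine mem_coe.2 (mem_filter.2 ⟨mem_product.2 ⟨mem_pp.2 fun m => ?_,
          mem_pp.2 fun m => ?_⟩, hx'⟩)
        · exact mem_range.2 (x.1 m).2
        · exact mem_range.2 (x.2 m).2
      · intro x _ y _ hxy
        simp only [Prod.mk.injEq] at hxy
        refine Prod.ext (funext fun m => Fin.ext ?_) (funext fun m => Fin.ext ?_)
        · exact congrFun hxy.1 m
        · exact congrFun hxy.2 m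
    have hNr : (N : ℝ) ≤ (n : ℝ) ^ (2 * k) * ((w : ℝ) ^ k * C) :=
      le_trans (by exact_mod_cast hNle) hcle
    have hlr : (l : ℝ) ^ k ≤ (2 * w) ^ k := by
      have h4 : (l : ℝ) ≤ 2 * w := by exact_mod_cast hlw
      exact pow_le_pow_left₀ (Nat.cast_nonneg _) h4 k
    have hnwr : ((n : ℝ) * w) ^ (2 * k) ≤ (2 * B) ^ (2 * k) := by
      have h4 : (n : ℝ) * w ≤ 2 * B := by exact_mod_cast hnw
      exact pow_le_pow_left₀ (by positivity) h4 _
    calc (N : ℝ) * (l : ℝ) ^ k ≤ ((n : ℝ) ^ (2 * k) * ((w : ℝ) ^ k * C)) * (2 * w) ^ k :=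
          mul_le_mul hNr hlr (by positivity) (by positivity)
      _ = (C * 2 ^ k) * ((n : ℝ) * w) ^ (2 * k) := by
          rw [mul_pow 2 (w : ℝ) k, mul_pow (n : ℝ) (w : ℝ) (2 * k), two_mul k, pow_add (w : ℝ)]
          ring
      _ ≤ (C * 2 ^ k) * (2 * B) ^ (2 * k) := mul_le_mul_of_nonneg_left hnwr (by positivity)
      _ = C * 8 ^ k * (B : ℝ) ^ (2 * k) := by
          have h8 : (8 : ℝ) ^ k = 2 ^ k * 2 ^ (2 * k) := by
            rw [pow_mul, ← mul_pow]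
            norm_num
          rw [mul_pow, h8]
          ring
      _ ≤ (C * 8 ^ k + (2 * k) ^ k) * (B : ℝ) ^ (2 * k) := by
          have h5 : (0 : ℝ) ≤ (2 * (k : ℝ)) ^ k * (B : ℝ) ^ (2 * k) := by positivity
          nlinarith

end Pool.Agent.SPO
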