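import Pool.Agent.SPO.ADefs
import Pool.Agent.SPO.PairC

/-!
# Package A13: congruent pairs of exponent blocks

`sB l M b = ∑_m 2^{b 0 m} + R(b)` where `R(b) = ∑_{t ≥ 1} coef l M t · ∑_m 2^{b t m}` depends only
on the blocks `t ≥ 1`
(`coef l M 0 = 1`, empty product; `Fin.sum_univ_succ`). `g ∣ 4 sB b - 4 sB b'` iff `g ∣ sB b - sB
b'` as `g` is odd.
Fix the blocks `t ≥ 1` of `b` and `b'` (`B^{kJ}` choices each): by `pair_count` with `h = R(b) -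
R(b')` the number of
`(b 0, b' 0)` times `(log₂ g)^k` is at most `C B^{2k}`. Total `≤ C B^{2k} B^{2kJ} = C
(B^{k(J+1)})²`.
-/

set_option autoImplicit false

namespace Pool.Agent.SPO

open Finset

/-- the part of `sB` of the blocks `t ≥ 1` -/
private def RR (l : ℕ → ℕ) (M : ℕ) {J k B : ℕ} (c : Fin J → Fin k → Fin B) : ℕ :=
  ∑ t : Fin J, coef l M (t + 1) * ∑ m : Fin k, 2 ^ (c t m : ℕ)

private theorem sB_eq (l : ℕ → ℕ) (M : ℕ) {J k B : ℕ} (b : Fin (J + 1) → Fin k → Fin B) :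
    sB l M b = ∑ m : Fin k, 2 ^ (b 0 m : ℕ) + RR l M (Fin.tail b) := by
  rw [sB, Fin.sum_univ_succ, RR]
  congr 1
  rw [Fin.val_zero, coef, range_zero, prod_empty, one_mul]

private theorem dvd_four {g : ℕ} (hg : g % 2 = 1) {z : ℤ} (h : (g : ℤ) ∣ 4 * z) : (g : ℤ) ∣ z := by
  have h1 : Nat.Coprime g 2 := Nat.coprime_two_right.2 (Nat.odd_iff.2 hg)
  have h2 : Nat.Coprime g 4 := by
    have h3 := Nat.Coprime.pow_right 2 h1
    norm_num at h3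
    exact h3
  have h3 : IsCoprime (g : ℤ) ((4 : ℕ) : ℤ) := Nat.isCoprime_iff_coprime.2 h2
  exact h3.dvd_of_dvd_mul_left h

theorem pair_sB {k : ℕ} (hk : 1 ≤ k) (J : ℕ) : ∃ C : ℝ, 0 < C ∧ ∀ (l : ℕ → ℕ) (M g B : ℕ),
    3 ≤ g → g % 2 = 1 → Nat.log 2 g ≤ B →
    (pr (univ : Finset (Fin (J + 1) → Fin k → Fin B)) (fun b => 4 * sB l M b) g : ℝ) *
      (Nat.log 2 g : ℝ) ^ k ≤ C * ((B : ℝ) ^ (k * (J + 1))) ^ 2 := by
  obtain ⟨C, hC, hpair⟩ := pair_count hk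
  refine ⟨C, hC, fun l M g B hg3 hg hlog => ?_⟩
  obtain ⟨h, hh⟩ : ∃ h : (Fin J → Fin k → Fin B) × (Fin J → Fin k → Fin B) → ℤ,
      ∀ c, h c = (RR l M c.1 : ℤ) - RR l M c.2 := ⟨_, fun _ => rfl⟩
  have h1 : pr (univ : Finset (Fin (J + 1) → Fin k → Fin B)) (fun b => 4 * sB l M b) g ≤
      ∑ c : (Fin J → Fin k → Fin B) × (Fin J → Fin k → Fin B),
        #{x : (Fin k → Fin B) × (Fin k → Fin B) | (g : ℤ) ∣
          (∑ m, (2 : ℤ) ^ (x.1 m : ℕ)) - (∑ m, (2 : ℤ) ^ (x.2 m : ℕ)) + h c} := by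
    rw [pr, card_eq_sum_card_fiberwise (f := fun y : (Fin (J + 1) → Fin k → Fin B) ×
      (Fin (J + 1) → Fin k → Fin B) => (Fin.tail y.1, Fin.tail y.2)) (t := univ)
      (fun _ _ => mem_coe.2 (mem_univ _))]
    refine sum_le_sum fun c _ => ?_
    refine card_le_card_of_injOn (fun y => (y.1 0, y.2 0)) (fun y hy => ?_) fun y hy y' hy' he => ?_
    · rw [mem_coe, mem_filter, mem_filter] at hy
      obtain ⟨⟨-, hd⟩, hc⟩ := hy
      rw [mem_coe, mem_filter]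
      refine ⟨mem_univ _, ?_⟩
      have h2 : ((4 * sB l M y.1 : ℕ) : ℤ) - ((4 * sB l M y.2 : ℕ) : ℤ) =
          4 * ((∑ m, (2 : ℤ) ^ (y.1 0 m : ℕ)) - (∑ m, (2 : ℤ) ^ (y.2 0 m : ℕ)) + h c) := by
        rw [← hc, hh, sB_eq, sB_eq]
        push_cast
        ring
      rw [h2] at hd
      exact dvd_four hg hd
    · rw [mem_coe, mem_filter] at hy hy'
      have h3 : (Fin.tail y.1, Fin.tail y.2) = (Fin.tail y'.1, Fin.tail y'.2) :=
        hy.2.trans hy'.2.symm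
      have h4 := (Prod.ext_iff.1 h3).1
      have h5 := (Prod.ext_iff.1 h3).2
      have h6 := (Prod.ext_iff.1 he).1
      have h7 := (Prod.ext_iff.1 he).2
      simp only at h4 h5 h6 h7
      refine Prod.ext ?_ ?_
      · rw [← Fin.cons_self_tail y.1, ← Fin.cons_self_tail y'.1, h4, h6]
      · rw [← Fin.cons_self_tail y.2, ← Fin.cons_self_tail y'.2, h5, h7]
  have h2 : (pr (univ : Finset (Fin (J + 1) → Fin k → Fin B)) (fun b => 4 * sB l M b) g : ℝ) ≤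
      ∑ c : (Fin J → Fin k → Fin B) × (Fin J → Fin k → Fin B),
        (#{x : (Fin k → Fin B) × (Fin k → Fin B) | (g : ℤ) ∣
          (∑ m, (2 : ℤ) ^ (x.1 m : ℕ)) - (∑ m, (2 : ℤ) ^ (x.2 m : ℕ)) + h c} : ℝ) := by
    exact_mod_cast h1
  calc _ ≤ (∑ c : (Fin J → Fin k → Fin B) × (Fin J → Fin k → Fin B),
        (#{x : (Fin k → Fin B) × (Fin k → Fin B) | (g : ℤ) ∣
          (∑ m, (2 : ℤ) ^ (x.1 m : ℕ)) - (∑ m, (2 : ℤ) ^ (x.2 m : ℕ)) + h c} : ℝ)) *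
          (Nat.log 2 g : ℝ) ^ k := mul_le_mul_of_nonneg_right h2 (by positivity)
    _ = ∑ c : (Fin J → Fin k → Fin B) × (Fin J → Fin k → Fin B),
        (#{x : (Fin k → Fin B) × (Fin k → Fin B) | (g : ℤ) ∣
          (∑ m, (2 : ℤ) ^ (x.1 m : ℕ)) - (∑ m, (2 : ℤ) ^ (x.2 m : ℕ)) + h c} : ℝ) *
          (Nat.log 2 g : ℝ) ^ k := sum_mul _ _ _
    _ ≤ ∑ c : (Fin J → Fin k → Fin B) × (Fin J → Fin k → Fin B), C * (B : ℝ) ^ (2 * k) :=
        sum_le_sum fun c _ => hpair g B (h c) hg3 hg hlog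
    _ = C * ((B : ℝ) ^ (k * (J + 1))) ^ 2 := by
        rw [sum_const, card_univ, Fintype.card_prod, Fintype.card_fun, Fintype.card_fun,
          Fintype.card_fin, Fintype.card_fin, Fintype.card_fin, nsmul_eq_mul]
        push_cast
        ring

end Pool.Agent.SPO
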