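import Mathlib

/-!
# Package A09: the tail of `∑ 1/(q (log q)^k)`

Group the `q ∈ S` by `i = Nat.log 2 q ≥ a`: the sum over `2^i ≤ q < 2^(i+1)` of `1/(q i^k)` is at
most `1/i^k`
(`2^i` terms, each `≤ 1/(2^i i^k)`). And `∑_{i=a}^{n} 1/i^k ≤ a^(2-k) ∑_{i ≥ a} 1/i² ≤ a^(2-k) ·
2/a = 2/a^(k-1)`
(`1/i² ≤ 2/i - 2/(i+1)` for `i ≥ 1`). See `dyadic_sum` in `Pool/Agent/TwoSqPow/WBound.lean`.
-/

set_option autoImplicit false

namespace Pool.Agent.SPO

open Finset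

private theorem tail_card (S : Finset ℕ) (hS : ∀ q ∈ S, q ≠ 0) (i : ℕ) :
    (S.filter (fun q => Nat.log 2 q = i)).card ≤ 2 ^ i := by
  have hsub : S.filter (fun q => Nat.log 2 q = i) ⊆ Finset.Ico (2 ^ i) (2 ^ (i + 1)) := by
    intro q hq
    rw [Finset.mem_filter] at hq
    rw [Finset.mem_Ico]
    have h0 := hS q hq.1
    refine ⟨?_, ?_⟩
    · rw [← hq.2]
      exact Nat.pow_log_le_self 2 h0
    · rw [← hq.2]
      exact Nat.lt_pow_succ_log_self (by norm_num) q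
  have := Finset.card_le_card hsub
  rw [Nat.card_Ico] at this
  have h2 : 2 ^ (i + 1) - 2 ^ i = 2 ^ i := by
    rw [pow_succ]; omega
  omega

private theorem tail_fiber (S : Finset ℕ) (hS : ∀ q ∈ S, q ≠ 0) (i k : ℕ) (hi : 1 ≤ i) :
    ∑ q ∈ S.filter (fun q => Nat.log 2 q = i), (1 : ℝ) / (q * (Nat.log 2 q : ℝ) ^ k)
      ≤ 1 / (i : ℝ) ^ k := by
  have hi' : (0 : ℝ) < i := by exact_mod_cast hi
  have hik : (0 : ℝ) < (i : ℝ) ^ k := by positivity
  have h1 : ∀ q ∈ S.filter (fun q => Nat.log 2 q = i),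
      (1 : ℝ) / (q * (Nat.log 2 q : ℝ) ^ k) ≤ 1 / (2 ^ i * (i : ℝ) ^ k) := by
    intro q hq
    rw [Finset.mem_filter] at hq
    rw [hq.2]
    have h0 := hS q hq.1
    have hq2 : (2 : ℝ) ^ i ≤ q := by
      have := Nat.pow_log_le_self 2 h0
      rw [hq.2] at this
      exact_mod_cast this
    apply one_div_le_one_div_of_le
    · positivity
    · exact mul_le_mul_of_nonneg_right hq2 hik.le
  have h2 := Finset.sum_le_card_nsmul _ _ _ h1
  have h3 : ((S.filter (fun q => Nat.log 2 q = i)).card : ℝ) ≤ 2 ^ i := by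
    exact_mod_cast tail_card S hS i
  rw [nsmul_eq_mul] at h2
  refine h2.trans ?_
  have h4 : ((S.filter (fun q => Nat.log 2 q = i)).card : ℝ) * (1 / (2 ^ i * (i : ℝ) ^ k))
      ≤ 2 ^ i * (1 / (2 ^ i * (i : ℝ) ^ k)) := by
    apply mul_le_mul_of_nonneg_right h3
    positivity
  refine h4.trans (le_of_eq ?_)
  field_simp

private theorem tail_tele (a : ℕ) (ha : 1 ≤ a) (n : ℕ) :
    ∑ i ∈ Finset.Ico a (a + n), (1 : ℝ) / (i : ℝ) ^ 2 ≤ 2 / a - 2 / (a + n : ℕ) := by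
  induction n with
  | zero => simp
  | succ n ih =>
    rw [← add_assoc, Finset.sum_Ico_succ_top (by omega)]
    have hpos : (1 : ℝ) ≤ ((a + n : ℕ) : ℝ) := by
      exact_mod_cast (by omega : 1 ≤ a + n)
    have hstep : (1 : ℝ) / ((a + n : ℕ) : ℝ) ^ 2
        ≤ 2 / ((a + n : ℕ) : ℝ) - 2 / ((a + n + 1 : ℕ) : ℝ) := by
      have hc : ((a + n + 1 : ℕ) : ℝ) = ((a + n : ℕ) : ℝ) + 1 := by push_cast; ring
      rw [hc]
      generalize ((a + n : ℕ) : ℝ) = x at hpos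
      have hx : 0 < x := by linarith
      have hx1 : 0 < x + 1 := by linarith
      rw [div_sub_div _ _ hx.ne' hx1.ne', div_le_div_iff₀ (by positivity) (by positivity)]
      nlinarith [mul_pos hx hx]
    linarith

theorem tail_sum {a k : ℕ} (ha : 1 ≤ a) (hk : 2 ≤ k) (S : Finset ℕ) (hS : ∀ q ∈ S, 2 ^ a ≤ q) :
    ∑ q ∈ S, (1 : ℝ) / (q * (Nat.log 2 q : ℝ) ^ k) ≤ 2 / (a : ℝ) ^ (k - 1) := by
  have hS0 : ∀ q ∈ S, q ≠ 0 := by
    intro q hq h0
    have := hS q hq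
    have h2 : 0 < 2 ^ a := by positivity
    omega
  have hlog : ∀ q ∈ S, a ≤ Nat.log 2 q := by
    intro q hq
    exact Nat.le_log_of_pow_le (by norm_num) (hS q hq)
  obtain ⟨n, hn⟩ : ∃ n, ∀ q ∈ S, Nat.log 2 q < a + n := by
    refine ⟨S.sup (fun q => Nat.log 2 q) + 1, fun q hq => ?_⟩
    have : Nat.log 2 q ≤ S.sup (fun q => Nat.log 2 q) :=
      Finset.le_sup (f := fun q => Nat.log 2 q) hq
    omega
  have hmaps : ∀ q ∈ S, Nat.log 2 q ∈ Finset.Ico a (a + n) := by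
    intro q hq
    rw [Finset.mem_Ico]
    exact ⟨hlog q hq, hn q hq⟩
  rw [← Finset.sum_fiberwise_of_maps_to hmaps]
  have ha' : (1 : ℝ) ≤ a := by exact_mod_cast ha
  have ha0 : (0 : ℝ) < a := by linarith
  have h1 : ∀ i ∈ Finset.Ico a (a + n),
      ∑ q ∈ S.filter (fun q => Nat.log 2 q = i), (1 : ℝ) / (q * (Nat.log 2 q : ℝ) ^ k)
        ≤ 1 / (a : ℝ) ^ (k - 2) * (1 / (i : ℝ) ^ 2) := by
    intro i hi
    rw [Finset.mem_Ico] at hi
    refine (tail_fiber S hS0 i k (by omega)).trans ?_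
    have hai : (a : ℝ) ≤ i := by exact_mod_cast hi.1
    have hi0 : (0 : ℝ) < i := by linarith
    rw [div_mul_div_comm, one_mul]
    apply one_div_le_one_div_of_le
    · positivity
    · have : (i : ℝ) ^ k = (i : ℝ) ^ 2 * (i : ℝ) ^ (k - 2) := by
        rw [← pow_add]; congr 1; omega
      rw [this, mul_comm]
      exact mul_le_mul_of_nonneg_left (pow_le_pow_left₀ ha0.le hai _) (by positivity)
  refine (Finset.sum_le_sum h1).trans ?_
  rw [← Finset.mul_sum]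
  have h2 := tail_tele a ha n
  have h3 : ∑ i ∈ Finset.Ico a (a + n), (1 : ℝ) / (i : ℝ) ^ 2 ≤ 2 / a := by
    refine h2.trans ?_
    have : (0 : ℝ) ≤ 2 / ((a + n : ℕ) : ℝ) := by positivity
    linarith
  have h4 : 1 / (a : ℝ) ^ (k - 2) * ∑ i ∈ Finset.Ico a (a + n), (1 : ℝ) / (i : ℝ) ^ 2
      ≤ 1 / (a : ℝ) ^ (k - 2) * (2 / a) :=
    mul_le_mul_of_nonneg_left h3 (by positivity)
  refine h4.trans (le_of_eq ?_)
  have h5 : (a : ℝ) ^ (k - 1) = (a : ℝ) ^ (k - 2) * a := by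
    rw [← pow_succ]; congr 1; omega
  rw [h5]
  field_simp

end Pool.Agent.SPO
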