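import Pool.Agent.SPO.CP
import Pool.Agent.SPO.TailS

/-!
# Package A10: bound for the variance weight

Only the `q ∈ (lo, hi]` with `cP P Y q ≠ 0` count; they are `≥ 2^a ≥ 2`, so `Nat.log 2 q ≥ 1`. The
term is at most
`(κ/q)² q Cp F²/(log₂ q)^k = κ² Cp F² /(q (log₂ q)^k)`; `tail_sum`.
-/

set_option autoImplicit false

namespace Pool.Agent.SPO

open Finset Pool.Agent.TwoSqPow

variable {ι : Type*}

theorem vv_le (A : Finset ι) (s : ι → ℕ) {P Y lo hi a k : ℕ} {κ Cp F : ℝ} (hk : 2 ≤ k)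
    (ha : 1 ≤ a) (hCp : 0 ≤ Cp) (hlo : ∀ q ∈ Ioc lo hi, cP P Y q ≠ 0 → 2 ^ a ≤ q)
    (hκ : ∀ q : ℕ, 1 ≤ q → |cP P Y q| ≤ κ / q)
    (hpr : ∀ q ∈ Ioc lo hi, cP P Y q ≠ 0 →
      (pr A s q : ℝ) * (Nat.log 2 q : ℝ) ^ k ≤ Cp * F ^ 2) :
    vv A s P Y lo hi ≤ 2 * κ ^ 2 * Cp * F ^ 2 / (a : ℝ) ^ (k - 1) := by
  classical
  have hC0 : 0 ≤ κ ^ 2 * Cp * F ^ 2 := by positivity
  have hterm : ∀ q ∈ (Ioc lo hi).filter (fun q => cP P Y q ≠ 0),
      (cP P Y q) ^ 2 * (q * (pr A s q : ℝ)) ≤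
        κ ^ 2 * Cp * F ^ 2 * ((1 : ℝ) / (q * (Nat.log 2 q : ℝ) ^ k)) := by
    intro q hq
    obtain ⟨hq1, hq2⟩ := mem_filter.1 hq
    have h2 : 2 ^ a ≤ q := hlo q hq1 hq2
    have h3 : 1 ≤ q := Nat.one_le_two_pow.trans h2
    have h4 : a ≤ Nat.log 2 q := by
      have h5 := Nat.log_mono_right (b := 2) h2
      rwa [Nat.log_pow (by norm_num)] at h5
    have hL : (0 : ℝ) < (Nat.log 2 q : ℝ) := by
      exact_mod_cast lt_of_lt_of_le ha h4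
    have hq0 : (0 : ℝ) < q := by exact_mod_cast h3
    have hLk : (0 : ℝ) < (Nat.log 2 q : ℝ) ^ k := pow_pos hL k
    have h5 : (cP P Y q) ^ 2 ≤ (κ / q) ^ 2 := by
      rw [← sq_abs]
      exact pow_le_pow_left₀ (abs_nonneg _) (hκ q h3) 2
    have h6 : (pr A s q : ℝ) ≤ Cp * F ^ 2 / (Nat.log 2 q : ℝ) ^ k := by
      rw [le_div_iff₀ hLk]
      exact hpr q hq1 hq2
    calc (cP P Y q) ^ 2 * (q * (pr A s q : ℝ))
        ≤ (κ / q) ^ 2 * (q * (Cp * F ^ 2 / (Nat.log 2 q : ℝ) ^ k)) := by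
          refine mul_le_mul h5 (mul_le_mul_of_nonneg_left h6 hq0.le) (by positivity)
            (by positivity)
      _ = κ ^ 2 * Cp * F ^ 2 * ((1 : ℝ) / (q * (Nat.log 2 q : ℝ) ^ k)) := by
          field_simp
  have hsum : vv A s P Y lo hi = ∑ q ∈ (Ioc lo hi).filter (fun q => cP P Y q ≠ 0),
      (cP P Y q) ^ 2 * (q * (pr A s q : ℝ)) := by
    unfold vv
    rw [sum_filter]
    refine sum_congr rfl fun q _ => ?_
    by_cases h : cP P Y q = 0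
    · simp [h]
    · simp [h]
  rw [hsum]
  refine (sum_le_sum hterm).trans ?_
  rw [← mul_sum]
  have htail := tail_sum ha hk ((Ioc lo hi).filter (fun q => cP P Y q ≠ 0)) (fun q hq =>
    hlo q (mem_filter.1 hq).1 (mem_filter.1 hq).2)
  refine (mul_le_mul_of_nonneg_left htail hC0).trans (le_of_eq ?_)
  ring

end Pool.Agent.SPO
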