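import Pool.Agent.SPO.ClassCount
import Pool.Agent.SPO.VBound
import Pool.Agent.SPO.PairB
import Pool.Agent.SPO.RepList
import Pool.Agent.SPO.Lift
import Pool.Agent.SPO.CPlim
import Pool.Agent.SPO.PPfacts

/-!
# Package A17: the bound for one residue class

Fix `I, m`; `M = (Z I)!` (`od_dvd_factorial`), `P = PP I`, `S` from `exists_size`, `κ = exp(C₁I)`,
`μ = (1/2) exp(-2C₁I)`,
`α = (c/2^I)^(J+1) > 0`, `a = 2^(I-1) ≥ 1`,
`X = Cp exp(6C₁I) (2^I/c)^(2(J+1))/(2^(I-1))^(k-1) > 0`.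
Choose `D = 2^{D'}`, `D' ≥ 1`, so large that `4P (48/μ²)(m+2) · 2κ²Cp/(α² D'^(k-1)) ≤ 32 X` (`k ≥
2`).
All of the following holds for `Y ≥ Y₁` (finitely many conditions). Let `Zz = √((m-1)Y)`
(`Nat.sqrt`), and
`B = M B'` with `B' = ⌊log₂(Y/S)/M⌋`, so `S 2^B ≤ Y`, `B' ≥ 1`, and `2^B ≥ Y/(S 2^{M+1})`, in
particular
`Zz ≤ 2^B`, so `Nat.log 2 q ≤ B` for `q ≤ Zz`.
Let `z ≡ 1 mod 4`, `ι = Fin (J+1) → Fin k → Fin B`, `s b = 4 sB l M b ≤ S 2^B ≤ Y`,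
`A = {b : ι | ∀ q ∈ prs univ I, ((4 sB l M b : ℕ) : ZMod q) ≠ (z : ZMod q)}`. By `lift` (with `T =
prs univ I`) and `hcov`
`#A ≥ B'^(k(J+1)) (c/2^I M^k)^(J+1) = α F`, `F = B^(k(J+1))`. If `N ≡ z mod 4P`, `b ∈ A`, then no
`q ∈ prs univ I` divides
`N - s b`: `hcop` by `coprime_PP_iff`; `hrep` is `representable_of_sB`. `μ ≤ cP P Zz 1` for large
`Y` by `cP_lower`,
`totient_ge`. `|cP P Zz q| ≤ κ/q` by `abs_cP_le`, `sum_divisors_le`. If `cP P Zz q ≠ 0`, `q > 1`,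
then `q` is odd and
coprime to `P`, so `q ≥ 2^a` and `q ≥ 3` (`le_of_coprime`), and `pr A s q ≤ pr univ s q` with
`hpair`. `vv_le`:
`vv A s P Zz 1 D ≤ 2κ²CpF²/a^(k-1) ≤ v₁ #A²`, `v₁ = 2κ²Cp/(α²a^(k-1))`, and
`vv A s P Zz D Zz ≤ v₂ #A²`, `v₂ = 2κ²Cp/(α²D'^(k-1))` (`q > D = 2^{D'}`).
`class_count`: `(48/μ²)(Y/(4P)+2)v₁ = 384 X (Y/(4P)) (1 + 8P/Y) ≤ 768 X Y/(4P)` if `Y ≥ 8P` (note
`κ²/(μ²α²) = 4 exp(6C₁I)(2^I/c)^(2(J+1))`), `(48/μ²)((m+1)Y+1)v₂ ≤ 32 X Y/(4P)`, and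
`(1/μ)(9Y/(4P(m-1)) + 8√Y) ≤ (Y/(4P)) 20 exp(2C₁I)/(m-1)` for large `Y`.
-/

set_option autoImplicit false

namespace Pool.Agent.SPO

open Finset Pool.Agent.TwoSqPow

private theorem log_le_of_le {q Zz Y S M B m : ℕ} (hZ : Zz ^ 2 ≤ (m - 1) * Y)
    (hB : Y < S * 2 ^ M * 2 ^ B) (hY : (m - 1) * (S * 2 ^ M) ^ 2 ≤ Y) (hq : q ≤ Zz) :
    Nat.log 2 q ≤ B := by
  have h1 : Zz ≤ 2 ^ B := by
    by_contra h
    push Not at h
    have h2 : (2 ^ B) ^ 2 < Zz ^ 2 := Nat.pow_lt_pow_left h two_ne_zero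
    have h3 : (2 ^ B) ^ 2 < (m - 1) * Y := h2.trans_le hZ
    have h4 : (S * 2 ^ M) ^ 2 * (2 ^ B) ^ 2 ≤ (S * 2 ^ M) ^ 2 * ((m - 1) * Y) :=
      Nat.mul_le_mul_left _ h3.le
    have h5 : (S * 2 ^ M) ^ 2 * ((m - 1) * Y) ≤ Y * Y := by
      calc (S * 2 ^ M) ^ 2 * ((m - 1) * Y) = ((m - 1) * (S * 2 ^ M) ^ 2) * Y := by ring
        _ ≤ Y * Y := Nat.mul_le_mul_right _ hY
    have h6 : Y * Y < (S * 2 ^ M * 2 ^ B) * (S * 2 ^ M * 2 ^ B) :=
      Nat.mul_lt_mul'' hB hB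
    have h7 : (S * 2 ^ M * 2 ^ B) * (S * 2 ^ M * 2 ^ B) = (S * 2 ^ M) ^ 2 * (2 ^ B) ^ 2 := by ring
    omega
  calc Nat.log 2 q ≤ Nat.log 2 (2 ^ B) := Nat.log_mono_right (hq.trans h1)
    _ = B := Nat.log_pow one_lt_two B

private theorem pr_mono {ι : Type*} {A B : Finset ι} (h : A ⊆ B) (s : ι → ℕ) (q : ℕ) :
    pr A s q ≤ pr B s q :=
  card_le_card (filter_subset_filter _ (product_subset_product h h))

/-- the arithmetic at the end -/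
private theorem final_arith {Y P m X E μ v₁ v₂ n : ℝ} (hP : 0 < P) (hm : 2 ≤ m) (hX : 0 ≤ X)
    (hE : 0 < E) (hμ : μ = 1 / (2 * E)) (hκ2 : 48 / μ ^ 2 * v₁ = 384 * X)
    (hv₂ : 48 / μ ^ 2 * v₂ * ((m + 2) * (4 * P)) ≤ 32 * X) (hv₂0 : 0 ≤ 48 / μ ^ 2 * v₂)
    (hY1 : 1 ≤ Y) (hY2 : 8 * P ≤ Y) (hY3 : (32 * P * (m - 1)) ^ 2 ≤ Y)
    (hn : n ≤ 48 / μ ^ 2 * ((Y / (4 * P) + 2) * v₁ + ((m + 1) * Y + 1) * v₂) +
        1 / μ * (9 * Y / (4 * P * (m - 1)) + 8 * Real.sqrt Y)) :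
    n ≤ Y / (4 * P) * (800 * X + 20 * E / (m - 1)) := by
  have hm1 : 0 < m - 1 := by linarith
  have h4P : 0 < 4 * P := by linarith
  have hYP : 2 ≤ Y / (4 * P) := by
    rw [le_div_iff₀ h4P]
    linarith
  have h1 : 48 / μ ^ 2 * ((Y / (4 * P) + 2) * v₁) ≤ Y / (4 * P) * (768 * X) := by
    calc 48 / μ ^ 2 * ((Y / (4 * P) + 2) * v₁) = (Y / (4 * P) + 2) * (48 / μ ^ 2 * v₁) := by ring
      _ = (Y / (4 * P) + 2) * (384 * X) := by rw [hκ2]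
      _ ≤ (Y / (4 * P) + Y / (4 * P)) * (384 * X) :=
          mul_le_mul_of_nonneg_right (by linarith) (by linarith)
      _ = Y / (4 * P) * (768 * X) := by ring
  have h2 : 48 / μ ^ 2 * (((m + 1) * Y + 1) * v₂) ≤ Y / (4 * P) * (32 * X) := by
    calc 48 / μ ^ 2 * (((m + 1) * Y + 1) * v₂) = (48 / μ ^ 2 * v₂) * ((m + 1) * Y + 1) := by ring
      _ ≤ (48 / μ ^ 2 * v₂) * ((m + 2) * Y) :=
          mul_le_mul_of_nonneg_left (by nlinarith) hv₂0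
      _ = Y / (4 * P) * (48 / μ ^ 2 * v₂ * ((m + 2) * (4 * P))) := by
          field_simp
      _ ≤ Y / (4 * P) * (32 * X) :=
          mul_le_mul_of_nonneg_left hv₂ (by linarith)
  have hsq : Real.sqrt Y * (32 * P * (m - 1)) ≤ Y := by
    have h3 : 32 * P * (m - 1) ≤ Real.sqrt Y := by
      rw [Real.le_sqrt' (by positivity)]
      exact hY3
    calc Real.sqrt Y * (32 * P * (m - 1)) ≤ Real.sqrt Y * Real.sqrt Y :=
          mul_le_mul_of_nonneg_left h3 (Real.sqrt_nonneg _)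
      _ = Y := Real.mul_self_sqrt (by linarith)
  have h3 : 1 / μ * (9 * Y / (4 * P * (m - 1)) + 8 * Real.sqrt Y) ≤
      Y / (4 * P) * (20 * E / (m - 1)) := by
    have h5 : 1 / μ = 2 * E := by
      rw [hμ, one_div_one_div]
    have h6 : 8 * Real.sqrt Y ≤ Y / (4 * P * (m - 1)) := by
      rw [le_div_iff₀ (by positivity)]
      nlinarith
    rw [h5]
    calc 2 * E * (9 * Y / (4 * P * (m - 1)) + 8 * Real.sqrt Y) ≤
          2 * E * (9 * Y / (4 * P * (m - 1)) + Y / (4 * P * (m - 1))) :=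
          mul_le_mul_of_nonneg_left (by linarith) (by linarith)
      _ = Y / (4 * P) * (20 * E / (m - 1)) := by
          field_simp
          ring
  calc n ≤ _ := hn
    _ = 48 / μ ^ 2 * ((Y / (4 * P) + 2) * v₁) + 48 / μ ^ 2 * (((m + 1) * Y + 1) * v₂) +
        1 / μ * (9 * Y / (4 * P * (m - 1)) + 8 * Real.sqrt Y) := by ring
    _ ≤ Y / (4 * P) * (768 * X) + Y / (4 * P) * (32 * X) + Y / (4 * P) * (20 * E / (m - 1)) := by
        linarith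
    _ = Y / (4 * P) * (800 * X + 20 * E / (m - 1)) := by ring

open Classical in
theorem class_bound {J k : ℕ} {l : ℕ → ℕ} {c C₁ Cp : ℝ} (hk : 2 ≤ k) (hc : 0 < c)
    (hC₁ : 1 ≤ C₁) (hCp : 0 < Cp) (hwin : ∀ i, ∑ q ∈ win i, (1 : ℝ) / q ≤ C₁)
    (hpair : ∀ (l : ℕ → ℕ) (M g B : ℕ), 3 ≤ g → g % 2 = 1 → Nat.log 2 g ≤ B →
      (pr (univ : Finset (Fin (J + 1) → Fin k → Fin B)) (fun b => 4 * sB l M b) g : ℝ) *
        (Nat.log 2 g : ℝ) ^ k ≤ Cp * ((B : ℝ) ^ (k * (J + 1))) ^ 2)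
    {I : ℕ} (hI : 2 ≤ I)
    (hcov : ∀ (M : ℕ) [NeZero M], (∀ q ∈ prs Set.univ I, od q ∣ M) →
      ∀ z : (q : ℕ) → ZMod q, (c / 2 ^ I * (M : ℝ) ^ k) ^ (J + 1) ≤
        #{b : Fin (J + 1) → Fin k → ZMod M | ∀ q ∈ prs Set.univ I,
          ∑ t : Fin (J + 1), (coef l M t : ZMod q) * SS q (b t) ≠ z q})
    {m : ℕ} (hm : 2 ≤ m) :
    ∃ Y₁ : ℕ, ∀ Y ≥ Y₁, ∀ z : ℕ, z % 4 = 1 →
      (#{N ∈ Ioc (m * Y) ((m + 1) * Y) | N % (4 * PP I) = z % (4 * PP I) ∧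
        ¬ Representable (Ctot l J k) N} : ℝ) ≤
        (Y : ℝ) / (4 * PP I) * (800 * (Cp * Real.exp (6 * C₁ * I) * (2 ^ I / c) ^ (2 * (J + 1)) /
          ((2 : ℝ) ^ (I - 1)) ^ (k - 1)) + 20 * Real.exp (2 * C₁ * I) / ((m : ℝ) - 1)) := by
  -- the constants
  set P : ℕ := PP I with hPdef
  have hPpos : 0 < P := PP_pos I
  set M : ℕ := (Z I).factorial with hM
  have : NeZero M := ⟨Nat.factorial_ne_zero _⟩
  have hMpos : 0 < M := Nat.pos_of_ne_zero (NeZero.ne M)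
  have hod : ∀ q ∈ prs Set.univ I, od q ∣ M := fun q hq => od_dvd_factorial hq
  obtain ⟨S, hS0, hS⟩ := exists_size l M J k
  set κ : ℝ := Real.exp (C₁ * I) with hκ
  set E : ℝ := Real.exp (2 * C₁ * I) with hE
  have hEκ : E = κ ^ 2 := by
    rw [hE, hκ, ← Real.exp_nat_mul]
    congr 1
    push_cast
    ring
  set μ : ℝ := 1 / (2 * E) with hμ
  have hEpos : 0 < E := Real.exp_pos _
  have hκpos : 0 < κ := Real.exp_pos _
  have hμpos : 0 < μ := by positivity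
  set α : ℝ := (c / 2 ^ I) ^ (J + 1) with hα
  have hαpos : 0 < α := by positivity
  set a : ℕ := 2 ^ (I - 1) with ha
  have ha1 : 1 ≤ a := Nat.one_le_two_pow
  have hapos : (0 : ℝ) < a := by exact_mod_cast ha1
  set X : ℝ := Cp * Real.exp (6 * C₁ * I) * (2 ^ I / c) ^ (2 * (J + 1)) /
    ((2 : ℝ) ^ (I - 1)) ^ (k - 1) with hX
  have hXpos : 0 < X := by positivity
  obtain ⟨D', hD'⟩ : ∃ D' : ℕ, D' = 48 * (m + 2) * P * a ^ (k - 1) := ⟨_, rfl⟩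
  have hD'1 : 1 ≤ D' := by
    rw [hD']
    exact Nat.succ_le_of_lt (by positivity)
  have hD'pos : (0 : ℝ) < D' := by exact_mod_cast hD'1
  set D : ℕ := 2 ^ D' with hD
  set v₁ : ℝ := 2 * κ ^ 2 * Cp / (α ^ 2 * (a : ℝ) ^ (k - 1)) with hv₁
  set v₂ : ℝ := 2 * κ ^ 2 * Cp / (α ^ 2 * (D' : ℝ) ^ (k - 1)) with hv₂
  have hv₁X : 48 / μ ^ 2 * v₁ = 384 * X := by
    have h1 : Real.exp (6 * C₁ * I) = κ ^ 6 := by
      rw [hκ, ← Real.exp_nat_mul]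
      congr 1
      push_cast
      ring
    have h2 : ((2 : ℝ) ^ I / c) ^ (2 * (J + 1)) = 1 / α ^ 2 := by
      rw [hα, ← pow_mul, mul_comm (J + 1) 2, one_div, ← inv_pow, inv_div]
    have h3 : ((2 : ℝ) ^ (I - 1)) = (a : ℝ) := by
      rw [ha]
      push_cast
      rfl
    rw [hX, h1, h2, h3, hv₁, hμ, hEκ]
    field_simp
    ring
  have hv₂X : 48 / μ ^ 2 * v₂ * (((m : ℝ) + 2) * (4 * P)) ≤ 32 * X := by
    have h1 : v₂ * (D' : ℝ) ^ (k - 1) = v₁ * (a : ℝ) ^ (k - 1) := by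
      rw [hv₁, hv₂]
      field_simp
    have h2 : (D' : ℝ) ≤ (D' : ℝ) ^ (k - 1) := by
      have h3 : (1 : ℝ) ≤ D' := by exact_mod_cast hD'1
      exact le_self_pow₀ h3 (by omega)
    have hv₂0 : 0 ≤ v₂ := by positivity
    have h4 : v₂ * (D' : ℝ) ≤ v₁ * (a : ℝ) ^ (k - 1) := by
      rw [← h1]
      exact mul_le_mul_of_nonneg_left h2 hv₂0
    have h5 : (D' : ℝ) = 48 * ((m : ℝ) + 2) * P * (a : ℝ) ^ (k - 1) := by
      rw [hD']
      push_cast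
      ring
    have hapow : (0 : ℝ) < (a : ℝ) ^ (k - 1) := by positivity
    have h6 : v₂ * (48 * ((m : ℝ) + 2) * P) ≤ v₁ := by
      rw [h5] at h4
      have h7 : v₂ * (48 * ((m : ℝ) + 2) * P) * (a : ℝ) ^ (k - 1) ≤ v₁ * (a : ℝ) ^ (k - 1) := by
        linarith
      exact le_of_mul_le_mul_right h7 hapow
    have h8 : (0 : ℝ) ≤ 48 / μ ^ 2 := by positivity
    have h9 := mul_le_mul_of_nonneg_left h6 h8
    rw [hv₁X] at h9
    nlinarith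
  obtain ⟨N₀, hN₀⟩ := Filter.eventually_atTop.mp (cP_lower (P := P) hPpos)
  have htot := totient_ge hwin I
  have hsumdiv := sum_divisors_le hwin I
  refine ⟨16 + 8 * P + 4 * P * D ^ 2 + (m - 1) * (S * 2 ^ M) ^ 2 + (32 * P * (m - 1)) ^ 2 +
    S * 2 ^ (D' + M) + N₀ ^ 2, fun Y hY z hz => ?_⟩
  have hY1 : 16 ≤ Y := by omega
  have hY2 : 8 * P ≤ Y := by omega
  have hY3 : 4 * P * D ^ 2 ≤ Y := by omega
  have hY4 : (m - 1) * (S * 2 ^ M) ^ 2 ≤ Y := by omega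
  have hY5 : (32 * P * (m - 1)) ^ 2 ≤ Y := by omega
  have hY6 : S * 2 ^ (D' + M) ≤ Y := by omega
  have hY7 : N₀ ^ 2 ≤ Y := by omega
  -- the number `B`
  obtain ⟨L, hL⟩ : ∃ L, L = Nat.log 2 (Y / S) := ⟨_, rfl⟩
  have hYS : 2 ^ (D' + M) ≤ Y / S := by
    rw [Nat.le_div_iff_mul_le hS0]
    linarith
  have hYS0 : Y / S ≠ 0 := by
    have : 0 < 2 ^ (D' + M) := by positivity
    omega
  have hL1 : D' + M ≤ L := by
    rw [hL]
    exact Nat.le_log_of_pow_le one_lt_two hYS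
  obtain ⟨B', hB'⟩ : ∃ B', B' = L / M := ⟨_, rfl⟩
  have hB'1 : 1 ≤ B' := by
    rw [hB', Nat.le_div_iff_mul_le hMpos]
    omega
  obtain ⟨B, hB⟩ : ∃ B, B = M * B' := ⟨_, rfl⟩
  have hBL : B ≤ L := by
    rw [hB, hB']
    exact Nat.mul_div_le L M
  have hLB : L < B + M := by
    rw [hB, hB']
    have := Nat.lt_mul_div_succ L hMpos
    rw [Nat.mul_add, Nat.mul_one] at this
    exact this
  have hBD' : D' ≤ B := by omega
  have hB1 : 1 ≤ B := hD'1.trans hBD'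
  have hSB : S * 2 ^ B ≤ Y := by
    calc S * 2 ^ B ≤ S * 2 ^ L := Nat.mul_le_mul_left _ (Nat.pow_le_pow_right two_pos hBL)
      _ ≤ S * (Y / S) := Nat.mul_le_mul_left _ (by rw [hL]; exact Nat.pow_log_le_self 2 hYS0)
      _ ≤ Y := Nat.mul_div_le Y S
  have hYB : Y < S * 2 ^ M * 2 ^ B := by
    have h1 : Y / S < 2 ^ (L + 1) := by
      rw [hL]
      exact Nat.lt_pow_succ_log_self one_lt_two _
    have h2 : Y < S * 2 ^ (L + 1) := by
      have := Nat.lt_mul_of_div_lt h1 hS0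
      linarith
    calc Y < S * 2 ^ (L + 1) := h2
      _ ≤ S * 2 ^ (M + B) := Nat.mul_le_mul_left _ (Nat.pow_le_pow_right two_pos (by omega))
      _ = S * 2 ^ M * 2 ^ B := by rw [pow_add, mul_assoc]
  -- the set `A`
  let A : Finset (Fin (J + 1) → Fin k → Fin B) := {b | ∀ q ∈ prs Set.univ I,
    ((4 * sB l M b : ℕ) : ZMod q) ≠ (z : ZMod q)}
  set F : ℝ := (B : ℝ) ^ (k * (J + 1)) with hF
  have hFpos : 0 < F := by
    have : (0 : ℝ) < B := by exact_mod_cast hB1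
    positivity
  have hAF : α * F ≤ (#A : ℝ) := by
    subst hB
    have h1 := lift (B' := B') (J := J) (k := k) (M := M) l (T := prs Set.univ I)
      (fun q hq => ⟨(mem_prs.mp hq).2.1, hod q hq⟩) (fun q => (z : ZMod q))
    have h2 := hcov M hod (fun q => (4 : ZMod q)⁻¹ * (z : ZMod q))
    have h3 : (#A : ℝ) = (B' : ℝ) ^ (k * (J + 1)) *
        (#{b : Fin (J + 1) → Fin k → ZMod M | ∀ q ∈ prs Set.univ I,
          ∑ t : Fin (J + 1), (coef l M t : ZMod q) * SS q (b t) ≠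
            (4 : ZMod q)⁻¹ * (z : ZMod q)} : ℝ) := by
      have h4 : #A = B' ^ (k * (J + 1)) *
        #{b : Fin (J + 1) → Fin k → ZMod M | ∀ q ∈ prs Set.univ I,
          ∑ t : Fin (J + 1), (coef l M t : ZMod q) * SS q (b t) ≠
            (4 : ZMod q)⁻¹ * (z : ZMod q)} := by
        convert h1 using 2
      rw [h4]
      push_cast
      rfl
    rw [h3]
    calc α * F = (B' : ℝ) ^ (k * (J + 1)) * (c / 2 ^ I * (M : ℝ) ^ k) ^ (J + 1) := by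
          rw [hα, hF]
          push_cast
          rw [mul_pow, mul_pow, ← pow_mul]
          ring
      _ ≤ _ := mul_le_mul_of_nonneg_left h2 (by positivity)
  have hApos : 0 < (#A : ℝ) := lt_of_lt_of_le (by positivity) hAF
  have hA : A.Nonempty := card_pos.mp (by exact_mod_cast hApos)
  -- the number `Zz`
  obtain ⟨Zz, hZz⟩ : ∃ Zz, Zz = Nat.sqrt ((m - 1) * Y) := ⟨_, rfl⟩
  have hZz2 : Zz ^ 2 ≤ (m - 1) * Y := by
    rw [hZz, pow_two]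
    exact Nat.sqrt_le _
  have hZzN : N₀ ≤ Zz := by
    rw [hZz, Nat.le_sqrt, ← pow_two]
    calc N₀ ^ 2 ≤ Y := hY7
      _ = 1 * Y := (one_mul _).symm
      _ ≤ (m - 1) * Y := Nat.mul_le_mul_right _ (by omega)
  have hμ' : μ ≤ cP P Zz 1 := by
    refine le_trans ?_ (hN₀ Zz hZzN)
    have h1 : μ = 1 / 2 * Real.exp (-(2 * C₁ * I)) := by
      rw [hμ, hE, Real.exp_neg]
      field_simp
    rw [h1]
    exact mul_le_mul_of_nonneg_left htot (by norm_num)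
  have hκq : ∀ q : ℕ, 1 ≤ q → |cP P Zz q| ≤ κ / q := fun q hq =>
    (abs_cP_le hq hPpos.ne').trans (div_le_div_of_nonneg_right hsumdiv (Nat.cast_nonneg _))
  have hodd : ∀ q, cP P Zz q ≠ 0 → q % 2 = 1 := fun q hq => by
    by_contra h
    exact hq (cP_even (by omega))
  have hcopq : ∀ q, cP P Zz q ≠ 0 → Nat.Coprime q P := fun q hq => by
    by_contra h
    exact hq (cP_eq_zero h)
  have hprq : ∀ q, 1 < q → cP P Zz q ≠ 0 → Nat.log 2 q ≤ B →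
      (pr A (fun b => 4 * sB l M b) q : ℝ) * (Nat.log 2 q : ℝ) ^ k ≤ Cp * F ^ 2 := by
    intro q hq1 hq hlog
    have h1 := hodd q hq
    have h2 := hpair l M q B (by omega) h1 hlog
    refine le_trans (mul_le_mul_of_nonneg_right ?_ (by positivity)) h2
    exact_mod_cast pr_mono (subset_univ A) _ q
  have hF2 : ∀ w : ℝ, 0 < w → 2 * κ ^ 2 * Cp * F ^ 2 / w ≤
      2 * κ ^ 2 * Cp / (α ^ 2 * w) * (#A : ℝ) ^ 2 := by
    intro w hw
    have h1 : (α * F) ^ 2 ≤ (#A : ℝ) ^ 2 := pow_le_pow_left₀ (by positivity) hAF 2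
    calc 2 * κ ^ 2 * Cp * F ^ 2 / w = 2 * κ ^ 2 * Cp / (α ^ 2 * w) * (α * F) ^ 2 := by
          field_simp
      _ ≤ _ := mul_le_mul_of_nonneg_left h1 (by positivity)
  have hvv₁ : vv A (fun b => 4 * sB l M b) P Zz 1 D ≤ v₁ * (#A : ℝ) ^ 2 := by
    have h1 := vv_le (a := a) (k := k) (κ := κ) (Cp := Cp) (F := F) A (fun b => 4 * sB l M b)
      (P := P) (Y := Zz) (lo := 1) (hi := D) hk ha1 hCp.le
      (fun q hq hq0 => le_of_coprime (by omega) (mem_Ioc.mp hq).1 (hodd q hq0) (hcopq q hq0))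
      hκq (fun q hq hq0 => hprq q (mem_Ioc.mp hq).1 hq0 (by
        calc Nat.log 2 q ≤ Nat.log 2 D := Nat.log_mono_right (mem_Ioc.mp hq).2
          _ = D' := Nat.log_pow one_lt_two D'
          _ ≤ B := hBD'))
    exact h1.trans (hF2 _ (by positivity))
  have hvv₂ : vv A (fun b => 4 * sB l M b) P Zz D Zz ≤ v₂ * (#A : ℝ) ^ 2 := by
    have hD1 : 1 ≤ D := Nat.one_le_two_pow
    have h1 := vv_le (a := D') (k := k) (κ := κ) (Cp := Cp) (F := F) A (fun b => 4 * sB l M b)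
      (P := P) (Y := Zz) (lo := D) (hi := Zz) hk hD'1 hCp.le
      (fun q hq hq0 => (mem_Ioc.mp hq).1.le)
      hκq (fun q hq hq0 => hprq q (lt_of_le_of_lt hD1 (mem_Ioc.mp hq).1) hq0
        (log_le_of_le hZz2 hYB hY4 (mem_Ioc.mp hq).2))
    exact h1.trans (hF2 _ (by positivity))
  -- the classes
  have hmain := class_count (C := Ctot l J k) (z := z) A (fun b => 4 * sB l M b) (P := P) (m := m)
    (Y := Y) (Zz := Zz) (D := D) (μ := μ) (v₁ := v₁) (v₂ := v₂) hm hY1 hZz hPpos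
    (fun b _ => ⟨(hS B b).trans hSB, Dvd.intro _ rfl⟩) hz ?_
    (fun b _ N hN h => representable_of_sB l M b hN h) hA hμpos hμ' Nat.one_le_two_pow hY3
    hvv₁ hvv₂
  · refine final_arith (v₁ := v₁) (v₂ := v₂) (μ := μ) (by exact_mod_cast hPpos)
      (by exact_mod_cast hm) hXpos.le hEpos hμ hv₁X hv₂X (by positivity)
      (by exact_mod_cast (by omega : 1 ≤ Y)) (by exact_mod_cast hY2) ?_ hmain
    have h1 : (((32 * P * (m - 1)) ^ 2 : ℕ) : ℝ) ≤ (Y : ℝ) := by exact_mod_cast hY5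
    push_cast [Nat.cast_sub (show 1 ≤ m by omega)] at h1
    exact h1
  · intro b hb N hN hsN
    rw [coprime_PP_iff]
    intro q hq hdvd
    have hbq := (mem_filter.mp hb).2 q hq
    apply hbq
    have hqP : q ∣ 4 * P := (dvd_prod_of_mem (fun q => q) hq).mul_left 4
    have h1 : (N : ZMod q) = (z : ZMod q) := by
      rw [ZMod.natCast_eq_natCast_iff]
      exact Nat.ModEq.of_dvd hqP hN
    have h2 : ((N - 4 * sB l M b : ℕ) : ZMod q) = 0 := (ZMod.natCast_eq_zero_iff _ _).mpr hdvd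
    rw [Nat.cast_sub hsN, h1, sub_eq_zero] at h2
    exact h2.symm

end Pool.Agent.SPO
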