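import Pool.Agent.SPO.ADefs
import Pool.Agent.TwoSqPow.Core

/-!
# Package A07: middle divisors in a residue class

Adapt `mid_count` of `Pool/Agent/TwoSqPow/Core.lean` (`Zz` there is called `Z`). Every `d ∈ mid Zz
(N - h)` divides `N - h`,
which is coprime to `W`, so `gcd(d, W) = 1`; it lies in the set `D` of the proof of `mid_count`,
and
`|D| ≤ 2 (Y/Zz + 1)` (`hDcard` there). For such `d` the `N ∈ (mY, (m+1)Y]` with `N ≡ z mod W`, `N
≡ h mod d` form one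
residue class modulo `W d` (Chinese remainder theorem), so there are at most `Y/(W d) + 1 ≤ Y/(W
Zz) + 1`
(`card_modEq`). Total `≤ 2 (Y/Zz + 1)(Y/(W Zz) + 1) = 2Y²/(W Zz²) + 2Y/Zz + 2Y/(W Zz) + 2`. With
`(Y/Zz)² ≤ (9/4) Y/(m-1)`
(proved there) the first term is `≤ (9/2) Y/(W(m-1))`, and `Y/Zz ≤ (3/2) √Y`, so the rest is `≤
6√Y + 2 ≤ 8√Y`.
-/

set_option autoImplicit false

namespace Pool.Agent.SPO

open Finset Pool.Agent.TwoSqPow

theorem mid_count_ap {m Y Zz h W z : ℕ} (hm : 2 ≤ m) (hY : 1 ≤ Y)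
    (hZ : Zz = Nat.sqrt ((m - 1) * Y)) (hZ2 : 2 ≤ Zz) (hh : h ≤ Y) (hW : 1 ≤ W)
    (hcop : ∀ N : ℕ, N % W = z % W → h ≤ N → Nat.Coprime (N - h) W) :
    (∑ N ∈ (Ioc (m * Y) ((m + 1) * Y)).filter (fun N => N % W = z % W),
      ((mid Zz (N - h)).card : ℝ)) ≤ 9 * Y / (W * ((m : ℝ) - 1)) + 8 * Real.sqrt Y := by
  classical
  have hz0 : (0 : ℝ) < Zz := by exact_mod_cast (show 0 < Zz by omega)
  have hz2 : (2 : ℝ) ≤ Zz := by exact_mod_cast hZ2
  have hW1 : (1 : ℝ) ≤ W := by exact_mod_cast hW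
  have hm1 : ((m - 1 : ℕ) : ℝ) = (m : ℝ) - 1 := by
    rw [Nat.cast_sub (by omega)]; simp
  have hm0 : (0 : ℝ) < (m : ℝ) - 1 := by
    rw [← hm1]; exact_mod_cast (show 0 < m - 1 by omega)
  have hm2 : (1 : ℝ) ≤ (m : ℝ) - 1 := by
    rw [← hm1]; exact_mod_cast (show 1 ≤ m - 1 by omega)
  have hs2 : ((m : ℝ) - 1) * Y < ((Zz : ℝ) + 1) ^ 2 := by
    have : (m - 1) * Y < (Zz + 1) * (Zz + 1) := by rw [hZ]; exact Nat.lt_succ_sqrt _
    have h2 : (((m - 1) * Y : ℕ) : ℝ) < (((Zz + 1) * (Zz + 1) : ℕ) : ℝ) := by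
      exact_mod_cast this
    push_cast at h2
    rw [hm1] at h2
    rw [sq]
    exact h2
  set R : Finset ℕ := (Ioc (m * Y) ((m + 1) * Y)).filter (fun N => N % W = z % W) with hR
  set D : Finset ℕ := (Ioc Zz (2 * Zz + (m + 1) * Y)).filter
    (fun d => Zz * d < (m + 1) * Y) with hD
  have hswap : (∑ N ∈ R, ((mid Zz (N - h)).card : ℝ)) ≤
      ∑ d ∈ D, ((Y / (W * d) + 1 : ℕ) : ℝ) := by
    have h1 : ∀ N ∈ R, (mid Zz (N - h)).card ≤ #{d ∈ D | d ∣ N - h} := by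
      intro N hN
      rw [hR, mem_filter, mem_Ioc] at hN
      apply card_le_card
      intro d hd
      unfold mid at hd
      rw [mem_filter, Nat.mem_divisors] at hd
      rw [mem_filter, hD, mem_filter, mem_Ioc]
      have h2 : Zz * d < (m + 1) * Y := lt_of_lt_of_le hd.2.2 (by omega)
      refine ⟨⟨⟨hd.2.1, ?_⟩, h2⟩, hd.1.1⟩
      have : d ≤ Zz * d := Nat.le_mul_of_pos_left d (by omega)
      omega
    have h2 : ∑ N ∈ R, #{d ∈ D | d ∣ N - h} = ∑ d ∈ D, #{N ∈ R | d ∣ N - h} := by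
      simp_rw [card_filter]
      rw [sum_comm]
    have h3 : ∀ d ∈ D, #{N ∈ R | d ∣ N - h} ≤ Y / (W * d) + 1 := by
      intro d hd
      rw [hD, mem_filter, mem_Ioc] at hd
      rcases Finset.eq_empty_or_nonempty {N ∈ R | d ∣ N - h} with he | ⟨N0, hN0⟩
      · rw [he, card_empty]
        exact Nat.zero_le _
      · have e1 : (m + 1) * Y = m * Y + Y := by ring
        have hle : ∀ N ∈ R, h ≤ N := by
          intro N hN
          rw [hR, mem_filter, mem_Ioc] at hN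
          nlinarith [hN.1.1]
        rw [mem_filter] at hN0
        have hN0R := hN0.1
        rw [hR, mem_filter, mem_Ioc] at hN0R
        have hco : Nat.Coprime W d :=
          (Nat.Coprime.coprime_dvd_left hN0.2 (hcop N0 hN0R.2 (hle N0 hN0.1))).symm
        have h4 : R.filter (fun N => d ∣ N - h) ⊆
            (Ioc (m * Y) (m * Y + Y)).filter (fun N => N ≡ N0 [MOD W * d]) := by
          intro N hN
          rw [mem_filter] at hN
          have hNR := hN.1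
          rw [hR, mem_filter, mem_Ioc] at hNR
          rw [mem_filter, mem_Ioc]
          refine ⟨⟨hNR.1.1, by omega⟩, ?_⟩
          refine (Nat.modEq_and_modEq_iff_modEq_mul hco).1 ⟨hNR.2.trans hN0R.2.symm, ?_⟩
          exact ((dvd_sub_iff_modEq (hle N hN.1)).mp hN.2).trans
            ((dvd_sub_iff_modEq (hle N0 hN0.1)).mp hN0.2).symm
        exact (card_le_card h4).trans (card_modEq _ _ _ _)
    calc (∑ N ∈ R, ((mid Zz (N - h)).card : ℝ))
        = ((∑ N ∈ R, (mid Zz (N - h)).card : ℕ) : ℝ) := by push_cast; rfl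
      _ ≤ ((∑ d ∈ D, (Y / (W * d) + 1) : ℕ) : ℝ) := by
          exact_mod_cast (sum_le_sum h1).trans (h2.le.trans (sum_le_sum h3))
      _ = _ := by push_cast; rfl
  have hterm : ∀ d ∈ D, ((Y / (W * d) + 1 : ℕ) : ℝ) ≤ (Y : ℝ) / (W * Zz) + 1 := by
    intro d hd
    rw [hD, mem_filter, mem_Ioc] at hd
    push_cast
    have h1 : ((Y / (W * d) : ℕ) : ℝ) ≤ (Y : ℝ) / ((W * d : ℕ) : ℝ) := Nat.cast_div_le
    have h2 : (Y : ℝ) / ((W * d : ℕ) : ℝ) ≤ Y / (W * Zz) := by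
      apply div_le_div_of_nonneg_left (Nat.cast_nonneg _) (by positivity)
      rw [Nat.cast_mul]
      apply mul_le_mul_of_nonneg_left _ (by positivity)
      exact_mod_cast hd.1.1.le
    linarith
  have hDcard : (D.card : ℝ) ≤ 2 * ((Y : ℝ) / Zz + 1) := by
    have h1 : D ⊆ Ioc Zz ((m + 1) * Y / Zz) := by
      intro d hd
      rw [hD, mem_filter, mem_Ioc] at hd
      rw [mem_Ioc]
      refine ⟨hd.1.1, ?_⟩
      rw [Nat.le_div_iff_mul_le (by omega), mul_comm]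
      exact hd.2.le
    have h2 := card_le_card h1
    rw [Nat.card_Ioc] at h2
    have h3 : (D.card : ℝ) ≤ max 0 ((((m + 1) * Y / Zz : ℕ) : ℝ) - Zz) := by
      have h4 : (D.card : ℝ) ≤ (((m + 1) * Y / Zz - Zz : ℕ) : ℝ) := by exact_mod_cast h2
      refine h4.trans ?_
      rcases le_total Zz ((m + 1) * Y / Zz) with h5 | h5
      · rw [Nat.cast_sub h5]; exact le_max_right _ _
      · rw [Nat.sub_eq_zero_of_le h5]; simp
    refine h3.trans (max_le (by positivity) ?_)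
    have h4 : (((m + 1) * Y / Zz : ℕ) : ℝ) ≤ (((m + 1) * Y : ℕ) : ℝ) / Zz := Nat.cast_div_le
    have h5 : (((m + 1) * Y : ℕ) : ℝ) / Zz - Zz ≤ 2 * ((Y : ℝ) / Zz + 1) := by
      rw [sub_le_iff_le_add, div_le_iff₀ hz0]
      push_cast
      have h6 : (2 * ((Y : ℝ) / Zz + 1) + Zz) * Zz = 2 * Y + 2 * Zz + Zz ^ 2 := by
        field_simp
      rw [h6]
      have h7 : (m - 1) * Y < (Zz + 1) * (Zz + 1) := by rw [hZ]; exact Nat.lt_succ_sqrt _
      have h8 : (m - 1) * Y ≤ Zz * Zz + 2 * Zz := by nlinarith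
      have h9 : (((m - 1) * Y : ℕ) : ℝ) ≤ ((Zz * Zz + 2 * Zz : ℕ) : ℝ) := by exact_mod_cast h8
      push_cast at h9
      rw [hm1] at h9
      nlinarith
    linarith
  have hfin : ∑ d ∈ D, ((Y / (W * d) + 1 : ℕ) : ℝ) ≤
      2 * ((Y : ℝ) / Zz + 1) * ((Y : ℝ) / (W * Zz) + 1) := by
    calc ∑ d ∈ D, ((Y / (W * d) + 1 : ℕ) : ℝ) ≤ ∑ d ∈ D, ((Y : ℝ) / (W * Zz) + 1) :=
          sum_le_sum hterm
      _ = D.card * ((Y : ℝ) / (W * Zz) + 1) := by rw [sum_const, nsmul_eq_mul]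
      _ ≤ _ := mul_le_mul_of_nonneg_right hDcard (by positivity)
  refine (hswap.trans hfin).trans ?_
  have hYpos : (1 : ℝ) ≤ Y := by exact_mod_cast hY
  have h1 : ((Y : ℝ) / Zz) ^ 2 ≤ 9 / 4 * Y / ((m : ℝ) - 1) := by
    rw [div_pow, div_le_div_iff₀ (by positivity) hm0]
    have h2 : ((Zz : ℝ) + 1) ^ 2 ≤ 9 / 4 * Zz ^ 2 := by nlinarith
    calc (Y : ℝ) ^ 2 * ((m : ℝ) - 1) = Y * (((m : ℝ) - 1) * Y) := by ring
      _ ≤ Y * (9 / 4 * Zz ^ 2) := by
          apply mul_le_mul_of_nonneg_left _ (by linarith)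
          linarith
      _ = 9 / 4 * Y * Zz ^ 2 := by ring
  have h2 : (Y : ℝ) / Zz ≤ 3 / 2 * Real.sqrt Y := by
    have h3 : ((Y : ℝ) / Zz) ^ 2 ≤ 9 / 4 * Y :=
      h1.trans (div_le_self (by positivity) hm2)
    have h4 : (3 / 2 * Real.sqrt Y) ^ 2 = 9 / 4 * Y := by
      rw [mul_pow, Real.sq_sqrt (by linarith)]
      norm_num
    exact abs_le_of_sq_le_sq' (by rw [h4]; exact h3) (by positivity) |>.2
  have h3 : (1 : ℝ) ≤ Real.sqrt Y := by
    rw [Real.one_le_sqrt]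
    exact hYpos
  have h4 : (Y : ℝ) / (W * Zz) ≤ Y / Zz := by
    apply div_le_div_of_nonneg_left (by linarith) hz0
    nlinarith
  have h5 : (Y : ℝ) / Zz * (Y / (W * Zz)) ≤ 9 / 4 * Y / (W * ((m : ℝ) - 1)) := by
    have e1 : (Y : ℝ) / Zz * (Y / (W * Zz)) = (Y / Zz) ^ 2 / W := by
      field_simp
    have e2 : 9 / 4 * (Y : ℝ) / (W * ((m : ℝ) - 1)) = 9 / 4 * Y / ((m : ℝ) - 1) / W := by
      field_simp
    rw [e1, e2]
    exact div_le_div_of_nonneg_right h1 (by linarith)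
  have h6 : (0 : ℝ) ≤ Y / (W * ((m : ℝ) - 1)) := by positivity
  have e3 : 9 / 4 * (Y : ℝ) / (W * ((m : ℝ) - 1)) = 9 / 4 * (Y / (W * ((m : ℝ) - 1))) := by ring
  have e4 : 9 * (Y : ℝ) / (W * ((m : ℝ) - 1)) = 9 * (Y / (W * ((m : ℝ) - 1))) := by ring
  rw [e3] at h5
  rw [e4]
  have e5 : 2 * ((Y : ℝ) / Zz + 1) * ((Y : ℝ) / (W * Zz) + 1) =
      2 * (Y / Zz * (Y / (W * Zz))) + 2 * (Y / Zz) + 2 * (Y / (W * Zz)) + 2 := by ring
  rw [e5]
  linarith

end Pool.Agent.SPO
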