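import Pool.Agent.SPO.ADefs

/-!
# Package A05: the large sieve in a residue class

Adapt the proof of `mean_square` (`Pool/Agent/TwoSqPow/Expand.lean`). The real points are `W x`,
`x ∈ R` (the map
`x ↦ W x` is injective). Spacing: for `x ≠ y` in `R` and an integer `n`, `(W x - W y + n) den(x)
den(y)` is an
integer. It is not `0`: otherwise `W (x - y)` is an integer; the denominator of `x - y` divides
`den(x) den(y)`, which is coprime to `W`, so `x - y` is an integer, and `0 ≤ x, y < 1` gives `x =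
y`. So
`|W x - W y + n| ≥ 1/D²`. `large_sieve` with `δ = 1/D²`: the constant is `4H + 2D⁴/H ≤ 6H` as `D²
≤ H`.
-/

set_option autoImplicit false

namespace Pool.Agent.SPO

open Finset Complex Pool.Agent.TwoSqPow

private lemma ls_ne {x y : ℚ} {W : ℕ} (hx : 0 ≤ x ∧ x < 1 ∧ Nat.Coprime x.den W)
    (hy : 0 ≤ y ∧ y < 1 ∧ Nat.Coprime y.den W) (hne : x ≠ y) (n : ℤ) :
    (W * (x.num * y.den - y.num * x.den) + n * (x.den * y.den) : ℤ) ≠ 0 := by
  intro h
  have hdvd : ((x.den * y.den : ℕ) : ℤ) ∣ (W : ℤ) * (x.num * y.den - y.num * x.den) := by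
    refine ⟨-n, ?_⟩
    push_cast
    linarith
  have hcop : IsCoprime ((x.den * y.den : ℕ) : ℤ) (W : ℤ) := by
    rw [Nat.isCoprime_iff_coprime]
    exact Nat.Coprime.mul_left hx.2.2 hy.2.2
  obtain ⟨m, hm⟩ := hcop.dvd_of_dvd_mul_left hdvd
  have hdx : (0 : ℚ) < x.den := by exact_mod_cast x.den_pos
  have hdy : (0 : ℚ) < y.den := by exact_mod_cast y.den_pos
  have e1 : x * x.den = x.num := Rat.mul_den_eq_num x
  have e2 : y * y.den = y.num := Rat.mul_den_eq_num y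
  have h1 : (x.num : ℚ) * y.den - y.num * x.den = (x.den * y.den) * m := by
    have := congrArg (fun z : ℤ => (z : ℚ)) hm
    push_cast at this
    exact this
  have h2 : x - y = m := by
    have h3 : (x - y - m) * (x.den * y.den) = 0 := by
      rw [← e1, ← e2] at h1
      linear_combination h1
    rcases mul_eq_zero.mp h3 with h4 | h4
    · linarith
    · exact absurd h4 (mul_pos hdx hdy).ne'
  have h5 : (m : ℚ) < 1 := by rw [← h2]; linarith [hx.2.1, hy.1]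
  have h6 : (-1 : ℚ) < m := by rw [← h2]; linarith [hx.1, hy.2.1]
  have h7 : m < 1 := by exact_mod_cast h5
  have h8 : -1 < m := by exact_mod_cast h6
  have h9 : m = 0 := by omega
  rw [h9] at h2
  apply hne
  push_cast at h2
  linarith

theorem ls_general {R : Finset ℚ} {D W H : ℕ} (hD : 1 ≤ D) (hW : 1 ≤ W)
    (hR : ∀ x ∈ R, 0 ≤ x ∧ x < 1 ∧ x.den ≤ D ∧ Nat.Coprime x.den W) (c : ℚ → ℂ)
    (hH : D ^ 2 ≤ H) :
    ∑ ν ∈ range H, ‖∑ x ∈ R, c x * ex ((ν : ℝ) * ((W : ℝ) * (x : ℝ)))‖ ^ 2 ≤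
      6 * H * ∑ x ∈ R, ‖c x‖ ^ 2 := by
  classical
  have hH0 : 0 < H := by nlinarith
  have hW0 : (W : ℝ) ≠ 0 := by
    have : (0 : ℝ) < W := by exact_mod_cast hW
    exact this.ne'
  set R' : Finset ℝ := R.image (fun x : ℚ => (W : ℝ) * (x : ℝ)) with hR'
  set c' : ℝ → ℂ := fun t => if h : ∃ x : ℚ, (W : ℝ) * (x : ℝ) = t then c h.choose else 0 with hc'
  have hcc : ∀ x : ℚ, c' ((W : ℝ) * (x : ℝ)) = c x := by
    intro x
    have h : ∃ y : ℚ, (W : ℝ) * (y : ℝ) = (W : ℝ) * (x : ℝ) := ⟨x, rfl⟩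
    have h2 : h.choose = x := Rat.cast_injective (mul_left_cancel₀ hW0 h.choose_spec)
    rw [hc']
    simp only [h, dif_pos]
    rw [h2]
  have hinj : Set.InjOn (fun x : ℚ => (W : ℝ) * (x : ℝ)) R :=
    fun x _ y _ h => Rat.cast_injective (mul_left_cancel₀ hW0 h)
  have hD0 : (0 : ℝ) < D := by exact_mod_cast hD
  have hsp : ∀ x ∈ R', ∀ y ∈ R', x ≠ y → ∀ n : ℤ, 1 / (D : ℝ) ^ 2 ≤ |x - y + n| := by
    intro x hx y hy hne n
    rw [hR', mem_image] at hx hy
    obtain ⟨x, hx, rfl⟩ := hx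
    obtain ⟨y, hy, rfl⟩ := hy
    have hx' := hR x hx
    have hy' := hR y hy
    have hxy : x ≠ y := by
      rintro rfl
      exact hne rfl
    have hint : (W * x - W * y + n) * ((x.den : ℚ) * y.den) =
        ((W * (x.num * y.den - y.num * x.den) + n * (x.den * y.den) : ℤ) : ℚ) := by
      have e1 : x * x.den = x.num := Rat.mul_den_eq_num x
      have e2 : y * y.den = y.num := Rat.mul_den_eq_num y
      push_cast
      rw [← e1, ← e2]
      ring
    have hdx : (0 : ℚ) < x.den := by exact_mod_cast x.den_pos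
    have hdy : (0 : ℚ) < y.den := by exact_mod_cast y.den_pos
    have hne' := ls_ne (W := W) ⟨hx'.1, hx'.2.1, hx'.2.2.2⟩ ⟨hy'.1, hy'.2.1, hy'.2.2.2⟩ hxy n
    have h1 := Int.one_le_abs hne'
    have h2 : (1 : ℚ) ≤ |W * x - W * y + n| * ((x.den : ℚ) * y.den) := by
      have h3 : (1 : ℚ) ≤
          |((W * (x.num * y.den - y.num * x.den) + n * (x.den * y.den) : ℤ) : ℚ)| := by
        exact_mod_cast h1
      rw [← hint, abs_mul, abs_of_pos (mul_pos hdx hdy)] at h3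
      exact h3
    have h4 : (x.den : ℚ) * y.den ≤ (D : ℚ) ^ 2 := by
      have a1 : (x.den : ℚ) ≤ D := by exact_mod_cast hx'.2.2.1
      have a2 : (y.den : ℚ) ≤ D := by exact_mod_cast hy'.2.2.1
      nlinarith
    have h5 : (1 : ℚ) ≤ |W * x - W * y + n| * (D : ℚ) ^ 2 :=
      h2.trans (mul_le_mul_of_nonneg_left h4 (abs_nonneg _))
    have h6 : (1 : ℝ) ≤ |(W : ℝ) * (x : ℝ) - (W : ℝ) * y + n| * (D : ℝ) ^ 2 := by
      exact_mod_cast h5
    rw [div_le_iff₀ (by positivity)]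
    exact h6
  have hls := large_sieve (R := R') (δ := 1 / (D : ℝ) ^ 2) (by positivity) hsp c' hH0
  have h1 : ∑ N ∈ range H, ‖∑ x ∈ R', c' x * ex (N * x)‖ ^ 2 =
      ∑ ν ∈ range H, ‖∑ x ∈ R, c x * ex ((ν : ℝ) * ((W : ℝ) * (x : ℝ)))‖ ^ 2 := by
    apply sum_congr rfl
    intro N _
    rw [hR', sum_image hinj]
    simp only [hcc]
  have h2 : ∑ x ∈ R', ‖c' x‖ ^ 2 = ∑ x ∈ R, ‖c x‖ ^ 2 := by
    rw [hR', sum_image hinj]
    simp only [hcc]
  rw [h1, h2] at hls
  refine hls.trans (mul_le_mul_of_nonneg_right ?_ (sum_nonneg fun x _ => by positivity))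
  have hHr : (0 : ℝ) < H := by exact_mod_cast hH0
  have hDH : (D : ℝ) ^ 2 ≤ H := by exact_mod_cast hH
  have h3 : 2 / ((1 / (D : ℝ) ^ 2) ^ 2 * H) ≤ 2 * H := by
    rw [div_le_iff₀ (by positivity)]
    have h4 : 2 * (H : ℝ) * ((1 / (D : ℝ) ^ 2) ^ 2 * H) = 2 * ((H : ℝ) / (D : ℝ) ^ 2) ^ 2 := by
      field_simp
    rw [h4]
    have h5 : (1 : ℝ) ≤ (H : ℝ) / (D : ℝ) ^ 2 := by
      rw [le_div_iff₀ (by positivity)]
      linarith
    nlinarith
  linarith

end Pool.Agent.SPO
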