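import Pool.Agent.SPO.ADefs

/-!
# Package A04: the mean square over the fractions with denominator `q`

`fiber_sum` (`Pool/Agent/TwoSqPow/WBound.lean`): the left side is at most `∑_{r < q} ‖TA A s
(r/q)‖²`
`= ∑_{b, b' ∈ A} ∑_{r < q} ex(r (s b' - s b)/q) = q · #{(b, b') : q ∣ s b - s b'}`
(`ex_sum_range`).
-/

set_option autoImplicit false

namespace Pool.Agent.SPO

open Finset Complex Pool.Agent.TwoSqPow

variable {ι : Type*}

theorem sum_TA_sq_le (A : Finset ι) (s : ι → ℕ) (Y : ℕ) {q : ℕ} (hq : 1 ≤ q) :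
    ∑ x ∈ (RQ Y).filter (fun x => x.den = q), ‖TA A s (x : ℝ)‖ ^ 2 ≤ q * (pr A s q : ℝ) := by
  classical
  have h1 := fiber_sum Y q (fun x => ‖TA A s (x : ℝ)‖ ^ 2) (fun x => by positivity)
  refine h1.trans ?_
  have h2 : ∑ r ∈ (range q).filter (fun r => Nat.Coprime r q),
      ‖TA A s (((r : ℚ) / q : ℚ) : ℝ)‖ ^ 2 ≤ ∑ r ∈ range q, ‖TA A s ((r : ℝ) / q)‖ ^ 2 := by
    push_cast
    exact sum_le_sum_of_subset_of_nonneg (filter_subset _ _) (fun i _ _ => by positivity)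
  refine h2.trans (le_of_eq ?_)
  have h3 : ((∑ r ∈ range q, ‖TA A s ((r : ℝ) / q)‖ ^ 2 : ℝ) : ℂ) =
      ((q * (pr A s q : ℝ) : ℝ) : ℂ) := by
    have h4 : ∀ r ∈ range q, ((‖TA A s ((r : ℝ) / q)‖ ^ 2 : ℝ) : ℂ) =
        ∑ y ∈ A ×ˢ A, ex ((r : ℝ) / q * (((s y.1 : ℤ) - s y.2 : ℤ))) := by
      intro r _
      rw [← Complex.normSq_eq_norm_sq, Complex.normSq_eq_conj_mul_self]
      unfold TA
      rw [map_sum, sum_mul_sum, sum_product]
      refine sum_congr rfl fun a _ => sum_congr rfl fun b _ => ?_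
      rw [← ex_neg, ← ex_add]
      congr 1
      push_cast
      ring
    rw [Complex.ofReal_sum, sum_congr rfl h4, sum_comm]
    have h5 : ∀ y ∈ A ×ˢ A, ∑ r ∈ range q, ex ((r : ℝ) / q * (((s y.1 : ℤ) - s y.2 : ℤ))) =
        if (q : ℤ) ∣ (s y.1 : ℤ) - s y.2 then (q : ℂ) else 0 := fun y _ => ex_sum_range hq _
    rw [sum_congr rfl h5, ← sum_filter, sum_const, nsmul_eq_mul]
    unfold pr
    push_cast
    ring
  exact_mod_cast h3

end Pool.Agent.SPO
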