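import Pool.Agent.SPO.CP
import Pool.Agent.SPO.TASum
import Pool.Agent.SPO.LS2

/-!
# Package A06: the variance in two ranges

`var_small`: drop the `x` with `cP P Y x.den = 0`; the remaining ones have `x.den` odd and coprime
to `P`
(`cP_eq_zero`, `cP_even`), so coprime to `W = 4P`. `ex((N₀ + Wν) x) = ex(N₀ x) ex(ν W x)`
(`ex_add`); apply `ls_general`
with `c x = cP · TA · ex(N₀ x)` (absolute value `|cP| ‖TA‖`) and group `∑_{x} |cP|² ‖TA‖²` by the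
denominator `q`,
`1 < q ≤ D` (`x ≠ 0` in `[0,1)` has denominator `> 1`): `sum_TA_sq_le`.
`var_large`: the same with `W = 1` and `D := Y`; the denominators are in `(D, Y]` (`RQ_spec`).
-/

set_option autoImplicit false

namespace Pool.Agent.SPO

open Finset Complex Pool.Agent.TwoSqPow

variable {ι : Type*}

private theorem sum_group (A : Finset ι) (s : ι → ℕ) (P Y lo hi : ℕ) {S : Finset ℚ}
    (hS : S ⊆ RQ Y) (hd : ∀ x ∈ S, lo < x.den ∧ x.den ≤ hi) :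
    ∑ x ∈ S, (cP P Y x.den) ^ 2 * ‖TA A s (x : ℝ)‖ ^ 2 ≤ vv A s P Y lo hi := by
  unfold vv
  have h1 : ∀ x ∈ S, x.den ∈ Ioc lo hi := fun x hx => mem_Ioc.2 (hd x hx)
  rw [← sum_fiberwise_of_maps_to h1]
  refine sum_le_sum fun q hq => ?_
  have hq1 : 1 ≤ q := by
    rw [mem_Ioc] at hq
    omega
  have h2 : ∑ x ∈ S with x.den = q, (cP P Y x.den) ^ 2 * ‖TA A s (x : ℝ)‖ ^ 2 =
      (cP P Y q) ^ 2 * ∑ x ∈ S with x.den = q, ‖TA A s (x : ℝ)‖ ^ 2 := by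
    rw [mul_sum]
    refine sum_congr rfl fun x hx => ?_
    rw [(mem_filter.1 hx).2]
  rw [h2]
  refine mul_le_mul_of_nonneg_left ?_ (sq_nonneg _)
  refine le_trans ?_ (sum_TA_sq_le A s Y hq1)
  exact sum_le_sum_of_subset_of_nonneg (filter_subset_filter _ hS)
    fun x _ _ => sq_nonneg _

private theorem var_core (A : Finset ι) (s : ι → ℕ) {P Y D W H lo hi : ℕ} (hD : 1 ≤ D)
    (hW : 1 ≤ W) (hH : D ^ 2 ≤ H) {S : Finset ℚ} (hS : S ⊆ RQ Y)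
    (hd : ∀ x ∈ S, lo < x.den ∧ x.den ≤ hi) (hhi : hi ≤ D)
    (hc : ∀ x ∈ S, cP P Y x.den ≠ 0 → Nat.Coprime x.den W) (N₀ : ℕ) (f : ℕ → ℤ)
    (hf : ∀ ν, f ν = ((N₀ + W * ν : ℕ) : ℤ)) :
    ∑ ν ∈ range H, ‖FP A s P Y S (f ν)‖ ^ 2 ≤ 6 * H * vv A s P Y lo hi := by
  classical
  have h1 : ∀ ν, FP A s P Y S (f ν) = ∑ x ∈ S.filter (fun x => cP P Y x.den ≠ 0),
      (((cP P Y x.den : ℝ) : ℂ) * TA A s (x : ℝ) * ex ((N₀ : ℝ) * (x : ℝ))) *
        ex ((ν : ℝ) * ((W : ℝ) * (x : ℝ))) := by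
    intro ν
    unfold FP
    rw [hf ν]
    have h2 : ∑ x ∈ S.filter (fun x => cP P Y x.den ≠ 0),
        ((cP P Y x.den : ℝ) : ℂ) * TA A s (x : ℝ) *
          ex ((((N₀ + W * ν : ℕ) : ℤ) : ℝ) * (x : ℝ)) =
        ∑ x ∈ S, ((cP P Y x.den : ℝ) : ℂ) * TA A s (x : ℝ) *
          ex ((((N₀ + W * ν : ℕ) : ℤ) : ℝ) * (x : ℝ)) := by
      refine sum_filter_of_ne fun x _ hx h3 => hx ?_
      rw [h3]
      simp
    rw [← h2]
    refine sum_congr rfl fun x _ => ?_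
    have h3 : (((N₀ + W * ν : ℕ) : ℤ) : ℝ) * (x : ℝ) =
        (N₀ : ℝ) * (x : ℝ) + (ν : ℝ) * ((W : ℝ) * (x : ℝ)) := by
      push_cast
      ring
    rw [h3, ex_add]
    ring
  have h2 : ∑ ν ∈ range H, ‖FP A s P Y S (f ν)‖ ^ 2 ≤
      6 * H * ∑ x ∈ S.filter (fun x => cP P Y x.den ≠ 0),
        ‖((cP P Y x.den : ℝ) : ℂ) * TA A s (x : ℝ) * ex ((N₀ : ℝ) * (x : ℝ))‖ ^ 2 := by
    have h3 := ls_general (R := S.filter (fun x => cP P Y x.den ≠ 0)) hD hW (fun x hx => by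
      rw [mem_filter] at hx
      obtain ⟨h4, h5, -⟩ := RQ_spec (hS hx.1)
      exact ⟨h4, h5, (hd x hx.1).2.trans hhi, hc x hx.1 hx.2⟩)
      (fun x => ((cP P Y x.den : ℝ) : ℂ) * TA A s (x : ℝ) * ex ((N₀ : ℝ) * (x : ℝ))) hH
    simp only [h1]
    exact h3
  refine h2.trans (mul_le_mul_of_nonneg_left ?_ (by positivity))
  have h3 : ∀ x : ℚ, ‖((cP P Y x.den : ℝ) : ℂ) * TA A s (x : ℝ) * ex ((N₀ : ℝ) * (x : ℝ))‖ ^ 2 =
      (cP P Y x.den) ^ 2 * ‖TA A s (x : ℝ)‖ ^ 2 := by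
    intro x
    rw [norm_mul, norm_mul, norm_ex, mul_one, mul_pow, Complex.norm_real, Real.norm_eq_abs,
      sq_abs]
  simp only [h3]
  exact sum_group A s P Y lo hi ((filter_subset _ _).trans hS)
    fun x hx => hd x (mem_filter.1 hx).1

theorem var_small (A : Finset ι) (s : ι → ℕ) {P Y D H : ℕ} (hP : 1 ≤ P) (hD : 1 ≤ D)
    (hH : D ^ 2 ≤ H) (N₀ : ℕ) :
    ∑ ν ∈ range H, ‖FP A s P Y ((RQ Y).filter (fun x => x ≠ 0 ∧ x.den ≤ D))
      ((N₀ + 4 * P * ν : ℕ) : ℤ)‖ ^ 2 ≤ 6 * H * vv A s P Y 1 D := by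
  refine var_core A s (W := 4 * P) (lo := 1) (hi := D) hD (by omega) hH (filter_subset _ _)
    (fun x hx => ?_) le_rfl (fun x _ hx => ?_) N₀
    (fun ν => ((N₀ + 4 * P * ν : ℕ) : ℤ)) (fun ν => rfl)
  · rw [mem_filter] at hx
    obtain ⟨h1, h2, -⟩ := RQ_spec hx.1
    refine ⟨?_, hx.2.2⟩
    have h3 := x.den_pos
    rcases Nat.lt_or_ge 1 x.den with h4 | h4
    · exact h4
    · exfalso
      have h5 : x.den = 1 := by omega
      have h6 : x.num < (x.den : ℤ) := Rat.num_lt_denom_iff.mpr h2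
      have h7 : 0 ≤ x.num := Rat.num_nonneg.mpr h1
      rw [h5] at h6
      have h8 : x.num = 0 := by
        push_cast at h6
        omega
      exact hx.2.1 (Rat.zero_of_num_zero h8)
  · have h1 : Nat.Coprime x.den P := by
      by_contra h
      exact hx (cP_eq_zero h)
    have h2 : x.den % 2 = 1 := by
      rcases Nat.mod_two_eq_zero_or_one x.den with h | h
      · exact absurd (cP_even h) hx
      · exact h
    have h3 : Nat.Coprime x.den 2 := Nat.coprime_two_right.2 (Nat.odd_iff.2 h2)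
    have h4 : Nat.Coprime x.den 4 := by
      have h5 := Nat.Coprime.pow_right 2 h3
      simpa using h5
    exact Nat.Coprime.mul_right h4 h1

theorem var_large (A : Finset ι) (s : ι → ℕ) {P Y D H : ℕ} (hY : 1 ≤ Y) (hD : 1 ≤ D)
    (hH : Y ^ 2 ≤ H) :
    ∑ N ∈ range H, ‖FP A s P Y ((RQ Y).filter (fun x => D < x.den)) (N : ℤ)‖ ^ 2 ≤
      6 * H * vv A s P Y D Y := by
  refine var_core A s (W := 1) (lo := D) (hi := Y) hY le_rfl hH (filter_subset _ _)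
    (fun x hx => ?_) le_rfl (fun x _ _ => Nat.coprime_one_right _) 0
    (fun ν => (ν : ℤ)) (fun ν => by push_cast; ring)
  rw [mem_filter] at hx
  exact ⟨hx.2, (RQ_spec hx.1).2.2⟩

end Pool.Agent.SPO
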