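import Pool.Agent.SPO.GAx
import Pool.Agent.SPO.Var
import Pool.Agent.SPO.MidAP

/-!
# Package A08: non-representable numbers in one residue class

Adapt the second half of the proof of `core` in `Pool/Agent/TwoSqPow/Core.lean`. Let `N` be in the
set.
For `b ∈ A`: `n = N - s b > (m-1)Y ≥ Zz²`, `n ≡ 1 mod 4`, `n` is coprime to `P` and not a sum of
two squares (`hrep`),
so `|gdiv Zz n| ≤ #(mid Zz n)/2` (`gdiv_bound`). All divisors of `n` are coprime to `P`, so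
`GA A s P Zz N = ∑_{b ∈ A} gdiv Zz (N - s b)` (as `GG_eq`). Let `E = GA A s P Zz N - cP P Zz 1 ·
#A`. Since
`cP P Zz 1 · #A ≥ μ #A`, either (1) `|E| ≥ μ #A/2` or (2) `∑_b #(mid Zz (N - s b)) ≥ μ #A`.

(1) By `GA_sub_main`, `|E|² ≤ 2‖F₁‖² + 2‖F₂‖²`. The `N` of the class in `(mY, (m+1)Y]` are among
`N₀ + 4Pν`, `ν < H₁ := Y/(4P) + 1` (natural division), `N₀` the smallest of them (if any); `D² ≤
Y/(4P) ≤ H₁`:
`var_small` gives `∑ ‖F₁‖² ≤ 6 H₁ v₁ #A²`. `var_large` with `H = (m+1)Y + 1 ≥ Zz²`: `∑ ‖F₂‖² ≤ 6 H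
v₂ #A²`. So the
number of `N` of type (1) is at most `(2/(μ #A))² · 12 (H₁ v₁ + H v₂) #A² = (48/μ²)(H₁ v₁ + H v₂)`,
`H₁ ≤ Y/(4P) + 2`.

(2) `mid_count_ap` with `W = 4P`, `h = s b` (`N - s b` is odd and coprime to `P`): the number of
`N` of type (2) is at
most `(1/(μ #A)) ∑_b ∑_N #mid ≤ (1/μ)(9Y/(4P(m-1)) + 8√Y)`.
-/

set_option autoImplicit false

namespace Pool.Agent.SPO

open Finset Pool.Agent.TwoSqPow

private theorem GA_eq {ι : Type*} {A : Finset ι} {s : ι → ℕ} {P Zz N : ℕ}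
    (hN : ∀ b ∈ A, s b < N) (hc : ∀ b ∈ A, Nat.Coprime (N - s b) P) :
    GA A s P Zz N = ∑ b ∈ A, gdiv Zz (N - s b) := by
  unfold GA gdiv
  refine sum_congr rfl fun b hb => ?_
  have hb' := hN b hb
  rw [← sum_filter]
  refine sum_congr ?_ fun _ _ => rfl
  ext d
  rw [mem_filter, mem_filter, mem_filter, mem_Icc, Nat.mem_divisors]
  have hdvd : (d : ℤ) ∣ (N : ℤ) - s b ↔ d ∣ N - s b := by
    have h1 : ((N : ℤ) - s b) = ((N - s b : ℕ) : ℤ) := by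
      rw [Nat.cast_sub hb'.le]
    rw [h1]
    exact Int.natCast_dvd_natCast
  constructor
  · rintro ⟨⟨h1, -⟩, h2⟩
    exact ⟨⟨hdvd.mp h2, by omega⟩, h1.2⟩
  · rintro ⟨h1, h2⟩
    refine ⟨⟨⟨?_, h2⟩, ?_⟩, hdvd.mpr h1.1⟩
    · exact Nat.pos_of_dvd_of_pos h1.1 (by omega)
    · exact Nat.Coprime.coprime_dvd_left h1.1 (hc b hb)

/-- the numbers of a class in an interval of length `Y` are among `N₀ + W ν`, `ν ≤ Y / W` -/
private theorem sum_class_le {a Y W z : ℕ} (hW : 1 ≤ W) {f : ℕ → ℝ} (hf : ∀ n, 0 ≤ f n) :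
    ∃ N₀, ∑ N ∈ (Ioc a (a + Y)).filter (fun N => N % W = z % W), f N ≤
      ∑ ν ∈ range (Y / W + 1), f (N₀ + W * ν) := by
  rcases ((Ioc a (a + Y)).filter (fun N => N % W = z % W)).eq_empty_or_nonempty with h0 | hne
  · refine ⟨0, ?_⟩
    rw [h0, sum_empty]
    exact sum_nonneg fun ν _ => hf _
  · obtain ⟨N₀, hN₀⟩ : ∃ N₀, N₀ = ((Ioc a (a + Y)).filter (fun N => N % W = z % W)).min' hne :=
      ⟨_, rfl⟩
    have hmem := min'_mem _ hne
    rw [← hN₀, mem_filter, mem_Ioc] at hmem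
    refine ⟨N₀, ?_⟩
    have hinj : Function.Injective fun ν => N₀ + W * ν := by
      intro ν ν' h
      exact Nat.eq_of_mul_eq_mul_left hW (Nat.add_left_cancel h)
    have h1 : ∑ ν ∈ range (Y / W + 1), f (N₀ + W * ν) =
        ∑ N ∈ (range (Y / W + 1)).image (fun ν => N₀ + W * ν), f N :=
      (sum_image fun x _ y _ h => hinj h).symm
    rw [h1]
    refine sum_le_sum_of_subset_of_nonneg ?_ fun n _ _ => hf n
    intro N hN
    have hle : N₀ ≤ N := by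
      rw [hN₀]
      exact min'_le _ _ hN
    rw [mem_filter, mem_Ioc] at hN
    rw [mem_image]
    have hmod : N₀ ≡ N [MOD W] := hmem.2.trans hN.2.symm
    obtain ⟨ν, hν⟩ := (Nat.modEq_iff_dvd' hle).1 hmod
    refine ⟨ν, ?_, by omega⟩
    rw [mem_range]
    have h2 : W * ν ≤ Y := by omega
    have h3 : ν ≤ Y / W := by
      rw [Nat.le_div_iff_mul_le (by omega), mul_comm]
      exact h2
    omega

private theorem vv_nonneg {ι : Type*} (A : Finset ι) (s : ι → ℕ) (P Y lo hi : ℕ) :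
    0 ≤ vv A s P Y lo hi := by
  unfold vv
  exact sum_nonneg fun q _ => by positivity

open Classical in
theorem class_count {ι : Type*} (A : Finset ι) (s : ι → ℕ) {P m Y Zz D C z : ℕ}
    {μ v₁ v₂ : ℝ} (hm : 2 ≤ m) (hY : 16 ≤ Y) (hZ : Zz = Nat.sqrt ((m - 1) * Y)) (hP : 1 ≤ P)
    (hs : ∀ b ∈ A, s b ≤ Y ∧ 4 ∣ s b) (hz : z % 4 = 1)
    (hcop : ∀ b ∈ A, ∀ N : ℕ, N % (4 * P) = z % (4 * P) → s b ≤ N → Nat.Coprime (N - s b) P)
    (hrep : ∀ b ∈ A, ∀ N : ℕ, s b ≤ N → (∃ x y : ℕ, N - s b = x ^ 2 + y ^ 2) →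
      Representable C N)
    (hA : A.Nonempty) (hμ : 0 < μ) (hμ' : μ ≤ cP P Zz 1) (hD : 1 ≤ D) (hDY : 4 * P * D ^ 2 ≤ Y)
    (hv₁ : vv A s P Zz 1 D ≤ v₁ * (#A : ℝ) ^ 2) (hv₂ : vv A s P Zz D Zz ≤ v₂ * (#A : ℝ) ^ 2) :
    (#{N ∈ Ioc (m * Y) ((m + 1) * Y) | N % (4 * P) = z % (4 * P) ∧
      ¬ Representable C N} : ℝ) ≤
      48 / μ ^ 2 * (((Y : ℝ) / (4 * P) + 2) * v₁ + (((m : ℝ) + 1) * Y + 1) * v₂) +
        1 / μ * (9 * Y / (4 * P * ((m : ℝ) - 1)) + 8 * Real.sqrt Y) := by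
  have hL : (0 : ℝ) < #A := by exact_mod_cast hA.card_pos
  have hW : 1 ≤ 4 * P := by omega
  have hv₁' : 0 ≤ v₁ := by
    have h1 := (vv_nonneg A s P Zz 1 D).trans hv₁
    by_contra hc
    exact absurd h1 (not_le.2 (mul_neg_of_neg_of_pos (not_le.1 hc) (by positivity)))
  have hv₂' : 0 ≤ v₂ := by
    have h1 := (vv_nonneg A s P Zz D Zz).trans hv₂
    by_contra hc
    exact absurd h1 (not_le.2 (mul_neg_of_neg_of_pos (not_le.1 hc) (by positivity)))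
  have hmY : m * Y = (m - 1) * Y + Y := by
    obtain ⟨m', hm'⟩ : ∃ m', m = m' + 1 := ⟨m - 1, by omega⟩
    rw [hm', Nat.add_sub_cancel]
    ring
  have hmY1 : (m + 1) * Y = m * Y + Y := by ring
  have hY1 : Y ≤ (m - 1) * Y := Nat.le_mul_of_pos_left Y (by omega)
  have hZZ : Zz * Zz ≤ (m - 1) * Y := by
    rw [hZ]
    exact Nat.sqrt_le _
  have hZ2 : 2 ≤ Zz := by
    rw [hZ, Nat.le_sqrt]
    omega
  -- the class
  have hmod4 : ∀ N : ℕ, N % (4 * P) = z % (4 * P) → N % 4 = 1 := by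
    intro N hN
    have h1 : N ≡ z [MOD 4 * P] := hN
    have h2 : N ≡ z [MOD 4] := h1.of_mul_right P
    exact (show N % 4 = z % 4 from h2).trans hz
  have hn4 : ∀ b ∈ A, ∀ N : ℕ, N % (4 * P) = z % (4 * P) → s b ≤ N → (N - s b) % 4 = 1 := by
    intro b hb N hN hle
    have h1 := hmod4 N hN
    obtain ⟨c, hc⟩ := (hs b hb).2
    omega
  have hcop4 : ∀ b ∈ A, ∀ N : ℕ, N % (4 * P) = z % (4 * P) → s b ≤ N →
      Nat.Coprime (N - s b) (4 * P) := by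
    intro b hb N hN hle
    refine Nat.Coprime.mul_right ?_ (hcop b hb N hN hle)
    have h1 := hn4 b hb N hN hle
    rw [Nat.coprime_comm]
    change Nat.gcd 4 (N - s b) = 1
    rw [Nat.gcd_rec, h1]
    norm_num
  set E : ℕ → ℝ := fun N => GA A s P Zz (N : ℤ) - cP P Zz 1 * #A with hE
  set I := Ioc (m * Y) ((m + 1) * Y) with hI
  obtain ⟨T, hT⟩ : ∃ T : Finset ℕ, T = I.filter (fun N => N % (4 * P) = z % (4 * P)) := ⟨_, rfl⟩
  obtain ⟨S1, hS1⟩ : ∃ S1 : Finset ℕ, S1 = T.filter (fun N => μ * #A / 2 ≤ |E N|) := ⟨_, rfl⟩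
  obtain ⟨S2, hS2⟩ : ∃ S2 : Finset ℕ,
    S2 = T.filter (fun N => μ * #A ≤ ∑ b ∈ A, ((mid Zz (N - s b)).card : ℝ)) := ⟨_, rfl⟩
  have hsub : I.filter (fun N => N % (4 * P) = z % (4 * P) ∧ ¬ Representable C N) ⊆
      S1 ∪ S2 := by
    intro N hN
    rw [mem_filter] at hN
    obtain ⟨hNI, hNW, hNr⟩ := hN
    have hNT : N ∈ T := by
      rw [hT, mem_filter]
      exact ⟨hNI, hNW⟩
    rw [mem_union, hS1, hS2, mem_filter, mem_filter]
    by_contra hcon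
    push Not at hcon
    have hc1 := hcon.1 hNT
    have hc2 := hcon.2 hNT
    have hNI' := mem_Ioc.mp hNI
    have hlt : ∀ b ∈ A, s b < N := by
      intro b hb
      have h1 := (hs b hb).1
      omega
    have hG : |GA A s P Zz (N : ℤ)| ≤ ∑ b ∈ A, ((mid Zz (N - s b)).card : ℝ) / 2 := by
      rw [GA_eq hlt fun b hb => hcop b hb N hNW (hlt b hb).le]
      refine (abs_sum_le_sum_abs _ _).trans (sum_le_sum fun b hb => ?_)
      have h1 := hlt b hb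
      have h2 := (hs b hb).1
      refine gdiv_bound (hn4 b hb N hNW h1.le) ?_ ?_
      · omega
      · intro h3
        exact hNr (hrep b hb N h1.le h3)
    have hEN : E N = GA A s P Zz (N : ℤ) - cP P Zz 1 * #A := rfl
    have h4 : cP P Zz 1 * #A ≤ |GA A s P Zz (N : ℤ)| + |E N| := by
      have h5 := le_abs_self (GA A s P Zz (N : ℤ))
      have h6 := neg_abs_le (E N)
      linarith
    have h5 : μ * #A ≤ cP P Zz 1 * #A := mul_le_mul_of_nonneg_right hμ' hL.le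
    rw [← sum_div] at hG
    linarith
  -- first set
  have hE2 : ∀ N : ℕ, (E N) ^ 2 ≤
      2 * ‖FP A s P Zz ((RQ Zz).filter (fun x => x ≠ 0 ∧ x.den ≤ D)) (N : ℤ)‖ ^ 2 +
      2 * ‖FP A s P Zz ((RQ Zz).filter (fun x => D < x.den)) (N : ℤ)‖ ^ 2 := by
    intro N
    have h1 := GA_sub_main A s P (Y := Zz) (D := D) (by omega) hD (N : ℤ)
    have h2 : |E N| = ‖((E N : ℝ) : ℂ)‖ := by
      rw [Complex.norm_real, Real.norm_eq_abs]
    have h3 : |E N| ≤ ‖FP A s P Zz ((RQ Zz).filter (fun x => x ≠ 0 ∧ x.den ≤ D)) (N : ℤ)‖ +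
        ‖FP A s P Zz ((RQ Zz).filter (fun x => D < x.den)) (N : ℤ)‖ := by
      rw [h2]
      refine le_trans (le_of_eq ?_) (norm_add_le _ _)
      rw [← h1]
    rw [← sq_abs]
    have h4 := pow_le_pow_left₀ (abs_nonneg (E N)) h3 2
    refine h4.trans ?_
    nlinarith [sq_nonneg (‖FP A s P Zz ((RQ Zz).filter (fun x => x ≠ 0 ∧ x.den ≤ D)) (N : ℤ)‖ -
      ‖FP A s P Zz ((RQ Zz).filter (fun x => D < x.den)) (N : ℤ)‖)]
  have hsum1 : ∑ N ∈ T,
      ‖FP A s P Zz ((RQ Zz).filter (fun x => x ≠ 0 ∧ x.den ≤ D)) (N : ℤ)‖ ^ 2 ≤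
      6 * ((Y / (4 * P) + 1 : ℕ) : ℝ) * (v₁ * (#A : ℝ) ^ 2) := by
    obtain ⟨N₀, hN₀⟩ := sum_class_le (a := m * Y) (Y := Y) (W := 4 * P) (z := z) hW
      (f := fun N : ℕ =>
        ‖FP A s P Zz ((RQ Zz).filter (fun x => x ≠ 0 ∧ x.den ≤ D)) (N : ℤ)‖ ^ 2)
      (fun n => by positivity)
    have h1 := var_small A s (P := P) (Y := Zz) (D := D) (H := Y / (4 * P) + 1) hP hD (by
      have h2 : D ^ 2 ≤ Y / (4 * P) := by
        rw [Nat.le_div_iff_mul_le (by omega), mul_comm]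
        exact hDY
      omega) N₀
    rw [hT, hI, hmY1]
    refine (hN₀.trans h1).trans ?_
    exact mul_le_mul_of_nonneg_left hv₁ (by positivity)
  have hsum2 : ∑ N ∈ T,
      ‖FP A s P Zz ((RQ Zz).filter (fun x => D < x.den)) (N : ℤ)‖ ^ 2 ≤
      6 * (((m + 1) * Y + 1 : ℕ) : ℝ) * (v₂ * (#A : ℝ) ^ 2) := by
    have h1 := var_large A s (P := P) (Y := Zz) (D := D) (H := (m + 1) * Y + 1) (by omega) hD (by
      rw [sq]
      omega)
    refine le_trans ?_ (h1.trans (mul_le_mul_of_nonneg_left hv₂ (by positivity)))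
    refine sum_le_sum_of_subset_of_nonneg ?_ fun _ _ _ => by positivity
    intro N hN
    rw [hT, mem_filter, hI, mem_Ioc] at hN
    rw [mem_range]
    omega
  have hS1card : (#S1 : ℝ) ≤ 48 / μ ^ 2 * (((Y / (4 * P) + 1 : ℕ) : ℝ) * v₁ +
      (((m + 1) * Y + 1 : ℕ) : ℝ) * v₂) := by
    have h1 : (#S1 : ℝ) * (μ * #A / 2) ^ 2 ≤ ∑ N ∈ T, (E N) ^ 2 := by
      have h2 : ∑ N ∈ S1, (μ * #A / 2) ^ 2 ≤ ∑ N ∈ S1, (E N) ^ 2 := by
        refine sum_le_sum fun N hN => ?_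
        rw [hS1, mem_filter] at hN
        rw [← sq_abs (E N)]
        exact pow_le_pow_left₀ (by positivity) hN.2 2
      rw [sum_const, nsmul_eq_mul] at h2
      refine h2.trans (sum_le_sum_of_subset_of_nonneg (hS1 ▸ filter_subset _ _) fun _ _ _ => ?_)
      positivity
    have h2 : ∑ N ∈ T, (E N) ^ 2 ≤
        2 * (6 * ((Y / (4 * P) + 1 : ℕ) : ℝ) * (v₁ * (#A : ℝ) ^ 2)) +
        2 * (6 * (((m + 1) * Y + 1 : ℕ) : ℝ) * (v₂ * (#A : ℝ) ^ 2)) := by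
      refine (sum_le_sum fun N _ => hE2 N).trans ?_
      rw [sum_add_distrib, ← mul_sum, ← mul_sum]
      linarith
    have h3 : (#S1 : ℝ) * (μ * #A / 2) ^ 2 ≤
        (48 / μ ^ 2 * (((Y / (4 * P) + 1 : ℕ) : ℝ) * v₁ +
          (((m + 1) * Y + 1 : ℕ) : ℝ) * v₂)) * (μ * #A / 2) ^ 2 := by
      refine (h1.trans h2).trans (le_of_eq ?_)
      have hμ2 : μ ≠ 0 := hμ.ne'
      field_simp
      ring
    exact le_of_mul_le_mul_right h3 (by positivity)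
  -- second set
  have hS2card : (#S2 : ℝ) ≤ 1 / μ * (9 * Y / (4 * P * ((m : ℝ) - 1)) + 8 * Real.sqrt Y) := by
    have h1 : (#S2 : ℝ) * (μ * #A) ≤ ∑ N ∈ T, ∑ b ∈ A, ((mid Zz (N - s b)).card : ℝ) := by
      have h2 : ∑ N ∈ S2, (μ * (#A : ℝ)) ≤
          ∑ N ∈ S2, ∑ b ∈ A, ((mid Zz (N - s b)).card : ℝ) := by
        refine sum_le_sum fun N hN => ?_
        rw [hS2, mem_filter] at hN
        exact hN.2
      rw [sum_const, nsmul_eq_mul] at h2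
      refine h2.trans (sum_le_sum_of_subset_of_nonneg (hS2 ▸ filter_subset _ _) fun _ _ _ => ?_)
      exact sum_nonneg fun b _ => Nat.cast_nonneg _
    rw [sum_comm] at h1
    have h3 : ∑ b ∈ A, ∑ N ∈ T, ((mid Zz (N - s b)).card : ℝ) ≤
        #A * (9 * Y / (4 * P * ((m : ℝ) - 1)) + 8 * Real.sqrt Y) := by
      calc ∑ b ∈ A, ∑ N ∈ T, ((mid Zz (N - s b)).card : ℝ)
          ≤ ∑ b ∈ A, (9 * Y / (4 * P * ((m : ℝ) - 1)) + 8 * Real.sqrt Y) := by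
            refine sum_le_sum fun b hb => ?_
            have h4 := mid_count_ap (m := m) (Y := Y) (Zz := Zz) (h := s b) (W := 4 * P) (z := z)
              hm (by omega) hZ hZ2 (hs b hb).1 hW (hcop4 b hb)
            push_cast at h4
            rw [hT, hI]
            exact h4
        _ = #A * (9 * Y / (4 * P * ((m : ℝ) - 1)) + 8 * Real.sqrt Y) := by
            rw [sum_const, nsmul_eq_mul]
    have h4 : (#S2 : ℝ) * (μ * #A) ≤
        (1 / μ * (9 * Y / (4 * P * ((m : ℝ) - 1)) + 8 * Real.sqrt Y)) * (μ * #A) := by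
      refine (h1.trans h3).trans (le_of_eq ?_)
      have hμ2 : μ ≠ 0 := hμ.ne'
      generalize (9 * (Y : ℝ) / (4 * P * ((m : ℝ) - 1)) + 8 * Real.sqrt Y) = X
      field_simp
    exact le_of_mul_le_mul_right h4 (by positivity)
  have hfin : (#(I.filter (fun N => N % (4 * P) = z % (4 * P) ∧ ¬ Representable C N)) : ℝ) ≤
      #S1 + #S2 := by
    exact_mod_cast (card_le_card hsub).trans (card_union_le _ _)
  have hH₁ : ((Y / (4 * P) + 1 : ℕ) : ℝ) ≤ (Y : ℝ) / (4 * P) + 2 := by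
    have h1 : ((Y / (4 * P) : ℕ) : ℝ) ≤ (Y : ℝ) / ((4 * P : ℕ) : ℝ) := Nat.cast_div_le
    push_cast at h1 ⊢
    linarith
  have hlast : 48 / μ ^ 2 * (((Y / (4 * P) + 1 : ℕ) : ℝ) * v₁ +
      (((m + 1) * Y + 1 : ℕ) : ℝ) * v₂) ≤
      48 / μ ^ 2 * (((Y : ℝ) / (4 * P) + 2) * v₁ + (((m : ℝ) + 1) * Y + 1) * v₂) := by
    refine mul_le_mul_of_nonneg_left ?_ (by positivity)
    have h1 := mul_le_mul_of_nonneg_right hH₁ hv₁'
    have h2 : (((m + 1) * Y + 1 : ℕ) : ℝ) = ((m : ℝ) + 1) * Y + 1 := by push_cast; ring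
    rw [h2]
    linarith
  linarith

end Pool.Agent.SPO
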