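import Pool.Agent.SPO.Window

/-!
# Package P14: primes `q` such that no `ℓ ∈ Λ` divides `q - 1`

Let `D = ∏_{ℓ ∈ Λ} ℓ` and let `Y` be at least `D⁴` and `2`. A prime `q > Y` is coprime to `D`. The
set is
contained in the union over the residue classes `r mod D` (`0 ≤ r < D`) with `gcd(r, D) = 1` and
`r ≢ 1 mod ℓ`
for all `ℓ ∈ Λ` of `{q ∈ (Y, Y²] : q ≡ r mod D}`. By the Chinese remainder theorem there are
`∏_{ℓ ∈ Λ} (ℓ - 2)` such classes, each contributes at most `C₁/φ(D) = C₁/∏ (ℓ - 1)`. Total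
`C₁ ∏ (ℓ-2)/(ℓ-1) = C₁ ∏ (1 - 1/(ℓ-1))`.

(The count of classes can be done by induction on `Λ` with `ZMod.chineseRemainder`, or in the form
`#{r : ZMod D | ...} = ∏ #{r : ZMod ℓ | r ≠ 0, r ≠ 1}` with `ZMod.prodEquivPi` /
`Nat.chineseRemainder`.)
-/

set_option autoImplicit false

namespace Pool.Agent.SPO

open Finset Filter

private theorem card_pair (l : ℕ) : #{a ∈ range l | a ≠ 0 ∧ a ≠ 1} = l - 2 := by
  have h : ({a ∈ range l | a ≠ 0 ∧ a ≠ 1} : Finset ℕ) = Ico 2 l := by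
    ext a
    rw [mem_filter, mem_range, mem_Ico]
    omega
  rw [h, Nat.card_Ico]

private theorem prod_dvd {Λ : Finset ℕ} (hΛ : ∀ ℓ ∈ Λ, ℓ.Prime) {a b : ℕ}
    (h : ∀ ℓ ∈ Λ, a % ℓ = b % ℓ) : a ≡ b [MOD ∏ ℓ ∈ Λ, ℓ] := by
  induction Λ using Finset.induction_on with
  | empty => rw [prod_empty]; exact Nat.modEq_one
  | insert q T hq ih =>
    rw [prod_insert hq]
    have hco : Nat.Coprime q (∏ ℓ ∈ T, ℓ) := by
      refine Nat.Coprime.prod_right fun i hi => ?_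
      refine (Nat.coprime_primes (hΛ q (mem_insert_self _ _))
        (hΛ i (mem_insert_of_mem hi))).2 fun he => ?_
      rw [he] at hq
      exact hq hi
    exact (Nat.modEq_and_modEq_iff_modEq_mul hco).1 ⟨h q (mem_insert_self _ _),
      ih (fun l hl => hΛ l (mem_insert_of_mem hl)) fun l hl => h l (mem_insert_of_mem hl)⟩

private theorem sum_bU {f : ℕ → ℝ} (hf : ∀ q, 0 ≤ f q) (S : Finset ℕ) (A : ℕ → Finset ℕ) :
    ∑ q ∈ S.biUnion A, f q ≤ ∑ r ∈ S, ∑ q ∈ A r, f q := by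
  induction S using Finset.induction_on with
  | empty => simp
  | insert r T hr ih =>
    rw [biUnion_insert, sum_insert hr]
    refine le_trans ?_ (add_le_add_right ih _)
    rw [← sum_union_inter]
    exact le_add_of_nonneg_right (sum_nonneg fun q _ => hf q)

private theorem card_classes {Λ : Finset ℕ} (hΛ : ∀ ℓ ∈ Λ, ℓ.Prime) :
    #{r ∈ range (∏ ℓ ∈ Λ, ℓ) | ∀ ℓ ∈ Λ, r % ℓ ≠ 0 ∧ r % ℓ ≠ 1} ≤ ∏ ℓ ∈ Λ, (ℓ - 2) := by
  classical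
  have h1 : #(Λ.pi fun ℓ => {a ∈ range ℓ | a ≠ 0 ∧ a ≠ 1}) = ∏ ℓ ∈ Λ, (ℓ - 2) := by
    rw [card_pi]
    exact prod_congr rfl fun l _ => card_pair l
  rw [← h1]
  refine card_le_card_of_injOn (fun r => fun ℓ _ => r % ℓ) ?_ ?_
  · intro r hr
    rw [mem_coe, mem_filter] at hr
    rw [mem_coe, Finset.mem_pi]
    intro l hl
    rw [mem_filter, mem_range]
    exact ⟨Nat.mod_lt _ (hΛ l hl).pos, hr.2 l hl⟩
  · intro r hr r' hr' he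
    rw [mem_coe, mem_filter, mem_range] at hr hr'
    have h2 : r ≡ r' [MOD ∏ ℓ ∈ Λ, ℓ] := prod_dvd hΛ fun l hl => congrFun (congrFun he l) hl
    exact Nat.ModEq.eq_of_lt_of_lt h2 hr.1 hr'.1

private theorem totient_prod {Λ : Finset ℕ} (hΛ : ∀ ℓ ∈ Λ, ℓ.Prime) :
    Nat.totient (∏ ℓ ∈ Λ, ℓ) = ∏ ℓ ∈ Λ, (ℓ - 1) := by
  induction Λ using Finset.induction_on with
  | empty => simp
  | insert q T hq ih =>
    rw [prod_insert hq, prod_insert hq]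
    have hco : Nat.Coprime q (∏ ℓ ∈ T, ℓ) := by
      refine Nat.Coprime.prod_right fun i hi => ?_
      refine (Nat.coprime_primes (hΛ q (mem_insert_self _ _))
        (hΛ i (mem_insert_of_mem hi))).2 fun he => ?_
      rw [he] at hq
      exact hq hi
    rw [Nat.totient_mul hco, ih fun l hl => hΛ l (mem_insert_of_mem hl),
      Nat.totient_prime (hΛ q (mem_insert_self _ _))]

theorem gamma_window {C₁ : ℝ} (h0 : 0 ≤ C₁) (hC : ∀ D Y r : ℕ, 1 ≤ D → 2 ≤ Y → D ^ 4 ≤ Y →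
    ∑ q ∈ (Ioc Y (Y ^ 2)).filter (fun q => q.Prime ∧ q % D = r % D), (1 : ℝ) / q ≤
      C₁ / Nat.totient D) (Λ : Finset ℕ) (hΛ : ∀ ℓ ∈ Λ, ℓ.Prime ∧ ℓ ≠ 2) :
    ∀ᶠ Y : ℕ in atTop,
      ∑ q ∈ (Ioc Y (Y ^ 2)).filter (fun q => q.Prime ∧ ∀ ℓ ∈ Λ, ¬ ℓ ∣ q - 1), (1 : ℝ) / q ≤
        C₁ * ∏ ℓ ∈ Λ, (1 - 1 / ((ℓ : ℝ) - 1)) := by
  classical
  have hΛ1 : ∀ ℓ ∈ Λ, ℓ.Prime := fun l hl => (hΛ l hl).1
  set D : ℕ := ∏ ℓ ∈ Λ, ℓ with hD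
  have hD1 : 1 ≤ D := Nat.succ_le_of_lt (prod_pos fun l hl => (hΛ1 l hl).pos)
  filter_upwards [eventually_ge_atTop (max 2 (D ^ 4))] with Y hY
  have hY2 : 2 ≤ Y := (le_max_left _ _).trans hY
  have hY4 : D ^ 4 ≤ Y := (le_max_right _ _).trans hY
  have hDY : D ≤ Y := (Nat.le_self_pow (by norm_num) D).trans hY4
  set S : Finset ℕ := {r ∈ range D | ∀ ℓ ∈ Λ, r % ℓ ≠ 0 ∧ r % ℓ ≠ 1} with hS
  have hcard : #S ≤ ∏ ℓ ∈ Λ, (ℓ - 2) := card_classes hΛ1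
  have hsub : (Ioc Y (Y ^ 2)).filter (fun q => q.Prime ∧ ∀ ℓ ∈ Λ, ¬ ℓ ∣ q - 1) ⊆
      S.biUnion fun r => (Ioc Y (Y ^ 2)).filter (fun q => q.Prime ∧ q % D = r % D) := by
    intro q hq
    rw [mem_filter, mem_Ioc] at hq
    rw [mem_biUnion]
    refine ⟨q % D, ?_, ?_⟩
    · rw [hS, mem_filter, mem_range]
      refine ⟨Nat.mod_lt _ hD1, fun l hl => ?_⟩
      have hlD : l ∣ D := dvd_prod_of_mem _ hl
      rw [Nat.mod_mod_of_dvd _ hlD]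
      refine ⟨fun h => ?_, fun h => hq.2.2 l hl ?_⟩
      · have h2 : l ∣ q := Nat.dvd_of_mod_eq_zero h
        have h3 : l = q := (Nat.prime_dvd_prime_iff_eq (hΛ1 l hl) hq.2.1).1 h2
        have h4 : l ≤ D := Nat.le_of_dvd hD1 hlD
        omega
      · rw [← h]
        exact Nat.dvd_sub_mod q
    · rw [mem_filter, mem_Ioc]
      exact ⟨hq.1, hq.2.1, (Nat.mod_mod _ _).symm⟩
  have hnn : ∀ q : ℕ, (0 : ℝ) ≤ 1 / (q : ℝ) := fun q => by positivity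
  have hphi : (0 : ℝ) < Nat.totient D := by exact_mod_cast Nat.totient_pos.2 hD1
  have htot : (Nat.totient D : ℝ) = ∏ ℓ ∈ Λ, ((ℓ : ℝ) - 1) := by
    rw [hD, totient_prod hΛ1, Nat.cast_prod]
    refine prod_congr rfl fun l hl => ?_
    rw [Nat.cast_sub (hΛ1 l hl).pos, Nat.cast_one]
  have hprod : (∏ ℓ ∈ Λ, (1 - 1 / ((ℓ : ℝ) - 1))) =
      (∏ ℓ ∈ Λ, ((ℓ : ℝ) - 2)) / ∏ ℓ ∈ Λ, ((ℓ : ℝ) - 1) := by
    rw [← prod_div_distrib]
    refine prod_congr rfl fun l hl => ?_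
    have h2 : (2 : ℝ) ≤ l := by exact_mod_cast (hΛ1 l hl).two_le
    have h3 : (l : ℝ) - 1 ≠ 0 := by intro h; linarith
    field_simp
    ring
  have hcardR : (#S : ℝ) ≤ ∏ ℓ ∈ Λ, ((ℓ : ℝ) - 2) := by
    have h2 : (#S : ℝ) ≤ ((∏ ℓ ∈ Λ, (ℓ - 2) : ℕ) : ℝ) := by exact_mod_cast hcard
    refine h2.trans (le_of_eq ?_)
    rw [Nat.cast_prod]
    refine prod_congr rfl fun l hl => ?_
    rw [Nat.cast_sub (hΛ1 l hl).two_le, Nat.cast_ofNat]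
  calc _ ≤ ∑ q ∈ S.biUnion fun r =>
        (Ioc Y (Y ^ 2)).filter (fun q => q.Prime ∧ q % D = r % D), (1 : ℝ) / q :=
        sum_le_sum_of_subset_of_nonneg hsub fun q _ _ => hnn q
    _ ≤ ∑ r ∈ S, ∑ q ∈ (Ioc Y (Y ^ 2)).filter (fun q => q.Prime ∧ q % D = r % D),
        (1 : ℝ) / q := sum_bU hnn _ _
    _ ≤ ∑ r ∈ S, C₁ / Nat.totient D := sum_le_sum fun r _ => hC D Y r hD1 hY2 hY4
    _ = #S * (C₁ / Nat.totient D) := by rw [sum_const, nsmul_eq_mul]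
    _ ≤ (∏ ℓ ∈ Λ, ((ℓ : ℝ) - 2)) * (C₁ / Nat.totient D) :=
        mul_le_mul_of_nonneg_right hcardR (by positivity)
    _ = C₁ * ∏ ℓ ∈ Λ, (1 - 1 / ((ℓ : ℝ) - 1)) := by
        rw [hprod, htot]
        ring

end Pool.Agent.SPO
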