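import Pool.Agent.SPO.Kummer
import Pool.Agent.SPO.Gamma
import Pool.Agent.SPO.Ord

/-!
# Package P15: the classes are sparse

Let `C₁` be from `window_sum`. Choose `L₀ ≥ 3` with `C₁/L₀ ≤ η/4` and `7/L₀ ≤ η/4`. As `∑ 1/p`
diverges
(`Nat.Primes.not_summable_one_div` or `not_summable_one_div_on_primes`) there is `L₁ > L₀` such
that
`C₁ ∏_{L₀ < ℓ ≤ L₁} (1 - 1/(ℓ-1)) ≤ C₁ exp(-∑ 1/ℓ) ≤ η/4`, product and sum over primes. `J` =
number of these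
primes, `l 0, ..., l (J-1)` an enumeration (e.g. `Finset.orderEmbOfFin` or `List.get` of the
sorted list;
`l i = 3` for `i ≥ J`). All estimates for `i ≥ i₀` use finitely many conditions that `Y = Z i` is
large
(`Z i → ∞`), with `Z (i+1) = (Z i)²`.

Let `q ∈ win i`, `q ∈ cls l J t`, `q > L₁`.

`t < J`: `Dd (l t) q`, and `q ≠ l t`, so `v_{ℓ}(od q) = 1` with `ℓ = l t`, `ℓ ∣ od q ∣ q - 1`
(`od_dvd`):
`∑ ≤ C₁/φ(ℓ) = C₁/(ℓ-1) ≤ C₁/L₀` (`window_sum` with `D = ℓ`, `r = 1`).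

`t = J`: `v_ℓ(od q) ≠ 1` for all `ℓ = l i`, `i < J`. One of the following holds.
(a) `ℓ² ∣ q - 1` for some `ℓ = l i`: `∑ ≤ ∑_i C₁/φ(ℓ²) = ∑_i C₁/(ℓ(ℓ-1)) ≤ C₁ ∑_{n > L₀}
1/(n(n-1)) = C₁/L₀`.
(b) `ℓ ∣ q - 1` for some `ℓ = l i`, and not (a): then `v_ℓ(od q) ≤ v_ℓ(q-1) = 1`, so `v_ℓ(od q) =
0` and
`2^{(q-1)/ℓ} = 1` (`pow_eq_one_of_not_dvd`): `∑ ≤ ∑_i 7/(ℓ(ℓ-1)) ≤ 7/L₀` (`kummer_window`).
(c) no `l i` divides `q - 1`: `gamma_window`.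
Total `≤ η/4 + η/4 + η/4`.
-/

set_option autoImplicit false

namespace Pool.Agent.SPO

open Finset

private theorem cl_primes (L₀ : ℕ) (M : ℝ) :
    ∃ Λ : Finset ℕ, (∀ ℓ ∈ Λ, ℓ.Prime ∧ L₀ < ℓ) ∧ M ≤ ∑ ℓ ∈ Λ, (1 : ℝ) / ℓ := by
  classical
  have h0 : ∀ n : ℕ, 0 ≤ Set.indicator {p : ℕ | p.Prime} (fun n : ℕ => (1 : ℝ) / n) n := fun n =>
    Set.indicator_nonneg (fun _ _ => by positivity) n
  have h1 := (not_summable_iff_tendsto_nat_atTop_of_nonneg h0).1 not_summable_one_div_on_primes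
  obtain ⟨n, hn⟩ := (h1.eventually_ge_atTop (M + ∑ i ∈ range (L₀ + 1),
    Set.indicator {p : ℕ | p.Prime} (fun n : ℕ => (1 : ℝ) / n) i)).exists
  refine ⟨(range n).filter (fun p => p.Prime ∧ L₀ < p), fun ℓ hℓ => (mem_filter.1 hℓ).2, ?_⟩
  have h2 : ∑ i ∈ range n, Set.indicator {p : ℕ | p.Prime} (fun n : ℕ => (1 : ℝ) / n) i ≤
      ∑ ℓ ∈ (range n).filter (fun p => p.Prime ∧ L₀ < p), (1 : ℝ) / ℓ +
      ∑ i ∈ range (L₀ + 1),
        Set.indicator {p : ℕ | p.Prime} (fun n : ℕ => (1 : ℝ) / n) i := by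
    have h3 : ∑ i ∈ range n, Set.indicator {p : ℕ | p.Prime} (fun n : ℕ => (1 : ℝ) / n) i ≤
        ∑ i ∈ range n, ((if i.Prime ∧ L₀ < i then (1 : ℝ) / i else 0) +
          if i < L₀ + 1 then
            Set.indicator {p : ℕ | p.Prime} (fun n : ℕ => (1 : ℝ) / n) i else 0) := by
      refine Finset.sum_le_sum fun i _ => ?_
      by_cases hi : i < L₀ + 1
      · rw [if_pos hi]
        have h4 : (0 : ℝ) ≤ if i.Prime ∧ L₀ < i then (1 : ℝ) / i else 0 := by positivity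
        linarith
      · rw [if_neg hi, add_zero]
        by_cases hp : i.Prime
        · rw [if_pos ⟨hp, by omega⟩, Set.indicator_of_mem (show i ∈ {p : ℕ | p.Prime} from hp)]
        · rw [Set.indicator_of_notMem (show i ∉ {p : ℕ | p.Prime} from hp)]
          positivity
    refine h3.trans ?_
    rw [Finset.sum_add_distrib, ← Finset.sum_filter, ← Finset.sum_filter]
    refine add_le_add le_rfl (Finset.sum_le_sum_of_subset_of_nonneg ?_ fun i _ _ => h0 i)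
    intro i hi
    exact mem_range.2 (mem_filter.1 hi).2
  linarith

private theorem cl_tele {a : ℕ} (ha : 1 ≤ a) (b : ℕ) (hb : a ≤ b) :
    ∑ n ∈ Ioc a b, (1 : ℝ) / (n * ((n : ℝ) - 1)) ≤ 1 / a - 1 / b := by
  induction b, hb using Nat.le_induction with
  | base => simp
  | succ b hb ih =>
    rw [← Finset.insert_Ioc_right_eq_Ioc_add_one (by omega), Finset.sum_insert (by simp)]
    have h1 : (0 : ℝ) < b := by
      have : 0 < b := by omega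
      exact_mod_cast this
    have h2 : (1 : ℝ) / ((b + 1 : ℕ) * (((b + 1 : ℕ) : ℝ) - 1)) =
        1 / b - 1 / ((b + 1 : ℕ) : ℝ) := by
      push_cast
      have h3 : (b : ℝ) + 1 ≠ 0 := by linarith
      have h4 : (b : ℝ) ≠ 0 := h1.ne'
      rw [add_sub_cancel_right]
      field_simp
      ring
    rw [h2]
    linarith

private theorem cl_sum {L₀ : ℕ} (hL : 1 ≤ L₀) {Λ : Finset ℕ} (hΛ : ∀ ℓ ∈ Λ, L₀ < ℓ) :
    ∑ ℓ ∈ Λ, (1 : ℝ) / (ℓ * ((ℓ : ℝ) - 1)) ≤ 1 / L₀ := by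
  have h1 : Λ ⊆ Ioc L₀ (max L₀ (Λ.sup id)) := by
    intro ℓ hℓ
    rw [mem_Ioc]
    exact ⟨hΛ ℓ hℓ, (Finset.le_sup (f := id) hℓ).trans (le_max_right _ _)⟩
  have h2 : ∑ ℓ ∈ Λ, (1 : ℝ) / (ℓ * ((ℓ : ℝ) - 1)) ≤
      ∑ ℓ ∈ Ioc L₀ (max L₀ (Λ.sup id)), (1 : ℝ) / (ℓ * ((ℓ : ℝ) - 1)) := by
    refine Finset.sum_le_sum_of_subset_of_nonneg h1 fun n hn _ => ?_
    rw [mem_Ioc] at hn
    have h3 : (1 : ℝ) ≤ n := by
      have : 1 ≤ n := by omega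
      exact_mod_cast this
    have h4 : (0 : ℝ) ≤ (n : ℝ) - 1 := by linarith
    positivity
  refine h2.trans ((cl_tele hL _ (le_max_left _ _)).trans ?_)
  have h3 : (0 : ℝ) ≤ 1 / (max L₀ (Λ.sup id) : ℕ) := by positivity
  linarith

private theorem cl_prod {L₀ : ℕ} (hL : 3 ≤ L₀) {Λ : Finset ℕ} (hΛ : ∀ ℓ ∈ Λ, L₀ < ℓ) {M : ℝ}
    (hM : M ≤ ∑ ℓ ∈ Λ, (1 : ℝ) / ℓ) :
    ∏ ℓ ∈ Λ, (1 - 1 / ((ℓ : ℝ) - 1)) ≤ Real.exp (-M) := by
  have h1 : ∀ ℓ ∈ Λ, (3 : ℝ) < ℓ := fun ℓ hℓ => by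
    have : 3 < ℓ := by
      have := hΛ ℓ hℓ
      omega
    exact_mod_cast this
  have h2 : ∏ ℓ ∈ Λ, (1 - 1 / ((ℓ : ℝ) - 1)) ≤ ∏ ℓ ∈ Λ, Real.exp (-((1 : ℝ) / ℓ)) := by
    refine Finset.prod_le_prod (fun ℓ hℓ => ?_) fun ℓ hℓ => ?_
    · have h3 := h1 ℓ hℓ
      rw [sub_nonneg, div_le_one (by linarith)]
      linarith
    · have h3 := h1 ℓ hℓ
      have h4 := Real.add_one_le_exp (-((1 : ℝ) / ℓ))
      have h5 : (1 : ℝ) / ℓ ≤ 1 / ((ℓ : ℝ) - 1) :=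
        one_div_le_one_div_of_le (by linarith) (by linarith)
      linarith
  refine h2.trans ?_
  rw [← Real.exp_sum, Finset.sum_neg_distrib]
  exact Real.exp_le_exp.2 (neg_le_neg hM)

private theorem cl_Z : Filter.Tendsto Z Filter.atTop Filter.atTop := by
  refine Filter.tendsto_atTop_mono (f := fun n => n) (fun n => ?_) Filter.tendsto_id
  cases n with
  | zero => exact Nat.zero_le _
  | succ n =>
    rw [Z_succ]
    have h1 : n < 2 ^ n := Nat.lt_two_pow_self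
    have h2 : 2 ^ n < 2 ^ 2 ^ n := Nat.lt_two_pow_self
    omega

open Classical in
theorem classes_sparse {η : ℝ} (hη : 0 < η) : ∃ (J : ℕ) (l : ℕ → ℕ) (i₀ : ℕ),
    (∀ i, (l i).Prime ∧ l i ≠ 2) ∧ ∀ t ≤ J, ∀ i ≥ i₀,
      ∑ q ∈ (win i).filter (fun q => q ∈ cls l J t), (1 : ℝ) / q ≤ η := by
  obtain ⟨C₁, hC1, hC⟩ := window_sum
  have hC0 : 0 < C₁ := by linarith
  obtain ⟨L₀, hL₀⟩ : ∃ L₀ : ℕ, 3 ≤ L₀ ∧ C₁ * (1 / L₀) ≤ η / 4 ∧ 7 * ((1 : ℝ) / L₀) ≤ η / 4 := by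
    obtain ⟨L, hL⟩ := exists_nat_gt (max 3 (max (4 * C₁ / η) (28 / η)))
    rw [max_lt_iff, max_lt_iff] at hL
    obtain ⟨h1, h2, h3⟩ := hL
    have h4 : (0 : ℝ) < L := by linarith
    rw [div_lt_iff₀ hη] at h2 h3
    refine ⟨L, by exact_mod_cast h1.le, ?_, ?_⟩
    · rw [mul_one_div, div_le_iff₀ h4]
      linarith
    · rw [mul_one_div, div_le_iff₀ h4]
      linarith
  obtain ⟨hL3, hLC, hL7⟩ := hL₀
  obtain ⟨Λ, hΛ, hM⟩ := cl_primes L₀ (Real.log (4 * C₁ / η))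
  have hΛp : ∀ ℓ ∈ Λ, ℓ.Prime ∧ ℓ ≠ 2 := fun ℓ hℓ => by
    have := hΛ ℓ hℓ
    exact ⟨this.1, by omega⟩
  have hprod : C₁ * ∏ ℓ ∈ Λ, (1 - 1 / ((ℓ : ℝ) - 1)) ≤ η / 4 := by
    have h1 := cl_prod hL3 (fun ℓ hℓ => (hΛ ℓ hℓ).2) hM
    rw [Real.exp_neg, Real.exp_log (by positivity), inv_div] at h1
    calc C₁ * ∏ ℓ ∈ Λ, (1 - 1 / ((ℓ : ℝ) - 1)) ≤ C₁ * (η / (4 * C₁)) :=
          mul_le_mul_of_nonneg_left h1 hC0.le
      _ = η / 4 := by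
          field_simp
  -- the enumeration
  obtain ⟨J, l, hl1, hl2, hl3⟩ : ∃ (J : ℕ) (l : ℕ → ℕ), (∀ i, (l i).Prime ∧ l i ≠ 2) ∧
      (∀ i < J, l i ∈ Λ) ∧ ∀ ℓ ∈ Λ, ∃ i < J, l i = ℓ := by
    refine ⟨Λ.toList.length, fun i => Λ.toList.getD i 3, fun i => ?_, fun i hi => ?_,
      fun ℓ hℓ => ?_⟩
    · by_cases hi : i < Λ.toList.length
      · refine hΛp _ ?_
        simp only [List.getD_eq_getElem _ _ hi]
        exact Finset.mem_toList.1 (List.getElem_mem hi)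
      · simp only [List.getD_eq_default _ _ (not_lt.1 hi)]
        exact ⟨Nat.prime_three, by norm_num⟩
    · simp only [List.getD_eq_getElem _ _ hi]
      exact Finset.mem_toList.1 (List.getElem_mem hi)
    · obtain ⟨i, hi, h⟩ := List.getElem_of_mem (Finset.mem_toList.2 hℓ)
      refine ⟨i, hi, ?_⟩
      simp only [List.getD_eq_getElem _ _ hi]
      exact h
  -- large scales
  have hev : ∀ᶠ Y : ℕ in Filter.atTop, (2 ≤ Y ∧ ∀ ℓ ∈ Λ, ℓ ≤ Y ∧ ℓ ^ 4 ≤ Y ∧ (ℓ ^ 2) ^ 4 ≤ Y ∧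
      ∑ q ∈ (Ioc Y (Y ^ 2)).filter (fun q => (q.Prime ∧ q ≠ 2) ∧ ℓ ∣ q - 1 ∧
        (2 : ZMod q) ^ ((q - 1) / ℓ) = 1), (1 : ℝ) / q ≤ 7 / (ℓ * ((ℓ : ℝ) - 1))) ∧
      ∑ q ∈ (Ioc Y (Y ^ 2)).filter (fun q => q.Prime ∧ ∀ ℓ ∈ Λ, ¬ ℓ ∣ q - 1), (1 : ℝ) / q ≤
        C₁ * ∏ ℓ ∈ Λ, (1 - 1 / ((ℓ : ℝ) - 1)) := by
    refine ((Filter.eventually_ge_atTop 2).and ?_).and (gamma_window hC0.le hC Λ hΛp)
    rw [Filter.eventually_all_finset]
    intro ℓ hℓ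
    exact (Filter.eventually_ge_atTop ℓ).and ((Filter.eventually_ge_atTop (ℓ ^ 4)).and
      ((Filter.eventually_ge_atTop ((ℓ ^ 2) ^ 4)).and (kummer_window (hΛ ℓ hℓ).1)))
  obtain ⟨i₀, hi₀⟩ := Filter.eventually_atTop.1 (cl_Z.eventually hev)
  refine ⟨J, l, max 1 i₀, hl1, fun t ht i hi => ?_⟩
  obtain ⟨⟨hY2, hYΛ⟩, hYg⟩ := hi₀ i ((le_max_right _ _).trans hi)
  have hi1 : 1 ≤ i := (le_max_left _ _).trans hi
  have hw : win i = (Ioc (Z i) (Z i ^ 2)).filter (fun q => q.Prime ∧ q ≠ 2) := by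
    rw [win, Z_sq hi1]
  rcases ht.lt_or_eq with htJ | rfl
  · -- a class `t < J`
    obtain ⟨hlY, hY4, -, -⟩ := hYΛ (l t) (hl2 t htJ)
    have hlp := hΛ (l t) (hl2 t htJ)
    have h1 : ∑ q ∈ (win i).filter (fun q => q ∈ cls l J t), (1 : ℝ) / q ≤
        ∑ q ∈ (Ioc (Z i) (Z i ^ 2)).filter (fun q => q.Prime ∧ q % l t = 1 % l t),
          (1 : ℝ) / q := by
      refine Finset.sum_le_sum_of_subset_of_nonneg ?_ fun _ _ _ => by positivity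
      intro q hq
      rw [hw, mem_filter, mem_filter] at hq
      obtain ⟨⟨hq1, hq2, hq3⟩, hq4⟩ := hq
      rw [mem_filter]
      refine ⟨hq1, hq2, ?_⟩
      rcases hq4.2 htJ with h2 | h2
      · have h3 : l t ∣ od q := Nat.dvd_of_factorization_pos (by rw [h2]; norm_num)
        have h4 : l t ∣ q - 1 := h3.trans (od_dvd hq2 hq3)
        exact ((Nat.modEq_iff_dvd' hq2.one_lt.le).2 h4).symm
      · exfalso
        have := (mem_Ioc.1 hq1).1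
        omega
    have h2 := hC (l t) (Z i) 1 hlp.1.one_lt.le hY2 hY4
    refine h1.trans (h2.trans ?_)
    have h3 : (C₁ : ℝ) / Nat.totient (l t) ≤ C₁ * (1 / L₀) := by
      rw [mul_one_div]
      refine div_le_div_of_nonneg_left hC0.le (by positivity) ?_
      rw [Nat.totient_prime hlp.1]
      have : L₀ ≤ l t - 1 := by
        have := hlp.2
        omega
      exact_mod_cast this
    linarith
  · -- the last class
    have h1 : ∑ q ∈ (win i).filter (fun q => q ∈ cls l t t), (1 : ℝ) / q ≤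
        ∑ q ∈ Ioc (Z i) (Z i ^ 2), ((∑ ℓ ∈ Λ,
          if q.Prime ∧ q % ℓ ^ 2 = 1 % ℓ ^ 2 then (1 : ℝ) / q else 0) +
          (∑ ℓ ∈ Λ, if (q.Prime ∧ q ≠ 2) ∧ ℓ ∣ q - 1 ∧ (2 : ZMod q) ^ ((q - 1) / ℓ) = 1 then
            (1 : ℝ) / q else 0) +
          if q.Prime ∧ ∀ ℓ ∈ Λ, ¬ ℓ ∣ q - 1 then (1 : ℝ) / q else 0) := by
      rw [hw, Finset.filter_filter, Finset.sum_filter]
      refine Finset.sum_le_sum fun q hq => ?_
      have hA : (0 : ℝ) ≤ ∑ ℓ ∈ Λ, if q.Prime ∧ q % ℓ ^ 2 = 1 % ℓ ^ 2 then (1 : ℝ) / q else 0 :=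
        Finset.sum_nonneg fun _ _ => by positivity
      have hB : (0 : ℝ) ≤ ∑ ℓ ∈ Λ, if (q.Prime ∧ q ≠ 2) ∧ ℓ ∣ q - 1 ∧
          (2 : ZMod q) ^ ((q - 1) / ℓ) = 1 then (1 : ℝ) / q else 0 :=
        Finset.sum_nonneg fun _ _ => by positivity
      have hD : (0 : ℝ) ≤ if q.Prime ∧ ∀ ℓ ∈ Λ, ¬ ℓ ∣ q - 1 then (1 : ℝ) / q else 0 := by
        positivity
      by_cases hqc : (q.Prime ∧ q ≠ 2) ∧ q ∈ cls l t t
      · rw [if_pos hqc]
        obtain ⟨⟨hq2, hq3⟩, hq4⟩ := hqc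
        have hne : ∀ ℓ ∈ Λ, (od q).factorization ℓ ≠ 1 := by
          intro ℓ hℓ h2
          obtain ⟨j, hj, rfl⟩ := hl3 ℓ hℓ
          exact hq4.1 j hj (Or.inl h2)
        by_cases hc : ∀ ℓ ∈ Λ, ¬ ℓ ∣ q - 1
        · have h2 : (if q.Prime ∧ ∀ ℓ ∈ Λ, ¬ ℓ ∣ q - 1 then (1 : ℝ) / q else 0) = 1 / q :=
            if_pos ⟨hq2, hc⟩
          linarith
        · push Not at hc
          obtain ⟨ℓ, hℓ, hd⟩ := hc
          by_cases hd2 : ℓ ^ 2 ∣ q - 1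
          · have h2 := Finset.single_le_sum (s := Λ) (f := fun ℓ =>
              if q.Prime ∧ q % ℓ ^ 2 = 1 % ℓ ^ 2 then (1 : ℝ) / q else 0)
              (fun _ _ => by positivity) hℓ
            have h3 : q % ℓ ^ 2 = 1 % ℓ ^ 2 :=
              ((Nat.modEq_iff_dvd' hq2.one_lt.le).2 hd2).symm
            simp only [if_pos (show q.Prime ∧ q % ℓ ^ 2 = 1 % ℓ ^ 2 from ⟨hq2, h3⟩)] at h2
            linarith
          · have h2 := Finset.single_le_sum (s := Λ) (f := fun ℓ =>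
              if (q.Prime ∧ q ≠ 2) ∧ ℓ ∣ q - 1 ∧ (2 : ZMod q) ^ ((q - 1) / ℓ) = 1 then
                (1 : ℝ) / q else 0)
              (fun _ _ => by positivity) hℓ
            have hq0 : q - 1 ≠ 0 := by
              have := hq2.one_lt
              omega
            have h3 : (q - 1).factorization ℓ < 2 := by
              by_contra h4
              exact hd2 (((hΛ ℓ hℓ).1.pow_dvd_iff_le_factorization hq0).2 (not_lt.1 h4))
            have h4 : (od q).factorization ℓ ≤ (q - 1).factorization ℓ :=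
              (Nat.factorization_le_iff_dvd (od_pos hq2 hq3).ne' hq0).2 (od_dvd hq2 hq3) ℓ
            have h5 : (od q).factorization ℓ = 0 := by
              have := hne ℓ hℓ
              omega
            have h6 := pow_eq_one_of_not_dvd hq2 hq3 (hΛ ℓ hℓ).1 hd h5
            simp only [if_pos (show (q.Prime ∧ q ≠ 2) ∧ ℓ ∣ q - 1 ∧
              (2 : ZMod q) ^ ((q - 1) / ℓ) = 1 from ⟨⟨hq2, hq3⟩, hd, h6⟩)] at h2
            linarith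
      · rw [if_neg hqc]
        linarith
    refine h1.trans ?_
    rw [Finset.sum_add_distrib, Finset.sum_add_distrib, Finset.sum_comm,
      Finset.sum_comm (s := Ioc (Z i) (Z i ^ 2)) (t := Λ), ← Finset.sum_filter]
    have hA : ∑ ℓ ∈ Λ, ∑ q ∈ Ioc (Z i) (Z i ^ 2),
        (if q.Prime ∧ q % ℓ ^ 2 = 1 % ℓ ^ 2 then (1 : ℝ) / q else 0) ≤ C₁ * (1 / L₀) := by
      refine le_trans ?_ (mul_le_mul_of_nonneg_left
        (cl_sum (by omega) fun ℓ hℓ => (hΛ ℓ hℓ).2) hC0.le)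
      rw [Finset.mul_sum]
      refine Finset.sum_le_sum fun ℓ hℓ => ?_
      obtain ⟨-, -, hY8, -⟩ := hYΛ ℓ hℓ
      have h2 := hC (ℓ ^ 2) (Z i) 1 (Nat.pos_of_ne_zero (pow_ne_zero _ (hΛ ℓ hℓ).1.ne_zero))
        hY2 hY8
      rw [Finset.sum_filter] at h2
      refine h2.trans (le_of_eq ?_)
      rw [Nat.totient_prime_pow (hΛ ℓ hℓ).1 (by norm_num), mul_one_div]
      congr 1
      rw [Nat.cast_mul, Nat.cast_sub (hΛ ℓ hℓ).1.one_lt.le]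
      norm_num
    have hB : ∑ ℓ ∈ Λ, ∑ q ∈ Ioc (Z i) (Z i ^ 2),
        (if (q.Prime ∧ q ≠ 2) ∧ ℓ ∣ q - 1 ∧ (2 : ZMod q) ^ ((q - 1) / ℓ) = 1 then
          (1 : ℝ) / q else 0) ≤ 7 * (1 / L₀) := by
      refine le_trans ?_ (mul_le_mul_of_nonneg_left
        (cl_sum (by omega) fun ℓ hℓ => (hΛ ℓ hℓ).2) (by norm_num))
      rw [Finset.mul_sum]
      refine Finset.sum_le_sum fun ℓ hℓ => ?_
      obtain ⟨-, -, -, h2⟩ := hYΛ ℓ hℓ
      rw [Finset.sum_filter] at h2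
      rw [mul_one_div]
      exact h2
    linarith

end Pool.Agent.SPO
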