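import Pool.Agent.SPO.Level

/-!
# Package G09: convolutions

All statements are finite sums; `conv f g x = ∑_y f(y) g(x-y)`.

`sq_conv_self`: `∑_x (∑_y f(y)f(x-y))² = ∑_{x,y,z} f(y)f(x-y)f(z)f(x-z)`, substitute `x → x + y`.
`conv_self_le`: `f(y)f(z-y) ≤ (f(y)² + f(z-y)²)/2`.
`sq_conv_self_le`: `sq (conv f f) = ∑ (conv f f x)² ≤ sup (conv f f) · ∑ conv f f ≤ sq f`.
`unif H` is the uniform probability on the subgroup `H` (as a function on the field).
`conv_dil`: substitute `y → h y`.
-/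

set_option autoImplicit false

namespace Pool.Agent.SPO

open Finset

section Group

variable {F : Type*} [AddCommGroup F] [Fintype F] [DecidableEq F]

/-- convolution -/
noncomputable def conv (f g : F → ℝ) (x : F) : ℝ := ∑ y, f y * g (x - y)

/-- the `2^j`-fold convolution -/
noncomputable def itc (f : F → ℝ) : ℕ → F → ℝ
  | 0 => f
  | (j + 1) => conv (itc f j) (itc f j)

theorem conv_nonneg {f g : F → ℝ} (hf : ∀ x, 0 ≤ f x) (hg : ∀ x, 0 ≤ g x) (x : F) :
    0 ≤ conv f g x := by
  exact Finset.sum_nonneg fun y _ => mul_nonneg (hf y) (hg _)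

theorem sum_conv (f g : F → ℝ) : ∑ x, conv f g x = (∑ x, f x) * ∑ x, g x := by
  unfold conv
  rw [Finset.sum_comm, Finset.sum_mul]
  refine Finset.sum_congr rfl fun y _ => ?_
  have h1 : ∑ x, g (x - y) = ∑ x, g x := Equiv.sum_comp (Equiv.subRight y) g
  rw [← Finset.mul_sum, h1]

theorem sq_conv_self (f : F → ℝ) : sq (conv f f) = en f := by
  have h1 : sq (conv f f) = ∑ w, ∑ y, ∑ z, f y * f (w - y) * (f z * f (w - z)) := by
    unfold sq conv
    refine Finset.sum_congr rfl fun w _ => ?_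
    rw [pow_two, Finset.sum_mul_sum]
  rw [h1, Finset.sum_comm]
  unfold en
  refine Finset.sum_congr rfl fun y _ => ?_
  have h2 : ∑ x, ∑ z, f y * f (y + x - y) * (f z * f (y + x - z)) =
      ∑ w, ∑ z, f y * f (w - y) * (f z * f (w - z)) :=
    Equiv.sum_comp (Equiv.addLeft y) fun w => ∑ z, f y * f (w - y) * (f z * f (w - z))
  rw [← h2]
  simp only [add_sub_cancel_left]

theorem conv_self_le (f : F → ℝ) (z : F) : conv f f z ≤ sq f := by
  have h1 : conv f f z ≤ ∑ y, (f y ^ 2 + f (z - y) ^ 2) / 2 := by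
    refine Finset.sum_le_sum fun y _ => ?_
    nlinarith [sq_nonneg (f y - f (z - y))]
  refine h1.trans (le_of_eq ?_)
  have h2 : ∑ y, f (z - y) ^ 2 = ∑ y, f y ^ 2 :=
    Equiv.sum_comp (Equiv.subLeft z) fun y => f y ^ 2
  rw [← Finset.sum_div, Finset.sum_add_distrib, h2]
  unfold sq
  ring

theorem conv_le_of_le {f g : F → ℝ} (hf : ∀ x, 0 ≤ f x) (hf1 : ∑ x, f x = 1) {c : ℝ}
    (hg : ∀ x, g x ≤ c) (z : F) : conv f g z ≤ c := by
  have h1 : conv f g z ≤ ∑ y, f y * c :=
    Finset.sum_le_sum fun y _ => mul_le_mul_of_nonneg_left (hg _) (hf y)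
  rwa [← Finset.sum_mul, hf1, one_mul] at h1

theorem sq_conv_self_le {f : F → ℝ} (h0 : ∀ x, 0 ≤ f x) (h1 : ∑ x, f x = 1) :
    sq (conv f f) ≤ sq f := by
  have h2 : sq (conv f f) ≤ ∑ x, sq f * conv f f x := by
    refine Finset.sum_le_sum fun x _ => ?_
    rw [pow_two]
    exact mul_le_mul_of_nonneg_right (conv_self_le f x) (conv_nonneg h0 h0 x)
  rwa [← Finset.mul_sum, sum_conv, h1, one_mul, mul_one] at h2

theorem itc_nonneg {f : F → ℝ} (hf : ∀ x, 0 ≤ f x) (j : ℕ) (x : F) : 0 ≤ itc f j x := by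
  induction j generalizing x with
  | zero => exact hf x
  | succ j ih => exact conv_nonneg ih ih x

theorem sum_itc {f : F → ℝ} (hf1 : ∑ x, f x = 1) (j : ℕ) : ∑ x, itc f j x = 1 := by
  induction j with
  | zero => exact hf1
  | succ j ih =>
    change ∑ x, conv (itc f j) (itc f j) x = 1
    rw [sum_conv, ih, one_mul]

end Group

section Field

variable {F : Type*} [Field F] [Fintype F] [DecidableEq F]

open Classical in
/-- the uniform probability on a subgroup of the units -/
noncomputable def unif (H : Subgroup Fˣ) (x : F) : ℝ :=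
  if ∃ h ∈ H, (h : F) = x then 1 / (Nat.card H : ℝ) else 0

open Classical in
private theorem conv_card_filter (H : Subgroup Fˣ) :
    #(univ.filter fun x : F => ∃ h ∈ H, (h : F) = x) = Nat.card H := by
  have h1 : ((univ.filter fun x : F => ∃ h ∈ H, (h : F) = x : Finset F) : Set F) =
      (fun h : Fˣ => (h : F)) '' (H : Set Fˣ) := by
    ext x
    simp only [Finset.coe_filter, Finset.mem_univ, true_and, Set.mem_image, SetLike.mem_coe]
    rfl
  rw [← Set.ncard_coe_finset, h1, Set.ncard_image_of_injective _ Units.val_injective]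
  exact (Nat.card_coe_set_eq (H : Set Fˣ)).symm

theorem unif_nonneg (H : Subgroup Fˣ) (x : F) : 0 ≤ unif H x := by
  unfold unif
  split_ifs
  · positivity
  · exact le_rfl

theorem sum_unif (H : Subgroup Fˣ) : ∑ x, unif H x = 1 := by
  classical
  unfold unif
  rw [Finset.sum_ite, Finset.sum_const_zero, add_zero, Finset.sum_const, nsmul_eq_mul,
    conv_card_filter]
  exact mul_one_div_cancel (Nat.cast_ne_zero.2 Nat.card_pos.ne')

theorem sq_unif (H : Subgroup Fˣ) : sq (unif H) = 1 / (Nat.card H : ℝ) := by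
  classical
  have h1 : ∀ x : F, unif H x ^ 2 = 1 / (Nat.card H : ℝ) * unif H x := by
    intro x
    unfold unif
    split_ifs
    · rw [pow_two]
    · rw [mul_zero, zero_pow two_ne_zero]
  unfold sq
  simp only [h1]
  rw [← Finset.mul_sum, sum_unif, mul_one]

theorem unif_dil (H : Subgroup Fˣ) {h : Fˣ} (hh : h ∈ H) (x : F) :
    unif H ((h : F) * x) = unif H x := by
  have h1 : (∃ k ∈ H, (k : F) = (h : F) * x) ↔ ∃ k ∈ H, (k : F) = x := by
    constructor
    · rintro ⟨k, hk, hx⟩
      refine ⟨h⁻¹ * k, H.mul_mem (H.inv_mem hh) hk, ?_⟩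
      rw [Units.val_mul, hx, Units.inv_mul_cancel_left]
    · rintro ⟨k, hk, hx⟩
      exact ⟨h * k, H.mul_mem hh hk, by rw [Units.val_mul, hx]⟩
  unfold unif
  by_cases hx : ∃ k ∈ H, (k : F) = x
  · rw [if_pos hx, if_pos (h1.2 hx)]
  · rw [if_neg hx, if_neg fun h2 => hx (h1.1 h2)]

theorem conv_dil {f g : F → ℝ} {h : Fˣ} (hf : ∀ x, f ((h : F) * x) = f x)
    (hg : ∀ x, g ((h : F) * x) = g x) (x : F) : conv f g ((h : F) * x) = conv f g x := by
  unfold conv
  have h2 : ∑ y, f ((h : F) * y) * g ((h : F) * x - (h : F) * y) =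
      ∑ y, f y * g ((h : F) * x - y) :=
    Equiv.sum_comp (Units.mulLeft h) fun y => f y * g ((h : F) * x - y)
  rw [← h2]
  refine Finset.sum_congr rfl fun y _ => ?_
  rw [← mul_sub, hf, hg]

theorem itc_dil {f : F → ℝ} {h : Fˣ} (hf : ∀ x, f ((h : F) * x) = f x) (j : ℕ) (x : F) :
    itc f j ((h : F) * x) = itc f j x := by
  induction j generalizing x with
  | zero => exact hf x
  | succ j ih => exact conv_dil ih ih x

end Field

end Pool.Agent.SPO
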