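import Pool.Agent.SPO.Ord

/-!
# Package C09: when is `Psi ℓ M` divisible by `q`

Let `c = M/ℓ^{v_ℓ(M)}`, `d = od q`, `w = v_ℓ(d)`, `x = 2^c` in `ZMod q`. `gcd(d, c) = d/ℓ^w` (`d ∣
M`; compare
factorizations), so `orderOf x = d/gcd(d, c) = ℓ^w` (`orderOf_pow`). `Psi ℓ M = ∑_{j<ℓ} x^j` and
`(x - 1) Psi = x^ℓ - 1` (`Finset.range`, `mul_geom_sum` / `geom_sum_mul`).
* `w = 0`: `x = 1`, `Psi = ℓ`, which is zero iff `q ∣ ℓ` iff `q = ℓ`.
* `w = 1`: `x ≠ 1`, `x^ℓ = 1`, so `Psi = 0`.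
* `w ≥ 2`: `x^ℓ ≠ 1`, `Psi ≠ 0`; and `q ≠ ℓ` since `ℓ ∣ d ∣ q - 1`.
-/

set_option autoImplicit false

namespace Pool.Agent.SPO

open Finset

private theorem psiz_gcd {ℓ d M : ℕ} (hℓ : ℓ.Prime) (hM : M ≠ 0) (h : d ∣ M) :
    Nat.gcd d (M / ℓ ^ M.factorization ℓ) = d / ℓ ^ d.factorization ℓ := by
  have hd : d ≠ 0 := fun h0 => hM (by rw [h0] at h; exact Nat.eq_zero_of_zero_dvd h)
  apply Nat.dvd_antisymm
  · have hc : Nat.Coprime (Nat.gcd d (M / ℓ ^ M.factorization ℓ)) (ℓ ^ d.factorization ℓ) := by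
      have h1 : Nat.Coprime ℓ (M / ℓ ^ M.factorization ℓ) := Nat.coprime_ordCompl hℓ hM
      exact (Nat.Coprime.pow_left _ (h1.coprime_dvd_right (Nat.gcd_dvd_right _ _))).symm
    have h2 : Nat.gcd d (M / ℓ ^ M.factorization ℓ) ∣
        ℓ ^ d.factorization ℓ * (d / ℓ ^ d.factorization ℓ) := by
      rw [Nat.ordProj_mul_ordCompl_eq_self]
      exact Nat.gcd_dvd_left _ _
    exact hc.dvd_of_dvd_mul_left h2
  · exact Nat.dvd_gcd (Nat.ordCompl_dvd d ℓ) (Nat.ordCompl_dvd_ordCompl_of_dvd h ℓ)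

private theorem psiz_order {q ℓ M : ℕ} (hℓ : ℓ.Prime) (hM : M ≠ 0)
    (h : od q ∣ M) : orderOf ((2 : ZMod q) ^ (M / ℓ ^ M.factorization ℓ)) =
      ℓ ^ (od q).factorization ℓ := by
  have hd : od q ≠ 0 := fun h0 => hM (by rw [h0] at h; exact Nat.eq_zero_of_zero_dvd h)
  have hc : M / ℓ ^ M.factorization ℓ ≠ 0 := (Nat.ordCompl_pos ℓ hM).ne'
  rw [orderOf_pow' _ hc]
  change od q / Nat.gcd (od q) _ = _
  rw [psiz_gcd hℓ hM h]
  have h1 : (od q / ℓ ^ (od q).factorization ℓ) * ℓ ^ (od q).factorization ℓ = od q := by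
    rw [mul_comm]; exact Nat.ordProj_mul_ordCompl_eq_self _ _
  exact Nat.div_eq_of_eq_mul_right (Nat.ordCompl_pos ℓ hd) h1.symm

theorem Psi_eq_zero_iff {q ℓ M : ℕ} (hq : q.Prime) (h2 : q ≠ 2) (hℓ : ℓ.Prime) (hM : M ≠ 0)
    (h : od q ∣ M) : (Psi ℓ M : ZMod q) = 0 ↔ Dd ℓ q := by
  have : Fact q.Prime := ⟨hq⟩
  have hord := psiz_order (q := q) hℓ hM h
  set x : ZMod q := (2 : ZMod q) ^ (M / ℓ ^ M.factorization ℓ) with hx
  have hPsi : (Psi ℓ M : ZMod q) = ∑ j ∈ range ℓ, x ^ j := by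
    rw [Psi]
    push_cast
    refine sum_congr rfl fun j _ => ?_
    rw [hx, ← pow_mul, mul_comm]
  have hgeo : (∑ j ∈ range ℓ, x ^ j) * (x - 1) = x ^ ℓ - 1 := geom_sum_mul x ℓ
  rw [hPsi, Dd]
  rcases Nat.lt_trichotomy ((od q).factorization ℓ) 1 with hw | hw | hw
  · have hw0 : (od q).factorization ℓ = 0 := by omega
    have hx1 : x = 1 := by
      rw [← orderOf_eq_one_iff, hord, hw0, pow_zero]
    rw [hx1]
    simp only [one_pow, sum_const, card_range, nsmul_eq_mul, mul_one]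
    rw [ZMod.natCast_eq_zero_iff, Nat.prime_dvd_prime_iff_eq hq hℓ]
    constructor
    · intro e; exact Or.inr e
    · rintro (e | e)
      · omega
      · exact e
  · have hx1 : x ≠ 1 := by
      intro e
      rw [← orderOf_eq_one_iff, hord, hw, pow_one] at e
      exact hℓ.one_lt.ne' e
    have hxl : x ^ ℓ = 1 := by
      rw [← orderOf_dvd_iff_pow_eq_one, hord, hw, pow_one]
    rw [hxl, sub_self] at hgeo
    constructor
    · intro _; exact Or.inl hw
    · intro _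
      rcases mul_eq_zero.1 hgeo with e | e
      · exact e
      · exact absurd (sub_eq_zero.1 e) hx1
  · have hxl : x ^ ℓ ≠ 1 := by
      intro e
      rw [← orderOf_dvd_iff_pow_eq_one, hord] at e
      have h3 := (Nat.pow_dvd_pow_iff_le_right hℓ.one_lt (k := (od q).factorization ℓ) (l := 1)).1
        (by rw [pow_one]; exact e)
      omega
    constructor
    · intro e
      rw [e, zero_mul] at hgeo
      exact absurd (sub_eq_zero.1 hgeo.symm) hxl
    · rintro (e | e)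
      · omega
      · exfalso
        have h4 : ℓ ∣ od q := Nat.dvd_of_factorization_pos (by omega)
        have h20 : (2 : ZMod q) ≠ 0 := by
          intro e2
          have : ((2 : ℕ) : ZMod q) = 0 := by exact_mod_cast e2
          rw [ZMod.natCast_eq_zero_iff, Nat.prime_dvd_prime_iff_eq hq Nat.prime_two] at this
          exact h2 this
        have h5 : od q ∣ q - 1 := by
          rw [od]
          exact orderOf_dvd_of_pow_eq_one (ZMod.pow_card_sub_one_eq_one h20)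
        have h6 : q ∣ q - 1 := by
          conv_lhs => rw [e]
          exact h4.trans h5
        have h7 := Nat.le_of_dvd (by have := hq.one_lt; omega) h6
        have := hq.pos
        omega

end Pool.Agent.SPO
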