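import Pool.Agent.SPO.Stage
import Pool.Agent.SPO.Classes
import Pool.Agent.SPO.PsiZ
import Pool.Agent.SPO.Block

/-!
# Package C11: the covering theorem

`η` from `stage`, `J, l, i₀` from `classes_sparse η`. `stage` for `Q = cls l J t`, `t = 0, ...,
J`, gives `k₀(t)`; `k₀` =
maximum. For `k ≥ k₀`: `c(t), i₁(t)`; `c` = minimum, `i₁` = maximum over `t ≤ J`.

Let `w = c/2^I M^k`. `block_count` with `X = Fin k → ZMod M`, `r = J + 1`, and for `t ≤ J`, `x :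
Fin t → X`
`G t x = GS k M z' (prs (cls l J t) I)`, `z' q = (coef l M t)⁻¹ (z q - ∑_{i : Fin t} coef l M i ·
SS q (x i))`:
`#(G t x) ≥ w` (`od q ∣ M` for `q ∈ prs (cls l J t) I ⊆ prs univ I`).
If `b` is in the set of `block_count` then it is in the set of the theorem: let `q ∈ prs univ I`
and let `t ≤ J` be
the smallest index with `Dd (l t) q`, `t = J` if there is none below `J`. So `q ∈ cls l J t`.
`coef l M i` for `i > t` contains the factor `Psi (l t) M`, which is `0` modulo `q`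
(`Psi_eq_zero_iff`; only if
`t < J`), and `coef l M t = ∏_{i<t} Psi (l i) M` is a unit modulo `q` (a product of nonzero
elements).
So `∑_{i : Fin (J+1)} coef l M i · SS q (b i) = ∑_{i<t} ... + coef l M t · SS q (b t)`, and this
is `≠ z q` because
`SS q (b t) ≠ z' q`.
-/

set_option autoImplicit false

namespace Pool.Agent.SPO

open Finset

private theorem cover_coef_ne {q M : ℕ} (l : ℕ → ℕ) (hl : ∀ i, (l i).Prime ∧ l i ≠ 2)
    (hq : q.Prime) (hq2 : q ≠ 2) (hM0 : M ≠ 0) (hM : od q ∣ M) {t : ℕ}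
    (h : ∀ i < t, ¬ Dd (l i) q) : (coef l M t : ZMod q) ≠ 0 := by
  have : Fact q.Prime := ⟨hq⟩
  unfold coef
  rw [Nat.cast_prod, Finset.prod_ne_zero_iff]
  intro i hi h0
  exact h i (mem_range.1 hi) ((Psi_eq_zero_iff hq hq2 (hl i).1 hM0 hM).1 h0)

private theorem cover_coef_zero {q M : ℕ} (l : ℕ → ℕ) (hl : ∀ i, (l i).Prime ∧ l i ≠ 2)
    (hq : q.Prime) (hq2 : q ≠ 2) (hM0 : M ≠ 0) (hM : od q ∣ M) {t s : ℕ} (hts : t < s)
    (h : Dd (l t) q) : (coef l M s : ZMod q) = 0 := by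
  unfold coef
  rw [Nat.cast_prod]
  exact Finset.prod_eq_zero (mem_range.2 hts) ((Psi_eq_zero_iff hq hq2 (hl t).1 hM0 hM).2 h)

private theorem cover_avoid {q J k M : ℕ} [NeZero M] (l : ℕ → ℕ)
    (hl : ∀ i, (l i).Prime ∧ l i ≠ 2) (hq : q.Prime) (hq2 : q ≠ 2) (hM : od q ∣ M)
    {t : ℕ} (htJ : t ≤ J) (h1 : ∀ i < t, ¬ Dd (l i) q) (h2 : t < J → Dd (l t) q)
    (b : Fin (J + 1) → Fin k → ZMod M) (z : ZMod q)
    (hb : SS q (b ⟨t, by omega⟩) ≠ (coef l M t : ZMod q)⁻¹ *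
      (z - ∑ i : Fin t, (coef l M i : ZMod q) * SS q (b ⟨i, by omega⟩))) :
    ∑ s : Fin (J + 1), (coef l M s : ZMod q) * SS q (b s) ≠ z := by
  have : Fact q.Prime := ⟨hq⟩
  have hM0 : M ≠ 0 := NeZero.ne M
  obtain ⟨f, hf⟩ : ∃ f : ℕ → ZMod q, ∀ s (hs : s < J + 1),
      f s = (coef l M s : ZMod q) * SS q (b ⟨s, hs⟩) := by
    refine ⟨fun s => if hs : s < J + 1 then (coef l M s : ZMod q) * SS q (b ⟨s, hs⟩) else 0,
      fun s hs => dif_pos hs⟩
  have e1 : ∑ s : Fin (J + 1), (coef l M s : ZMod q) * SS q (b s) =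
      ∑ s ∈ range (J + 1), f s := by
    rw [Finset.sum_range]
    refine Finset.sum_congr rfl fun s _ => ?_
    rw [hf s s.2]
  have e2 : ∑ i : Fin t, (coef l M i : ZMod q) * SS q (b ⟨i, by omega⟩) =
      ∑ s ∈ range t, f s := by
    rw [Finset.sum_range]
    refine Finset.sum_congr rfl fun s _ => ?_
    rw [hf s (by omega)]
  have e3 : ∑ s ∈ range (J + 1), f s = ∑ s ∈ range (t + 1), f s := by
    symm
    refine Finset.sum_subset (Finset.range_mono (by omega)) fun s hs hs' => ?_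
    rw [mem_range] at hs hs'
    have h3 : t < s := by omega
    rw [hf s hs, cover_coef_zero l hl hq hq2 hM0 hM h3 (h2 (by omega)), zero_mul]
  rw [e2] at hb
  rw [e1, e3, Finset.sum_range_succ, hf t (by omega)]
  intro h4
  have h5 := cover_coef_ne l hl hq hq2 hM0 hM h1
  refine hb ?_
  rw [← h4, add_sub_cancel_left, inv_mul_cancel_left₀ h5]

theorem cover : ∃ (J : ℕ) (l : ℕ → ℕ) (k₀ : ℕ), (∀ i, (l i).Prime ∧ l i ≠ 2) ∧
    ∀ k ≥ k₀, ∃ (c : ℝ) (i₁ : ℕ), 0 < c ∧ ∀ I ≥ i₁, ∀ (M : ℕ) [NeZero M],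
      (∀ q ∈ prs Set.univ I, od q ∣ M) → ∀ z : (q : ℕ) → ZMod q,
        (c / 2 ^ I * (M : ℝ) ^ k) ^ (J + 1) ≤
          #{b : Fin (J + 1) → Fin k → ZMod M | ∀ q ∈ prs Set.univ I,
            ∑ t : Fin (J + 1), (coef l M t : ZMod q) * SS q (b t) ≠ z q} := by
  classical
  obtain ⟨η, hη, hst⟩ := stage
  obtain ⟨J, l, i₀, hl, hcl⟩ := classes_sparse hη
  have h1 : ∀ t, ∃ k₀ : ℕ, t ≤ J → ∀ k ≥ k₀, ∃ (c : ℝ) (i₁ : ℕ), 0 < c ∧ ∀ I ≥ i₁,
      ∀ (M : ℕ) [NeZero M], (∀ q ∈ prs (cls l J t) I, od q ∣ M) → ∀ z : (q : ℕ) → ZMod q,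
      c / 2 ^ I * (M : ℝ) ^ k ≤ #(GS k M z (prs (cls l J t) I)) := by
    intro t
    by_cases ht : t ≤ J
    · obtain ⟨k₀, hk₀⟩ := hst (cls l J t) i₀ (hcl t ht)
      exact ⟨k₀, fun _ => hk₀⟩
    · exact ⟨0, fun h => absurd h ht⟩
  choose kk hkk using h1
  refine ⟨J, l, (range (J + 1)).sup kk, hl, fun k hk => ?_⟩
  have h2 : ∀ t, ∃ (c : ℝ) (i₁ : ℕ), 0 < c ∧ (t ≤ J → ∀ I ≥ i₁,
      ∀ (M : ℕ) [NeZero M], (∀ q ∈ prs (cls l J t) I, od q ∣ M) → ∀ z : (q : ℕ) → ZMod q,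
      c / 2 ^ I * (M : ℝ) ^ k ≤ #(GS k M z (prs (cls l J t) I))) := by
    intro t
    by_cases ht : t ≤ J
    · have h3 : kk t ≤ k :=
        (Finset.le_sup (f := kk) (mem_range.2 (Nat.lt_succ_of_le ht))).trans hk
      obtain ⟨c, i₁, hc, h4⟩ := hkk t ht k h3
      exact ⟨c, i₁, hc, fun _ => h4⟩
    · exact ⟨1, 0, one_pos, fun h => absurd h ht⟩
  choose cc ii hcc hii using h2
  have hne : (range (J + 1)).Nonempty := ⟨0, mem_range.2 (Nat.succ_pos J)⟩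
  refine ⟨(range (J + 1)).inf' hne cc, (range (J + 1)).sup ii,
    (Finset.lt_inf'_iff hne).2 fun t _ => hcc t, fun I hI M _ hM z => ?_⟩
  have hc0 : 0 ≤ (range (J + 1)).inf' hne cc :=
    ((Finset.lt_inf'_iff hne).2 fun t _ => hcc t).le
  obtain ⟨G, hG⟩ : ∃ G : (t : ℕ) → (Fin t → (Fin k → ZMod M)) → Finset (Fin k → ZMod M),
      ∀ t x, G t x = GS k M (fun q => (coef l M t : ZMod q)⁻¹ *
        (z q - ∑ i : Fin t, (coef l M i : ZMod q) * SS q (x i))) (prs (cls l J t) I) :=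
    ⟨_, fun _ _ => rfl⟩
  have hcount := block_count (X := Fin k → ZMod M)
    (w := (range (J + 1)).inf' hne cc / 2 ^ I * (M : ℝ) ^ k) (by positivity) (J + 1) G (by
      intro t ht x
      have htJ : t ≤ J := Nat.le_of_lt_succ ht
      have h3 : (range (J + 1)).inf' hne cc ≤ cc t := Finset.inf'_le _ (mem_range.2 ht)
      have h4 : ii t ≤ I := (Finset.le_sup (f := ii) (mem_range.2 ht)).trans hI
      have h5 := hii t htJ I h4 M (fun q hq => hM q (by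
        rw [mem_prs] at hq ⊢
        exact ⟨hq.1, hq.2.1, trivial⟩)) (fun q => (coef l M t : ZMod q)⁻¹ *
        (z q - ∑ i : Fin t, (coef l M i : ZMod q) * SS q (x i)))
      rw [hG]
      refine le_trans ?_ h5
      gcongr)
  refine hcount.trans ?_
  have hsub : ({x : Fin (J + 1) → (Fin k → ZMod M) |
      ∀ t : Fin (J + 1), x t ∈ G t (fun i : Fin t => x ⟨i, i.2.trans t.2⟩)} : Finset _) ⊆
      ({b : Fin (J + 1) → Fin k → ZMod M | ∀ q ∈ prs Set.univ I,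
            ∑ t : Fin (J + 1), (coef l M t : ZMod q) * SS q (b t) ≠ z q} : Finset _) := by
    intro b hb
    rw [mem_filter] at hb ⊢
    refine ⟨mem_univ _, fun q hq => ?_⟩
    have hq' := mem_prs.1 hq
    have hex : ∃ t, t = J ∨ Dd (l t) q := ⟨J, Or.inl rfl⟩
    have h3 := Nat.find_spec hex
    have h4 : ∀ i < Nat.find hex, ¬ (i = J ∨ Dd (l i) q) := fun i hi => Nat.find_min hex hi
    have h5 : Nat.find hex ≤ J := Nat.find_min' hex (Or.inl rfl)
    generalize Nat.find hex = t at h3 h4 h5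
    have h6 : ∀ i < t, ¬ Dd (l i) q := fun i hi h => h4 i hi (Or.inr h)
    have h7 : t < J → Dd (l t) q := fun h => h3.resolve_left h.ne
    have h8 := hb.2 ⟨t, by omega⟩
    rw [hG, GS, mem_filter] at h8
    exact cover_avoid l hl hq'.2.1.1 hq'.2.1.2 (hM q hq) h5 h6 h7 b (z q)
      (h8.2 q (mem_prs.2 ⟨hq'.1, hq'.2.1, h6, h7⟩))
  exact_mod_cast Finset.card_le_card hsub

end Pool.Agent.SPO
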