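import Pool.Agent.SPO.ClassBound
import Pool.Agent.SPO.Cover

/-!
# Package A18: most `N ≡ 1 mod 4` in `(mY, (m+1)Y]`

`J, l, k₀` from `cover`, `C₁` from `window_sum` (`win_sum_le`). Let `r` be a natural number with
`6C₁ ≤ r log 2`, and `k = max(k₀, 2(J+1) + r + 3)`. `c, i₁` from `cover` for this `k`, `Cp` from
`pair_sB`. `C = Ctot l J k`.
For `I ≥ 1`
`X_I = Cp exp(6C₁I) (2^I/c)^(2(J+1))/(2^(I-1))^(k-1) ≤ Cp c^(-2(J+1)) 2^(k-1) 2^(I(r + 2(J+1) -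
(k-1))) → 0`
as the exponent is `≤ -I`. Given `η`: choose `I ≥ max(i₁, 2)` with `800 X_I ≤ η/2`, `m ≥ 2` with
`20 exp(2C₁I)/(m-1) ≤ η/2`, `Y₀ = Y₁` from `class_bound`. The set is the disjoint union over the
`z < 4 PP I` with
`z % 4 = 1` (`4 ∣ 4 PP I`) of the sets of `class_bound` (`N % 4 = 1` iff `N % (4 PP I) % 4 = 1`);
at most `4 PP I`
classes, total `≤ 4 PP I · (Y/(4 PP I)) · η = η Y`.
-/

set_option autoImplicit false

namespace Pool.Agent.SPO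

open Finset Pool.Agent.TwoSqPow

private theorem X_le {Cp c C₁ : ℝ} (hCp : 0 < Cp) (hc : 0 < c) {r n k I : ℕ}
    (hr : 6 * C₁ ≤ r * Real.log 2) (hk : n + r + 3 ≤ k) (hI : 1 ≤ I) :
    Cp * Real.exp (6 * C₁ * I) * (2 ^ I / c) ^ n / ((2 : ℝ) ^ (I - 1)) ^ (k - 1) ≤
      Cp / c ^ n * 2 ^ (k - 1) / 2 ^ I := by
  have hI0 : (0 : ℝ) ≤ I := Nat.cast_nonneg I
  have h1 : Real.exp (6 * C₁ * I) ≤ ((2 : ℝ) ^ I) ^ r := by
    have e : ((2 : ℝ) ^ I) ^ r = Real.exp (r * Real.log 2 * I) := by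
      rw [← pow_mul, ← Real.rpow_natCast, Real.rpow_def_of_pos two_pos]
      congr 1
      push_cast
      ring
    rw [e]
    exact Real.exp_le_exp.2 (mul_le_mul_of_nonneg_right hr hI0)
  have h2 : (2 : ℝ) ^ I = 2 * 2 ^ (I - 1) := by
    rw [← pow_succ']
    congr 1
    omega
  obtain ⟨A, hA⟩ : ∃ A : ℝ, A = 2 ^ I := ⟨_, rfl⟩
  have hA1 : 1 ≤ A := by rw [hA]; exact one_le_pow₀ (by norm_num)
  have hA0 : 0 < A := by linarith
  have h3 : (2 : ℝ) ^ (I - 1) = A / 2 := by rw [hA, h2]; ring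
  rw [h3, ← hA]
  rw [← hA] at h1
  have h4 : A ^ (r + n + 1) ≤ A ^ (k - 1) := pow_le_pow_right₀ hA1 (by omega)
  have h5 : 0 < A ^ (k - 1) := pow_pos hA0 _
  have h6 : 0 < A ^ (r + n + 1) := pow_pos hA0 _
  rw [div_pow, div_pow]
  calc Cp * Real.exp (6 * C₁ * I) * (A ^ n / c ^ n) / (A ^ (k - 1) / 2 ^ (k - 1))
      ≤ Cp * A ^ r * (A ^ n / c ^ n) / (A ^ (k - 1) / 2 ^ (k - 1)) := by
        gcongr
    _ = Cp / c ^ n * 2 ^ (k - 1) * (A ^ r * A ^ n) / A ^ (k - 1) := by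
        field_simp
    _ ≤ Cp / c ^ n * 2 ^ (k - 1) * (A ^ r * A ^ n) / A ^ (r + n + 1) := by
        gcongr
    _ = Cp / c ^ n * 2 ^ (k - 1) / A := by
        rw [pow_succ, pow_add]
        field_simp

open Classical in
theorem core1 : ∃ C : ℕ, ∀ η : ℝ, 0 < η → ∃ m Y₀ : ℕ, 1 ≤ m ∧ ∀ Y ≥ Y₀,
    (#{N ∈ Ioc (m * Y) ((m + 1) * Y) | N % 4 = 1 ∧ ¬ Representable C N} : ℝ) ≤ η * Y := by
  obtain ⟨J, l, k₀, -, hcover⟩ := cover
  obtain ⟨C₁, hC₁, hwin0⟩ := window_sum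
  have hwin : ∀ i, ∑ q ∈ win i, (1 : ℝ) / q ≤ C₁ := win_sum_le hwin0 (by linarith)
  obtain ⟨r, hr⟩ := exists_nat_ge (6 * C₁ / Real.log 2)
  have hl2 : 0 < Real.log 2 := Real.log_pos (by norm_num)
  rw [div_le_iff₀ hl2] at hr
  obtain ⟨k, hk⟩ : ∃ k, k = max k₀ (2 * (J + 1) + r + 3) := ⟨_, rfl⟩
  have hk0 : k₀ ≤ k := by rw [hk]; exact le_max_left _ _
  have hk1 : 2 * (J + 1) + r + 3 ≤ k := by rw [hk]; exact le_max_right _ _
  obtain ⟨c, i₁, hc, hcov⟩ := hcover k hk0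
  obtain ⟨Cp, hCp, hpair⟩ := pair_sB (k := k) (by omega) J
  refine ⟨Ctot l J k, fun η hη => ?_⟩
  obtain ⟨K, hK⟩ : ∃ K : ℝ, K = Cp / c ^ (2 * (J + 1)) * 2 ^ (k - 1) := ⟨_, rfl⟩
  have hK0 : 0 < K := by rw [hK]; positivity
  obtain ⟨I0, hI0⟩ := exists_nat_ge (1600 * K / η)
  obtain ⟨I, hI⟩ : ∃ I, I = max I0 (max i₁ 2) := ⟨_, rfl⟩
  have hI1 : I0 ≤ I := by rw [hI]; exact le_max_left _ _
  have hI2 : i₁ ≤ I := by rw [hI]; exact (le_max_left _ _).trans (le_max_right _ _)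
  have hI3 : 2 ≤ I := by rw [hI]; exact (le_max_right _ _).trans (le_max_right _ _)
  have hX : 800 * (Cp * Real.exp (6 * C₁ * I) * (2 ^ I / c) ^ (2 * (J + 1)) /
      ((2 : ℝ) ^ (I - 1)) ^ (k - 1)) ≤ η / 2 := by
    have h1 := X_le (C₁ := C₁) hCp hc hr hk1 (I := I) (by omega)
    rw [← hK] at h1
    have h2 : K / 2 ^ I ≤ η / 1600 := by
      have h3 : (I : ℝ) ≤ 2 ^ I := by exact_mod_cast (Nat.lt_two_pow_self (n := I)).le
      have h4 : (I0 : ℝ) ≤ I := by exact_mod_cast hI1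
      have h5 : 1600 * K / η ≤ 2 ^ I := hI0.trans (h4.trans h3)
      rw [div_le_iff₀ hη] at h5
      rw [div_le_iff₀ (by positivity)]
      linarith
    linarith
  obtain ⟨m0, hm0⟩ := exists_nat_ge (40 * Real.exp (2 * C₁ * I) / η)
  obtain ⟨m, hm⟩ : ∃ m, m = m0 + 2 := ⟨_, rfl⟩
  have hm2 : 2 ≤ m := by omega
  have hm1 : (0 : ℝ) < (m : ℝ) - 1 := by
    have : (2 : ℝ) ≤ m := by exact_mod_cast hm2
    linarith
  have hE : 20 * Real.exp (2 * C₁ * I) / ((m : ℝ) - 1) ≤ η / 2 := by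
    rw [div_le_iff₀ hm1]
    rw [div_le_iff₀ hη] at hm0
    rw [hm]
    push_cast
    nlinarith
  obtain ⟨Y₁, hY₁⟩ := class_bound (l := l) (by omega : 2 ≤ k) hc hC₁ hCp hwin hpair hI3
    (fun M _ hM z => by
      convert hcov I hI2 M hM z) hm2
  refine ⟨m, Y₁, by omega, fun Y hY => ?_⟩
  obtain ⟨P, hP⟩ : ∃ P : ℕ, P = 4 * PP I := ⟨_, rfl⟩
  have hP0 : 0 < P := by rw [hP]; have := PP_pos I; omega
  have hP0' : (0 : ℝ) < P := by exact_mod_cast hP0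
  have hsub : {N ∈ Ioc (m * Y) ((m + 1) * Y) | N % 4 = 1 ∧ ¬ Representable (Ctot l J k) N} ⊆
      ({z ∈ range P | z % 4 = 1}).biUnion fun z => {N ∈ Ioc (m * Y) ((m + 1) * Y) |
        N % P = z % P ∧ ¬ Representable (Ctot l J k) N} := by
    intro N hN
    rw [mem_filter] at hN
    rw [mem_biUnion]
    refine ⟨N % P, ?_, ?_⟩
    · rw [mem_filter, mem_range]
      refine ⟨Nat.mod_lt _ hP0, ?_⟩
      rw [hP, Nat.mod_mul_right_mod]
      exact hN.2.1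
    · rw [mem_filter, Nat.mod_mod]
      exact ⟨hN.1, rfl, hN.2.2⟩
  have h1 : (#{N ∈ Ioc (m * Y) ((m + 1) * Y) | N % 4 = 1 ∧
      ¬ Representable (Ctot l J k) N} : ℝ) ≤ ∑ z ∈ range P with z % 4 = 1,
        (#{N ∈ Ioc (m * Y) ((m + 1) * Y) |
          N % P = z % P ∧ ¬ Representable (Ctot l J k) N} : ℝ) := by
    exact_mod_cast (card_le_card hsub).trans card_biUnion_le
  have h2 : ∀ z ∈ ({z ∈ range P | z % 4 = 1} : Finset ℕ),
      (#{N ∈ Ioc (m * Y) ((m + 1) * Y) |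
        N % P = z % P ∧ ¬ Representable (Ctot l J k) N} : ℝ) ≤ (Y : ℝ) / P * η := by
    intro z hz
    rw [mem_filter] at hz
    have h3 := hY₁ Y hY z hz.2
    rw [← hP] at h3
    have h4 : (4 : ℝ) * (PP I : ℝ) = (P : ℝ) := by rw [hP]; push_cast; ring
    rw [h4] at h3
    refine h3.trans (mul_le_mul_of_nonneg_left ?_ (by positivity))
    linarith
  have h5 : (#({z ∈ range P | z % 4 = 1} : Finset ℕ) : ℝ) ≤ P := by
    have : #({z ∈ range P | z % 4 = 1} : Finset ℕ) ≤ #(range P) := card_filter_le _ _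
    rw [card_range] at this
    exact_mod_cast this
  calc _ ≤ _ := h1
    _ ≤ ∑ z ∈ range P with z % 4 = 1, (Y : ℝ) / P * η := sum_le_sum h2
    _ = #({z ∈ range P | z % 4 = 1} : Finset ℕ) * ((Y : ℝ) / P * η) := by
        rw [sum_const, nsmul_eq_mul]
    _ ≤ P * ((Y : ℝ) / P * η) := mul_le_mul_of_nonneg_right h5 (by positivity)
    _ = η * Y := by field_simp

end Pool.Agent.SPO
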