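import Pool.Agent.SPO.Char

/-!
# Package G12: the two consequences for sums of powers

Let `g` be a unit mod `q` of order `d`, `d ∣ M`, `H = Subgroup.zpowers g` (`Nat.card H = orderOf
g`).

`count_eq`: for `u : Fin k → (ZMod q)ˣ` let `P_k(z) = #{t : Fin k → Fin M | ∑ u_m g^(t_m) =
z}/M^k`. For
`t` uniform in `Fin M`, `g^t` is uniform on `H` (every element has `M/d` preimages), so
`∑_t e_q(b u g^t) = M ft (unif H) (b u)` (as `∑_x unif(x) e(b u x)`).

`coset_sum`. Take `δ, q₀` from `char_bound`, `k₀ = ⌈2/δ⌉₊`, `q₀ ≥ 2`. By orthogonality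
`q #{t | ∑ u_m g^(t_m) = z} = ∑_b e_q(-b z) ∏_m (∑_{t < M} e_q(b u_m g^t))
= M^k ∑_b e_q(-b z) ∏_m ft (unif H) (b u_m)`, which is at most `M^k (1 + (q-1) q^(-δk)) ≤ M^k (1 +
q·q^(-2)) ≤ 2M^k`
in absolute value (`‖ft‖ ≤ q^(-δ)` for `b ≠ 0`).

`bad_sum`. Take `J, d₀` from `iter_bound`, `k₀ = 2^(J+1)`, and `d₀ ≥ 2`. With `u = 1` and `f =
unif H`: by
induction on `j` (splitting `Fin (2^(j+1))` into two halves, or by `ft` and `inversion`) the
distribution of a sum of `2^j` terms is `itc f j`; that of `k₀` terms is `conv (itc f J) (itc f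
J)`,
which is `≤ sq (itc f J) ≤ max(d^(-9), q^(-15/16)) ≤ d^(-15/4)` as `q ≥ d⁴` (`conv_self_le`). A
sum of `k ≥ k₀`
terms: fix the last `k - k₀` terms. So `#{..} ≤ M^k d^(-15/4)` and `#{..}² d⁷ ≤ M^(2k)`.
-/

set_option autoImplicit false

namespace Pool.Agent.SPO

open Finset

private theorem cnt_range {q : ℕ} [Fact q.Prime] (g : (ZMod q)ˣ) {h : (ZMod q)ˣ}
    (hh : h ∈ Subgroup.zpowers g) (e : ℕ) :
    #((range (orderOf g * e)).filter (fun t => g ^ t = h)) = e := by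
  have h0 : (orderOf g).count (fun t => g ^ t = h) = 1 := by
    rw [Nat.count_eq_card_filter_range]
    obtain ⟨a, ha, rfl⟩ : ∃ a, a < orderOf g ∧ g ^ a = h := by
      rw [← mem_powers_iff_mem_zpowers, mem_powers_iff_mem_range_orderOf] at hh
      simpa using hh
    rw [Finset.card_eq_one]
    refine ⟨a, ?_⟩
    ext t
    simp only [Finset.mem_filter, Finset.mem_range, Finset.mem_singleton]
    constructor
    · rintro ⟨h1, h2⟩
      exact pow_injOn_Iio_orderOf h1 ha h2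
    · rintro rfl
      exact ⟨ha, rfl⟩
  have hper : Function.Periodic (fun t : ℕ => g ^ t = h) (orderOf g) := by
    intro t
    simp only [pow_add, pow_orderOf_eq_one, mul_one]
  induction e with
  | zero => simp
  | succ e ih =>
    have h1 : #((Ico (orderOf g * e) (orderOf g * e + orderOf g)).filter
        (fun t => g ^ t = h)) = 1 := by
      rw [Nat.filter_Ico_card_eq_of_periodic _ _ _ hper, h0]
    rw [Nat.mul_succ, range_eq_Ico, ← Ico_union_Ico_eq_Ico (Nat.zero_le (orderOf g * e))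
      (Nat.le_add_right _ _), filter_union, card_union_of_disjoint, h1, ← range_eq_Ico, ih]
    exact (Ico_disjoint_Ico_consecutive _ _ _).mono (filter_subset _ _) (filter_subset _ _)

private theorem cnt_eq {q M : ℕ} [Fact q.Prime] (g : (ZMod q)ˣ) (hM : orderOf g ∣ M)
    (x : ZMod q) : (#{t : Fin M | (g : ZMod q) ^ (t : ℕ) = x} : ℝ) =
      M * unif (Subgroup.zpowers g) x := by
  obtain ⟨e, rfl⟩ := hM
  have h1 : #{t : Fin (orderOf g * e) | (g : ZMod q) ^ (t : ℕ) = x} =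
      #((range (orderOf g * e)).filter (fun t => (g : ZMod q) ^ t = x)) := by
    rw [card_filter, Fin.sum_univ_eq_sum_range (fun t => if (g : ZMod q) ^ t = x then 1 else 0),
      ← card_filter]
  rw [h1]
  have hpos : (0 : ℝ) < orderOf g := by exact_mod_cast orderOf_pos g
  unfold unif
  by_cases hx : ∃ h ∈ Subgroup.zpowers g, (h : ZMod q) = x
  · rw [if_pos hx]
    obtain ⟨h, hh, rfl⟩ := hx
    have h2 : (range (orderOf g * e)).filter (fun t => (g : ZMod q) ^ t = h) =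
        (range (orderOf g * e)).filter (fun t => g ^ t = h) := by
      refine filter_congr fun t _ => ?_
      rw [Units.ext_iff, Units.val_pow_eq_pow_val]
    rw [h2, cnt_range g hh, Nat.card_zpowers]
    push_cast
    field_simp
  · rw [if_neg hx, mul_zero, Nat.cast_eq_zero, card_eq_zero, filter_eq_empty_iff]
    intro t _ h3
    exact hx ⟨g ^ t, Subgroup.pow_mem _ (Subgroup.mem_zpowers g) t, by
      rw [Units.val_pow_eq_pow_val, h3]⟩

private theorem sum_pow {q M : ℕ} [Fact q.Prime] (g : (ZMod q)ˣ) (hM : orderOf g ∣ M)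
    (b : ZMod q) : ∑ t : Fin M, (ZMod.stdAddChar (b * (g : ZMod q) ^ (t : ℕ)) : ℂ) =
      (M : ℂ) * ft (unif (Subgroup.zpowers g)) b := by
  rw [← sum_fiberwise univ (fun t : Fin M => (g : ZMod q) ^ (t : ℕ)), ft, mul_sum]
  refine sum_congr rfl fun x _ => ?_
  have h1 : ∑ t ∈ univ.filter (fun t : Fin M => (g : ZMod q) ^ (t : ℕ) = x),
      (ZMod.stdAddChar (b * (g : ZMod q) ^ (t : ℕ)) : ℂ) =
      ∑ t ∈ univ.filter (fun t : Fin M => (g : ZMod q) ^ (t : ℕ) = x),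
        (ZMod.stdAddChar (b * x) : ℂ) := by
    refine sum_congr rfl fun t ht => ?_
    rw [(mem_filter.1 ht).2]
  rw [h1, sum_const, nsmul_eq_mul, ← mul_assoc]
  congr 1
  have h2 := cnt_eq g hM x
  have h3 : (((#{t : Fin M | (g : ZMod q) ^ (t : ℕ) = x} : ℕ) : ℝ) : ℂ) =
      ((M * unif (Subgroup.zpowers g) x : ℝ) : ℂ) := by rw [h2]
  push_cast at h3
  exact h3

private theorem char_sum {A : Type*} [AddCommMonoid A] {ι : Type*} (ψ : AddChar A ℂ)
    (s : Finset ι) (f : ι → A) : ψ (∑ i ∈ s, f i) = ∏ i ∈ s, ψ (f i) := by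
  classical
  induction s using Finset.induction_on with
  | empty => simp
  | insert a s ha ih => rw [sum_insert ha, prod_insert ha, AddChar.map_add_eq_mul, ih]

private theorem ft_cnt {q M k : ℕ} [Fact q.Prime] (g : (ZMod q)ˣ) (hM : orderOf g ∣ M)
    (u : Fin k → ZMod q) (b : ZMod q) :
    ft (fun z => (#{t : Fin k → Fin M | ∑ m, u m * (g : ZMod q) ^ (t m : ℕ) = z} : ℝ)) b =
      ∏ m, ((M : ℂ) * ft (unif (Subgroup.zpowers g)) (b * u m)) := by
  have h1 : ∀ m, (M : ℂ) * ft (unif (Subgroup.zpowers g)) (b * u m) =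
      ∑ t : Fin M, (ZMod.stdAddChar (b * u m * (g : ZMod q) ^ (t : ℕ)) : ℂ) := fun m =>
    (sum_pow g hM (b * u m)).symm
  simp only [h1]
  rw [prod_univ_sum, Fintype.piFinset_univ,
    ← sum_fiberwise univ (fun t : Fin k → Fin M => ∑ m, u m * (g : ZMod q) ^ (t m : ℕ)), ft]
  refine sum_congr rfl fun z _ => ?_
  have h2 : ∑ t ∈ univ.filter (fun t : Fin k → Fin M =>
        ∑ m, u m * (g : ZMod q) ^ (t m : ℕ) = z),
      ∏ m, (ZMod.stdAddChar (b * u m * (g : ZMod q) ^ (t m : ℕ)) : ℂ) =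
      ∑ t ∈ univ.filter (fun t : Fin k → Fin M =>
        ∑ m, u m * (g : ZMod q) ^ (t m : ℕ) = z), (ZMod.stdAddChar (b * z) : ℂ) := by
    refine sum_congr rfl fun t ht => ?_
    rw [← char_sum, ← (mem_filter.1 ht).2, mul_sum]
    congr 1
    refine sum_congr rfl fun m _ => ?_
    ring
  rw [h2, sum_const, nsmul_eq_mul]
  push_cast
  rfl

private theorem cnt_succ {q M n : ℕ} [Fact q.Prime] (g : (ZMod q)ˣ) (x : ZMod q) :
    #{t : Fin (n + 1) → Fin M | ∑ m, (g : ZMod q) ^ (t m : ℕ) = x} =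
      ∑ a : Fin M, #{t : Fin n → Fin M |
        ∑ m, (g : ZMod q) ^ (t m : ℕ) = x - (g : ZMod q) ^ (a : ℕ)} := by
  simp only [card_filter]
  rw [← Equiv.sum_comp (Fin.consEquiv (fun _ : Fin (n + 1) => Fin M)), Fintype.sum_prod_type]
  refine sum_congr rfl fun a _ => sum_congr rfl fun t _ => ?_
  have h2 : ∑ m : Fin (n + 1), (g : ZMod q) ^
      ((Fin.consEquiv (fun _ : Fin (n + 1) => Fin M) (a, t) m : Fin M) : ℕ) =
      (g : ZMod q) ^ (a : ℕ) + ∑ m, (g : ZMod q) ^ (t m : ℕ) := by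
    rw [Fin.sum_univ_succ]
    simp [Fin.consEquiv]
  have h3 : (∑ m : Fin (n + 1), (g : ZMod q) ^
      ((Fin.consEquiv (fun _ : Fin (n + 1) => Fin M) (a, t) m : Fin M) : ℕ) =
      x) ↔ (∑ m, (g : ZMod q) ^ (t m : ℕ) = x - (g : ZMod q) ^ (a : ℕ)) := by
    rw [h2, eq_sub_iff_add_eq, add_comm]
  exact if_congr h3 rfl rfl

theorem coset_sum : ∃ k₀ q₀ : ℕ, ∀ k ≥ k₀, ∀ (q : ℕ) [Fact q.Prime], q₀ ≤ q →
    ∀ g : (ZMod q)ˣ, q ≤ orderOf g ^ 8 → ∀ M : ℕ, 0 < M → orderOf g ∣ M →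
    ∀ (u : Fin k → (ZMod q)ˣ) (z : ZMod q),
    (#{t : Fin k → Fin M | ∑ m, (u m : ZMod q) * (g : ZMod q) ^ (t m : ℕ) = z} : ℝ) * q ≤
      2 * (M : ℝ) ^ k := by
  obtain ⟨δ, q₀, hδ, hb⟩ := char_bound
  refine ⟨⌈2 / δ⌉₊, q₀, fun k hk q _ hq g hg M hM0 hM u z => ?_⟩
  have hq1 : (1 : ℝ) < q := by exact_mod_cast (Fact.out : q.Prime).one_lt
  have hq0 : (0 : ℝ) < q := by linarith
  have hcard : Nat.card (Subgroup.zpowers g) = orderOf g := Nat.card_zpowers g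
  have hbd : ∀ b : ZMod q, b ≠ 0 → ‖ft (unif (Subgroup.zpowers g)) b‖ ≤ (q : ℝ) ^ (-δ) :=
    fun b hb0 => hb q (Subgroup.zpowers g) hq (by rw [hcard]; exact hg) b hb0
  have h0 : ft (unif (Subgroup.zpowers g)) 0 = 1 := by
    unfold ft
    simp only [zero_mul, AddChar.map_zero_eq_one, mul_one]
    rw [← Complex.ofReal_sum, sum_unif, Complex.ofReal_one]
  have hkδ : 2 ≤ δ * k := by
    have h1 : 2 / δ ≤ k := (Nat.le_ceil _).trans (by exact_mod_cast hk)
    rw [div_le_iff₀ hδ] at h1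
    linarith
  have hpow : ((q : ℝ) ^ (-δ)) ^ k ≤ (q : ℝ) ^ (-2 : ℝ) := by
    rw [← Real.rpow_natCast, ← Real.rpow_mul hq0.le]
    exact Real.rpow_le_rpow_of_exponent_le hq1.le (by linarith)
  have hM1 : (0 : ℝ) ≤ (M : ℝ) := Nat.cast_nonneg _
  have hinv := inversion (fun z => (#{t : Fin k → Fin M |
    ∑ m, (u m : ZMod q) * (g : ZMod q) ^ (t m : ℕ) = z} : ℝ)) z
  have hnorm : ∀ b : ZMod q, ‖ft (fun z => (#{t : Fin k → Fin M |
      ∑ m, (u m : ZMod q) * (g : ZMod q) ^ (t m : ℕ) = z} : ℝ)) b *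
      ZMod.stdAddChar (-(b * z))‖ ≤ (M : ℝ) ^ k * (if b = 0 then 1 else (q : ℝ) ^ (-2 : ℝ)) := by
    intro b
    rw [norm_mul, AddChar.norm_apply, mul_one,
      ft_cnt g hM (fun m => ((u m : (ZMod q)ˣ) : ZMod q)) b, norm_prod]
    split_ifs with hb0
    · subst hb0
      simp only [zero_mul, h0, mul_one, Complex.norm_natCast, prod_const, card_univ,
        Fintype.card_fin]
      exact le_refl _
    · have h2 : ∀ m ∈ (univ : Finset (Fin k)),
          ‖(M : ℂ) * ft (unif (Subgroup.zpowers g)) (b * (u m : ZMod q))‖ ≤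
            (M : ℝ) * (q : ℝ) ^ (-δ) := by
        intro m _
        rw [norm_mul, Complex.norm_natCast]
        exact mul_le_mul_of_nonneg_left (hbd _ (mul_ne_zero hb0 (u m).ne_zero)) hM1
      refine (prod_le_prod (fun _ _ => norm_nonneg _) h2).trans ?_
      rw [prod_const, card_univ, Fintype.card_fin, mul_pow]
      exact mul_le_mul_of_nonneg_left hpow (pow_nonneg hM1 k)
  have hfin : ‖((q * (#{t : Fin k → Fin M |
      ∑ m, (u m : ZMod q) * (g : ZMod q) ^ (t m : ℕ) = z} : ℝ) : ℝ) : ℂ)‖ ≤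
      2 * (M : ℝ) ^ k := by
    rw [hinv]
    refine (norm_sum_le _ _).trans ((sum_le_sum fun b _ => hnorm b).trans ?_)
    rw [← mul_sum, mul_comm]
    refine mul_le_mul_of_nonneg_right ?_ (pow_nonneg hM1 k)
    rw [← add_sum_erase univ _ (mem_univ (0 : ZMod q)), if_pos rfl]
    have h3 : ∑ x ∈ univ.erase (0 : ZMod q), (if x = 0 then (1 : ℝ) else (q : ℝ) ^ (-2 : ℝ)) ≤
        ∑ x ∈ univ.erase (0 : ZMod q), (q : ℝ) ^ (-2 : ℝ) := by
      refine sum_le_sum fun x hx => ?_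
      rw [if_neg (mem_erase.1 hx).1]
    have h4 : ∑ x ∈ univ.erase (0 : ZMod q), (q : ℝ) ^ (-2 : ℝ) ≤ 1 := by
      rw [sum_const, nsmul_eq_mul, Real.rpow_neg hq0.le]
      have h5 : ((#((univ : Finset (ZMod q)).erase 0) : ℕ) : ℝ) ≤ q := by
        have h6 : #((univ : Finset (ZMod q)).erase 0) ≤ q := by
          refine (card_erase_le).trans ?_
          rw [card_univ, ZMod.card]
        exact_mod_cast h6
      have h7 : (q : ℝ) ^ (2 : ℝ) = (q : ℝ) * q := by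
        rw [Real.rpow_two, pow_two]
      rw [h7, ← div_eq_mul_inv, div_le_one (by positivity)]
      nlinarith
    linarith
  rw [Complex.norm_real, Real.norm_eq_abs] at hfin
  rw [mul_comm]
  exact (le_abs_self _).trans hfin

theorem bad_sum : ∃ k₀ d₀ : ℕ, ∀ k ≥ k₀, ∀ (q : ℕ) [Fact q.Prime] (g : (ZMod q)ˣ),
    d₀ ≤ orderOf g → orderOf g ^ 4 ≤ q → ∀ M : ℕ, 0 < M → orderOf g ∣ M → ∀ z : ZMod q,
    (#{t : Fin k → Fin M | ∑ m, (g : ZMod q) ^ (t m : ℕ) = z} : ℝ) ^ 2 * (orderOf g : ℝ) ^ 7 ≤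
      ((M : ℝ) ^ k) ^ 2 := by
  obtain ⟨J, d₀, hJ⟩ := iter_bound
  refine ⟨2 ^ (J + 1), d₀, fun k hk q _ g hd hdq M hM0 hM z => ?_⟩
  have hq1 : (1 : ℝ) < q := by exact_mod_cast (Fact.out : q.Prime).one_lt
  have hq0 : (0 : ℝ) < q := by linarith
  have hcard : Nat.card (Subgroup.zpowers g) = orderOf g := Nat.card_zpowers g
  have hd1 : (1 : ℝ) ≤ orderOf g := by exact_mod_cast orderOf_pos g
  have hd0' : (0 : ℝ) < orderOf g := by linarith
  have hM1 : (0 : ℝ) ≤ (M : ℝ) := Nat.cast_nonneg _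
  have hbase : ∀ x : ZMod q, (#{t : Fin (2 ^ (J + 1)) → Fin M |
      ∑ m, (g : ZMod q) ^ (t m : ℕ) = x} : ℝ) =
      (M : ℝ) ^ (2 ^ (J + 1)) * itc (unif (Subgroup.zpowers g)) (J + 1) x := by
    intro x
    have h1 := inversion (fun z => (#{t : Fin (2 ^ (J + 1)) → Fin M |
      ∑ m, (1 : ZMod q) * (g : ZMod q) ^ (t m : ℕ) = z} : ℝ)) x
    have h2 := inversion (itc (unif (Subgroup.zpowers g)) (J + 1)) x
    have h3 : ∀ b : ZMod q, ft (fun z => (#{t : Fin (2 ^ (J + 1)) → Fin M |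
        ∑ m, (1 : ZMod q) * (g : ZMod q) ^ (t m : ℕ) = z} : ℝ)) b =
        (M : ℂ) ^ (2 ^ (J + 1)) * ft (itc (unif (Subgroup.zpowers g)) (J + 1)) b := by
      intro b
      rw [ft_cnt g hM (fun _ => (1 : ZMod q)) b, ft_itc]
      simp only [mul_one, prod_const, card_univ, Fintype.card_fin, mul_pow]
    simp only [h3] at h1
    have h4 : ((q * (#{t : Fin (2 ^ (J + 1)) → Fin M |
        ∑ m, (1 : ZMod q) * (g : ZMod q) ^ (t m : ℕ) = x} : ℝ) : ℝ) : ℂ) =
        ((M : ℂ) ^ (2 ^ (J + 1))) *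
          ((q * itc (unif (Subgroup.zpowers g)) (J + 1) x : ℝ) : ℂ) := by
      rw [h1, h2, mul_sum]
      refine sum_congr rfl fun b _ => ?_
      ring
    have h5 : (q * (#{t : Fin (2 ^ (J + 1)) → Fin M |
        ∑ m, (1 : ZMod q) * (g : ZMod q) ^ (t m : ℕ) = x} : ℝ) : ℝ) =
        (M : ℝ) ^ (2 ^ (J + 1)) * (q * itc (unif (Subgroup.zpowers g)) (J + 1) x) := by
      exact_mod_cast h4
    simp only [one_mul] at h5
    have h6 : (q : ℝ) * (#{t : Fin (2 ^ (J + 1)) → Fin M |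
        ∑ m, (g : ZMod q) ^ (t m : ℕ) = x} : ℝ) =
        q * ((M : ℝ) ^ (2 ^ (J + 1)) * itc (unif (Subgroup.zpowers g)) (J + 1) x) := by
      rw [h5]
      ring
    exact mul_left_cancel₀ hq0.ne' h6
  have hbd : ∀ x : ZMod q, (#{t : Fin (2 ^ (J + 1)) → Fin M |
      ∑ m, (g : ZMod q) ^ (t m : ℕ) = x} : ℝ) ≤
      (M : ℝ) ^ (2 ^ (J + 1)) * (orderOf g : ℝ) ^ (-(15 / 4) : ℝ) := by
    intro x
    rw [hbase x]
    refine mul_le_mul_of_nonneg_left ?_ (pow_nonneg hM1 _)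
    have h1 : itc (unif (Subgroup.zpowers g)) (J + 1) x ≤
        sq (itc (unif (Subgroup.zpowers g)) J) := conv_self_le _ x
    have h2 := hJ q (Subgroup.zpowers g) (by rw [hcard]; exact hd)
    rw [hcard] at h2
    refine h1.trans (h2.trans (max_le ?_ ?_))
    · exact Real.rpow_le_rpow_of_exponent_le hd1 (by norm_num)
    · have h3 : ((orderOf g : ℝ) ^ 4) ≤ q := by exact_mod_cast hdq
      have h4 : (orderOf g : ℝ) ^ (-(15 / 4) : ℝ) =
          ((orderOf g : ℝ) ^ 4) ^ (-(15 / 16) : ℝ) := by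
        rw [← Real.rpow_natCast, ← Real.rpow_mul hd0'.le]
        norm_num
      rw [h4]
      exact Real.rpow_le_rpow_of_nonpos (by positivity) h3 (by norm_num)
  have hstep : ∀ x : ZMod q, (#{t : Fin k → Fin M |
      ∑ m, (g : ZMod q) ^ (t m : ℕ) = x} : ℝ) ≤
      (M : ℝ) ^ k * (orderOf g : ℝ) ^ (-(15 / 4) : ℝ) := by
    induction k, hk using Nat.le_induction with
    | base => exact hbd
    | succ n _ ih =>
      intro x
      rw [cnt_succ g x]
      push_cast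
      refine (sum_le_sum fun (a : Fin M) _ => ih (x - (g : ZMod q) ^ (a : ℕ))).trans ?_
      rw [sum_const, card_univ, Fintype.card_fin, nsmul_eq_mul, pow_succ]
      exact le_of_eq (by ring)
  have h7 := hstep z
  have h8 : (0 : ℝ) ≤ (#{t : Fin k → Fin M |
      ∑ m, (g : ZMod q) ^ (t m : ℕ) = z} : ℝ) := Nat.cast_nonneg _
  have h9 : (#{t : Fin k → Fin M |
      ∑ m, (g : ZMod q) ^ (t m : ℕ) = z} : ℝ) ^ 2 ≤
      ((M : ℝ) ^ k * (orderOf g : ℝ) ^ (-(15 / 4) : ℝ)) ^ 2 :=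
    pow_le_pow_left₀ h8 h7 2
  have h10 : ((orderOf g : ℝ) ^ (-(15 / 4) : ℝ)) ^ 2 * (orderOf g : ℝ) ^ 7 ≤ 1 := by
    rw [← Real.rpow_natCast, ← Real.rpow_natCast, ← Real.rpow_mul hd0'.le,
      ← Real.rpow_add hd0']
    exact Real.rpow_le_one_of_one_le_of_nonpos hd1 (by norm_num)
  calc _ ≤ ((M : ℝ) ^ k * (orderOf g : ℝ) ^ (-(15 / 4) : ℝ)) ^ 2 *
        (orderOf g : ℝ) ^ 7 := mul_le_mul_of_nonneg_right h9 (by positivity)
    _ = ((M : ℝ) ^ k) ^ 2 *
        (((orderOf g : ℝ) ^ (-(15 / 4) : ℝ)) ^ 2 * (orderOf g : ℝ) ^ 7) := by ring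
    _ ≤ ((M : ℝ) ^ k) ^ 2 * 1 :=
        mul_le_mul_of_nonneg_left h10 (by positivity)
    _ = _ := mul_one _

end Pool.Agent.SPO
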