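import Mathlib

/-!
# Definitions of the project SPO (MP_112731_nt, density one with an absolute number of powers of 2)

`Z i` are the scales `1, 2, 4, 16, 256, ...` (`Z (i+1) = 2^(2^i)`, so `Z (i+1) = (Z i)^2` for `i ≥
1`),
`win i` is the set of odd primes in `(Z i, Z (i+1)]`, `prs Q I` is the set of odd primes of `Q` up
to `Z I`,
`od q` is the order of `2` modulo `q`, `smo y n` is the `y`-smooth part of `n`.
-/

set_option autoImplicit false

namespace Pool.Agent.SPO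

open Finset

/-- the scales -/
def Z : ℕ → ℕ
  | 0 => 1
  | (i + 1) => 2 ^ 2 ^ i

/-- the odd primes in the window `(Z i, Z (i+1)]` -/
def win (i : ℕ) : Finset ℕ := (Ioc (Z i) (Z (i + 1))).filter (fun q => q.Prime ∧ q ≠ 2)

open Classical in
/-- the odd primes of `Q` up to `Z I` -/
noncomputable def prs (Q : Set ℕ) (I : ℕ) : Finset ℕ :=
  (Ioc 1 (Z I)).filter (fun q => (q.Prime ∧ q ≠ 2) ∧ q ∈ Q)

/-- the order of `2` modulo `q` -/
noncomputable def od (q : ℕ) : ℕ := orderOf (2 : ZMod q)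

/-- the `y`-smooth part of `n` -/
def smo (y n : ℕ) : ℕ := ∏ p ∈ n.primeFactors.filter (· ≤ y), p ^ n.factorization p

/-- `1 + 2^c + 2^(2c) + ... + 2^((ℓ-1)c)`, `c` the part of `M` prime to `ℓ` -/
def Psi (ℓ M : ℕ) : ℕ := ∑ j ∈ range ℓ, 2 ^ (j * (M / ℓ ^ M.factorization ℓ))

/-- the coefficient of the block `t` -/
def coef (l : ℕ → ℕ) (M t : ℕ) : ℕ := ∏ i ∈ range t, Psi (l i) M

/-- the sum of powers of `2` with the exponents `b` -/
def sB (l : ℕ → ℕ) (M : ℕ) {J k B : ℕ} (b : Fin (J + 1) → Fin k → Fin B) : ℕ :=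
  ∑ t : Fin (J + 1), coef l M t * ∑ m : Fin k, 2 ^ (b t m : ℕ)

/-- `q` divides `Psi ℓ M` (see `Psi_eq_zero_iff`) -/
def Dd (ℓ q : ℕ) : Prop := (od q).factorization ℓ = 1 ∨ q = ℓ

/-- the class `t` of primes: `Psi (l i)` is a unit for `i < t`, and zero for `i = t` if `t < J` -/
def cls (l : ℕ → ℕ) (J t : ℕ) : Set ℕ :=
  {q | (∀ i < t, ¬ Dd (l i) q) ∧ (t < J → Dd (l t) q)}

theorem Z_zero : Z 0 = 1 := rfl

theorem Z_succ (i : ℕ) : Z (i + 1) = 2 ^ 2 ^ i := rfl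

theorem Z_sq {i : ℕ} (hi : 1 ≤ i) : Z (i + 1) = Z i ^ 2 := by
  obtain ⟨j, rfl⟩ : ∃ j, i = j + 1 := ⟨i - 1, by omega⟩
  rw [Z_succ, Z_succ, ← pow_mul, ← pow_succ]

theorem Z_pos (i : ℕ) : 0 < Z i := by
  cases i with
  | zero => exact Nat.one_pos
  | succ i => exact pow_pos two_pos _

theorem Z_mono : Monotone Z := by
  refine monotone_nat_of_le_succ fun i => ?_
  cases i with
  | zero => exact Nat.one_le_two_pow
  | succ i => exact Nat.pow_le_pow_right two_pos (Nat.pow_le_pow_right two_pos (by omega))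

theorem mem_win {i q : ℕ} : q ∈ win i ↔ (Z i < q ∧ q ≤ Z (i + 1)) ∧ q.Prime ∧ q ≠ 2 := by
  rw [win, mem_filter, mem_Ioc]

theorem mem_prs {Q : Set ℕ} {I q : ℕ} :
    q ∈ prs Q I ↔ (1 < q ∧ q ≤ Z I) ∧ (q.Prime ∧ q ≠ 2) ∧ q ∈ Q := by
  classical
  unfold prs
  rw [mem_filter, mem_Ioc]

end Pool.Agent.SPO
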