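import Mathlib

/-!
# Package G04: popular dilates, and few multipliers with small sums

`dil r A = r A`.

`popular`. Let `d = |H|`. For `h ∈ H` and `x ∈ A'` we have `h x ∈ A`. Let
`r(x) = #{h ∈ H : x ∈ h A'}` for `x ∈ A`. `∑_{x ∈ A} r(x) = d |A'|` (dilation by a unit is
injective)
and by Cauchy-Schwarz `∑ r(x)² ≥ d²|A'|²/|A| ≥ d²|A'|/K`. The left side is
`∑_{h,h'} |hA' ∩ h'A'| = ∑_{h,h'} |A' ∩ (h⁻¹h')A'| = d ∑_{h ∈ H} |A' ∩ hA'|`, so
`∑_{h ∈ H} |A' ∩ hA'| ≥ d|A'|/K`. Let `H₁ = {h ∈ H : |A'| ≤ 2K|A' ∩ hA'|}` (as a set of elements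
of `F`).
Then `d|A'|/K ≤ |H₁||A'| + d|A'|/(2K)`, so `|H₁| ≥ d/(2K)`. (`K ≥ 1 > 0` since `|A'| ≤ |A|`.)

`card_le_of_small_sums`. We may assume that `R` is nonempty; then `Λ > 0`. For `r ∈ R`:
by Cauchy-Schwarz the number of `(x,y,x',y') ∈ A'⁴` with `x + r y = x' + r y'` is at least
`|A'|⁴/|A' + rA'| ≥ |A'|³/Λ`. Sum over `r ∈ R`: those with `y = y'` have `x = x'`, together
`|R||A'|²`; if `y ≠ y'` then `r = (x - x')/(y' - y)`, so there are at most `|A'|⁴` of them in all.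
Hence
`|R||A'|³/Λ ≤ |A'|⁴ + |R||A'|²`, and `|R||A'|² ≤ |R||A'|³/(2Λ)`; so `|R| ≤ 2Λ|A'|`.
-/

set_option autoImplicit false

namespace Pool.Agent.SPO

open Finset
open scoped Pointwise

variable {F : Type*} [Field F] [DecidableEq F]

/-- the dilate `r A` -/
def dil (r : F) (A : Finset F) : Finset F := A.image (fun x => r * x)

private theorem cs_card {α β : Type*} [DecidableEq α] [DecidableEq β] (S : Finset α)
    (T : Finset β) (f : α → β) (h : ∀ a ∈ S, f a ∈ T) :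
    #S ^ 2 ≤ #T * #((S ×ˢ S).filter fun p => f p.1 = f p.2) := by
  have h1 : #S = ∑ t ∈ T, #(S.filter fun a => f a = t) := card_eq_sum_card_fiberwise h
  have h2 : #((S ×ˢ S).filter fun p => f p.1 = f p.2) =
      ∑ t ∈ T, #(S.filter fun a => f a = t) ^ 2 := by
    rw [card_eq_sum_card_fiberwise (f := fun p : α × α => f p.1) (t := T)]
    · refine sum_congr rfl fun t _ => ?_
      rw [sq, ← card_product]
      congr 1
      ext ⟨a, b⟩
      simp only [mem_filter, mem_product]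
      constructor
      · rintro ⟨⟨⟨ha, hb⟩, h3⟩, h4⟩
        exact ⟨⟨ha, h4⟩, hb, h3.symm.trans h4⟩
      · rintro ⟨⟨ha, h3⟩, hb, h4⟩
        exact ⟨⟨⟨ha, hb⟩, h3.trans h4.symm⟩, h3⟩
    · intro p hp
      exact h _ (mem_product.1 (mem_filter.1 hp).1).1
  rw [h2]
  calc #S ^ 2 = (∑ t ∈ T, #(S.filter fun a => f a = t)) ^ 2 := by rw [← h1]
    _ ≤ _ := sq_sum_le_card_mul_sum_sq

private theorem count_dil {A' : Finset F} {g : F} (hg : g ≠ 0) :
    ∑ a ∈ A', ∑ a' ∈ A', (if a = g * a' then 1 else 0) ≤ #(A' ∩ dil g A') := by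
  rw [← filter_mem_eq_inter, card_filter]
  refine sum_le_sum fun a _ => ?_
  rw [← card_filter]
  split_ifs with h
  · refine card_le_one.2 fun x hx y hy => ?_
    have h1 := (mem_filter.1 hx).2
    have h2 := (mem_filter.1 hy).2
    exact mul_left_cancel₀ hg (h1.symm.trans h2)
  · refine (card_eq_zero.2 (filter_eq_empty_iff.2 fun x hx h1 => h ?_)).le
    exact mem_image.2 ⟨x, hx, h1.symm⟩

theorem popular [Fintype F] (H : Subgroup Fˣ) {A A' : Finset F}
    (hinv : ∀ h ∈ H, ∀ x ∈ A, (h : F) * x ∈ A) (hsub : A' ⊆ A) (hne : A'.Nonempty) {K : ℝ}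
    (hK : (#A : ℝ) ≤ K * #A') :
    ∃ H₁ : Finset F, (∀ r ∈ H₁, ∃ h ∈ H, (h : F) = r) ∧ (Nat.card H : ℝ) ≤ 2 * K * #H₁ ∧
      ∀ r ∈ H₁, (#A' : ℝ) ≤ 2 * K * #(A' ∩ dil r A') := by
  classical
  set Hf : Finset Fˣ := univ.filter (· ∈ H) with hHf
  have hd : Nat.card H = #Hf := Nat.subtype_card Hf (by simp [hHf])
  have hmem : ∀ h : Fˣ, h ∈ Hf ↔ h ∈ H := fun h => by simp [hHf]
  have hd0 : 0 < #Hf := card_pos.2 ⟨1, (hmem 1).2 H.one_mem⟩
  set N : Fˣ → ℕ := fun g => #(A' ∩ dil (g : F) A') with hN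
  -- Cauchy-Schwarz
  have h1 := cs_card (Hf ×ˢ A') A (fun p => (p.1 : F) * p.2) (fun p hp =>
    hinv p.1 ((hmem _).1 (mem_product.1 hp).1) p.2 (hsub (mem_product.1 hp).2))
  have h2 : #(((Hf ×ˢ A') ×ˢ (Hf ×ˢ A')).filter fun p => (p.1.1 : F) * p.1.2 = p.2.1 * p.2.2) ≤
      #Hf * ∑ g ∈ Hf, N g := by
    rw [card_filter, sum_product, sum_product]
    simp only
    calc ∑ h ∈ Hf, ∑ a ∈ A', ∑ y ∈ Hf ×ˢ A', (if (h : F) * a = (y.1 : F) * y.2 then 1 else 0)
        ≤ ∑ _h ∈ Hf, ∑ g ∈ Hf, N g := by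
          refine sum_le_sum fun h hh => ?_
          have e1 : ∑ a ∈ A', ∑ y ∈ Hf ×ˢ A', (if (h : F) * a = (y.1 : F) * y.2 then 1 else 0) =
              ∑ h' ∈ Hf, ∑ a ∈ A', ∑ a' ∈ A', (if (h : F) * a = (h' : F) * a' then 1 else 0) := by
            rw [sum_comm (s := Hf)]
            refine sum_congr rfl fun a _ => ?_
            rw [sum_product]
          have e2 : ∑ h' ∈ Hf, ∑ a ∈ A', ∑ a' ∈ A',
              (if (h : F) * a = (h' : F) * a' then 1 else 0) =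
              ∑ g ∈ Hf, ∑ a ∈ A', ∑ a' ∈ A', (if a = (g : F) * a' then 1 else 0) := by
            symm
            refine sum_bij (fun g _ => h * g) (fun g hg => (hmem _).2
              (H.mul_mem ((hmem _).1 hh) ((hmem _).1 hg))) (fun g _ g' _ h3 => mul_left_cancel h3)
              (fun h' hh' => ⟨h⁻¹ * h', (hmem _).2 (H.mul_mem (H.inv_mem ((hmem _).1 hh))
                ((hmem _).1 hh')), mul_inv_cancel_left h h'⟩) fun g _ => ?_
            refine sum_congr rfl fun a _ => sum_congr rfl fun a' _ => ?_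
            have e3 : (h : F) * a = ((h * g : Fˣ) : F) * a' ↔ a = (g : F) * a' := by
              rw [Units.val_mul, mul_assoc]
              exact mul_right_inj' h.ne_zero
            simp only [e3]
          rw [e1, e2]
          exact sum_le_sum fun g _ => count_dil g.ne_zero
      _ = #Hf * ∑ g ∈ Hf, N g := by rw [sum_const, smul_eq_mul]
  have hA0 : (0 : ℝ) < #A' := by exact_mod_cast card_pos.2 hne
  have hA1 : (0 : ℝ) < #A := by exact_mod_cast card_pos.2 (hne.mono hsub)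
  have hK0 : 0 < K := by
    by_contra hcon
    have : K * #A' ≤ 0 := mul_nonpos_of_nonpos_of_nonneg (not_lt.1 hcon) hA0.le
    linarith
  have hdq : (0 : ℝ) < #Hf := by exact_mod_cast hd0
  set SN : ℝ := ((∑ g ∈ Hf, N g : ℕ) : ℝ) with hSN
  have h3 : (#Hf : ℝ) * #A' ≤ K * SN := by
    have e1 : (#Hf * #A') ^ 2 ≤ #A * (#Hf * ∑ g ∈ Hf, N g) := by
      rw [card_product] at h1
      exact h1.trans (Nat.mul_le_mul_left _ h2)
    have e2 : ((#Hf : ℝ) * #A') ^ 2 ≤ #A * (#Hf * SN) := by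
      rw [hSN]
      exact_mod_cast e1
    have hSN0 : 0 ≤ SN := Nat.cast_nonneg _
    have e3 : (#A : ℝ) * (#Hf * SN) ≤ (K * #A') * (#Hf * SN) :=
      mul_le_mul_of_nonneg_right hK (mul_nonneg hdq.le hSN0)
    have e4 : ((#Hf : ℝ) * #A') * ((#Hf : ℝ) * #A') ≤ ((#Hf : ℝ) * #A') * (K * SN) := by
      nlinarith [e2, e3]
    exact le_of_mul_le_mul_left e4 (mul_pos hdq hA0)
  set G : Finset Fˣ := Hf.filter fun g => (#A' : ℝ) ≤ 2 * K * N g with hG
  have h4 : 2 * K * SN ≤ 2 * K * #A' * #G + #A' * #Hf := by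
    have e1 : 2 * K * SN = ∑ g ∈ Hf, 2 * K * (N g : ℝ) := by
      rw [hSN, Nat.cast_sum, mul_sum]
    rw [e1, ← sum_filter_add_sum_filter_not Hf fun g => (#A' : ℝ) ≤ 2 * K * N g]
    refine add_le_add ?_ ?_
    · calc ∑ g ∈ G, 2 * K * (N g : ℝ) ≤ ∑ _g ∈ G, 2 * K * (#A' : ℝ) := by
            refine sum_le_sum fun g _ => ?_
            refine mul_le_mul_of_nonneg_left ?_ (by linarith)
            exact_mod_cast card_le_card inter_subset_left
        _ = 2 * K * #A' * #G := by rw [sum_const, nsmul_eq_mul]; ring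
    · calc ∑ g ∈ Hf.filter (fun g => ¬ (#A' : ℝ) ≤ 2 * K * N g), 2 * K * (N g : ℝ)
          ≤ ∑ _g ∈ Hf.filter (fun g => ¬ (#A' : ℝ) ≤ 2 * K * N g), (#A' : ℝ) :=
            sum_le_sum fun g hg => (not_le.1 (mem_filter.1 hg).2).le
        _ ≤ #A' * #Hf := by
            rw [sum_const, nsmul_eq_mul, mul_comm]
            refine mul_le_mul_of_nonneg_left ?_ hA0.le
            exact_mod_cast card_le_card (filter_subset _ _)
  refine ⟨G.image (Units.val : Fˣ → F), ?_, ?_, ?_⟩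
  · intro r hr
    obtain ⟨g, hg, rfl⟩ := mem_image.1 hr
    exact ⟨g, (hmem g).1 (mem_filter.1 hg).1, rfl⟩
  · rw [card_image_of_injective _ Units.val_injective, hd]
    have e1 : (#A' : ℝ) * #Hf ≤ #A' * (2 * K * #G) := by nlinarith [h3, h4]
    exact le_of_mul_le_mul_left e1 hA0
  · intro r hr
    obtain ⟨g, hg, rfl⟩ := mem_image.1 hr
    exact (mem_filter.1 hg).2

theorem card_le_of_small_sums {A' R : Finset F} (hne : A'.Nonempty) {Λ : ℝ}
    (h : ∀ r ∈ R, (#(A' + dil r A') : ℝ) ≤ Λ * #A') (hbig : 2 * Λ ≤ #A') (hΛ : 0 ≤ Λ) :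
    (#R : ℝ) ≤ 2 * Λ * #A' := by
  have hA0 : (0 : ℝ) < #A' := by exact_mod_cast card_pos.2 hne
  set Q : Finset ((F × F) × F × F) := (A' ×ˢ A') ×ˢ (A' ×ˢ A') with hQ
  have hQc : #Q = #A' ^ 4 := by
    rw [hQ, card_product, card_product]
    ring
  set E : F → Finset ((F × F) × F × F) := fun r =>
    Q.filter fun p => p.1.1 + r * p.1.2 = p.2.1 + r * p.2.2 with hE
  set D : F → Finset ((F × F) × F × F) := fun r => (E r).filter fun p => p.1.2 ≠ p.2.2 with hD
  have h1 : ∀ r ∈ R, (#A' : ℝ) ^ 3 ≤ Λ * #(E r) := by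
    intro r hr
    have e1 := cs_card (A' ×ˢ A') (A' + dil r A') (fun p => p.1 + r * p.2) (fun p hp =>
      add_mem_add (mem_product.1 hp).1 (mem_image.2 ⟨p.2, (mem_product.1 hp).2, rfl⟩))
    rw [card_product] at e1
    have e2 : ((#A' : ℝ) * #A') ^ 2 ≤ #(A' + dil r A') * #(E r) := by exact_mod_cast e1
    have e3 : (#(A' + dil r A') : ℝ) * #(E r) ≤ (Λ * #A') * #(E r) :=
      mul_le_mul_of_nonneg_right (h r hr) (Nat.cast_nonneg _)
    have e4 : (#A' : ℝ) * #A' ^ 3 ≤ #A' * (Λ * #(E r)) := by nlinarith [e2, e3]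
    exact le_of_mul_le_mul_left e4 hA0
  have h2 : ∀ r, #(E r) ≤ #A' ^ 2 + #(D r) := by
    intro r
    have e1 : #(E r) = #((E r).filter fun p => p.1.2 = p.2.2) + #(D r) :=
      (card_filter_add_card_filter_not (s := E r) fun p => p.1.2 = p.2.2).symm
    rw [e1]
    refine Nat.add_le_add_right ?_ _
    have e2 : #((E r).filter fun p => p.1.2 = p.2.2) ≤ #(A' ×ˢ A') := by
      refine card_le_card_of_injOn (fun p => p.1) (fun p hp => ?_) fun p hp q hq hpq => ?_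
      · have e3 := (mem_filter.1 (mem_filter.1 (mem_coe.1 hp)).1).1
        exact mem_coe.2 (mem_product.1 e3).1
      · have e3 := (mem_filter.1 (mem_coe.1 hp)).2
        have e4 := (mem_filter.1 (mem_filter.1 (mem_coe.1 hp)).1).2
        have e5 := (mem_filter.1 (mem_coe.1 hq)).2
        have e6 := (mem_filter.1 (mem_filter.1 (mem_coe.1 hq)).1).2
        simp only at hpq
        rw [← e3] at e4
        rw [← e5] at e6
        have e7 := add_right_cancel e4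
        have e8 := add_right_cancel e6
        refine Prod.ext hpq (Prod.ext ?_ ?_)
        · rw [← e7, ← e8, hpq]
        · rw [← e3, ← e5, hpq]
    rw [card_product, ← sq] at e2
    exact e2
  have h3 : ∑ r ∈ R, #(D r) ≤ #A' ^ 4 := by
    rw [← hQc, ← card_biUnion]
    · refine card_le_card (biUnion_subset.2 fun r _ => ?_)
      exact (filter_subset _ _).trans (filter_subset _ _)
    · intro r _ r' _ hrr
      refine disjoint_left.2 fun p hp hp' => ?_
      have e3 := (mem_filter.1 hp).2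
      have e4 := (mem_filter.1 (mem_filter.1 hp).1).2
      have e6 := (mem_filter.1 (mem_filter.1 hp').1).2
      have e7 : (r - r') * (p.1.2 - p.2.2) = 0 := by linear_combination e4 - e6
      rcases mul_eq_zero.1 e7 with e8 | e8
      · exact hrr (sub_eq_zero.1 e8)
      · exact e3 (sub_eq_zero.1 e8)
  have h4 : (#R : ℝ) * #A' ^ 3 ≤ Λ * (#R * #A' ^ 2 + #A' ^ 4) := by
    calc (#R : ℝ) * #A' ^ 3 = ∑ _r ∈ R, (#A' : ℝ) ^ 3 := by rw [sum_const, nsmul_eq_mul]
      _ ≤ ∑ r ∈ R, Λ * (#(E r) : ℝ) := sum_le_sum h1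
      _ = Λ * ((∑ r ∈ R, #(E r) : ℕ) : ℝ) := by rw [← mul_sum, Nat.cast_sum]
      _ ≤ Λ * (#R * #A' ^ 2 + #A' ^ 4) := by
        refine mul_le_mul_of_nonneg_left ?_ hΛ
        have e1 : ∑ r ∈ R, #(E r) ≤ #R * #A' ^ 2 + #A' ^ 4 := by
          calc ∑ r ∈ R, #(E r) ≤ ∑ r ∈ R, (#A' ^ 2 + #(D r)) := sum_le_sum fun r _ => h2 r
            _ = #R * #A' ^ 2 + ∑ r ∈ R, #(D r) := by
              rw [sum_add_distrib, sum_const, smul_eq_mul]
            _ ≤ _ := Nat.add_le_add_left h3 _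
        exact_mod_cast e1
  have h5 : 2 * (Λ * (#R * #A' ^ 2)) ≤ (#R : ℝ) * #A' ^ 3 := by
    have e1 : 0 ≤ (#R : ℝ) * #A' ^ 2 := by positivity
    nlinarith [mul_le_mul_of_nonneg_right hbig e1]
  have h6 : (#A' : ℝ) ^ 3 * #R ≤ #A' ^ 3 * (2 * Λ * #A') := by nlinarith [h4, h5]
  exact le_of_mul_le_mul_left h6 (by positivity)

end Pool.Agent.SPO
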