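import Pool.Agent.SPO.ADefs

/-!
# Package A01: expansion of `GA` into additive characters

Adapt `GG_expand` and `EE_expand` of `Pool/Agent/TwoSqPow/Expand.lean`: for `d ≥ 1`
`[d ∣ n] chi d = ∑_{r < d} (chi d/d) ex(r n/d)` (`ex_sum_range`), exchange the sums and use
`regroup` with
`φ d = chi d/d` if `gcd(d, P) = 1` and `0` otherwise.
`GA_sub_main`: the term `x = 0` (`den = 1`, `TA A s 0 = #A`, `ex 0 = 1`) is the main term, the
others have
`den ≤ D` or `den > D` (`zero_mem_RQ`).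
-/

set_option autoImplicit false

namespace Pool.Agent.SPO

open Finset Complex Pool.Agent.TwoSqPow

variable {ι : Type*}

theorem GA_expand (A : Finset ι) (s : ι → ℕ) (P Y : ℕ) (N : ℤ) :
    ((GA A s P Y N : ℝ) : ℂ) = FP A s P Y (RQ Y) N := by
  classical
  have h1 : ∀ (m : ℤ) (d : ℕ), d ∈ Icc 1 Y →
      (((if (d : ℤ) ∣ m then chi d else 0 : ℝ)) : ℂ) =
        ∑ r ∈ range d, (((chi d / d : ℝ)) : ℂ) * ex ((r : ℝ) / d * m) := by
    intro m d hd
    rw [mem_Icc] at hd
    rw [← mul_sum, ex_sum_range hd.1]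
    have hd0 : (d : ℂ) ≠ 0 := by exact_mod_cast (show d ≠ 0 by omega)
    split_ifs
    · push_cast
      field_simp
    · simp
  set φ : ℕ → ℂ := fun d => if Nat.Coprime d P then ((chi d / d : ℝ) : ℂ) else 0 with hφ
  set Ψ : ℚ → ℂ := fun x => TA A s (x : ℝ) * ex ((N : ℝ) * (x : ℝ)) with hΨ
  have hR := regroup Y φ Ψ
  have hL : ((GA A s P Y N : ℝ) : ℂ) = ∑ d ∈ Icc 1 Y, ∑ r ∈ range d, φ d * Ψ ((r : ℚ) / d) := by
    unfold GA
    rw [Complex.ofReal_sum]
    have h3 : ∀ b ∈ A, (((∑ d ∈ (Icc 1 Y).filter (fun d => Nat.Coprime d P),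
        if (d : ℤ) ∣ N - s b then chi d else 0 : ℝ)) : ℂ) =
        ∑ d ∈ Icc 1 Y, ∑ r ∈ range d, φ d *
          (ex ((N : ℝ) * ((r : ℝ) / d)) * ex (-((r : ℝ) / d * (s b : ℕ)))) := by
      intro b _
      rw [Complex.ofReal_sum, sum_filter]
      apply sum_congr rfl
      intro d hd
      by_cases hc : Nat.Coprime d P
      · rw [if_pos hc, h1 _ d hd]
        apply sum_congr rfl
        intro r _
        rw [hφ]
        simp only [if_pos hc]
        rw [← ex_add]
        congr 2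
        push_cast
        ring
      · rw [if_neg hc]
        symm
        apply sum_eq_zero
        intro r _
        rw [hφ]
        simp only [if_neg hc, zero_mul]
    rw [sum_congr rfl h3, sum_comm]
    apply sum_congr rfl
    intro d _
    rw [sum_comm]
    apply sum_congr rfl
    intro r _
    rw [← mul_sum, ← mul_sum, hΨ]
    simp only
    unfold TA
    push_cast
    ring
  rw [hL, hR]
  unfold FP
  apply sum_congr rfl
  intro x _
  have h4 : ∑ d ∈ (Icc 1 Y).filter (fun d => x.den ∣ d), φ d = ((cP P Y x.den : ℝ) : ℂ) := by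
    unfold cP
    rw [Complex.ofReal_sum, hφ, ← sum_filter, filter_filter]
    apply sum_congr
    · ext d
      simp only [mem_filter]
      tauto
    · intro d _
      rfl
  rw [h4, hΨ]
  simp only
  ring

theorem GA_sub_main (A : Finset ι) (s : ι → ℕ) (P : ℕ) {Y D : ℕ} (hY : 1 ≤ Y) (hD : 1 ≤ D)
    (N : ℤ) : ((GA A s P Y N - cP P Y 1 * #A : ℝ) : ℂ) =
      FP A s P Y ((RQ Y).filter (fun x => x ≠ 0 ∧ x.den ≤ D)) N +
        FP A s P Y ((RQ Y).filter (fun x => D < x.den)) N := by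
  classical
  have hdis : Disjoint ((RQ Y).filter (fun x => x ≠ 0 ∧ x.den ≤ D))
      ((RQ Y).filter (fun x => D < x.den)) := by
    rw [disjoint_left]
    intro x hx hx'
    rw [mem_filter] at hx hx'
    omega
  have hun : (RQ Y).erase 0 = (RQ Y).filter (fun x => x ≠ 0 ∧ x.den ≤ D) ∪
      (RQ Y).filter (fun x => D < x.den) := by
    ext x
    rw [mem_erase, mem_union, mem_filter, mem_filter]
    constructor
    · rintro ⟨h1, h2⟩
      rcases le_or_gt x.den D with h | h
      · exact Or.inl ⟨h2, h1, h⟩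
      · exact Or.inr ⟨h2, h⟩
    · rintro (⟨h1, h2, _⟩ | ⟨h1, h2⟩)
      · exact ⟨h2, h1⟩
      · refine ⟨?_, h1⟩
        rintro rfl
        rw [Rat.den_zero] at h2
        omega
  rw [Complex.ofReal_sub, GA_expand]
  unfold FP
  rw [← add_sum_erase _ _ (zero_mem_RQ hY), hun, sum_union hdis]
  have hz : ((cP P Y (0 : ℚ).den : ℝ) : ℂ) * TA A s ((0 : ℚ) : ℝ) *
      ex ((N : ℝ) * ((0 : ℚ) : ℝ)) = ((cP P Y 1 * #A : ℝ) : ℂ) := by
    unfold TA
    simp [ex_zero]
  rw [hz]
  ring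

end Pool.Agent.SPO
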