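import Pool.Agent.SPO.Dilate

/-!
# Package G06: the growth lemma of Glibichuk and Konyagin

Let `R = {(a - a')/(b - b') : a, a' ∈ A, b, b' ∈ B, b ≠ b'}` (a subset of `ZMod p`, `0 ∈ R` as
`|B| ≥ 2` and
`A` is nonempty). For `ξ ∉ R` the map `A × B → A + ξB` is injective, so `|A + ξB| = |A||B|`.

Case 1: `R` is everything. Let `E(ξ) = #{(a,a',b,b') : a + ξb = a' + ξb'}`. Summing over the `p -
1` nonzero `ξ`:
quadruples with `b = b'` (so `a = a'`) give `(p-1)|A||B|`, the others determine `ξ`: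
`∑_{ξ ≠ 0} E(ξ) ≤ (p-1)|A||B| + |A|²|B|²`. So some `ξ ≠ 0` has `(p-1) E(ξ) ≤ (p-1)|A||B| +
|A|²|B|²`. By
Cauchy-Schwarz `|A + ξB| E(ξ) ≥ |A|²|B|²`. If `|A||B| ≤ p - 1` then `E(ξ) ≤ 2|A||B|` and
`2|A + ξB| ≥ |A||B|`; if `|A||B| ≥ p - 1` then `(p-1)E(ξ) ≤ 2|A|²|B|²` and `2|A + ξB| ≥ p - 1`.
Write
`ξ = (a - a')/(b - b')`, `b ≠ b'`. The set `(b - b')A + (a - a')B = (b - b')(A + ξB)` has the same
number
of elements; `e = 0`.

Case 2: `R` is not everything. Since `0 ∈ R` and `p` is prime (every element of `ZMod p` is a sum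
of
ones) there is `ξ ∈ R` with `ξ + 1 ∉ R`. `ξ = (a - a')/(b - b')`, `|A + (ξ+1)B| = |A||B|`, and
`(b - b')A + (a - a' + (b - b'))B = (b - b')(A + (ξ+1)B)`; `e = 1`.
-/

set_option autoImplicit false

namespace Pool.Agent.SPO

open Finset
open scoped Pointwise

/-- Cauchy-Schwarz for the number of coincidences. -/
private theorem coin {α β : Type*} [DecidableEq α] [DecidableEq β] (s : Finset α) (f : α → β) :
    #s ^ 2 ≤ #(s.image f) * #{q ∈ s ×ˢ s | f q.1 = f q.2} := by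
  have h1 : #s = ∑ z ∈ s.image f, #{x ∈ s | f x = z} := card_eq_sum_card_image f s
  have h2 : #{q ∈ s ×ˢ s | f q.1 = f q.2} = ∑ z ∈ s.image f, #{x ∈ s | f x = z} ^ 2 := by
    rw [card_eq_sum_card_fiberwise (f := fun q : α × α => f q.1) (t := s.image f)
      (fun q hq => mem_image_of_mem f (mem_product.1 (mem_filter.1 hq).1).1)]
    refine sum_congr rfl fun z _ => ?_
    rw [sq, ← card_product]
    congr 1
    ext q
    simp only [mem_filter, mem_product]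
    constructor
    · rintro ⟨⟨⟨h3, h4⟩, h5⟩, h6⟩
      exact ⟨⟨h3, h6⟩, h4, h5.symm.trans h6⟩
    · rintro ⟨⟨h3, h4⟩, h5, h6⟩
      exact ⟨⟨⟨h3, h5⟩, h4.trans h6.symm⟩, h4⟩
  rw [h2]
  nth_rewrite 1 [h1]
  exact sq_sum_le_card_mul_sum_sq

private theorem add_dil_eq {p : ℕ} [Fact p.Prime] (A B : Finset (ZMod p)) (η : ZMod p) :
    A + dil η B = (A ×ˢ B).image fun q => q.1 + η * q.2 := by
  ext z
  simp only [dil, mem_add, mem_image, mem_product, Prod.exists]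
  constructor
  · rintro ⟨a, ha, _, ⟨b, hb, rfl⟩, rfl⟩
    exact ⟨a, b, ⟨ha, hb⟩, rfl⟩
  · rintro ⟨a, b, ⟨ha, hb⟩, rfl⟩
    exact ⟨a, ha, _, ⟨b, hb, rfl⟩, rfl⟩

private theorem card_scale {p : ℕ} [Fact p.Prime] (A B : Finset (ZMod p)) {c : ZMod p}
    (hc : c ≠ 0) (η : ZMod p) : #(dil c A + dil (η * c) B) = #(A + dil η B) := by
  have h1 : dil c A + dil (η * c) B = (A + dil η B).image (AddMonoidHom.mulLeft c) := by
    rw [image_add]
    congr 1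
    unfold dil
    rw [image_image]
    refine image_congr fun x _ => ?_
    simp only [Function.comp_apply, AddMonoidHom.coe_mulLeft]
    ring
  rw [h1]
  exact card_image_of_injective _ (mul_right_injective₀ hc)

private theorem card_inj {p : ℕ} [Fact p.Prime] {A B : Finset (ZMod p)} {η : ZMod p}
    (h : ∀ a ∈ A, ∀ a' ∈ A, ∀ b ∈ B, ∀ b' ∈ B, b ≠ b' → η * (b - b') ≠ a - a') :
    #(A + dil η B) = #A * #B := by
  rw [add_dil_eq, card_image_of_injOn, card_product]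
  rintro ⟨a, b⟩ h1 ⟨a', b'⟩ h2 h3
  rw [coe_product, Set.mem_prod, mem_coe, mem_coe] at h1 h2
  have h3' : a + η * b = a' + η * b' := h3
  by_cases hb : b = b'
  · subst hb
    rw [add_right_cancel h3']
  · exfalso
    refine h a' h2.1 a h1.1 b h1.2 b' h2.2 hb ?_
    linear_combination h3'

private theorem exists_xi {p : ℕ} [Fact p.Prime] (A B : Finset (ZMod p)) (hA : A.Nonempty)
    (hB : B.Nonempty) : ∃ ξ : ZMod p, ξ ≠ 0 ∧ min (#A * #B) (p - 1) ≤ 2 * #(A + dil ξ B) := by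
  classical
  have hp : 2 ≤ p := (Fact.out : p.Prime).two_le
  obtain ⟨n, hn⟩ : ∃ n, n = #(A ×ˢ B) := ⟨_, rfl⟩
  have hn' : n = #A * #B := by rw [hn, card_product]
  have hn0 : 0 < n := by
    rw [hn']
    exact Nat.mul_pos hA.card_pos hB.card_pos
  obtain ⟨s, hs⟩ : ∃ s : Finset (ZMod p), s = univ.erase 0 := ⟨_, rfl⟩
  have hsc : #s = p - 1 := by
    rw [hs, card_erase_of_mem (mem_univ _), card_univ, ZMod.card]
  have hsn : s.Nonempty := by
    rw [← card_pos, hsc]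
    omega
  obtain ⟨E, hE⟩ : ∃ E : ZMod p → ℕ, ∀ ξ, E ξ = #{q ∈ (A ×ˢ B) ×ˢ (A ×ˢ B) |
      q.1.1 + ξ * q.1.2 = q.2.1 + ξ * q.2.2} := ⟨_, fun _ => rfl⟩
  have hsum : ∑ ξ ∈ s, E ξ ≤ (p - 1) * n + n ^ 2 := by
    have h1 : ∑ ξ ∈ s, E ξ = ∑ q ∈ (A ×ˢ B) ×ˢ (A ×ˢ B),
        #{ξ ∈ s | q.1.1 + ξ * q.1.2 = q.2.1 + ξ * q.2.2} := by
      simp only [hE, card_filter]
      exact sum_comm
    rw [h1]
    have h2 : ∀ q ∈ (A ×ˢ B) ×ˢ (A ×ˢ B),
        #{ξ ∈ s | q.1.1 + ξ * q.1.2 = q.2.1 + ξ * q.2.2} ≤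
          (if q.1 = q.2 then p - 1 else 0) + 1 := by
      intro q _
      by_cases hq : q.1 = q.2
      · rw [if_pos hq]
        have h3 := card_filter_le s fun ξ => q.1.1 + ξ * q.1.2 = q.2.1 + ξ * q.2.2
        rw [hsc] at h3
        exact h3.trans (Nat.le_succ _)
      · rw [if_neg hq, zero_add, card_le_one]
        intro ξ hξ ξ' hξ'
        have h4 := (mem_filter.1 hξ).2
        have h5 := (mem_filter.1 hξ').2
        have h6 : (ξ - ξ') * (q.1.2 - q.2.2) = 0 := by linear_combination h4 - h5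
        rcases mul_eq_zero.1 h6 with h7 | h7
        · exact sub_eq_zero.1 h7
        · exfalso
          have h8 : q.1.2 = q.2.2 := sub_eq_zero.1 h7
          rw [h8] at h4
          exact hq (Prod.ext (add_right_cancel h4) h8)
    refine (sum_le_sum h2).trans (le_of_eq ?_)
    rw [sum_add_distrib, sum_const, card_product, ← hn, sum_product]
    have h3 : ∀ x ∈ A ×ˢ B, (∑ y ∈ A ×ˢ B, if x = y then p - 1 else 0) = p - 1 := by
      intro x hx
      rw [sum_ite_eq, if_pos hx]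
    have h4 : (∑ x ∈ A ×ˢ B, ∑ y ∈ A ×ˢ B, if (x, y).1 = (x, y).2 then p - 1 else 0) =
        n * (p - 1) := by
      rw [sum_congr rfl h3, sum_const, ← hn, smul_eq_mul]
    rw [h4, smul_eq_mul]
    ring
  obtain ⟨ξ, hξ, hξ2⟩ : ∃ ξ ∈ s, (p - 1) * E ξ ≤ (p - 1) * n + n ^ 2 := by
    refine exists_le_of_sum_le hsn ?_
    rw [← mul_sum, sum_const, hsc, smul_eq_mul]
    exact Nat.mul_le_mul_left _ hsum
  refine ⟨ξ, ?_, ?_⟩
  · rw [hs] at hξ
    exact (mem_erase.1 hξ).1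
  · have h1 := coin (A ×ˢ B) fun q => q.1 + ξ * q.2
    rw [← add_dil_eq, ← hn] at h1
    have h2 : #{q ∈ (A ×ˢ B) ×ˢ (A ×ˢ B) | (fun q : ZMod p × ZMod p => q.1 + ξ * q.2) q.1 =
        (fun q : ZMod p × ZMod p => q.1 + ξ * q.2) q.2} = E ξ := (hE ξ).symm
    rw [h2] at h1
    rw [← hn']
    obtain ⟨m, hm⟩ : ∃ m, m = #(A + dil ξ B) := ⟨_, rfl⟩
    rw [← hm] at h1 ⊢
    obtain ⟨P, hP⟩ : ∃ P, P = p - 1 := ⟨_, rfl⟩
    have hP0 : 0 < P := by omega
    rw [← hP] at hξ2 ⊢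
    rcases le_total n P with h3 | h3
    · rw [min_eq_left h3]
      have h4 : P * E ξ ≤ P * (2 * n) := by nlinarith
      have h5 : E ξ ≤ 2 * n := Nat.le_of_mul_le_mul_left h4 hP0
      have h6 : n * n ≤ (2 * m) * n := by nlinarith
      exact Nat.le_of_mul_le_mul_right h6 hn0
    · rw [min_eq_right h3]
      have h4 : P * E ξ ≤ 2 * n ^ 2 := by nlinarith
      have h5 : P * n ^ 2 ≤ (2 * m) * n ^ 2 := by
        calc P * n ^ 2 ≤ P * (m * E ξ) := Nat.mul_le_mul_left _ h1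
          _ = m * (P * E ξ) := by ring
          _ ≤ m * (2 * n ^ 2) := Nat.mul_le_mul_left _ h4
          _ = (2 * m) * n ^ 2 := by ring
      exact Nat.le_of_mul_le_mul_right h5 (by positivity)

theorem gk {p : ℕ} [Fact p.Prime] (A B : Finset (ZMod p)) (hA : A.Nonempty) (hB : 2 ≤ #B) :
    ∃ a ∈ A, ∃ a' ∈ A, ∃ b ∈ B, ∃ b' ∈ B, ∃ e : ZMod p, (e = 0 ∨ e = 1) ∧
      min (#A * #B) (p - 1) ≤ 2 * #(dil (b - b') A + dil (a - a' + e * (b - b')) B) := by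
  classical
  by_cases hR : ∀ ξ : ZMod p, ∃ a ∈ A, ∃ a' ∈ A, ∃ b ∈ B, ∃ b' ∈ B, b ≠ b' ∧
      ξ * (b - b') = a - a'
  · obtain ⟨ξ, -, h1⟩ := exists_xi A B hA (card_pos.1 (by omega))
    obtain ⟨a, ha, a', ha', b, hb, b', hb', hne, h2⟩ := hR ξ
    refine ⟨a, ha, a', ha', b, hb, b', hb', 0, Or.inl rfl, ?_⟩
    rw [zero_mul, add_zero, ← h2, card_scale A B (sub_ne_zero.2 hne)]
    exact h1
  · have h0 : ∃ a ∈ A, ∃ a' ∈ A, ∃ b ∈ B, ∃ b' ∈ B, b ≠ b' ∧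
        (0 : ZMod p) * (b - b') = a - a' := by
      obtain ⟨a, ha⟩ := hA
      obtain ⟨b, hb, b', hb', hne⟩ := one_lt_card.1 (show 1 < #B by omega)
      exact ⟨a, ha, a, ha, b, hb, b', hb', hne, by rw [zero_mul, sub_self]⟩
    obtain ⟨ξ, hξ, hξ1⟩ : ∃ ξ : ZMod p, (∃ a ∈ A, ∃ a' ∈ A, ∃ b ∈ B, ∃ b' ∈ B, b ≠ b' ∧
        ξ * (b - b') = a - a') ∧ ¬ ∃ a ∈ A, ∃ a' ∈ A, ∃ b ∈ B, ∃ b' ∈ B, b ≠ b' ∧
        (ξ + 1) * (b - b') = a - a' := by
      by_contra hcon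
      push Not at hcon
      refine hR fun ξ => ?_
      obtain ⟨n, rfl⟩ := ZMod.natCast_zmod_surjective ξ
      induction n with
      | zero => simpa using h0
      | succ n ih =>
        obtain ⟨a, ha, a', ha', b, hb, b', hb', hne, h2⟩ := ih
        have h3 := hcon n ⟨a, ha, a', ha', b, hb, b', hb', hne, h2⟩
        rw [Nat.cast_succ]
        exact h3
    obtain ⟨a, ha, a', ha', b, hb, b', hb', hne, h2⟩ := hξ
    refine ⟨a, ha, a', ha', b, hb, b', hb', 1, Or.inr rfl, ?_⟩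
    have h3 : a - a' + 1 * (b - b') = (ξ + 1) * (b - b') := by
      rw [← h2]
      ring
    rw [h3, card_scale A B (sub_ne_zero.2 hne), card_inj]
    · exact (min_le_left _ _).trans (by omega)
    · intro c hc c' hc' d hd d' hd' hdd h4
      exact hξ1 ⟨c, hc, c', hc', d, hd, d', hd', hdd, h4⟩

end Pool.Agent.SPO
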