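import Mathlib

/-!
# Package P06: the multiplicative function of Rankin's trick

`gg σ n = ∏_{p ∣ n} (p^{σ a} - p^{σ(a-1)})`, `a = v_p(n)`; it is `∑_{d ∣ n} μ(n/d) d^σ`.

* `gg_nonneg`: `σ ≥ 0` and `p ≥ 1`.
* `gg_mul`: for coprime `m, n` (disjoint prime factors, `Nat.factorization_mul_of_coprime`).
* `gg_prime_pow`.
* `sum_gg`: both sides are multiplicative (induction over coprime factors,
  `Nat.recOnPosPrimePosCoprime`, `Nat.Coprime.sum_divisors_mul` or
  `Nat.divisors_mul`/`Finset.sum_product` over divisors of a product of coprime numbers); for a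
prime
  power the sum telescopes: `1 + ∑_{j=1}^{a} (p^{σ j} - p^{σ(j-1)}) = p^{σ a}`.
-/

set_option autoImplicit false

namespace Pool.Agent.SPO

open Finset

/-- the multiplicative function `∑_{d ∣ n} μ(n/d) d^σ` -/
noncomputable def gg (σ : ℝ) (n : ℕ) : ℝ :=
  ∏ p ∈ n.primeFactors,
    ((p : ℝ) ^ (σ * n.factorization p) - (p : ℝ) ^ (σ * (n.factorization p - 1)))

theorem gg_one (σ : ℝ) : gg σ 1 = 1 := by
  simp [gg]

theorem gg_nonneg {σ : ℝ} (hσ : 0 ≤ σ) (n : ℕ) : 0 ≤ gg σ n := by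
  refine prod_nonneg fun p hp => ?_
  rw [sub_nonneg]
  refine Real.rpow_le_rpow_of_exponent_le ?_ ?_
  · exact_mod_cast (Nat.prime_of_mem_primeFactors hp).one_lt.le
  · nlinarith

theorem gg_mul (σ : ℝ) {m n : ℕ} (h : Nat.Coprime m n) : gg σ (m * n) = gg σ m * gg σ n := by
  unfold gg
  rw [h.primeFactors_mul, prod_union h.disjoint_primeFactors]
  congr 1
  · refine prod_congr rfl fun p hp => ?_
    rw [Nat.factorization_eq_of_coprime_left h (Nat.mem_primeFactors_iff_mem_primeFactorsList.1 hp)]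
  · refine prod_congr rfl fun p hp => ?_
    rw [Nat.factorization_eq_of_coprime_right h
      (Nat.mem_primeFactors_iff_mem_primeFactorsList.1 hp)]

theorem gg_prime_pow (σ : ℝ) {p a : ℕ} (hp : p.Prime) (ha : 1 ≤ a) :
    gg σ (p ^ a) = (p : ℝ) ^ (σ * a) - (p : ℝ) ^ (σ * (a - 1)) := by
  unfold gg
  have h1 : (p ^ a).factorization p = a := by
    rw [Nat.factorization_pow]
    simp [hp.factorization]
  rw [Nat.primeFactors_prime_pow (by omega) hp, prod_singleton, h1]

private theorem sum_pp (σ : ℝ) {p : ℕ} (hp : p.Prime) (k : ℕ) :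
    ∑ x ∈ range (k + 1), gg σ (p ^ x) = (p : ℝ) ^ (σ * k) := by
  induction k with
  | zero => simp [gg_one]
  | succ k ih =>
    rw [sum_range_succ, ih, gg_prime_pow σ hp (by omega)]
    push_cast
    rw [add_sub_cancel_right]
    ring

theorem sum_gg (σ : ℝ) {n : ℕ} (hn : n ≠ 0) : ∑ d ∈ n.divisors, gg σ d = (n : ℝ) ^ σ := by
  obtain ⟨F, hF⟩ : ∃ F : ArithmeticFunction ℝ, ∀ n, F n = if n = 0 then 0 else gg σ n :=
    ⟨⟨fun n => if n = 0 then 0 else gg σ n, by simp⟩, fun n => rfl⟩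
  obtain ⟨P, hP⟩ : ∃ P : ArithmeticFunction ℝ, ∀ n, P n = if n = 0 then 0 else (n : ℝ) ^ σ :=
    ⟨⟨fun n => if n = 0 then 0 else (n : ℝ) ^ σ, by simp⟩, fun n => rfl⟩
  have hFm : F.IsMultiplicative := by
    refine ArithmeticFunction.IsMultiplicative.iff_ne_zero.2 ⟨?_, ?_⟩
    · rw [hF, if_neg one_ne_zero, gg_one]
    · intro m n hm hn' h
      rw [hF, hF, hF, if_neg hm, if_neg hn', if_neg (mul_ne_zero hm hn'), gg_mul σ h]
  have hPm : P.IsMultiplicative := by
    refine ArithmeticFunction.IsMultiplicative.iff_ne_zero.2 ⟨?_, ?_⟩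
    · rw [hP, if_neg one_ne_zero, Nat.cast_one, Real.one_rpow]
    · intro m n hm hn' h
      rw [hP, hP, hP, if_neg hm, if_neg hn', if_neg (mul_ne_zero hm hn'), Nat.cast_mul,
        Real.mul_rpow (Nat.cast_nonneg m) (Nat.cast_nonneg n)]
  have hZ : ((ArithmeticFunction.zeta : ArithmeticFunction ℕ) :
      ArithmeticFunction ℝ).IsMultiplicative := ArithmeticFunction.isMultiplicative_zeta.natCast
  have hH : ((ArithmeticFunction.zeta : ArithmeticFunction ℕ) : ArithmeticFunction ℝ) * F = P := by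
    rw [ArithmeticFunction.IsMultiplicative.eq_iff_eq_on_prime_powers _ (hZ.mul hFm) _ hPm]
    intro p k hp
    rw [ArithmeticFunction.coe_zeta_mul_apply, Nat.sum_divisors_prime_pow hp, hP,
      if_neg (pow_ne_zero k hp.ne_zero)]
    have h1 : ∑ x ∈ range (k + 1), F (p ^ x) = ∑ x ∈ range (k + 1), gg σ (p ^ x) :=
      sum_congr rfl fun x _ => by rw [hF, if_neg (pow_ne_zero x hp.ne_zero)]
    rw [h1, sum_pp σ hp, Nat.cast_pow, ← Real.rpow_natCast, ← Real.rpow_mul (Nat.cast_nonneg p),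
      mul_comm]
  have h2 := congrArg (fun f : ArithmeticFunction ℝ => f n) hH
  simp only [ArithmeticFunction.coe_zeta_mul_apply] at h2
  rw [hP, if_neg hn] at h2
  rw [← h2]
  refine sum_congr rfl fun d hd => ?_
  rw [hF, if_neg (Nat.pos_of_mem_divisors hd).ne']

end Pool.Agent.SPO
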