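import Pool.Agent.SPO.Gg
import Pool.Agent.ExpSum.Mertens

/-!
# Package P07: the sum of `gg(d)/φ(d)` over smooth numbers is bounded

`y ≥ 16`, `σ = 1/log y ≤ 1/2` (`log 16 > 2.7`). The function `f(d) = gg σ d/φ(d)` is nonnegative
and
multiplicative. `T` consists of positive integers all of whose prime factors are `≤ y`, so (the
exponents occurring in `T` are bounded)
`∑_{d ∈ T} f(d) ≤ ∏_{p ≤ y} (1 + ∑_{a ≥ 1} f(p^a))` (finite products of finite sums: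
`∏_{p ≤ y} (∑_{a ≤ A} f(p^a)) = ∑ over the exponent vectors`; or Mathlib's
`EulerProduct.summable_and_hasSum_factoredNumbers_prod_filter_prime_tsum` /
`summable_and_hasSum_smoothNumbers_prod_primesBelow_tsum`).
`f(p^a) = (p^{σa} - p^{σ(a-1)})/(p^{a-1}(p-1)) = (p^σ - 1)/(p-1) · (p^{σ-1})^{a-1}`, and `p^{σ-1}
≤ p^{-1/2} ≤
2^{-1/2}`, so `∑_{a≥1} f(p^a) ≤ (p^σ - 1)/(p-1) · 1/(1 - 2^{-1/2}) ≤ 4 (p^σ-1)/(p-1) ≤ 8 (p^σ -
1)/p`.
`p^σ = exp(σ log p)` with `σ log p ≤ 1`, and `e^u - 1 ≤ 2u` for `0 ≤ u ≤ 1`: `p^σ - 1 ≤ 2σ log p`.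
So the product
is at most `exp(16 σ ∑_{p ≤ y} (log p)/p) ≤ exp(16 σ (log y + log 4)) ≤ exp(32)` by
`Pool.Agent.ExpSum.mA_le` (`log 4 ≤ log y`). `C = exp 32`.
-/

set_option autoImplicit false

namespace Pool.Agent.SPO

open Finset

/-- the values at prime powers -/
private theorem gg_div_pp (σ : ℝ) {p : ℕ} (hp : p.Prime) (a : ℕ) :
    gg σ (p ^ (a + 1)) / Nat.totient (p ^ (a + 1)) =
      ((p : ℝ) ^ σ - 1) / ((p : ℝ) - 1) * ((p : ℝ) ^ σ / p) ^ a := by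
  have hp2 : (2 : ℝ) ≤ p := by exact_mod_cast hp.two_le
  have hp0 : (0 : ℝ) < p := by linarith
  have hp1 : (p : ℝ) - 1 ≠ 0 := by linarith
  rw [gg_prime_pow σ hp (by omega), Nat.totient_prime_pow hp (by omega), Nat.add_sub_cancel]
  push_cast
  rw [Nat.cast_sub hp.one_lt.le, add_sub_cancel_right, Nat.cast_one]
  have h1 : (p : ℝ) ^ (σ * ((a : ℝ) + 1)) = ((p : ℝ) ^ σ) ^ a * (p : ℝ) ^ σ := by
    rw [mul_add, mul_one, Real.rpow_add hp0, Real.rpow_mul hp0.le, Real.rpow_natCast]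
  have h2 : (p : ℝ) ^ (σ * (a : ℝ)) = ((p : ℝ) ^ σ) ^ a := by
    rw [Real.rpow_mul hp0.le, Real.rpow_natCast]
  rw [h1, h2, div_pow]
  field_simp

private theorem ratio_le {σ : ℝ} (hσ : σ ≤ 1 / 2) {p : ℕ} (hp : p.Prime) :
    (p : ℝ) ^ σ / p ≤ 3 / 4 := by
  have hp2 : (2 : ℝ) ≤ p := by exact_mod_cast hp.two_le
  have hp0 : (0 : ℝ) < p := by linarith
  have h1 : (p : ℝ) ^ σ ≤ (p : ℝ) ^ (1 / 2 : ℝ) :=
    Real.rpow_le_rpow_of_exponent_le (by linarith) hσ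
  rw [← Real.sqrt_eq_rpow] at h1
  have h2 : Real.sqrt p * Real.sqrt p = p := Real.mul_self_sqrt hp0.le
  have h3 : 4 / 3 ≤ Real.sqrt p := by
    apply Real.le_sqrt_of_sq_le
    norm_num
    linarith
  rw [div_le_iff₀ hp0]
  nlinarith

private theorem tsum_le {σ : ℝ} (hσ0 : 0 ≤ σ) (hσ : σ ≤ 1 / 2) {p : ℕ} (hp : p.Prime) :
    Summable (fun a : ℕ => ‖gg σ (p ^ a) / Nat.totient (p ^ a)‖) ∧
      ∑' a : ℕ, gg σ (p ^ a) / Nat.totient (p ^ a) ≤ 1 + 8 * (((p : ℝ) ^ σ - 1) / p) := by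
  have hp2 : (2 : ℝ) ≤ p := by exact_mod_cast hp.two_le
  have hp0 : (0 : ℝ) < p := by linarith
  have hps : 1 ≤ (p : ℝ) ^ σ := Real.one_le_rpow (by linarith) hσ0
  have hr0 : 0 ≤ (p : ℝ) ^ σ / p := by positivity
  have hr := ratio_le hσ hp
  have hc0 : 0 ≤ ((p : ℝ) ^ σ - 1) / ((p : ℝ) - 1) :=
    div_nonneg (by linarith) (by linarith)
  have hs : HasSum (fun a : ℕ => gg σ (p ^ (a + 1)) / Nat.totient (p ^ (a + 1)))
      (((p : ℝ) ^ σ - 1) / ((p : ℝ) - 1) * (1 - (p : ℝ) ^ σ / p)⁻¹) := by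
    simp_rw [gg_div_pp σ hp]
    exact (hasSum_geometric_of_lt_one hr0 (by linarith)).mul_left _
  have hs1 : Summable (fun a : ℕ => gg σ (p ^ a) / Nat.totient (p ^ a)) :=
    (summable_nat_add_iff 1).1 hs.summable
  have hnn : ∀ n : ℕ, 0 ≤ gg σ n / Nat.totient n := fun n =>
    div_nonneg (gg_nonneg hσ0 n) (Nat.cast_nonneg _)
  refine ⟨?_, ?_⟩
  · refine hs1.congr fun a => ?_
    rw [Real.norm_of_nonneg (hnn _)]
  · rw [hs1.tsum_eq_zero_add, hs.tsum_eq, pow_zero, gg_one, Nat.totient_one, Nat.cast_one,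
      div_one]
    have h1 : (1 - (p : ℝ) ^ σ / p)⁻¹ ≤ 4 := by
      rw [inv_le_comm₀ (by linarith) (by norm_num)]
      linarith
    have h2 : ((p : ℝ) ^ σ - 1) / ((p : ℝ) - 1) ≤ 2 * (((p : ℝ) ^ σ - 1) / p) := by
      rw [div_le_iff₀ (by linarith)]
      have h3 : 2 * (((p : ℝ) ^ σ - 1) / p) * ((p : ℝ) - 1) =
          ((p : ℝ) ^ σ - 1) * (2 * ((p : ℝ) - 1) / p) := by
        field_simp
      rw [h3]
      have h4 : 1 ≤ 2 * ((p : ℝ) - 1) / p := by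
        rw [le_div_iff₀ hp0]
        linarith
      nlinarith
    have h5 : ((p : ℝ) ^ σ - 1) / ((p : ℝ) - 1) * (1 - (p : ℝ) ^ σ / p)⁻¹ ≤
        2 * (((p : ℝ) ^ σ - 1) / p) * 4 :=
      mul_le_mul h2 h1 (inv_nonneg.2 (by linarith)) (hc0.trans h2)
    linarith

private theorem exp_le {u : ℝ} (h0 : 0 ≤ u) (h1 : u ≤ 1) : Real.exp u - 1 ≤ 2 * u := by
  have h2 := (abs_le.1 (Real.abs_exp_sub_one_sub_id_le (x := u) (by
    rw [abs_of_nonneg h0]
    exact h1))).2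
  nlinarith

theorem sum_gg_div_le {y : ℕ} (hy : 16 ≤ y) (T : Finset ℕ)
    (hT : ∀ d ∈ T, d ≠ 0 ∧ ∀ p : ℕ, p.Prime → p ∣ d → p ≤ y) :
    ∑ d ∈ T, gg (1 / Real.log y) d / Nat.totient d ≤ Real.exp 32 := by
  classical
  have hy0 : (16 : ℝ) ≤ y := by exact_mod_cast hy
  have hly : 2 ≤ Real.log y := by
    have h1 : Real.log 16 ≤ Real.log y := Real.log_le_log (by norm_num) hy0
    have h2 : Real.log 16 = 4 * Real.log 2 := by
      rw [show (16 : ℝ) = 2 ^ 4 by norm_num, Real.log_pow]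
      norm_num
    have := Real.log_two_gt_d9
    linarith
  have hly0 : 0 < Real.log y := by linarith
  obtain ⟨σ, hσ⟩ : ∃ σ : ℝ, σ = 1 / Real.log y := ⟨_, rfl⟩
  rw [← hσ]
  have hσ0 : 0 ≤ σ := by rw [hσ]; positivity
  have hσ2 : σ ≤ 1 / 2 := by
    rw [hσ]
    exact one_div_le_one_div_of_le (by norm_num) hly
  have hσl : σ * Real.log y = 1 := by
    rw [hσ]
    field_simp
  obtain ⟨f, hf⟩ : ∃ f : ℕ → ℝ, f = fun d => gg σ d / Nat.totient d := ⟨_, rfl⟩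
  have hf1 : f 1 = 1 := by rw [hf]; simp [gg_one]
  have hfm : ∀ {m n : ℕ}, Nat.Coprime m n → f (m * n) = f m * f n := by
    intro m n h
    rw [hf]
    simp only
    rw [gg_mul σ h, Nat.totient_mul h, Nat.cast_mul, mul_div_mul_comm]
  have hfs : ∀ {p : ℕ}, p.Prime → Summable fun n : ℕ => ‖f (p ^ n)‖ := by
    intro p hp
    rw [hf]
    exact (tsum_le hσ0 hσ2 hp).1
  have hsum := (EulerProduct.summable_and_hasSum_smoothNumbers_prod_primesBelow_tsum hf1 hfm hfs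
    (y + 1)).2
  have hnn : ∀ n : ℕ, 0 ≤ f n := by
    intro n
    rw [hf]
    exact div_nonneg (gg_nonneg hσ0 n) (Nat.cast_nonneg _)
  have hTs : ∀ d ∈ T, d ∈ Nat.smoothNumbers (y + 1) := by
    intro d hd
    rw [Nat.mem_smoothNumbers']
    intro p hp hpd
    exact Nat.lt_succ_of_le ((hT d hd).2 p hp hpd)
  have h1 : ∑ d ∈ T, f d ≤ ∏ p ∈ Nat.primesBelow (y + 1), ∑' n : ℕ, f (p ^ n) := by
    rw [← Finset.sum_subtype_of_mem f hTs]
    exact sum_le_hasSum _ (fun i _ => hnn _) hsum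
  have h2 : ∏ p ∈ Nat.primesBelow (y + 1), ∑' n : ℕ, f (p ^ n) ≤
      ∏ p ∈ Nat.primesBelow (y + 1), Real.exp (16 * σ * (Real.log p / p)) := by
    refine Finset.prod_le_prod (fun p _ => tsum_nonneg fun n => hnn _) fun p hp => ?_
    have hpp : p.Prime := Nat.prime_of_mem_primesBelow hp
    have hpy : p ≤ y := Nat.lt_succ_iff.1 (Nat.lt_of_mem_primesBelow hp)
    have hp2 : (2 : ℝ) ≤ p := by exact_mod_cast hpp.two_le
    have hp0 : (0 : ℝ) < p := by linarith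
    have hlp : 0 ≤ Real.log p := Real.log_nonneg (by linarith)
    have hlpy : Real.log p ≤ Real.log y := Real.log_le_log hp0 (by exact_mod_cast hpy)
    have h3 : (p : ℝ) ^ σ - 1 ≤ 2 * (σ * Real.log p) := by
      rw [Real.rpow_def_of_pos hp0, mul_comm (Real.log (p : ℝ)) σ]
      refine exp_le (mul_nonneg hσ0 hlp) ?_
      rw [← hσl]
      exact mul_le_mul_of_nonneg_left hlpy hσ0
    have h4 : ∑' n : ℕ, f (p ^ n) ≤ 1 + 8 * (((p : ℝ) ^ σ - 1) / p) := by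
      rw [hf]
      exact (tsum_le hσ0 hσ2 hpp).2
    have h5 : 8 * (((p : ℝ) ^ σ - 1) / p) ≤ 16 * σ * (Real.log p / p) := by
      have h6 : ((p : ℝ) ^ σ - 1) / p ≤ 2 * (σ * Real.log p) / p :=
        div_le_div_of_nonneg_right h3 hp0.le
      calc 8 * (((p : ℝ) ^ σ - 1) / p) ≤ 8 * (2 * (σ * Real.log p) / p) := by linarith
        _ = _ := by ring
    have h7 := Real.add_one_le_exp (16 * σ * (Real.log p / p))
    linarith
  have h3 : ∏ p ∈ Nat.primesBelow (y + 1), Real.exp (16 * σ * (Real.log p / p)) =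
      Real.exp (16 * σ * ExpSum.mA y) := by
    rw [← Real.exp_sum, ← Finset.mul_sum]
    congr 2
    unfold ExpSum.mA
    refine Finset.sum_congr ?_ fun _ _ => rfl
    ext p
    simp only [Nat.primesBelow, Finset.mem_filter, Finset.mem_range, Finset.mem_Ioc]
    constructor
    · rintro ⟨h, hp⟩
      exact ⟨⟨hp.pos, by omega⟩, hp⟩
    · rintro ⟨⟨_, h⟩, hp⟩
      exact ⟨by omega, hp⟩
  have h4 : 16 * σ * ExpSum.mA y ≤ 32 := by
    have h5 := ExpSum.mA_le (n := y) (by omega)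
    have h6 : Real.log 4 ≤ Real.log y := Real.log_le_log (by norm_num) (by linarith)
    calc 16 * σ * ExpSum.mA y ≤ 16 * σ * (2 * Real.log y) :=
          mul_le_mul_of_nonneg_left (by linarith) (by positivity)
      _ = 32 * (σ * Real.log y) := by ring
      _ = 32 := by rw [hσl, mul_one]
  have h5 : ∑ d ∈ T, f d ≤ Real.exp 32 :=
    h1.trans (h2.trans (h3.le.trans (Real.exp_le_exp.2 h4)))
  rw [hf] at h5
  exact h5

end Pool.Agent.SPO
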