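import Pool.Agent.SPO.Dilate

/-!
# Package G05: the filtered ring of an approximate group

`Q` is a finite set of a field, `Good Q L r` means that `r Q` is covered by at most `L` translates
of `Q`.
(`L` is nonnegative automatically.)

* `Good.mono`, `Good.neg` (`-rQ = r(-Q) ⊆ ...`: from `rQ ⊆ X + Q` get `-rQ ⊆ -X + (-Q) ⊆ -X + Q`).
* `Good.mul`: `r r' Q ⊆ r (X' + Q) ⊆ rX' + X + Q`, with `|rX' + X| ≤ L' L`.
* `Good.add`: `(r + r') Q ⊆ rQ + r'Q ⊆ X + X' + (Q + Q) ⊆ X + X' + Y + Q`.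
* `exists_cover`: `Q = A' - A'`, `Q + Q = 2A' - 2A'`; by Pluennecke-Ruzsa (Mathlib:
  `Finset.pluennecke_ruzsa_inequality_nsmul_sub_nsmul_sub`, with `A = B = A'`, and
  `(A' - A' + (A' - A')) + A' = 3 • A' - 2 • A'`) `|Q + Q + A'| ≤ K'⁵|A'|`, and the Ruzsa covering
lemma
  (`Finset.ruzsa_covering_add`) with `A := Q + Q`, `B := A'` gives `Y` with `|Y| ≤ K'⁵`,
  `Q + Q ⊆ Y + (A' - A')`.
* `good_of_popular`: `B = A' ∩ rA'` is nonempty, `rQ + B ⊆ rA' - rA' + rA' = r(A' - A' + A')` has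
at most
  `|A' - A' + A'| ≤ K'³|A'| ≤ K'³ K |B|` elements; the covering lemma with `A := rQ` gives
  `rQ ⊆ X + (B - B) ⊆ X + (A' - A')`, `|X| ≤ K K'³`.
* `card_add_dil_le`: fix `a₀ ∈ A'`. `A' ⊆ a₀ + Q` and `rA' ⊆ ra₀ + rQ`, so
  `A' + rA' ⊆ (a₀ + ra₀) + Q + rQ ⊆ (a₀ + ra₀) + X + (Q + Q) ⊆ (a₀ + ra₀) + X + Y + Q` and
  `|A' + rA'| ≤ |X||Y||Q| ≤ L L₀ K'|A'|`.
-/

set_option autoImplicit false

namespace Pool.Agent.SPO

open Finset
open scoped Pointwise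

variable {F : Type*} [Field F] [DecidableEq F]

/-- `r Q` is covered by at most `L` translates of `Q` -/
def Good (Q : Finset F) (L : ℝ) (r : F) : Prop := ∃ X : Finset F, (#X : ℝ) ≤ L ∧ dil r Q ⊆ X + Q

theorem Good.nonneg {Q : Finset F} {L : ℝ} {r : F} (h : Good Q L r) : 0 ≤ L := by
  obtain ⟨X, hX, -⟩ := h
  exact (Nat.cast_nonneg _).trans hX

theorem Good.mono {Q : Finset F} {L L' : ℝ} {r : F} (h : Good Q L r) (hL : L ≤ L') :
    Good Q L' r := by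
  obtain ⟨X, hX, h2⟩ := h
  exact ⟨X, hX.trans hL, h2⟩

private theorem mem_dil {r : F} {A : Finset F} {x : F} : x ∈ dil r A ↔ ∃ a ∈ A, r * a = x :=
  Finset.mem_image

private theorem card_add_le' (X Y : Finset F) : (#(X + Y) : ℝ) ≤ #X * #Y := by
  exact_mod_cast Finset.card_add_le

private theorem card_dil_le (r : F) (X : Finset F) : #(dil r X) ≤ #X := Finset.card_image_le

theorem good_zero {Q : Finset F} : Good Q 1 (0 : F) := by
  rcases Q.eq_empty_or_nonempty with rfl | ⟨q, hq⟩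
  · exact ⟨∅, by simp, by simp [dil]⟩
  · refine ⟨{-q}, by simp, ?_⟩
    intro x hx
    obtain ⟨a, -, rfl⟩ := mem_dil.1 hx
    rw [zero_mul]
    exact Finset.mem_add.2 ⟨-q, Finset.mem_singleton_self _, q, hq, by ring⟩

theorem Good.neg {Q : Finset F} (hs : ∀ x ∈ Q, -x ∈ Q) {L : ℝ} {r : F} (h : Good Q L r) :
    Good Q L (-r) := by
  obtain ⟨X, hX, h2⟩ := h
  refine ⟨-X, by rwa [Finset.card_neg], ?_⟩
  intro x hx
  obtain ⟨a, ha, rfl⟩ := mem_dil.1 hx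
  obtain ⟨y, hy, q, hq, e⟩ := Finset.mem_add.1 (h2 (mem_dil.2 ⟨a, ha, rfl⟩))
  refine Finset.mem_add.2 ⟨-y, Finset.neg_mem_neg hy, -q, hs q hq, ?_⟩
  linear_combination -e

theorem Good.mul {Q : Finset F} {L L' : ℝ} {r r' : F} (h : Good Q L r) (h' : Good Q L' r') :
    Good Q (L * L') (r * r') := by
  have hL0 := h.nonneg
  obtain ⟨X, hX, h2⟩ := h
  obtain ⟨X', hX', h2'⟩ := h'
  refine ⟨dil r X' + X, ?_, ?_⟩
  · calc (#(dil r X' + X) : ℝ) ≤ #(dil r X') * #X := card_add_le' _ _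
      _ ≤ #X' * #X := mul_le_mul_of_nonneg_right (by exact_mod_cast card_dil_le r X')
          (Nat.cast_nonneg _)
      _ = #X * #X' := mul_comm _ _
      _ ≤ L * L' := mul_le_mul hX hX' (Nat.cast_nonneg _) hL0
  · intro x hx
    obtain ⟨a, ha, rfl⟩ := mem_dil.1 hx
    obtain ⟨y', hy', q', hq', e'⟩ := Finset.mem_add.1 (h2' (mem_dil.2 ⟨a, ha, rfl⟩))
    obtain ⟨y, hy, q, hq, e⟩ := Finset.mem_add.1 (h2 (mem_dil.2 ⟨q', hq', rfl⟩))
    refine Finset.mem_add.2 ⟨r * y' + y, Finset.mem_add.2 ⟨r * y', mem_dil.2 ⟨y', hy', rfl⟩, y,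
      hy, rfl⟩, q, hq, ?_⟩
    linear_combination e + r * e'

theorem Good.add {Q Y : Finset F} {L₀ : ℝ} (hY : (#Y : ℝ) ≤ L₀) (hQ : Q + Q ⊆ Y + Q)
    {L L' : ℝ} {r r' : F} (h : Good Q L r) (h' : Good Q L' r') :
    Good Q (L * L' * L₀) (r + r') := by
  have hL0 := h.nonneg
  have hL0' := h'.nonneg
  obtain ⟨X, hX, h2⟩ := h
  obtain ⟨X', hX', h2'⟩ := h'
  refine ⟨X + X' + Y, ?_, ?_⟩
  · calc (#(X + X' + Y) : ℝ) ≤ #(X + X') * #Y := card_add_le' _ _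
      _ ≤ (#X * #X') * #Y := by gcongr; exact card_add_le' _ _
      _ ≤ L * L' * L₀ := mul_le_mul (mul_le_mul hX hX' (Nat.cast_nonneg _) hL0) hY
          (Nat.cast_nonneg _) (mul_nonneg hL0 hL0')
  · intro x hx
    obtain ⟨a, ha, rfl⟩ := mem_dil.1 hx
    obtain ⟨y, hy, q, hq, e⟩ := Finset.mem_add.1 (h2 (mem_dil.2 ⟨a, ha, rfl⟩))
    obtain ⟨y', hy', q', hq', e'⟩ := Finset.mem_add.1 (h2' (mem_dil.2 ⟨a, ha, rfl⟩))
    obtain ⟨z, hz, w, hw, e2⟩ := Finset.mem_add.1 (hQ (Finset.mem_add.2 ⟨q, hq, q', hq', rfl⟩))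
    refine Finset.mem_add.2 ⟨y + y' + z, Finset.mem_add.2 ⟨y + y', Finset.mem_add.2
      ⟨y, hy, y', hy', rfl⟩, z, hz, rfl⟩, w, hw, ?_⟩
    linear_combination e + e' + e2

/-- Pluennecke-Ruzsa. -/
private theorem plue {A' : Finset F} (hne : A'.Nonempty) {K' : ℝ}
    (hK : (#(A' - A') : ℝ) ≤ K' * #A') (m n : ℕ) :
    (#(m • A' - n • A') : ℝ) ≤ K' ^ (m + n) * #A' := by
  have h1 := Finset.pluennecke_ruzsa_inequality_nsmul_sub_nsmul_sub hne A' m n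
  have h2 : (#(m • A' - n • A') : ℝ) ≤ ((#(A' - A') : ℝ) / #A') ^ (m + n) * #A' := by
    have h0 := (NNRat.cast_le (K := ℝ)).2 h1
    push_cast at h0
    exact h0
  have h3 : (0 : ℝ) < #A' := by exact_mod_cast Finset.card_pos.2 hne
  have h4 : (#(A' - A') : ℝ) / #A' ≤ K' := (div_le_iff₀ h3).2 hK
  have h5 : (0 : ℝ) ≤ (#(A' - A') : ℝ) / #A' := by positivity
  refine h2.trans ?_
  gcongr

theorem exists_cover {A' : Finset F} (hne : A'.Nonempty) {K' : ℝ}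
    (hK : (#(A' - A') : ℝ) ≤ K' * #A') :
    ∃ Y : Finset F, (#Y : ℝ) ≤ K' ^ 5 ∧ (A' - A') + (A' - A') ⊆ Y + (A' - A') := by
  have h1 := plue hne hK 3 2
  have h2 : (3 • A' - 2 • A' : Finset F) = ((A' - A') + (A' - A')) + A' := by
    rw [show (3 : ℕ) = 2 + 1 from rfl, add_nsmul, two_nsmul, one_nsmul]
    simp only [sub_eq_add_neg, neg_add]
    ac_rfl
  rw [h2] at h1
  obtain ⟨Y, -, hY, hc⟩ := Finset.ruzsa_covering_add hne h1
  exact ⟨Y, hY, hc⟩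

theorem good_of_popular {A' : Finset F} (hne : A'.Nonempty) {K K' : ℝ}
    (hK' : (#(A' - A') : ℝ) ≤ K' * #A') {r : F} (hr : (#A' : ℝ) ≤ K * #(A' ∩ dil r A')) :
    Good (A' - A') (K * K' ^ 3) r := by
  have h3 : (0 : ℝ) < #A' := by exact_mod_cast Finset.card_pos.2 hne
  have hBne : (A' ∩ dil r A').Nonempty := by
    rw [Finset.nonempty_iff_ne_empty]
    intro h
    rw [h, Finset.card_empty, Nat.cast_zero, mul_zero] at hr
    exact absurd hr (not_le.2 h3)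
  have hK0 : 0 ≤ K' := by
    by_contra h
    have h4 : K' * (#A' : ℝ) < 0 := mul_neg_of_neg_of_pos (not_le.1 h) h3
    have h5 : (0 : ℝ) ≤ #(A' - A') := Nat.cast_nonneg _
    linarith
  have h1 := plue hne hK' 2 1
  have h2 : (2 • A' - 1 • A' : Finset F) = A' - A' + A' := by
    rw [two_nsmul, one_nsmul]
    simp only [sub_eq_add_neg]
    ac_rfl
  rw [h2] at h1
  have hsub : dil r (A' - A') + (A' ∩ dil r A') ⊆ dil r (A' - A' + A') := by
    intro x hx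
    obtain ⟨u, hu, v, hv, rfl⟩ := Finset.mem_add.1 hx
    obtain ⟨a, ha, rfl⟩ := mem_dil.1 hu
    obtain ⟨b, hb, rfl⟩ := mem_dil.1 (Finset.mem_inter.1 hv).2
    exact mem_dil.2 ⟨a + b, Finset.mem_add.2 ⟨a, ha, b, hb, rfl⟩, by ring⟩
  have h6 : (#(dil r (A' - A') + (A' ∩ dil r A')) : ℝ) ≤ K * K' ^ 3 * #(A' ∩ dil r A') := by
    have h7 : (#(dil r (A' - A') + (A' ∩ dil r A')) : ℝ) ≤ #(A' - A' + A') := by
      exact_mod_cast (Finset.card_le_card hsub).trans (card_dil_le _ _)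
    refine h7.trans (h1.trans ?_)
    calc K' ^ (2 + 1) * (#A' : ℝ) ≤ K' ^ 3 * (K * #(A' ∩ dil r A')) := by gcongr
      _ = K * K' ^ 3 * #(A' ∩ dil r A') := by ring
  obtain ⟨X, -, hX, hc⟩ := Finset.ruzsa_covering_add hBne h6
  refine ⟨X, hX, hc.trans ?_⟩
  exact Finset.add_subset_add_left (Finset.sub_subset_sub Finset.inter_subset_left
    Finset.inter_subset_left)

theorem card_add_dil_le {A' Y : Finset F} (hne : A'.Nonempty) {K' L₀ L : ℝ}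
    (hK' : (#(A' - A') : ℝ) ≤ K' * #A') (hY : (#Y : ℝ) ≤ L₀)
    (hQ : (A' - A') + (A' - A') ⊆ Y + (A' - A')) {r : F} (h : Good (A' - A') L r) :
    (#(A' + dil r A') : ℝ) ≤ L * L₀ * K' * #A' := by
  have hL0 := h.nonneg
  have hL0' : 0 ≤ L₀ := (Nat.cast_nonneg _).trans hY
  obtain ⟨X, hX, h2⟩ := h
  obtain ⟨a₀, ha₀⟩ := hne
  have hsub : A' + dil r A' ⊆ {a₀ + r * a₀} + (X + Y + (A' - A')) := by
    intro x hx
    obtain ⟨a, ha, v, hv, rfl⟩ := Finset.mem_add.1 hx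
    obtain ⟨b, hb, rfl⟩ := mem_dil.1 hv
    obtain ⟨y, hy, q, hq, e⟩ := Finset.mem_add.1 (h2 (mem_dil.2
      ⟨b - a₀, Finset.sub_mem_sub hb ha₀, rfl⟩))
    obtain ⟨z, hz, w, hw, e2⟩ := Finset.mem_add.1 (hQ (Finset.mem_add.2
      ⟨a - a₀, Finset.sub_mem_sub ha ha₀, q, hq, rfl⟩))
    refine Finset.mem_add.2 ⟨_, Finset.mem_singleton_self _, y + z + w, Finset.mem_add.2
      ⟨y + z, Finset.mem_add.2 ⟨y, hy, z, hz, rfl⟩, w, hw, rfl⟩, ?_⟩
    linear_combination e + e2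
  calc (#(A' + dil r A') : ℝ) ≤ #({a₀ + r * a₀} + (X + Y + (A' - A'))) := by
        exact_mod_cast Finset.card_le_card hsub
    _ ≤ #({a₀ + r * a₀} : Finset F) * #(X + Y + (A' - A')) := card_add_le' _ _
    _ = #(X + Y + (A' - A')) := by rw [Finset.card_singleton]; simp
    _ ≤ #(X + Y) * #(A' - A') := card_add_le' _ _
    _ ≤ (#X * #Y) * #(A' - A') := by gcongr; exact card_add_le' _ _
    _ ≤ (L * L₀) * (K' * #A') := mul_le_mul (mul_le_mul hX hY (Nat.cast_nonneg _) hL0) hK'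
        (Nat.cast_nonneg _) (mul_nonneg hL0 hL0')
    _ = L * L₀ * K' * #A' := by ring

end Pool.Agent.SPO
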