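import Mathlib

/-!
# Package G01: paths of length three in a dense bipartite graph

Proof. `N(a) = {b ∈ B : E a b}`, and `N(b)` is the set of its neighbours in the set at hand.

Step 0. `A₀ = {a ∈ A : |N(a)| ≥ n/(2K)}`. The edges at `A \ A₀` are at most `n · n/(2K)`, so the
number of edges between `A₀` and `B` is at least `n²/(2K)`.

Step 1. For `b ∈ B` let `N₀(b) = {a ∈ A₀ : E a b}`. By Cauchy-Schwarz (`|B| ≤ n`)
`∑_b |N₀(b)|² ≥ (n²/(2K))²/n = n³/(4K²)`. Put `δ = 1/(16K)`, `ε = δ/(8K²) = 1/(128K³)` and call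
`(a, a') ∈ A₀ × A₀` bad if `|N(a) ∩ N(a')| ≤ ε n`. Then
`∑_b #{bad pairs in N₀(b)²} = ∑_{bad} |N(a) ∩ N(a')| ≤ ε n³`, so
`∑_b (|N₀(b)|² - bad(b)/δ) ≥ n³/(4K²) - n³/(8K²) = n³/(8K²)` and (at most `n` terms) some `b₀ ∈ B`
has
`|N₀(b₀)|² - bad(b₀)/δ ≥ n²/(8K²)`. Let `A₁ = N₀(b₀)`: `|A₁| ≥ n/(3K)` and `bad(b₀) ≤ δ |A₁|²`.

Step 2. `A' = {a ∈ A₁ : #{a' ∈ A₁ : (a,a') bad} ≤ 2δ|A₁|}`. As `|A₁ \ A'| · 2δ|A₁| ≤ δ|A₁|²`,
`|A'| ≥ |A₁|/2 ≥ n/(6K)`.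

Step 3. `∑_{a ∈ A₁} |N(a)| ≥ |A₁| n/(2K)`. Let `B' = {b ∈ B : |N(b) ∩ A₁| ≥ |A₁|/(4K)}`. The edges
at
`B \ B'` are at most `n |A₁|/(4K)`, so those at `B'` are at least `|A₁| n/(4K)` and `|B'| ≥
n/(4K)`.

Step 4. `a ∈ A'`, `b ∈ B'`: at least `|A₁|/(4K) - 2δ|A₁| = |A₁|/(8K)` elements `a' ∈ N(b) ∩ A₁`
are not
bad with `a`, and each gives at least `ε n` elements `b₁ ∈ N(a) ∩ N(a')`. So there are at least
`(n/(3K)) (1/(8K)) (n/(128K³)) = n²/(3072 K⁵)` pairs `(b₁, a')`.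
-/

set_option autoImplicit false

namespace Pool.Agent.SPO

open Finset

/-- Double counting of the edges. -/
private theorem edges_comm {α β : Type*} (A : Finset α) (B : Finset β) (E : α → β → Prop)
    [∀ a b, Decidable (E a b)] :
    ∑ a ∈ A, (#{b ∈ B | E a b} : ℝ) = ∑ b ∈ B, (#{a ∈ A | E a b} : ℝ) := by
  have h := Finset.sum_card_bipartiteAbove_eq_sum_card_bipartiteBelow (s := A) (t := B) E
  simp only [Finset.bipartiteAbove, Finset.bipartiteBelow] at h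
  exact_mod_cast h

private theorem edges_prod {α β : Type*} (A : Finset α) (B : Finset β) (E : α → β → Prop)
    [∀ a b, Decidable (E a b)] :
    (#{x ∈ A ×ˢ B | E x.1 x.2} : ℝ) = ∑ a ∈ A, (#{b ∈ B | E a b} : ℝ) := by
  have h : #{x ∈ A ×ˢ B | E x.1 x.2} = ∑ a ∈ A, #{b ∈ B | E a b} := by
    simp only [Finset.card_filter]
    rw [Finset.sum_product]
  rw [h]; push_cast; rfl

/-- Steps 0 and 1: a set `A₁` of vertices of large degree with few bad pairs. -/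
private theorem step_one {α β : Type*} (A : Finset α) (B : Finset β) (E : α → β → Prop)
    [∀ a b, Decidable (E a b)] {n K : ℝ} (hn : 0 < n) (hA : (#A : ℝ) ≤ n) (hB : (#B : ℝ) ≤ n)
    (hK : 1 ≤ K) (hE : n ^ 2 ≤ K * #{x ∈ A ×ˢ B | E x.1 x.2}) :
    ∃ A₁ ⊆ A, (∀ a ∈ A₁, n ≤ 2 * K * #{b ∈ B | E a b}) ∧ n ≤ 3 * K * #A₁ ∧
      16 * K * ∑ a ∈ A₁, (#{a' ∈ A₁ | 128 * K ^ 3 * (#{b ∈ B | E a b ∧ E a' b} : ℝ) ≤ n} : ℝ)
        ≤ (#A₁ : ℝ) ^ 2 := by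
  classical
  have hK0 : 0 < K := by linarith
  obtain ⟨A₀, hA₀⟩ : ∃ A₀ : Finset α, A₀ = {a ∈ A | n ≤ 2 * K * #{b ∈ B | E a b}} := ⟨_, rfl⟩
  have hA₀A : A₀ ⊆ A := hA₀ ▸ Finset.filter_subset _ _
  have hA₀n : (#A₀ : ℝ) ≤ n := le_trans (by exact_mod_cast Finset.card_le_card hA₀A) hA
  -- step 0
  have h0 : n ^ 2 ≤ 2 * K * ∑ a ∈ A₀, (#{b ∈ B | E a b} : ℝ) := by
    have h1 : ∑ a ∈ A, (#{b ∈ B | E a b} : ℝ)
        = ∑ a ∈ A₀, (#{b ∈ B | E a b} : ℝ) + ∑ a ∈ A \ A₀, (#{b ∈ B | E a b} : ℝ) := by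
      rw [add_comm]; exact (Finset.sum_sdiff hA₀A).symm
    have h2 : 2 * K * ∑ a ∈ A \ A₀, (#{b ∈ B | E a b} : ℝ) ≤ n * n := by
      calc 2 * K * ∑ a ∈ A \ A₀, (#{b ∈ B | E a b} : ℝ)
          = ∑ a ∈ A \ A₀, 2 * K * (#{b ∈ B | E a b} : ℝ) := by rw [Finset.mul_sum]
        _ ≤ ∑ a ∈ A \ A₀, n := by
            apply Finset.sum_le_sum
            intro a ha
            rw [Finset.mem_sdiff, hA₀, Finset.mem_filter] at ha
            have : ¬ (n ≤ 2 * K * #{b ∈ B | E a b}) := fun h => ha.2 ⟨ha.1, h⟩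
            linarith
        _ = #(A \ A₀) * n := by rw [Finset.sum_const, nsmul_eq_mul]
        _ ≤ n * n := by
            apply mul_le_mul_of_nonneg_right _ hn.le
            refine le_trans ?_ hA
            exact_mod_cast Finset.card_le_card Finset.sdiff_subset
    rw [edges_prod] at hE
    rw [h1] at hE
    nlinarith
  -- step 1
  have hN : ∑ b ∈ B, (#{a ∈ A₀ | E a b} : ℝ) = ∑ a ∈ A₀, (#{b ∈ B | E a b} : ℝ) :=
    (edges_comm A₀ B E).symm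
  have hCS : n ^ 3 ≤ 4 * K ^ 2 * ∑ b ∈ B, (#{a ∈ A₀ | E a b} : ℝ) ^ 2 := by
    have h1 : (∑ b ∈ B, (#{a ∈ A₀ | E a b} : ℝ)) ^ 2
        ≤ #B * ∑ b ∈ B, (#{a ∈ A₀ | E a b} : ℝ) ^ 2 := sq_sum_le_card_mul_sum_sq
    have h2 : (0 : ℝ) ≤ ∑ b ∈ B, (#{a ∈ A₀ | E a b} : ℝ) ^ 2 :=
      Finset.sum_nonneg (fun _ _ => sq_nonneg _)
    have h3 : (#B : ℝ) * ∑ b ∈ B, (#{a ∈ A₀ | E a b} : ℝ) ^ 2
        ≤ n * ∑ b ∈ B, (#{a ∈ A₀ | E a b} : ℝ) ^ 2 := mul_le_mul_of_nonneg_right hB h2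
    rw [hN] at h1
    have h4 : (n ^ 2) ^ 2 ≤ (2 * K * ∑ a ∈ A₀, (#{b ∈ B | E a b} : ℝ)) ^ 2 :=
      pow_le_pow_left₀ (by positivity) h0 2
    have h5 : n * n ^ 3 ≤ n * (4 * K ^ 2 * ∑ b ∈ B, (#{a ∈ A₀ | E a b} : ℝ) ^ 2) := by
      calc n * n ^ 3 = (n ^ 2) ^ 2 := by ring
        _ ≤ (2 * K * ∑ a ∈ A₀, (#{b ∈ B | E a b} : ℝ)) ^ 2 := h4
        _ = 4 * K ^ 2 * (∑ a ∈ A₀, (#{b ∈ B | E a b} : ℝ)) ^ 2 := by ring
        _ ≤ 4 * K ^ 2 * (n * ∑ b ∈ B, (#{a ∈ A₀ | E a b} : ℝ) ^ 2) :=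
            mul_le_mul_of_nonneg_left (h1.trans h3) (by positivity)
        _ = _ := by ring
    exact le_of_mul_le_mul_left h5 hn
  -- bad pairs
  obtain ⟨Bad, hBad⟩ : ∃ Bad : α → α → Prop,
      Bad = fun a a' => 128 * K ^ 3 * (#{b ∈ B | E a b ∧ E a' b} : ℝ) ≤ n := ⟨_, rfl⟩
  have hbad : ∑ b ∈ B, (#{p ∈ (A₀ ×ˢ A₀).filter (fun p => Bad p.1 p.2) | E p.1 b ∧ E p.2 b} : ℝ)
      = ∑ p ∈ (A₀ ×ˢ A₀).filter (fun p => Bad p.1 p.2), (#{b ∈ B | E p.1 b ∧ E p.2 b} : ℝ) :=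
    by
    have := edges_comm ((A₀ ×ˢ A₀).filter (fun p => Bad p.1 p.2)) B
      (fun p b => E p.1 b ∧ E p.2 b)
    rw [this]
  have hbad2 : 128 * K ^ 3 *
      ∑ b ∈ B, (#{p ∈ (A₀ ×ˢ A₀).filter (fun p => Bad p.1 p.2) | E p.1 b ∧ E p.2 b} : ℝ)
      ≤ n ^ 3 := by
    rw [hbad, Finset.mul_sum]
    calc ∑ p ∈ (A₀ ×ˢ A₀).filter (fun p => Bad p.1 p.2),
          128 * K ^ 3 * (#{b ∈ B | E p.1 b ∧ E p.2 b} : ℝ)
        ≤ ∑ p ∈ (A₀ ×ˢ A₀).filter (fun p => Bad p.1 p.2), n := by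
          apply Finset.sum_le_sum
          intro p hp
          have := (Finset.mem_filter.1 hp).2
          rw [hBad] at this
          exact this
      _ = #((A₀ ×ˢ A₀).filter (fun p => Bad p.1 p.2)) * n := by
          rw [Finset.sum_const, nsmul_eq_mul]
      _ ≤ (n * n) * n := by
          apply mul_le_mul_of_nonneg_right _ hn.le
          calc (#((A₀ ×ˢ A₀).filter (fun p => Bad p.1 p.2)) : ℝ) ≤ #(A₀ ×ˢ A₀) := by
                exact_mod_cast Finset.card_le_card (Finset.filter_subset _ _)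
            _ = #A₀ * #A₀ := by rw [Finset.card_product]; push_cast; rfl
            _ ≤ n * n := mul_le_mul hA₀n hA₀n (by positivity) hn.le
      _ = n ^ 3 := by ring
  -- the choice of `b₀`
  have hBne : B.Nonempty := by
    rcases B.eq_empty_or_nonempty with h | h
    · exfalso
      subst h
      simp only [Finset.sum_empty, mul_zero] at hCS
      have : 0 < n ^ 3 := by positivity
      linarith
    · exact h
  have hex : ∃ b₀ ∈ B, n ^ 2 ≤ 8 * K ^ 2 * ((#{a ∈ A₀ | E a b₀} : ℝ) ^ 2 -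
      16 * K * (#{p ∈ (A₀ ×ˢ A₀).filter (fun p => Bad p.1 p.2) | E p.1 b₀ ∧ E p.2 b₀} : ℝ)) := by
    apply Finset.exists_le_of_sum_le hBne
    rw [Finset.sum_const, nsmul_eq_mul, ← Finset.mul_sum, Finset.sum_sub_distrib,
      ← Finset.mul_sum]
    have h1 : (#B : ℝ) * n ^ 2 ≤ n * n ^ 2 := mul_le_mul_of_nonneg_right hB (by positivity)
    nlinarith
  obtain ⟨b₀, hb₀, hb⟩ := hex
  obtain ⟨A₁, hA₁⟩ : ∃ A₁ : Finset α, A₁ = {a ∈ A₀ | E a b₀} := ⟨_, rfl⟩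
  have hA₁A₀ : A₁ ⊆ A₀ := hA₁ ▸ Finset.filter_subset _ _
  have hcard : (#{p ∈ (A₀ ×ˢ A₀).filter (fun p => Bad p.1 p.2) | E p.1 b₀ ∧ E p.2 b₀} : ℝ)
      = ∑ a ∈ A₁, (#{a' ∈ A₁ | 128 * K ^ 3 * (#{b ∈ B | E a b ∧ E a' b} : ℝ) ≤ n} : ℝ) := by
    rw [← edges_prod A₁ A₁ (fun a a' => 128 * K ^ 3 * (#{b ∈ B | E a b ∧ E a' b} : ℝ) ≤ n)]
    congr 1
    congr 1
    ext ⟨a, a'⟩
    simp only [Finset.mem_filter, Finset.mem_product, hA₁, hBad]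
    tauto
  rw [hcard, ← hA₁] at hb
  refine ⟨A₁, hA₁A₀.trans hA₀A, ?_, ?_, ?_⟩
  · intro a ha
    have := hA₁A₀ ha
    rw [hA₀] at this
    exact (Finset.mem_filter.1 this).2
  · have hS : (0 : ℝ) ≤ ∑ a ∈ A₁,
        (#{a' ∈ A₁ | 128 * K ^ 3 * (#{b ∈ B | E a b ∧ E a' b} : ℝ) ≤ n} : ℝ) :=
      Finset.sum_nonneg (fun _ _ => by positivity)
    have h1 : n ^ 2 ≤ 8 * K ^ 2 * (#A₁ : ℝ) ^ 2 := by
      refine hb.trans ?_
      apply mul_le_mul_of_nonneg_left _ (by positivity)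
      have : 0 ≤ 16 * K * ∑ a ∈ A₁,
        (#{a' ∈ A₁ | 128 * K ^ 3 * (#{b ∈ B | E a b ∧ E a' b} : ℝ) ≤ n} : ℝ) := by positivity
      linarith
    have h2 : n ^ 2 ≤ (3 * K * (#A₁ : ℝ)) ^ 2 := by
      have : (0 : ℝ) ≤ K ^ 2 * (#A₁ : ℝ) ^ 2 := by positivity
      nlinarith
    exact le_of_sq_le_sq h2 (by positivity)
  · have h1 : 0 < n ^ 2 := by positivity
    by_contra hcon
    push Not at hcon
    have h2 : 8 * K ^ 2 * ((#A₁ : ℝ) ^ 2 - 16 * K * ∑ a ∈ A₁,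
        (#{a' ∈ A₁ | 128 * K ^ 3 * (#{b ∈ B | E a b ∧ E a' b} : ℝ) ≤ n} : ℝ)) ≤ 0 := by
      apply mul_nonpos_of_nonneg_of_nonpos (by positivity)
      linarith
    linarith

/-- Paths of length three. -/
theorem exists_paths {α β : Type*} (A : Finset α) (B : Finset β) (E : α → β → Prop)
    [∀ a b, Decidable (E a b)] {n K : ℝ} (hn : 0 < n) (hA : (#A : ℝ) ≤ n) (hB : (#B : ℝ) ≤ n)
    (hK : 1 ≤ K) (hE : n ^ 2 ≤ K * #{x ∈ A ×ˢ B | E x.1 x.2}) :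
    ∃ A' ⊆ A, ∃ B' ⊆ B, n ≤ 6 * K * #A' ∧ n ≤ 4 * K * #B' ∧
      ∀ a ∈ A', ∀ b ∈ B', n ^ 2 ≤ 2 ^ 12 * K ^ 5 *
        #{x ∈ B ×ˢ A | E a x.1 ∧ E x.2 x.1 ∧ E x.2 b} := by
  classical
  have hK0 : 0 < K := by linarith
  obtain ⟨A₁, hA₁A, hdeg, hA₁n, hbad⟩ := step_one A B E hn hA hB hK hE
  have hA₁pos : (0 : ℝ) < #A₁ := by
    by_contra h
    push Not at h
    have : 3 * K * (#A₁ : ℝ) ≤ 0 := mul_nonpos_of_nonneg_of_nonpos (by positivity) h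
    linarith
  let Bad : α → α → Prop := fun a a' => 128 * K ^ 3 * (#{b ∈ B | E a b ∧ E a' b} : ℝ) ≤ n
  -- step 2
  set A' : Finset α := {a ∈ A₁ | 8 * K * (#{a' ∈ A₁ | Bad a a'} : ℝ) ≤ #A₁} with hA'
  have hA'A₁ : A' ⊆ A₁ := Finset.filter_subset _ _
  have hA'card : (#A₁ : ℝ) ≤ 2 * #A' := by
    have h1 : (#(A₁ \ A') : ℝ) * #A₁ ≤ 8 * K * ∑ a ∈ A₁ \ A', (#{a' ∈ A₁ | Bad a a'} : ℝ) := by
      rw [Finset.mul_sum, ← nsmul_eq_mul, ← Finset.sum_const]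
      apply Finset.sum_le_sum
      intro a ha
      rw [Finset.mem_sdiff, hA', Finset.mem_filter] at ha
      have : ¬ (8 * K * (#{a' ∈ A₁ | Bad a a'} : ℝ) ≤ #A₁) := fun h => ha.2 ⟨ha.1, h⟩
      exact (not_le.1 this).le
    have h2 : ∑ a ∈ A₁ \ A', (#{a' ∈ A₁ | Bad a a'} : ℝ)
        ≤ ∑ a ∈ A₁, (#{a' ∈ A₁ | Bad a a'} : ℝ) :=
      Finset.sum_le_sum_of_subset_of_nonneg Finset.sdiff_subset (fun _ _ _ => by positivity)
    have h3 : 2 * ((#(A₁ \ A') : ℝ) * #A₁) ≤ (#A₁ : ℝ) ^ 2 := by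
      have : 8 * K * ∑ a ∈ A₁ \ A', (#{a' ∈ A₁ | Bad a a'} : ℝ)
          ≤ 8 * K * ∑ a ∈ A₁, (#{a' ∈ A₁ | Bad a a'} : ℝ) :=
        mul_le_mul_of_nonneg_left h2 (by positivity)
      have h4 : 16 * K * ∑ a ∈ A₁, (#{a' ∈ A₁ | Bad a a'} : ℝ) ≤ (#A₁ : ℝ) ^ 2 := hbad
      linarith
    have h5 : 2 * (#(A₁ \ A') : ℝ) ≤ #A₁ := by
      by_contra hcon
      push Not at hcon
      have := mul_lt_mul_of_pos_right hcon hA₁pos
      nlinarith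
    have h6 : (#(A₁ \ A') : ℝ) = #A₁ - #A' := by
      rw [Finset.card_sdiff_of_subset hA'A₁, Nat.cast_sub (Finset.card_le_card hA'A₁)]
    linarith
  -- step 3
  set B' : Finset β := {b ∈ B | (#A₁ : ℝ) ≤ 4 * K * #{a ∈ A₁ | E a b}} with hB'
  have hB'B : B' ⊆ B := Finset.filter_subset _ _
  have hB'card : n ≤ 4 * K * #B' := by
    have h1 : (#A₁ : ℝ) * n ≤ 2 * K * ∑ a ∈ A₁, (#{b ∈ B | E a b} : ℝ) := by
      rw [Finset.mul_sum, ← nsmul_eq_mul, ← Finset.sum_const]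
      exact Finset.sum_le_sum hdeg
    rw [edges_comm A₁ B E, ← Finset.sum_sdiff hB'B] at h1
    have h2 : 4 * K * ∑ b ∈ B \ B', (#{a ∈ A₁ | E a b} : ℝ) ≤ n * #A₁ := by
      calc 4 * K * ∑ b ∈ B \ B', (#{a ∈ A₁ | E a b} : ℝ)
          = ∑ b ∈ B \ B', 4 * K * (#{a ∈ A₁ | E a b} : ℝ) := by rw [Finset.mul_sum]
        _ ≤ ∑ b ∈ B \ B', (#A₁ : ℝ) := by
            apply Finset.sum_le_sum
            intro b hb
            rw [Finset.mem_sdiff, hB', Finset.mem_filter] at hb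
            have : ¬ ((#A₁ : ℝ) ≤ 4 * K * #{a ∈ A₁ | E a b}) := fun h => hb.2 ⟨hb.1, h⟩
            exact (not_le.1 this).le
        _ = #(B \ B') * #A₁ := by rw [Finset.sum_const, nsmul_eq_mul]
        _ ≤ n * #A₁ := by
            apply mul_le_mul_of_nonneg_right _ hA₁pos.le
            refine le_trans ?_ hB
            exact_mod_cast Finset.card_le_card Finset.sdiff_subset
    have h3 : ∑ b ∈ B', (#{a ∈ A₁ | E a b} : ℝ) ≤ #B' * #A₁ := by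
      rw [← nsmul_eq_mul, ← Finset.sum_const]
      apply Finset.sum_le_sum
      intro b _
      exact_mod_cast Finset.card_le_card (Finset.filter_subset _ _)
    have h4 : (#A₁ : ℝ) * n ≤ (#A₁ : ℝ) * (4 * K * #B') := by
      have h5 : 4 * K * ∑ b ∈ B', (#{a ∈ A₁ | E a b} : ℝ) ≤ 4 * K * (#B' * #A₁) :=
        mul_le_mul_of_nonneg_left h3 (by positivity)
      nlinarith
    exact le_of_mul_le_mul_left h4 hA₁pos
  refine ⟨A', hA'A₁.trans hA₁A, B', hB'B, ?_, hB'card, ?_⟩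
  · nlinarith
  -- step 4
  intro a ha b hb
  have ha' : 8 * K * (#{a' ∈ A₁ | Bad a a'} : ℝ) ≤ #A₁ := (Finset.mem_filter.1 ha).2
  have hb' : (#A₁ : ℝ) ≤ 4 * K * #{a ∈ A₁ | E a b} := (Finset.mem_filter.1 hb).2
  set G : Finset α := {a' ∈ A₁ | E a' b} \ {a' ∈ A₁ | Bad a a'} with hG
  have hGcard : (#A₁ : ℝ) ≤ 8 * K * #G := by
    have h1 : (#{a ∈ A₁ | E a b} : ℝ) ≤ #G + #{a' ∈ A₁ | Bad a a'} := by
      have := Finset.card_le_card_sdiff_add_card (s := {a' ∈ A₁ | E a' b})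
        (t := {a' ∈ A₁ | Bad a a'})
      exact_mod_cast this
    nlinarith
  have hsum : (#{x ∈ B ×ˢ A | E a x.1 ∧ E x.2 x.1 ∧ E x.2 b} : ℝ)
      = ∑ a' ∈ A, (#{b₁ ∈ B | E a b₁ ∧ E a' b₁ ∧ E a' b} : ℝ) := by
    rw [edges_prod B A (fun b₁ a' => E a b₁ ∧ E a' b₁ ∧ E a' b)]
    exact edges_comm B A (fun b₁ a' => E a b₁ ∧ E a' b₁ ∧ E a' b)
  have hGA : G ⊆ A := Finset.sdiff_subset.trans ((Finset.filter_subset _ _).trans hA₁A)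
  have hge : (#G : ℝ) * n ≤ 128 * K ^ 3 *
      (#{x ∈ B ×ˢ A | E a x.1 ∧ E x.2 x.1 ∧ E x.2 b} : ℝ) := by
    rw [hsum]
    calc (#G : ℝ) * n = ∑ a' ∈ G, n := by rw [Finset.sum_const, nsmul_eq_mul]
      _ ≤ ∑ a' ∈ G, 128 * K ^ 3 * (#{b₁ ∈ B | E a b₁ ∧ E a' b₁ ∧ E a' b} : ℝ) := by
          apply Finset.sum_le_sum
          intro a' ha'
          rw [hG, Finset.mem_sdiff, Finset.mem_filter, Finset.mem_filter] at ha'
          have h1 : ¬ Bad a a' := fun h => ha'.2 ⟨ha'.1.1, h⟩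
          have h2 : n < 128 * K ^ 3 * (#{b ∈ B | E a b ∧ E a' b} : ℝ) := not_le.1 h1
          have h3 : ({b₁ ∈ B | E a b₁ ∧ E a' b₁ ∧ E a' b} : Finset β)
              = {b ∈ B | E a b ∧ E a' b} := by
            apply Finset.filter_congr
            intro x _
            have := ha'.1.2
            tauto
          rw [h3]
          exact h2.le
      _ = 128 * K ^ 3 * ∑ a' ∈ G, (#{b₁ ∈ B | E a b₁ ∧ E a' b₁ ∧ E a' b} : ℝ) := by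
          rw [Finset.mul_sum]
      _ ≤ 128 * K ^ 3 * ∑ a' ∈ A, (#{b₁ ∈ B | E a b₁ ∧ E a' b₁ ∧ E a' b} : ℝ) := by
          apply mul_le_mul_of_nonneg_left _ (by positivity)
          exact Finset.sum_le_sum_of_subset_of_nonneg hGA (fun _ _ _ => by positivity)
  have h1 : n ≤ 24 * K ^ 2 * #G := by
    calc n ≤ 3 * K * #A₁ := hA₁n
      _ ≤ 3 * K * (8 * K * #G) := mul_le_mul_of_nonneg_left hGcard (by positivity)
      _ = _ := by ring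
  have h2 : n ^ 2 ≤ 24 * K ^ 2 * (#G * n) := by
    calc n ^ 2 = n * n := by ring
      _ ≤ (24 * K ^ 2 * #G) * n := mul_le_mul_of_nonneg_right h1 hn.le
      _ = _ := by ring
  calc n ^ 2 ≤ 24 * K ^ 2 * (#G * n) := h2
    _ ≤ 24 * K ^ 2 * (128 * K ^ 3 *
        (#{x ∈ B ×ˢ A | E a x.1 ∧ E x.2 x.1 ∧ E x.2 b} : ℝ)) :=
        mul_le_mul_of_nonneg_left hge (by positivity)
    _ = 3072 * K ^ 5 * (#{x ∈ B ×ˢ A | E a x.1 ∧ E x.2 x.1 ∧ E x.2 b} : ℝ) := by ring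
    _ ≤ 2 ^ 12 * K ^ 5 * (#{x ∈ B ×ˢ A | E a x.1 ∧ E x.2 x.1 ∧ E x.2 b} : ℝ) := by
        apply mul_le_mul_of_nonneg_right _ (by positivity)
        apply mul_le_mul_of_nonneg_right _ (by positivity)
        norm_num

end Pool.Agent.SPO
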