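import Mathlib

/-!
# Package G03: the middle level set of a function with large additive energy

Write `κ = sq f`; `κ > 0`. Split `f = f₁ + f₂ + f₃` where `f₁ = f` on `{f ≤ κ/(16K)}` (else `0`),
`f₂ = f` on `lev f K = {κ/(16K) < f ≤ 16Kκ}`, `f₃ = f` on `{16Kκ < f}`. For functions `g₁,..,g₄`
put
`E(g₁,g₂,g₃,g₄) = ∑_{x+y=z+w} g₁(x) g₂(y) g₃(z) g₄(w)`, multilinear, `en f = E(f,f,f,f)`.
If `0 ≤ g_i ≤ f` for all `i` and one of the arguments is `f₁` then `E ≤ κ/(16K)`: bound `f₁` by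
`κ/(16K)`; the sum over the three other arguments is at most `(∑ f)³ = 1` (the fourth variable is
determined by the three others).
If one of the arguments is `f₃` then `E ≤ κ/(16K)`: `∑ f₃ ≤ ∑ f²/(16Kκ) = 1/(16K)` (on the support
`f ≤ f²/(16Kκ)`), and for a fixed value of that variable and of a second variable (mass `≤ 1`) the
remaining two variables have a fixed sum or difference, and `∑_z f(z) f(v ± z) ≤ ∑ f² = κ`
(`ab ≤ (a²+b²)/2`). Replace the four arguments of `E(f,f,f,f)` one by one by `f₂` (telescoping):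
`E(f,f,f,f) - E(f₂,f₂,f₂,f₂) ≤ 8 κ/(16K) = κ/(2K)`, so `en f₂ ≥ κ/K - κ/(2K) = κ/(2K)`.

As `f₂ ≤ 16Kκ 1_A`, `A = lev f K`: `κ/(2K) ≤ (16Kκ)⁴ E(A)` where `E(A) = A.addEnergy A`, that is
`E(A) ≥ 1/(2¹⁷K⁵κ³)`. `f > κ/(16K)` on `A` and `∑ f = 1` give `|A| κ ≤ 16K`, so `κ⁻³ ≥
|A|³/(2¹²K³)` and
`|A|³ ≤ 2²⁹K⁸E(A)`. Finally `E(A) ≤ |A|³` gives `(|A|κ)³ ≥ 1/(2¹⁷K⁵) ≥ 1/(2⁶K²)³`.
-/

set_option autoImplicit false

namespace Pool.Agent.SPO

open Finset

variable {F : Type*} [AddCommGroup F] [Fintype F] [DecidableEq F]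

/-- the square of the `ℓ²` norm -/
noncomputable def sq (f : F → ℝ) : ℝ := ∑ x, f x ^ 2

/-- the additive energy of a function -/
noncomputable def en (f : F → ℝ) : ℝ := ∑ x, ∑ y, ∑ z, f x * f y * (f z * f (x + y - z))

/-- the middle level set -/
noncomputable def lev (f : F → ℝ) (K : ℝ) : Finset F :=
  univ.filter (fun x => sq f / (16 * K) < f x ∧ f x ≤ 16 * K * sq f)

omit [AddCommGroup F] [DecidableEq F] in
private theorem level_sq_pos {f : F → ℝ} (h1 : ∑ x, f x = 1) : 0 < ∑ x, f x ^ 2 := by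
  rcases (Finset.sum_nonneg fun x _ => sq_nonneg (f x) :
    (0 : ℝ) ≤ ∑ x, f x ^ 2).eq_or_lt with h | h
  · exfalso
    have h2 := (Finset.sum_eq_zero_iff_of_nonneg fun x _ => sq_nonneg (f x)).1 h.symm
    have h3 : ∑ x, f x = 0 := Finset.sum_eq_zero fun x hx => by
      have := h2 x hx
      exact pow_eq_zero_iff (two_ne_zero) |>.1 this
    rw [h3] at h1
    exact zero_ne_one h1
  · exact h

theorem sq_pos {f : F → ℝ} (h1 : ∑ x, f x = 1) : 0 < sq f := level_sq_pos h1

/-- the multilinear form -/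
private noncomputable def lvT (g1 g2 g3 g4 : F → ℝ) : ℝ :=
  ∑ x, ∑ y, ∑ z, g1 x * g2 y * (g3 z * g4 (x + y - z))

private theorem lvT_comm (g1 g2 g3 g4 : F → ℝ) : lvT g1 g2 g3 g4 = lvT g2 g1 g3 g4 := by
  unfold lvT
  rw [Finset.sum_comm]
  refine Finset.sum_congr rfl fun x _ => Finset.sum_congr rfl fun y _ =>
    Finset.sum_congr rfl fun z _ => ?_
  rw [mul_comm (g1 y), add_comm y x]

private theorem lvT_comm' (g1 g2 g3 g4 : F → ℝ) : lvT g1 g2 g3 g4 = lvT g1 g2 g4 g3 := by
  unfold lvT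
  refine Finset.sum_congr rfl fun x _ => Finset.sum_congr rfl fun y _ => ?_
  refine Fintype.sum_equiv (Equiv.subLeft (x + y)) _ _ fun z => ?_
  rw [Equiv.subLeft_apply, sub_sub_cancel, mul_comm (g3 z)]

private theorem lvT_swap (g1 g2 g3 g4 : F → ℝ) : lvT g1 g2 g3 g4 = lvT g3 g4 g1 g2 := by
  unfold lvT
  have h1 : ∀ g1 g2 g3 g4 : F → ℝ, ∑ x, ∑ y, ∑ z, g1 x * g2 y * (g3 z * g4 (x + y - z)) =
      ∑ x, ∑ z, ∑ w, g1 x * g2 (z + w - x) * (g3 z * g4 w) := by
    intro g1 g2 g3 g4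
    refine Finset.sum_congr rfl fun x _ => ?_
    rw [Finset.sum_comm]
    refine Finset.sum_congr rfl fun z _ => ?_
    refine Fintype.sum_equiv (Equiv.addRight (x - z)) _ _ fun y => ?_
    change _ = g1 x * g2 (z + (y + (x - z)) - x) * (g3 z * g4 (y + (x - z)))
    have e1 : z + (y + (x - z)) - x = y := by abel
    have e2 : y + (x - z) = x + y - z := by abel
    rw [e1, e2]
  rw [h1, Finset.sum_comm]
  refine Finset.sum_congr rfl fun z _ => ?_
  rw [Finset.sum_comm]
  refine Finset.sum_congr rfl fun w _ => Finset.sum_congr rfl fun x _ => ?_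
  ring

private theorem lvT_low {f g : F → ℝ} (h0 : ∀ x, 0 ≤ f x) (h1 : ∑ x, f x = 1) {c : ℝ}
    (hg : ∀ x, g x ≤ c) : lvT g f f f ≤ c := by
  have hs : ∀ v, ∑ x, f (x + v) = 1 := by
    intro v
    rw [← h1]
    exact Fintype.sum_equiv (Equiv.addRight v) _ _ fun x => rfl
  calc lvT g f f f ≤ ∑ x, ∑ y, ∑ z, c * f y * (f z * f (x + y - z)) := by
        refine Finset.sum_le_sum fun x _ => Finset.sum_le_sum fun y _ =>
          Finset.sum_le_sum fun z _ => ?_
        exact mul_le_mul_of_nonneg_right (mul_le_mul_of_nonneg_right (hg x) (h0 y))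
          (mul_nonneg (h0 _) (h0 _))
    _ = ∑ y, ∑ z, ∑ x, c * f y * (f z * f (x + (y - z))) := by
        rw [Finset.sum_comm]
        refine Finset.sum_congr rfl fun y _ => ?_
        rw [Finset.sum_comm]
        refine Finset.sum_congr rfl fun z _ => Finset.sum_congr rfl fun x _ => ?_
        rw [add_sub_assoc]
    _ = c := by
        simp only [← Finset.mul_sum, hs, mul_one, h1]

private theorem lvT_high {f g : F → ℝ} (h0 : ∀ x, 0 ≤ f x) (h1 : ∑ x, f x = 1)
    (hg : ∀ x, 0 ≤ g x) : lvT g f f f ≤ (∑ x, g x) * sq f := by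
  have hs : ∀ v, ∑ z, f z * f (v - z) ≤ sq f := by
    intro v
    have h2 : ∑ z, f (v - z) ^ 2 = sq f := by
      unfold sq
      exact Fintype.sum_equiv (Equiv.subLeft v) _ _ fun x => rfl
    have h3 : ∑ z, f z * f (v - z) ≤ ∑ z, (f z ^ 2 + f (v - z) ^ 2) / 2 :=
      Finset.sum_le_sum fun z _ => by nlinarith [sq_nonneg (f z - f (v - z))]
    rw [← Finset.sum_div, Finset.sum_add_distrib, h2] at h3
    change _ ≤ (sq f + sq f) / 2 at h3
    linarith
  calc lvT g f f f = ∑ x, ∑ y, g x * f y * ∑ z, f z * f (x + y - z) := by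
        unfold lvT
        simp only [Finset.mul_sum]
    _ ≤ ∑ x, ∑ y, g x * f y * sq f :=
        Finset.sum_le_sum fun x _ => Finset.sum_le_sum fun y _ =>
          mul_le_mul_of_nonneg_left (hs _) (mul_nonneg (hg x) (h0 y))
    _ = (∑ x, g x) * sq f := by
        simp only [← Finset.sum_mul, ← Finset.mul_sum, h1, mul_one]

private theorem lvT_indicator (A : Finset F) :
    ((A.addEnergy A : ℕ) : ℝ) = ∑ x ∈ A, ∑ z ∈ A, ∑ y ∈ A, if x + y - z ∈ A then 1 else 0 := by
  unfold Finset.addEnergy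
  rw [Finset.card_filter]
  push_cast
  rw [Finset.sum_product, Finset.sum_product]
  refine Finset.sum_congr rfl fun x _ => Finset.sum_congr rfl fun z _ => ?_
  rw [Finset.sum_product]
  refine Finset.sum_congr rfl fun y _ => ?_
  have h1 : ∀ w, x + y = z + w ↔ w = x + y - z := by
    intro w
    constructor
    · intro h
      rw [h]
      abel
    · rintro rfl
      abel
  simp only [h1]
  rw [Finset.sum_ite_eq']

private theorem lvT_le_energy {a : F → ℝ} {A : Finset F} {M : ℝ} (hM : 0 ≤ M)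
    (h0 : ∀ x, 0 ≤ a x) (ha : ∀ x ∈ A, a x ≤ M) (hn : ∀ x ∉ A, a x = 0) :
    lvT a a a a ≤ M ^ 4 * A.addEnergy A := by
  rw [lvT_indicator, Finset.mul_sum]
  unfold lvT
  rw [← Finset.sum_subset (Finset.subset_univ A)]
  · refine Finset.sum_le_sum fun x hx => ?_
    rw [Finset.mul_sum, Finset.sum_comm, ← Finset.sum_subset (Finset.subset_univ A)]
    · refine Finset.sum_le_sum fun z hz => ?_
      rw [Finset.mul_sum, ← Finset.sum_subset (Finset.subset_univ A)]
      · refine Finset.sum_le_sum fun y hy => ?_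
        split_ifs with hw
        · have h1 : a x * a y ≤ M * M := mul_le_mul (ha x hx) (ha y hy) (h0 y) hM
          have h2 : a z * a (x + y - z) ≤ M * M := mul_le_mul (ha z hz) (ha _ hw) (h0 _) hM
          calc a x * a y * (a z * a (x + y - z)) ≤ M * M * (M * M) :=
                mul_le_mul h1 h2 (mul_nonneg (h0 _) (h0 _)) (mul_nonneg hM hM)
            _ = M ^ 4 * 1 := by ring
        · rw [hn _ hw]
          simp
      · intro y _ hy
        rw [hn y hy]
        simp
    · intro z _ hz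
      refine Finset.sum_eq_zero fun y _ => ?_
      rw [hn z hz]
      simp
  · intro x _ hx
    refine Finset.sum_eq_zero fun y _ => Finset.sum_eq_zero fun z _ => ?_
    rw [hn x hx]
    simp

private theorem lv_energy_le (A : Finset F) : ((A.addEnergy A : ℕ) : ℝ) ≤ (#A : ℝ) ^ 3 := by
  rw [lvT_indicator]
  calc (∑ x ∈ A, ∑ z ∈ A, ∑ y ∈ A, if x + y - z ∈ A then (1 : ℝ) else 0)
      ≤ ∑ x ∈ A, ∑ z ∈ A, ∑ y ∈ A, (1 : ℝ) :=
        Finset.sum_le_sum fun x _ => Finset.sum_le_sum fun z _ =>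
          Finset.sum_le_sum fun y _ => by split_ifs <;> norm_num
    _ = (#A : ℝ) ^ 3 := by
        simp only [Finset.sum_const, nsmul_eq_mul]
        ring

theorem level {f : F → ℝ} (h0 : ∀ x, 0 ≤ f x) (h1 : ∑ x, f x = 1) {K : ℝ} (hK : 1 ≤ K)
    (hE : sq f ≤ K * en f) :
    (#(lev f K) : ℝ) * sq f ≤ 16 * K ∧ 1 ≤ 2 ^ 6 * K ^ 2 * (#(lev f K) * sq f) ∧
      (#(lev f K) : ℝ) ^ 3 ≤ 2 ^ 29 * K ^ 8 * (lev f K).addEnergy (lev f K) := by
  have hk : 0 < sq f := sq_pos h1
  have hK0 : 0 < K := by linarith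
  set κ := sq f with hκ
  set A := lev f K with hA
  have hmem : ∀ x, x ∈ A ↔ κ / (16 * K) < f x ∧ f x ≤ 16 * K * κ := by
    intro x
    rw [hA, lev, Finset.mem_filter]
    simp [hκ]
  have hM : 0 ≤ 16 * K * κ := by positivity
  have hc : 0 < κ / (16 * K) := by positivity
  -- the size of `A`
  have hcard : (#A : ℝ) * κ ≤ 16 * K := by
    have h2 : (#A : ℝ) * (κ / (16 * K)) ≤ 1 := by
      calc (#A : ℝ) * (κ / (16 * K)) = ∑ _x ∈ A, κ / (16 * K) := by
            rw [Finset.sum_const, nsmul_eq_mul]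
        _ ≤ ∑ x ∈ A, f x := Finset.sum_le_sum fun x hx => ((hmem x).1 hx).1.le
        _ ≤ ∑ x, f x := Finset.sum_le_sum_of_subset_of_nonneg (Finset.subset_univ A)
            fun x _ _ => h0 x
        _ = 1 := h1
    rw [← mul_div_assoc, div_le_one (by positivity)] at h2
    exact h2
  -- the decomposition
  let a : F → ℝ := fun x => if x ∈ A then f x else 0
  let l : F → ℝ := fun x => if f x ≤ κ / (16 * K) then f x else 0
  let h : F → ℝ := fun x => if 16 * K * κ < f x then f x else 0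
  have ha0 : ∀ x, 0 ≤ a x := by
    intro x
    change 0 ≤ if x ∈ A then f x else 0
    split_ifs
    · exact h0 x
    · exact le_rfl
  have hh0 : ∀ x, 0 ≤ h x := by
    intro x
    change 0 ≤ if 16 * K * κ < f x then f x else 0
    split_ifs
    · exact h0 x
    · exact le_rfl
  have haf : ∀ x, a x ≤ f x := by
    intro x
    change (if x ∈ A then f x else 0) ≤ f x
    split_ifs
    · exact le_rfl
    · exact h0 x
  have hdec : ∀ x, f x - a x ≤ l x + h x := by
    intro x
    change f x - (if x ∈ A then f x else 0) ≤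
      (if f x ≤ κ / (16 * K) then f x else 0) + (if 16 * K * κ < f x then f x else 0)
    by_cases hx : x ∈ A
    · rw [if_pos hx, sub_self]
      have := h0 x
      split_ifs <;> linarith
    · rw [if_neg hx]
      rw [hmem, not_and_or, not_lt, not_le] at hx
      have := h0 x
      rcases hx with hx | hx
      · rw [if_pos hx]
        split_ifs <;> linarith
      · rw [if_pos hx]
        split_ifs <;> linarith
  have hl : lvT l f f f ≤ κ / (16 * K) := by
    refine lvT_low h0 h1 fun x => ?_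
    change (if f x ≤ κ / (16 * K) then f x else 0) ≤ _
    split_ifs with h2
    · exact h2
    · exact hc.le
  have hsum : (∑ x, h x) ≤ 1 / (16 * K) := by
    have h2 : ∀ x, h x ≤ f x ^ 2 / (16 * K * κ) := by
      intro x
      change (if 16 * K * κ < f x then f x else 0) ≤ _
      split_ifs with h3
      · rw [le_div_iff₀ (by positivity)]
        nlinarith [h0 x]
      · positivity
    calc (∑ x, h x) ≤ ∑ x, f x ^ 2 / (16 * K * κ) := Finset.sum_le_sum fun x _ => h2 x
      _ = κ / (16 * K * κ) := by rw [← Finset.sum_div]; rfl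
      _ = 1 / (16 * K) := by
          field_simp
  have hhi : lvT h f f f ≤ κ / (16 * K) := by
    calc lvT h f f f ≤ (∑ x, h x) * κ := lvT_high h0 h1 hh0
      _ ≤ 1 / (16 * K) * κ := mul_le_mul_of_nonneg_right hsum hk.le
      _ = κ / (16 * K) := by ring
  let u : F → ℝ := fun x => f x - a x
  have hu0 : ∀ x, 0 ≤ u x := fun x => sub_nonneg.2 (haf x)
  have hu : lvT u f f f ≤ κ / (8 * K) := by
    have h2 : lvT u f f f ≤ lvT l f f f + lvT h f f f := by
      unfold lvT
      rw [← Finset.sum_add_distrib]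
      refine Finset.sum_le_sum fun x _ => ?_
      rw [← Finset.sum_add_distrib]
      refine Finset.sum_le_sum fun y _ => ?_
      rw [← Finset.sum_add_distrib]
      refine Finset.sum_le_sum fun z _ => ?_
      rw [← add_mul, ← add_mul]
      exact mul_le_mul_of_nonneg_right (mul_le_mul_of_nonneg_right (hdec x) (h0 y))
        (mul_nonneg (h0 _) (h0 _))
    have h3 : κ / (16 * K) + κ / (16 * K) = κ / (8 * K) := by
      field_simp
      ring
    linarith
  have hen : en f ≤ lvT a a a a + (lvT u f f f + lvT f u f f + lvT f f u f + lvT f f f u) := by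
    unfold en lvT
    simp only [← Finset.sum_add_distrib]
    refine Finset.sum_le_sum fun x _ => Finset.sum_le_sum fun y _ =>
      Finset.sum_le_sum fun z _ => ?_
    generalize x + y - z = w
    have e1 : f x * f y * (f z * f w) = a x * a y * (a z * a w) + (u x * f y * (f z * f w) +
        a x * u y * (f z * f w) + a x * a y * (u z * f w) + a x * a y * (a z * u w)) := by
      simp only [u]
      ring
    rw [e1]
    have i1 : a x * u y * (f z * f w) ≤ f x * u y * (f z * f w) :=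
      mul_le_mul_of_nonneg_right (mul_le_mul_of_nonneg_right (haf x) (hu0 y))
        (mul_nonneg (h0 _) (h0 _))
    have i0 : a x * a y ≤ f x * f y := mul_le_mul (haf x) (haf y) (ha0 y) (h0 x)
    have i2 : a x * a y * (u z * f w) ≤ f x * f y * (u z * f w) :=
      mul_le_mul_of_nonneg_right i0 (mul_nonneg (hu0 _) (h0 _))
    have i3 : a x * a y * (a z * u w) ≤ f x * f y * (f z * u w) :=
      mul_le_mul i0 (mul_le_mul_of_nonneg_right (haf z) (hu0 w)) (mul_nonneg (ha0 _) (hu0 _))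
        (mul_nonneg (h0 _) (h0 _))
    linarith
  have s2 : lvT f u f f = lvT u f f f := lvT_comm _ _ _ _
  have s3 : lvT f f u f = lvT u f f f := lvT_swap _ _ _ _
  have s4 : lvT f f f u = lvT u f f f := by rw [lvT_comm', lvT_swap]
  have hE2 : lvT a a a a ≤ (16 * K * κ) ^ 4 * A.addEnergy A := by
    refine lvT_le_energy hM ha0 (fun x hx => ?_) fun x hx => if_neg hx
    exact (haf x).trans ((hmem x).1 hx).2
  rw [s2, s3, s4] at hen
  have hmain : κ / (2 * K) ≤ (16 * K * κ) ^ 4 * A.addEnergy A := by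
    have h2 : κ / K ≤ en f := by
      rw [div_le_iff₀ hK0]
      linarith
    have h3 : κ / K = κ / (2 * K) + 4 * (κ / (8 * K)) := by
      field_simp
      ring
    linarith
  have hone : 1 ≤ 2 ^ 17 * K ^ 5 * κ ^ 3 * A.addEnergy A := by
    rw [div_le_iff₀ (by positivity)] at hmain
    have h2 : κ * 1 ≤ κ * (2 ^ 17 * K ^ 5 * κ ^ 3 * A.addEnergy A) := by
      calc κ * 1 = κ := mul_one κ
        _ ≤ (16 * K * κ) ^ 4 * A.addEnergy A * (2 * K) := hmain
        _ = κ * (2 ^ 17 * K ^ 5 * κ ^ 3 * A.addEnergy A) := by ring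
    exact le_of_mul_le_mul_left h2 hk
  have hEn0 : (0 : ℝ) ≤ A.addEnergy A := Nat.cast_nonneg _
  have hA0 : (0 : ℝ) ≤ #A := Nat.cast_nonneg _
  set t : ℝ := (#A : ℝ) * κ with ht
  have ht0 : 0 ≤ t := by positivity
  refine ⟨hcard, ?_, ?_⟩
  · have h2 : 1 ≤ 2 ^ 17 * K ^ 5 * t ^ 3 := by
      calc 1 ≤ 2 ^ 17 * K ^ 5 * κ ^ 3 * A.addEnergy A := hone
        _ ≤ 2 ^ 17 * K ^ 5 * κ ^ 3 * (#A : ℝ) ^ 3 :=
            mul_le_mul_of_nonneg_left (lv_energy_le A) (by positivity)
        _ = 2 ^ 17 * K ^ 5 * t ^ 3 := by rw [ht]; ring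
    have h3 : (1 : ℝ) ^ 3 ≤ (2 ^ 6 * K ^ 2 * t) ^ 3 := by
      rw [one_pow]
      calc (1 : ℝ) ≤ 2 ^ 17 * K ^ 5 * t ^ 3 := h2
        _ ≤ (2 * K) * (2 ^ 17 * K ^ 5 * t ^ 3) := by
            refine le_mul_of_one_le_left (by positivity) (by linarith)
        _ = (2 ^ 6 * K ^ 2 * t) ^ 3 := by ring
    exact le_of_pow_le_pow_left₀ (by norm_num) (by positivity) h3
  · calc (#A : ℝ) ^ 3 = (#A : ℝ) ^ 3 * 1 := (mul_one _).symm
      _ ≤ (#A : ℝ) ^ 3 * (2 ^ 17 * K ^ 5 * κ ^ 3 * A.addEnergy A) :=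
          mul_le_mul_of_nonneg_left hone (by positivity)
      _ = 2 ^ 17 * K ^ 5 * t ^ 3 * A.addEnergy A := by rw [ht]; ring
      _ ≤ 2 ^ 17 * K ^ 5 * (16 * K) ^ 3 * A.addEnergy A := by
          refine mul_le_mul_of_nonneg_right (mul_le_mul_of_nonneg_left ?_ (by positivity)) hEn0
          exact pow_le_pow_left₀ ht0 hcard 3
      _ = 2 ^ 29 * K ^ 8 * A.addEnergy A := by ring

end Pool.Agent.SPO
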