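import Pool.Agent.SPO.Good
import Pool.Agent.SPO.GK

/-!
# Package G07: many good multipliers

Induction on `n`, with the stronger exponent `e_n = 3·5ⁿ - 2` (`e_0 = 1`, `e_{n+1} = 5 e_n + 8`)
in place of
`3·5ⁿ`.

`n = 0`: `R = H₁`.

Step. If `(p-1)/2 ≤ |R_n|` take `R_{n+1} = R_n`. Otherwise `|R_n| ≥ |H₁|ⁿ⁺¹/2ⁿ ≥ 2` and `gk` with
`A = H₁`,
`B = R_n` gives `a, a', b, b', e`; take `R_{n+1} = (b - b')H₁ + (a - a' + e(b - b'))R_n`:
`2|R_{n+1}| ≥ min(|H₁||R_n|, p-1)`. Its elements are `(b - b')a₁ + (a - a' + e(b - b'))b₁` with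
`a₁ ∈ H₁`, `b₁ ∈ R_n`. With `Good.neg`, `Good.add` (`L₀ = T`), `Good.mul`: `b - b'` is
`T^(2e_n+1)`-good,
`(b - b')a₁` is `T^(2e_n+2)`-good, `a - a'` is `T³`-good, `a - a' + e(b - b')` is
`T^(2e_n+5)`-good (for
`e = 0` too, as `T ≥ 1`), times `b₁`: `T^(3e_n+5)`-good, the sum is `T^(5e_n+8)`-good.
-/

set_option autoImplicit false

namespace Pool.Agent.SPO

open Finset
open scoped Pointwise

private theorem rg_step {p : ℕ} [Fact p.Prime] {Q Y H₁ : Finset (ZMod p)} {T : ℝ} (hT : 1 ≤ T)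
    (hs : ∀ x ∈ Q, -x ∈ Q) (hY : (#Y : ℝ) ≤ T) (hQ : Q + Q ⊆ Y + Q) (hH : 2 ≤ #H₁)
    (hgood : ∀ r ∈ H₁, Good Q T r) (n m : ℕ) {R : Finset (ZMod p)}
    (h1 : ∀ r ∈ R, Good Q (T ^ m) r)
    (h2 : min ((#H₁ : ℝ) ^ (n + 1) / 2 ^ n) (((p : ℝ) - 1) / 2) ≤ #R) :
    ∃ R' : Finset (ZMod p), (∀ r ∈ R', Good Q (T ^ (5 * m + 8)) r) ∧
      min ((#H₁ : ℝ) ^ (n + 1 + 1) / 2 ^ (n + 1)) (((p : ℝ) - 1) / 2) ≤ #R' := by
  by_cases hp : ((p : ℝ) - 1) / 2 ≤ #R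
  · exact ⟨R, fun r hr => (h1 r hr).mono (pow_le_pow_right₀ hT (by omega)),
      (min_le_right _ _).trans hp⟩
  have h3 : (#H₁ : ℝ) ^ (n + 1) / 2 ^ n ≤ #R := (min_le_iff.1 h2).resolve_right hp
  have hH' : (2 : ℝ) ≤ #H₁ := by exact_mod_cast hH
  have h4 : (2 : ℝ) ≤ (#H₁ : ℝ) ^ (n + 1) / 2 ^ n := by
    rw [le_div_iff₀ (by positivity)]
    calc (2 : ℝ) * 2 ^ n = 2 ^ (n + 1) := by ring
      _ ≤ (#H₁ : ℝ) ^ (n + 1) := pow_le_pow_left₀ two_pos.le hH' _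
  have h5 : 2 ≤ #R := by exact_mod_cast h4.trans h3
  obtain ⟨a, ha, a', ha', b, hb, b', hb', e, he, hc⟩ :=
    gk H₁ R (card_pos.1 (by omega)) h5
  have g1 : Good Q (T ^ m * T ^ m * T) (b - b') := by
    rw [sub_eq_add_neg]
    exact (h1 b hb).add hY hQ ((h1 b' hb').neg hs)
  have g2 : Good Q (T * T * T) (a - a') := by
    rw [sub_eq_add_neg]
    exact (hgood a ha).add hY hQ ((hgood a' ha').neg hs)
  have hm : (1 : ℝ) ≤ T ^ m := one_le_pow₀ hT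
  have g3 : Good Q (T ^ m * T ^ m * T) (e * (b - b')) := by
    rcases he with rfl | rfl
    · rw [zero_mul]
      exact good_zero.mono (one_le_mul_of_one_le_of_one_le
        (one_le_mul_of_one_le_of_one_le hm hm) hT)
    · rw [one_mul]
      exact g1
  have g4 := g2.add hY hQ g3
  refine ⟨dil (b - b') H₁ + dil (a - a' + e * (b - b')) R, fun r hr => ?_, ?_⟩
  · obtain ⟨u, hu, v, hv, rfl⟩ := mem_add.1 hr
    obtain ⟨u', hu', rfl⟩ := mem_image.1 hu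
    obtain ⟨v', hv', rfl⟩ := mem_image.1 hv
    refine (((g1.mul (hgood u' hu')).add hY hQ (g4.mul (h1 v' hv')))).mono (le_of_eq ?_)
    ring
  · have hp1 : 1 ≤ p := (Fact.out : p.Prime).one_le
    rcases le_total (#H₁ * #R) (p - 1) with h6 | h6
    · rw [min_eq_left h6] at hc
      have h7 : (#H₁ : ℝ) * #R ≤ 2 * #(dil (b - b') H₁ + dil (a - a' + e * (b - b')) R) := by
        exact_mod_cast hc
      refine (min_le_left _ _).trans ?_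
      have h8 : (#H₁ : ℝ) ^ (n + 1 + 1) / 2 ^ (n + 1) =
          (#H₁ : ℝ) * ((#H₁ : ℝ) ^ (n + 1) / 2 ^ n) / 2 := by
        rw [pow_succ (#H₁ : ℝ) (n + 1), pow_succ (2 : ℝ) n]
        field_simp
      rw [h8]
      have h9 := mul_le_mul_of_nonneg_left h3 (by positivity : (0 : ℝ) ≤ #H₁)
      linarith
    · rw [min_eq_right h6] at hc
      have h7 : ((p - 1 : ℕ) : ℝ) ≤
          2 * #(dil (b - b') H₁ + dil (a - a' + e * (b - b')) R) := by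
        exact_mod_cast hc
      rw [Nat.cast_sub hp1, Nat.cast_one] at h7
      refine (min_le_right _ _).trans ?_
      linarith

theorem exists_ring {p : ℕ} [Fact p.Prime] {Q Y H₁ : Finset (ZMod p)} {T : ℝ} (hT : 1 ≤ T)
    (hs : ∀ x ∈ Q, -x ∈ Q) (hY : (#Y : ℝ) ≤ T) (hQ : Q + Q ⊆ Y + Q) (hH : 2 ≤ #H₁)
    (hgood : ∀ r ∈ H₁, Good Q T r) (n : ℕ) :
    ∃ R : Finset (ZMod p), (∀ r ∈ R, Good Q (T ^ (3 * 5 ^ n)) r) ∧
      min ((#H₁ : ℝ) ^ (n + 1) / 2 ^ n) (((p : ℝ) - 1) / 2) ≤ #R := by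
  have key : ∃ R : Finset (ZMod p), (∀ r ∈ R, Good Q (T ^ (3 * 5 ^ n - 2)) r) ∧
      min ((#H₁ : ℝ) ^ (n + 1) / 2 ^ n) (((p : ℝ) - 1) / 2) ≤ #R := by
    induction n with
    | zero =>
      refine ⟨H₁, fun r hr => ?_, (min_le_left _ _).trans ?_⟩
      · rw [pow_zero, mul_one]
        exact (hgood r hr).mono (by norm_num)
      · rw [zero_add, pow_one, pow_zero, div_one]
    | succ n ih =>
      obtain ⟨R, h1, h2⟩ := ih
      obtain ⟨R', h3, h4⟩ := rg_step hT hs hY hQ hH hgood n _ h1 h2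
      refine ⟨R', fun r hr => ?_, h4⟩
      have h5 : 3 * 5 ^ (n + 1) - 2 = 5 * (3 * 5 ^ n - 2) + 8 := by
        have h6 : 1 ≤ 5 ^ n := Nat.one_le_pow _ _ (by norm_num)
        rw [pow_succ]
        omega
      rw [h5]
      exact h3 r hr
  obtain ⟨R, h1, h2⟩ := key
  exact ⟨R, fun r hr => (h1 r hr).mono (pow_le_pow_right₀ hT (by omega)), h2⟩

end Pool.Agent.SPO
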