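import Pool.Agent.SPO.BSG
import Pool.Agent.SPO.Level
import Pool.Agent.SPO.Ring

/-!
# Package G08: the growth theorem

Write `κ = sq f`, `d = |H|`, `A = lev f K`. All quantities below are of the form `2ᵃKᵇ` with
absolute `a, b`,
so at most `(2K)^E` for one absolute `E`.

`level`: `|A|κ ≤ 16K`, `1 ≤ 2⁶K²|A|κ` (so `A` is nonempty), `|A|³ ≤ K₂ E(A)`, `K₂ = 2²⁹K⁸`. `A` is
invariant
under `H`. `bsg`: `A' ⊆ A`, `|A| ≤ 12K₂|A'|`, `|A' - A'| ≤ K'|A'|`, `K' = 2⁴⁷K₂¹⁸`. `popular` with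
`K₃ = 12K₂`: `H₁` with `d ≤ 2K₃|H₁|` and `|A'| ≤ 2K₃|A' ∩ rA'|` for `r ∈ H₁`. If `|H₁| < 2` then
`d ≤ 4K₃`: first alternative. `exists_cover`: `Y`, `|Y| ≤ K'⁵`; `good_of_popular`: `r ∈ H₁` is
`2K₃K'³`-good for `Q = A' - A'`. Put `T = 2K₃K'⁵ ≥ 1`. `exists_ring` with `n = 9`: `R`, all `r ∈
R` are
`T^(3·5⁹)`-good and `min(|H₁|¹⁰/2⁹, (p-1)/2) ≤ |R|`. `card_add_dil_le`: `|A' + rA'| ≤ Λ|A'|` with
`Λ = T^(3·5⁹) T K'`. If `|A'| < 2Λ` then `1 ≤ 2⁶K²|A|κ ≤ 2⁶K² · 12K₂ · 2Λ/d` (`κ d ≤ 1`): first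
alternative. Otherwise `card_le_of_small_sums`: `|R| ≤ 2Λ|A'| ≤ 2Λ|A| ≤ 32ΛK/κ`. If the minimum is
`|H₁|¹⁰/2⁹` then `d¹⁰κ ≤ (2K₃)¹⁰ · 2⁹ · 32ΛK`: second alternative; if it is `(p-1)/2` then
`pκ ≤ 2(p-1)κ ≤ 128ΛK`: third alternative.
-/

set_option autoImplicit false

namespace Pool.Agent.SPO

open Finset
open scoped Pointwise

private theorem mul_pw {P x y : ℝ} {a b : ℕ} (hP : 0 ≤ P) (hx : x ≤ P ^ a) (hy0 : 0 ≤ y)
    (hy : y ≤ P ^ b) : x * y ≤ P ^ (a + b) := by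
  rw [pow_add]
  exact mul_le_mul hx hy hy0 (pow_nonneg hP a)

private theorem pow_pw {P x : ℝ} {a : ℕ} (n : ℕ) (hx0 : 0 ≤ x) (hx : x ≤ P ^ a) :
    x ^ n ≤ P ^ (a * n) := by
  rw [pow_mul]
  exact pow_le_pow_left₀ hx0 hx n

theorem growth : ∃ E : ℕ, ∀ (p : ℕ) [Fact p.Prime] (H : Subgroup (ZMod p)ˣ) (f : ZMod p → ℝ)
    (K : ℝ), 1 ≤ K → (∀ x, 0 ≤ f x) → ∑ x, f x = 1 →
    (∀ h ∈ H, ∀ x, f ((h : ZMod p) * x) = f x) → sq f ≤ K * en f → sq f * Nat.card H ≤ 1 →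
    (Nat.card H : ℝ) ≤ (2 * K) ^ E ∨ (Nat.card H : ℝ) ^ 10 * sq f ≤ (2 * K) ^ E ∨
      (p : ℝ) * sq f ≤ (2 * K) ^ E := by
  obtain ⟨N, hN⟩ : ∃ N : ℕ, N = 3 * 5 ^ 9 := ⟨_, rfl⟩
  refine ⟨3607 * N + 3607 + 713 + 1000, ?_⟩
  intro p hp H f K hK hf0 hf1 hfH hE hd
  have hKp : 0 < K := lt_of_lt_of_le one_pos hK
  obtain ⟨P, hP⟩ : ∃ P : ℝ, P = 2 * K := ⟨_, rfl⟩
  have hP2 : 2 ≤ P := by rw [hP]; linarith
  have hP1 : 1 ≤ P := by linarith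
  have hP0 : 0 ≤ P := by linarith
  have hKP : K ≤ P ^ 1 := by rw [pow_one, hP]; linarith
  have h2P : (2 : ℝ) ≤ P ^ 1 := by rw [pow_one]; exact hP2
  rw [← hP]
  obtain ⟨a1, a2, a3⟩ := level hf0 hf1 hK hE
  obtain ⟨κ, hκ⟩ : ∃ κ : ℝ, κ = sq f := ⟨_, rfl⟩
  have hκ0 : 0 < κ := by rw [hκ]; exact sq_pos hf1
  obtain ⟨A, hA⟩ : ∃ A : Finset (ZMod p), A = lev f K := ⟨_, rfl⟩
  obtain ⟨d, hd'⟩ : ∃ d : ℝ, d = (Nat.card H : ℝ) := ⟨_, rfl⟩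
  have hd0 : 0 ≤ d := by rw [hd']; exact Nat.cast_nonneg _
  rw [← hd', ← hκ] at hd
  rw [← hA, ← hκ] at a1 a2
  rw [← hA] at a3
  rw [← hd', ← hκ]
  have hAne : A.Nonempty := by
    rw [Finset.nonempty_iff_ne_empty]
    intro h
    rw [h] at a2
    simp at a2
    linarith
  -- the constants
  obtain ⟨K2, hK2⟩ : ∃ K2 : ℝ, K2 = 2 ^ 29 * K ^ 8 := ⟨_, rfl⟩
  have hK2P : K2 ≤ P ^ 37 := by
    rw [hK2]
    have h1 := pow_pw (P := P) 29 (by norm_num) h2P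
    have h2 := pow_pw (P := P) 8 hKp.le hKP
    exact (mul_pw hP0 h1 (by positivity) h2).trans_eq (by norm_num)
  have hK21 : 1 ≤ K2 := by
    rw [hK2]
    have h1 : (1 : ℝ) ≤ K ^ 8 := one_le_pow₀ hK
    nlinarith
  rw [← hK2] at a3
  obtain ⟨A', hA'A, hA'ne, b1, b2⟩ := bsg hAne hK21 a3
  obtain ⟨K', hK'⟩ : ∃ K' : ℝ, K' = 2 ^ 47 * K2 ^ 18 := ⟨_, rfl⟩
  have hK'1 : 1 ≤ K' := by
    rw [hK']
    have h1 : (1 : ℝ) ≤ K2 ^ 18 := one_le_pow₀ hK21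
    nlinarith
  have hK'P : K' ≤ P ^ 713 := by
    rw [hK']
    have h1 := pow_pw (P := P) 47 (by norm_num) h2P
    have h2 := pow_pw (P := P) 18 (by linarith) hK2P
    exact (mul_pw hP0 h1 (by positivity) h2).trans_eq (by norm_num)
  rw [← hK'] at b2
  obtain ⟨K3, hK3⟩ : ∃ K3 : ℝ, K3 = 12 * K2 := ⟨_, rfl⟩
  have hK31 : 1 ≤ K3 := by rw [hK3]; linarith
  have hK3P : 2 * K3 ≤ P ^ 42 := by
    have h1 := pow_pw (P := P) 5 (by norm_num) h2P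
    have h2 := mul_pw hP0 h1 (by linarith) hK2P
    rw [hK3]
    calc 2 * (12 * K2) ≤ 2 ^ 5 * K2 := by linarith
      _ ≤ P ^ (1 * 5 + 37) := h2
      _ = P ^ 42 := by norm_num
  rw [← hK3] at b1
  have hinv : ∀ h ∈ H, ∀ x ∈ A, (h : ZMod p) * x ∈ A := by
    intro h hh x hx
    rw [hA, lev, Finset.mem_filter] at hx ⊢
    rw [hfH h hh x]
    exact ⟨Finset.mem_univ _, hx.2⟩
  obtain ⟨H1, -, c1, c2⟩ := popular H hinv hA'A hA'ne b1
  rw [← hd'] at c1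
  have hpow : ∀ a, a ≤ 3607 * N + 3607 + 713 + 1000 → P ^ a ≤ P ^ (3607 * N + 3607 + 713 + 1000) :=
    fun a ha => pow_le_pow_right₀ hP1 ha
  by_cases hH1 : 2 ≤ #H1
  swap
  · left
    have h1 : (#H1 : ℝ) ≤ 1 := by
      have : #H1 ≤ 1 := by omega
      exact_mod_cast this
    calc d ≤ 2 * K3 * #H1 := c1
      _ ≤ 2 * K3 * 1 := mul_le_mul_of_nonneg_left h1 (by linarith)
      _ = 2 * K3 := mul_one _
      _ ≤ P ^ 42 := hK3P
      _ ≤ _ := hpow 42 (by omega)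
  obtain ⟨T, hT⟩ : ∃ T : ℝ, T = 2 * K3 * K' ^ 5 := ⟨_, rfl⟩
  have hK'5 : 1 ≤ K' ^ 5 := one_le_pow₀ hK'1
  have hT1 : 1 ≤ T := by rw [hT]; nlinarith
  have hTK : K' ^ 5 ≤ T := by rw [hT]; nlinarith
  have hTP : T ≤ P ^ 3607 := by
    rw [hT]
    have h2 := pow_pw (P := P) 5 (by linarith) hK'P
    exact (mul_pw hP0 hK3P (by positivity) h2).trans_eq (by norm_num)
  obtain ⟨Y, hY, hQ⟩ := exists_cover hA'ne b2
  have hgood : ∀ r ∈ H1, Good (A' - A') T r := by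
    intro r hr
    refine (good_of_popular hA'ne b2 (c2 r hr)).mono ?_
    rw [hT]
    exact mul_le_mul_of_nonneg_left (pow_le_pow_right₀ hK'1 (by norm_num)) (by linarith)
  have hsym : ∀ x ∈ A' - A', -x ∈ A' - A' := by
    intro x hx
    obtain ⟨a, ha, b, hb, rfl⟩ := Finset.mem_sub.1 hx
    exact Finset.mem_sub.2 ⟨b, hb, a, ha, by ring⟩
  obtain ⟨R, hR1, hR2⟩ := exists_ring hT1 hsym (hY.trans hTK) hQ hH1 hgood 9
  rw [← hN] at hR1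
  obtain ⟨L, hL⟩ : ∃ L : ℝ, L = T ^ N * T * K' := ⟨_, rfl⟩
  have hT0 : 0 ≤ T := by linarith
  have hL0 : 0 ≤ L := by rw [hL]; positivity
  have hLP : L ≤ P ^ (3607 * N + 3607 + 713) := by
    rw [hL]
    exact mul_pw hP0 (mul_pw hP0 (pow_pw N hT0 hTP) hT0 hTP) (by linarith) hK'P
  have hcard : ∀ r ∈ R, (#(A' + dil r A') : ℝ) ≤ L * #A' := by
    intro r hr
    rw [hL]
    exact card_add_dil_le hA'ne b2 (hY.trans hTK) hQ (hR1 r hr)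
  have hA'A1 : (#A' : ℝ) ≤ #A := by exact_mod_cast Finset.card_le_card hA'A
  by_cases hbig : 2 * L ≤ #A'
  swap
  · left
    have hbig' : (#A' : ℝ) ≤ 2 * L := le_of_not_ge hbig
    have h1 : (1 : ℝ) ≤ 2 ^ 6 * K ^ 2 * (K3 * (2 * L) * κ) := by
      refine a2.trans (mul_le_mul_of_nonneg_left (mul_le_mul_of_nonneg_right ?_ hκ0.le)
        (by positivity))
      exact b1.trans (mul_le_mul_of_nonneg_left hbig' (by linarith))
    have h2 : d ≤ 2 ^ 6 * K ^ 2 * (K3 * (2 * L)) := by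
      have h3 : 0 ≤ 2 ^ 6 * K ^ 2 * (K3 * (2 * L)) := by
        have : 0 ≤ K3 := by linarith
        positivity
      calc d = d * 1 := (mul_one d).symm
        _ ≤ d * (2 ^ 6 * K ^ 2 * (K3 * (2 * L) * κ)) := mul_le_mul_of_nonneg_left h1 hd0
        _ = 2 ^ 6 * K ^ 2 * (K3 * (2 * L)) * (κ * d) := by ring
        _ ≤ 2 ^ 6 * K ^ 2 * (K3 * (2 * L)) * 1 := mul_le_mul_of_nonneg_left hd h3
        _ = _ := mul_one _
    have e1 := mul_pw hP0 (pow_pw (P := P) 6 (by norm_num) h2P) (by positivity)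
      (pow_pw (P := P) 2 hKp.le hKP)
    have e2 := mul_pw hP0 hK3P hL0 hLP
    have e3 : 0 ≤ 2 * K3 * L := by
      have : 0 ≤ K3 := by linarith
      positivity
    have e4 := mul_pw hP0 e1 e3 e2
    calc d ≤ 2 ^ 6 * K ^ 2 * (K3 * (2 * L)) := h2
      _ = 2 ^ 6 * K ^ 2 * (2 * K3 * L) := by ring
      _ ≤ _ := e4
      _ ≤ _ := hpow _ (by omega)
  · have h1 := card_le_of_small_sums hA'ne hcard hbig hL0
    have h2 : (#R : ℝ) * κ ≤ 2 * L * (16 * K) := by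
      calc (#R : ℝ) * κ ≤ 2 * L * #A' * κ := mul_le_mul_of_nonneg_right h1 hκ0.le
        _ ≤ 2 * L * #A * κ := mul_le_mul_of_nonneg_right
            (mul_le_mul_of_nonneg_left hA'A1 (by positivity)) hκ0.le
        _ = 2 * L * (#A * κ) := by ring
        _ ≤ 2 * L * (16 * K) := mul_le_mul_of_nonneg_left a1 (by positivity)
    right
    rcases le_total ((#H1 : ℝ) ^ (9 + 1) / 2 ^ 9) (((p : ℝ) - 1) / 2) with h3 | h3
    · left
      rw [min_eq_left h3] at hR2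
      have h4 : (#H1 : ℝ) ^ 10 ≤ 2 ^ 9 * #R := by
        rw [div_le_iff₀ (by positivity)] at hR2
        rw [mul_comm]
        exact hR2
      have h5 : d ^ 10 * κ ≤ (2 * K3) ^ 10 * (2 ^ 9 * (2 * L * (16 * K))) := by
        have hK30 : 0 ≤ K3 := by linarith
        calc d ^ 10 * κ ≤ (2 * K3 * #H1) ^ 10 * κ :=
              mul_le_mul_of_nonneg_right (pow_le_pow_left₀ hd0 c1 10) hκ0.le
          _ = (2 * K3) ^ 10 * ((#H1 : ℝ) ^ 10 * κ) := by ring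
          _ ≤ (2 * K3) ^ 10 * (2 ^ 9 * #R * κ) := by
              exact mul_le_mul_of_nonneg_left (mul_le_mul_of_nonneg_right h4 hκ0.le)
                (by positivity)
          _ = (2 * K3) ^ 10 * (2 ^ 9 * (#R * κ)) := by ring
          _ ≤ _ := by
              exact mul_le_mul_of_nonneg_left (mul_le_mul_of_nonneg_left h2 (by positivity))
                (by positivity)
      have e1 := pow_pw (P := P) 10 (by linarith : 0 ≤ 2 * K3) hK3P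
      have e2 := mul_pw hP0 (mul_pw hP0 (pow_pw (P := P) 14 (by norm_num) h2P) hKp.le hKP) hL0 hLP
      have e3 := mul_pw hP0 e1 (by positivity) e2
      calc d ^ 10 * κ ≤ (2 * K3) ^ 10 * (2 ^ 9 * (2 * L * (16 * K))) := h5
        _ = (2 * K3) ^ 10 * (2 ^ 14 * K * L) := by ring
        _ ≤ _ := e3
        _ ≤ _ := hpow _ (by omega)
    · right
      rw [min_eq_right h3] at hR2
      have hp2 : (2 : ℝ) ≤ p := by exact_mod_cast hp.out.two_le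
      have h4 : (p : ℝ) ≤ 4 * #R := by linarith
      have e2 := mul_pw hP0 (mul_pw hP0 (pow_pw (P := P) 7 (by norm_num) h2P) hKp.le hKP) hL0 hLP
      calc (p : ℝ) * κ ≤ 4 * #R * κ := mul_le_mul_of_nonneg_right h4 hκ0.le
        _ = 4 * (#R * κ) := by ring
        _ ≤ 4 * (2 * L * (16 * K)) := mul_le_mul_of_nonneg_left h2 (by norm_num)
        _ = 2 ^ 7 * K * L := by ring
        _ ≤ _ := e2
        _ ≤ _ := hpow _ (by omega)

end Pool.Agent.SPO
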