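import Pool.Agent.SPO.Growth
import Pool.Agent.SPO.Conv

/-!
# Package G10: iteration of the growth theorem

Let `E` be as in `growth` (we may increase `E` to `E ≥ 1`), `d = |H|`, `f = itc (unif H) j`,
`κ_j = sq (itc (unif H) j)`. `κ_0 = 1/d`, and `κ_{j+1} = en (itc (unif H) j) ≤ κ_j`
(`sq_conv_self`,
`sq_conv_self_le`), so `κ_j d ≤ 1` for all `j`.

Claim: if `κ_j > max(d^(-9), p^(-15/16))` and `d ≥ d₀` then `κ_{j+1} ≤ d^(-c) κ_j`, `c = 1/(32E)`.
Suppose
not: `K = d^c ≥ 1` has `sq f ≤ K en f`. All alternatives of `growth` give `d^(1/16) ≤ (2K)^E`: the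
first one because `d^(1/16) ≤ d`; the second because `d¹⁰κ_j ≥ d`; the third because
`pκ_j ≥ p^(1/16) ≥ d^(1/16)` (`d ≤ p - 1`). But `(2K)^E = 2^E d^(1/32) < d^(1/16)` if `d >
2^(32E)`.

Let `J` be a natural number with `J c ≥ 9` and `d₀ = 2^(32E) + 1`. If `κ_J > max(...)` then
(monotone)
`κ_j > max(...)` for all `j ≤ J`, so `κ_J ≤ d^(-cJ) κ_0 ≤ d^(-9)`, a contradiction.
-/

set_option autoImplicit false

namespace Pool.Agent.SPO

open Finset

theorem iter_bound : ∃ J d₀ : ℕ, ∀ (p : ℕ) [Fact p.Prime] (H : Subgroup (ZMod p)ˣ),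
    d₀ ≤ Nat.card H →
    sq (itc (unif H) J) ≤ max ((Nat.card H : ℝ) ^ (-9 : ℝ)) ((p : ℝ) ^ (-(15 / 16) : ℝ)) := by
  classical
  obtain ⟨E₀, hE₀⟩ := growth
  obtain ⟨E, hE, hEE⟩ : ∃ E : ℕ, 1 ≤ E ∧ E₀ ≤ E := ⟨E₀ + 1, by omega, by omega⟩
  refine ⟨288 * E, 2 ^ (32 * E) + 1, fun p hp H hd => ?_⟩
  have hE' : (0 : ℝ) < E := by exact_mod_cast hE
  obtain ⟨D, hD⟩ : ∃ D : ℝ, D = (Nat.card H : ℝ) := ⟨_, rfl⟩
  have hdD : (2 : ℝ) ^ (32 * E) < D := by
    rw [hD]
    have h1 : 2 ^ (32 * E) < Nat.card H := by omega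
    exact_mod_cast h1
  have hD1 : 1 < D := lt_of_le_of_lt (one_le_pow₀ (by norm_num)) hdD
  have hD0 : 0 < D := by linarith
  have hDp : D ≤ p := by
    rw [hD]
    have h1 : Nat.card H ≤ Nat.card (ZMod p)ˣ := Subgroup.card_le_card_group H
    have h2 : Nat.card (ZMod p)ˣ = p - 1 := by
      rw [Nat.card_eq_fintype_card, ZMod.card_units]
    have h3 : Nat.card H ≤ p := by omega
    exact_mod_cast h3
  have hp0 : (0 : ℝ) < p := by linarith
  have hf0 : ∀ j x, 0 ≤ itc (unif H) j x := fun j x => itc_nonneg (unif_nonneg H) j x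
  have hf1 : ∀ j, ∑ x, itc (unif H) j x = 1 := fun j => sum_itc (sum_unif H) j
  have hk0 : sq (itc (unif H) 0) = 1 / D := by
    rw [hD]
    exact sq_unif H
  have hks : ∀ j, sq (itc (unif H) (j + 1)) = en (itc (unif H) j) := fun j => sq_conv_self _
  have hkm : ∀ j, sq (itc (unif H) (j + 1)) ≤ sq (itc (unif H) j) := fun j =>
    sq_conv_self_le (hf0 j) (hf1 j)
  have hanti : Antitone fun j => sq (itc (unif H) j) := antitone_nat_of_succ_le hkm
  have hkD : ∀ j, sq (itc (unif H) j) * D ≤ 1 := by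
    intro j
    have h1 : sq (itc (unif H) j) ≤ 1 / D := by
      rw [← hk0]
      exact hanti (Nat.zero_le j)
    calc sq (itc (unif H) j) * D ≤ 1 / D * D := mul_le_mul_of_nonneg_right h1 hD0.le
      _ = 1 := by field_simp
  rw [← hD]
  set mx : ℝ := max (D ^ (-9 : ℝ)) ((p : ℝ) ^ (-(15 / 16) : ℝ)) with hmx
  obtain ⟨c, hc⟩ : ∃ c : ℝ, c = 1 / (32 * E) := ⟨_, rfl⟩
  have hc0 : 0 < c := by
    rw [hc]
    positivity
  have claim : ∀ j, mx < sq (itc (unif H) j) →
      sq (itc (unif H) (j + 1)) ≤ D ^ (-c) * sq (itc (unif H) j) := by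
    intro j hj
    by_contra hcon
    rw [not_le] at hcon
    have hK1 : 1 ≤ D ^ c := Real.one_le_rpow hD1.le hc0.le
    have hK0 : 0 < D ^ c := by linarith
    have h1 : sq (itc (unif H) j) ≤ D ^ c * en (itc (unif H) j) := by
      rw [← hks]
      have h2 : D ^ c * (D ^ (-c) * sq (itc (unif H) j)) = sq (itc (unif H) j) := by
        rw [← mul_assoc, ← Real.rpow_add hD0, add_neg_cancel, Real.rpow_zero, one_mul]
      rw [← h2]
      exact mul_le_mul_of_nonneg_left hcon.le hK0.le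
    have h2 : D ^ (1 / 16 : ℝ) ≤ (2 * D ^ c) ^ E := by
      have h2K : (1 : ℝ) ≤ 2 * D ^ c := by linarith
      have h3 : (2 * D ^ c) ^ E₀ ≤ (2 * D ^ c) ^ E := pow_le_pow_right₀ h2K hEE
      have h4 : D ^ (1 / 16 : ℝ) ≤ D := by
        calc D ^ (1 / 16 : ℝ) ≤ D ^ (1 : ℝ) := Real.rpow_le_rpow_of_exponent_le hD1.le (by norm_num)
          _ = D := Real.rpow_one D
      rcases hE₀ p H (itc (unif H) j) (D ^ c) hK1 (hf0 j) (hf1 j)
        (fun h hh x => itc_dil (fun y => unif_dil H hh y) j x) h1 (by rw [← hD]; exact hkD j)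
        with h | h | h
      · rw [← hD] at h
        exact h4.trans (h.trans h3)
      · rw [← hD] at h
        refine h4.trans (le_trans ?_ (h.trans h3))
        have h5 : D ^ (-9 : ℝ) ≤ sq (itc (unif H) j) := (le_max_left _ _).trans hj.le
        have h6 : D = D ^ 10 * D ^ (-9 : ℝ) := by
          rw [← Real.rpow_natCast D 10, ← Real.rpow_add hD0]
          norm_num
        calc D = D ^ 10 * D ^ (-9 : ℝ) := h6
          _ ≤ D ^ 10 * sq (itc (unif H) j) := mul_le_mul_of_nonneg_left h5 (by positivity)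
      · refine le_trans ?_ (h.trans h3)
        have h5 : (p : ℝ) ^ (-(15 / 16) : ℝ) ≤ sq (itc (unif H) j) :=
          (le_max_right _ _).trans hj.le
        have h6 : (p : ℝ) ^ (1 / 16 : ℝ) = p * (p : ℝ) ^ (-(15 / 16) : ℝ) := by
          nth_rewrite 2 [← Real.rpow_one (p : ℝ)]
          rw [← Real.rpow_add hp0]
          norm_num
        calc D ^ (1 / 16 : ℝ) ≤ (p : ℝ) ^ (1 / 16 : ℝ) :=
              Real.rpow_le_rpow hD0.le hDp (by norm_num)
          _ = p * (p : ℝ) ^ (-(15 / 16) : ℝ) := h6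
          _ ≤ p * sq (itc (unif H) j) := mul_le_mul_of_nonneg_left h5 hp0.le
    have h3 : (2 * D ^ c) ^ E = 2 ^ E * D ^ (1 / 32 : ℝ) := by
      rw [mul_pow, ← Real.rpow_natCast (D ^ c) E, ← Real.rpow_mul hD0.le]
      congr 2
      rw [hc]
      field_simp
    have h4 : (2 : ℝ) ^ E < D ^ (1 / 32 : ℝ) := by
      have h5 : (2 : ℝ) ^ E = ((2 : ℝ) ^ (32 * E)) ^ (1 / 32 : ℝ) := by
        rw [← Real.rpow_natCast 2 (32 * E), ← Real.rpow_natCast 2 E,
          ← Real.rpow_mul (by norm_num)]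
        congr 1
        push_cast
        ring
      rw [h5]
      exact Real.rpow_lt_rpow (by positivity) hdD (by norm_num)
    have h5 : D ^ (1 / 16 : ℝ) = D ^ (1 / 32 : ℝ) * D ^ (1 / 32 : ℝ) := by
      rw [← Real.rpow_add hD0]
      norm_num
    have h6 : 0 < D ^ (1 / 32 : ℝ) := Real.rpow_pos_of_pos hD0 _
    rw [h3, h5] at h2
    exact absurd (le_of_mul_le_mul_right h2 h6) (not_le.2 h4)
  by_contra hcon
  rw [not_le] at hcon
  have hall : ∀ j ≤ 288 * E, mx < sq (itc (unif H) j) := fun j hj => hcon.trans_le (hanti hj)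
  have hind : ∀ j ≤ 288 * E, sq (itc (unif H) j) ≤ D ^ (-(c * j)) * (1 / D) := by
    intro j
    induction j with
    | zero =>
      intro _
      rw [hk0]
      simp
    | succ j ih =>
      intro hj
      have h1 := ih (by omega)
      have h2 := claim j (hall j (by omega))
      refine h2.trans ?_
      calc D ^ (-c) * sq (itc (unif H) j) ≤ D ^ (-c) * (D ^ (-(c * j)) * (1 / D)) :=
            mul_le_mul_of_nonneg_left h1 (Real.rpow_nonneg hD0.le _)
        _ = D ^ (-(c * ((j + 1 : ℕ) : ℝ))) * (1 / D) := by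
            rw [← mul_assoc, ← Real.rpow_add hD0]
            congr 2
            push_cast
            ring
  have h1 := hind (288 * E) le_rfl
  have h2 : -(c * ((288 * E : ℕ) : ℝ)) = -9 := by
    rw [hc]
    push_cast
    field_simp
    norm_num
  rw [h2] at h1
  have h3 : D ^ (-9 : ℝ) * (1 / D) ≤ D ^ (-9 : ℝ) := by
    have h4 : 1 / D ≤ 1 := by
      rw [div_le_one hD0]
      exact hD1.le
    calc D ^ (-9 : ℝ) * (1 / D) ≤ D ^ (-9 : ℝ) * 1 :=
          mul_le_mul_of_nonneg_left h4 (Real.rpow_nonneg hD0.le _)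
      _ = D ^ (-9 : ℝ) := mul_one _
  exact absurd (h1.trans (h3.trans (le_max_left _ _))) (not_le.2 hcon)

end Pool.Agent.SPO
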