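import Mathlib

/-!
# Package P10: the field `ℚ(ζ_ℓ, 2^{1/ℓ})` and its degree

`KK ℓ` is the splitting field of `X^ℓ - 2` over `ℚ`; it is a number field and Galois over `ℚ`
(characteristic zero, `Polynomial.IsSplittingField`, `IsGalois.of_separable_splitting_field`).
`exists_gens`: `α` a root of `X^ℓ - 2`; all roots are `ζ^j α`, so for `ζ = α'/α` with another root
`α' ≠ α`
(`X^ℓ - 2` is separable) `ζ^ℓ = 1`, `ζ ≠ 1`, a primitive `ℓ`-th root of unity as `ℓ` is prime; and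
every
automorphism fixing `α` and `ζ` is the identity because the roots `ζ^j α` generate `KK ℓ`.
`degree_ge`: `ℓ` divides `[KK ℓ : ℚ]` (`X^ℓ - 2` is irreducible by Eisenstein at `2`, `α`
generates a subfield
of degree `ℓ`) and `ℓ - 1` divides it (`ζ` generates a subfield of degree `φ(ℓ) = ℓ - 1`); they
are coprime.
-/

set_option autoImplicit false

namespace Pool.Agent.SPO

open Polynomial NumberField

/-- the splitting field of `X^ℓ - 2` -/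
abbrev KK (ℓ : ℕ) : Type := (X ^ ℓ - C (2 : ℚ) : ℚ[X]).SplittingField

instance (ℓ : ℕ) : NumberField (KK ℓ) where
  to_charZero := charZero_of_injective_algebraMap (algebraMap ℚ (KK ℓ)).injective
  to_finiteDimensional := inferInstance

private theorem kk_isf (ℓ : ℕ) : IsSplittingField ℚ (KK ℓ) (X ^ ℓ - C (2 : ℚ)) := by
  have h := IsSplittingField.splittingField (X ^ ℓ - C (2 : ℚ))
  convert! h

private theorem kk_sep {ℓ : ℕ} (hℓ : ℓ.Prime) : (X ^ ℓ - C (2 : ℚ) : ℚ[X]).Separable :=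
  separable_X_pow_sub_C 2 (by exact_mod_cast hℓ.ne_zero) two_ne_zero

private theorem kk_irr {ℓ : ℕ} (hℓ : ℓ.Prime) : Irreducible (X ^ ℓ - C (2 : ℚ) : ℚ[X]) := by
  refine X_pow_sub_C_irreducible_of_prime hℓ fun b hb => ?_
  have hb0 : b ≠ 0 := by
    rintro rfl
    rw [zero_pow hℓ.ne_zero] at hb
    exact two_ne_zero hb.symm
  have h1 := congrArg (padicValRat 2) hb
  rw [padicValRat.pow] at h1
  have h2 : padicValRat 2 (2 : ℚ) = 1 := by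
    have h3 := padicValRat.self (p := 2) (by norm_num)
    simpa using h3
  rw [h2] at h1
  have h3 : (ℓ : ℤ) ∣ 1 := ⟨_, h1.symm⟩
  have h4 : ℓ ∣ 1 := by exact_mod_cast h3
  exact hℓ.one_lt.ne' (Nat.dvd_one.1 h4)

theorem isGalois_KK {ℓ : ℕ} (hℓ : ℓ.Prime) : IsGalois ℚ (KK ℓ) :=
  have := kk_isf ℓ
  IsGalois.of_separable_splitting_field (p := X ^ ℓ - C (2 : ℚ)) (kk_sep hℓ)

private theorem kk_mem {ℓ : ℕ} (hℓ : ℓ.Prime) {β : KK ℓ} :
    β ∈ (X ^ ℓ - C (2 : ℚ) : ℚ[X]).rootSet (KK ℓ) ↔ β ^ ℓ = 2 := by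
  rw [mem_rootSet, map_sub, map_pow, aeval_X, aeval_C, sub_eq_zero]
  have h1 : algebraMap ℚ (KK ℓ) 2 = 2 := map_ofNat _ 2
  rw [h1]
  exact ⟨fun h => h.2, fun h => ⟨(kk_irr hℓ).ne_zero, h⟩⟩

theorem exists_gens {ℓ : ℕ} (hℓ : ℓ.Prime) : ∃ α ζ : KK ℓ, α ^ ℓ = 2 ∧ IsPrimitiveRoot ζ ℓ ∧
    ∀ σ : KK ℓ ≃ₐ[ℚ] KK ℓ, σ α = α → σ ζ = ζ → σ = 1 := by
  have hisf := kk_isf ℓ
  have hcard : Fintype.card ((X ^ ℓ - C (2 : ℚ) : ℚ[X]).rootSet (KK ℓ)) = ℓ := by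
    rw [card_rootSet_eq_natDegree (kk_sep hℓ) hisf.splits, natDegree_X_pow_sub_C]
  obtain ⟨⟨α, hα⟩, ⟨α', hα'⟩, hne⟩ := Fintype.one_lt_card_iff.1
    (show 1 < Fintype.card ((X ^ ℓ - C (2 : ℚ) : ℚ[X]).rootSet (KK ℓ)) by
      rw [hcard]; exact hℓ.one_lt)
  have hne' : α ≠ α' := fun h => hne (Subtype.ext h)
  rw [kk_mem hℓ] at hα hα'
  have h2 : (2 : KK ℓ) ≠ 0 := two_ne_zero
  have hα0 : α ≠ 0 := by
    rintro rfl
    rw [zero_pow hℓ.ne_zero] at hα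
    exact h2 hα.symm
  have hζ1 : (α' / α) ^ ℓ = 1 := by rw [div_pow, hα, hα', div_self h2]
  have hζ2 : α' / α ≠ 1 := by
    intro h
    rw [div_eq_one_iff_eq hα0] at h
    exact hne' h.symm
  have hfact : Fact ℓ.Prime := ⟨hℓ⟩
  have hprim : IsPrimitiveRoot (α' / α) ℓ :=
    IsPrimitiveRoot.iff_orderOf.2 (orderOf_eq_prime hζ1 hζ2)
  refine ⟨α, α' / α, hα, hprim, fun σ hσα hσζ => ?_⟩
  have hhom : (σ : KK ℓ →ₐ[ℚ] KK ℓ) = AlgHom.id ℚ (KK ℓ) := by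
    refine AlgHom.ext_of_adjoin_eq_top hisf.adjoin_rootSet fun β hβ => ?_
    rw [kk_mem hℓ] at hβ
    have h3 : (β / α) ^ ℓ = 1 := by rw [div_pow, hα, hβ, div_self h2]
    have : NeZero ℓ := ⟨hℓ.ne_zero⟩
    obtain ⟨i, -, hi⟩ := hprim.eq_pow_of_pow_eq_one h3
    have h4 : β = (α' / α) ^ i * α := by rw [hi, div_mul_cancel₀ _ hα0]
    change σ β = β
    rw [h4, map_mul, map_pow, hσα, hσζ]
  ext x
  exact DFunLike.congr_fun hhom x

theorem degree_ge {ℓ : ℕ} (hℓ : ℓ.Prime) : ℓ * (ℓ - 1) ≤ Module.finrank ℚ (KK ℓ) := by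
  obtain ⟨α, ζ, hα, hζ, -⟩ := exists_gens hℓ
  have h1 : ℓ ∣ Module.finrank ℚ (KK ℓ) := by
    have h2 : minpoly ℚ α = X ^ ℓ - C (2 : ℚ) := by
      refine (minpoly.eq_of_irreducible_of_monic (kk_irr hℓ) ?_
        (monic_X_pow_sub_C _ hℓ.ne_zero)).symm
      rw [map_sub, map_pow, aeval_X, aeval_C, hα, sub_eq_zero]
      exact (map_ofNat (algebraMap ℚ (KK ℓ)) 2).symm
    have h3 := minpoly.degree_dvd (K := ℚ) (Algebra.IsIntegral.isIntegral (R := ℚ) α)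
    rwa [h2, natDegree_X_pow_sub_C] at h3
  have h4 : ℓ - 1 ∣ Module.finrank ℚ (KK ℓ) := by
    have h5 := minpoly.degree_dvd (K := ℚ) (Algebra.IsIntegral.isIntegral (R := ℚ) ζ)
    rwa [← cyclotomic_eq_minpoly_rat hζ hℓ.pos, natDegree_cyclotomic, Nat.totient_prime hℓ] at h5
  have h6 : Nat.Coprime ℓ (ℓ - 1) := by
    have h7 := hℓ.one_lt
    have h8 : ℓ = (ℓ - 1) + 1 := by omega
    rw [h8, Nat.add_sub_cancel]
    exact (Nat.coprime_self_add_left).2 (Nat.coprime_one_left _)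
  exact Nat.le_of_dvd Module.finrank_pos (h6.mul_dvd_of_dvd_of_dvd h1 h4)

end Pool.Agent.SPO
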