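import Pool.Agent.SPO.KField

/-!
# Package P11: complete splitting

Let `O = 𝓞 (KK ℓ)`, `n = [KK ℓ : ℚ]`, `α, ζ ∈ O` from `exists_gens` (integral). Let `P` be a prime
ideal of `O`
above `q`, `D = {σ ∈ Gal : σ P = P}`.

Claim: `D` is trivial. The residue field `O/P` has characteristic `q`. `q ≠ ℓ` as `ℓ ∣ q - 1`. The
class of
`ζ` satisfies `ζ^{q-1} = 1` (`ℓ ∣ q - 1`), and the class of `α` satisfies `α^{q-1} = 2^{(q-1)/ℓ} =
1` in `O/P` (by
`h2`: `q` divides the integer `2^{(q-1)/ℓ} - 1`). The polynomial `X^q - X` has all its roots in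
the prime
field, so there are integers `a, b` with `α - a ∈ P`, `ζ - b ∈ P`. For `σ ∈ D`: `σ(α - a) = σα - a
∈ σP = P`,
so `σα - α ∈ P`, and similarly `σζ - ζ ∈ P`. `σζ = ζ^j`; if `σζ ≠ ζ` then `ζ^j - ζ ∈ P` with
`ζ^{j-1} ≠ 1`, and
`∏_{i=1}^{ℓ-1} (1 - ζ^i) = ℓ` gives `ℓ ∈ P`, impossible (`q ≠ ℓ`). So `σζ = ζ`. `σα = ζ^i α`, and
`(ζ^i - 1) α ∈ P`: `α ∉ P` (`α^ℓ = 2`, `q ≠ 2`), so `ζ^i = 1` as before, `σα = α`, `σ = 1`.

In Mathlib: the decomposition group has order `e f` (ramification index times inertia degree) and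
`g e f = n` (`Ideal.ncard_primesOver_mul_ramificationIdxIn_mul_inertiaDegIn`), `Gal` acts
transitively
on the primes above `q` (`Ideal.isPretransitive_of_isGalois`). With trivial stabiliser the number
of
primes above `q` is `n` (orbit-stabiliser), so `e = f = 1` and each has norm `q^f = q`
(`Ideal.absNorm_eq_pow_inertiaDeg` or similar). `T` = the set of primes above `q`.
-/

set_option autoImplicit false

namespace Pool.Agent.SPO

open NumberField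
open scoped Pointwise

private theorem eq_of_sub_mem {R : Type*} [CommRing R] [IsDomain R] {P : Ideal R}
    (hP : P.IsPrime) {ℓ : ℕ} (hℓP : (ℓ : R) ∉ P) {x y : R} (hxy : x ^ ℓ = y ^ ℓ) (hy : y ∉ P)
    (h : x - y ∈ P) : x = y := by
  by_contra hne
  have h1 : (∑ i ∈ Finset.range ℓ, x ^ i * y ^ (ℓ - 1 - i)) * (x - y) = 0 := by
    rw [geom_sum₂_mul, hxy, sub_self]
  have h2 : (∑ i ∈ Finset.range ℓ, x ^ i * y ^ (ℓ - 1 - i)) = 0 :=
    (mul_eq_zero.1 h1).resolve_right (sub_ne_zero.2 hne)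
  have h3 : Ideal.Quotient.mk P x = Ideal.Quotient.mk P y := Ideal.Quotient.eq.2 h
  have h4 : Ideal.Quotient.mk P ((ℓ : R) * y ^ (ℓ - 1)) = 0 := by
    have h5 := congrArg (Ideal.Quotient.mk P) h2
    rw [map_sum, map_zero] at h5
    rw [map_mul, map_natCast, map_pow, ← geom_sum₂_self, ← h5]
    refine Finset.sum_congr rfl fun i _ => ?_
    rw [map_mul, map_pow, map_pow, h3]
  rcases hP.mem_or_mem (Ideal.Quotient.eq_zero_iff_mem.1 h4) with h6 | h6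
  · exact hℓP h6
  · exact hy (hP.mem_of_pow_mem _ h6)

private theorem exists_int {R : Type*} [CommRing R] {P : Ideal R} [P.IsMaximal] {q : ℕ}
    [Fact q.Prime] (hq : (q : R) ∈ P) {x : R} (hx : x ^ (q - 1) - 1 ∈ P) :
    ∃ a : ℤ, x - a ∈ P := by
  let _ := Ideal.Quotient.field P
  have : CharP (R ⧸ P) q := by
    have h0 : ((q : ℕ) : R ⧸ P) = 0 := by
      rw [← map_natCast (Ideal.Quotient.mk P)]
      exact Ideal.Quotient.eq_zero_iff_mem.2 hq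
    exact (CharP.charP_iff_prime_eq_zero Fact.out).2 h0
  have h1 : (Ideal.Quotient.mk P x) ^ (q - 1) = 1 := by
    rw [← map_pow, ← map_one (Ideal.Quotient.mk P)]
    exact Ideal.Quotient.eq.2 hx
  have h2 : (Ideal.Quotient.mk P x) ^ q = Ideal.Quotient.mk P x := by
    have h3 : q = (q - 1) + 1 := by
      have := (Fact.out : q.Prime).pos
      omega
    rw [h3, pow_succ, h1, one_mul]
  have h4 := (Subfield.mem_bot_iff_pow_eq_self (R ⧸ P) q).2 h2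
  obtain ⟨n, hn⟩ := (mem_bot_iff_intCast q _).1 h4
  refine ⟨n, Ideal.Quotient.eq.1 ?_⟩
  rw [map_intCast]
  exact hn.symm

private theorem two_pow_mem {R : Type*} [CommRing R] {P : Ideal R} {q m : ℕ}
    (hq : (q : R) ∈ P) (h2 : (2 : ZMod q) ^ m = 1) : (2 : R) ^ m - 1 ∈ P := by
  have h3 : (q : ℤ) ∣ 2 ^ m - 1 := by
    rw [← ZMod.intCast_zmod_eq_zero_iff_dvd]
    push_cast
    rw [h2, sub_self]
  obtain ⟨c, hc⟩ := h3
  have h4 : (2 : R) ^ m - 1 = (q : R) * (c : R) := by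
    have h5 := congrArg (Int.cast : ℤ → R) hc
    push_cast at h5
    exact h5
  rw [h4]
  exact P.mul_mem_right _ hq

theorem split_primes {ℓ q : ℕ} (hℓ : ℓ.Prime) (hq : q.Prime) (hq2 : q ≠ 2) (hdvd : ℓ ∣ q - 1)
    (h2 : (2 : ZMod q) ^ ((q - 1) / ℓ) = 1) :
    ∃ T : Finset (Ideal (𝓞 (KK ℓ))), T.card = Module.finrank ℚ (KK ℓ) ∧
      ∀ P ∈ T, P.IsPrime ∧ P ≠ ⊥ ∧ Ideal.absNorm P = q := by
  classical
  have := isGalois_KK hℓ
  have : Fact q.Prime := ⟨hq⟩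
  obtain ⟨α, ζ, hα, hζ, hgen⟩ := exists_gens hℓ
  have hℓ0 : 0 < ℓ := hℓ.pos
  have hqℓ : q ≠ ℓ := by
    rintro rfl
    have h3 := Nat.le_of_dvd (by have := hq.two_le; omega) hdvd
    have := hq.two_le
    omega
  obtain ⟨m, hm⟩ := hdvd
  have hm' : (q - 1) / ℓ = m := by
    rw [hm, Nat.mul_div_cancel_left _ hℓ0]
  rw [hm'] at h2
  -- the integral generators
  have hαi : IsIntegral ℤ α := by
    refine IsIntegral.of_pow hℓ0 ?_
    rw [hα]
    exact isIntegral_algebraMap (x := (2 : ℤ))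
  have hζi : IsIntegral ℤ ζ := hζ.isIntegral hℓ0
  let a : 𝓞 (KK ℓ) := ⟨α, hαi⟩
  let z : 𝓞 (KK ℓ) := ⟨ζ, hζi⟩
  have ha : a ^ ℓ = 2 := by
    refine RingOfIntegers.ext ?_
    exact hα
  have hz : z ^ ℓ = 1 := by
    refine RingOfIntegers.ext ?_
    exact hζ.pow_eq_one
  have hcoe : ∀ (σ : KK ℓ ≃ₐ[ℚ] KK ℓ) (x : 𝓞 (KK ℓ)), ((σ • x : 𝓞 (KK ℓ)) : KK ℓ) = σ x :=
    fun _ _ => rfl
  let p : Ideal ℤ := Ideal.span {(q : ℤ)}
  have hqZ : Prime (q : ℤ) := Nat.prime_iff_prime_int.1 hq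
  have hp : p.IsPrime := (Ideal.span_singleton_prime hqZ.ne_zero).2 hqZ
  have hp0 : p ≠ ⊥ := by
    intro h
    exact hqZ.ne_zero (Ideal.span_singleton_eq_bot.1 h)
  have hpm : p.IsMaximal := hp.isMaximal hp0
  -- the stabilisers are trivial
  have key : ∀ P : Ideal (𝓞 (KK ℓ)), P.IsPrime → P.LiesOver p → P ≠ ⊥ ∧
      ∀ σ : KK ℓ ≃ₐ[ℚ] KK ℓ, σ • P = P → σ = 1 := by
    intro P hP hPp
    have hqP : (q : 𝓞 (KK ℓ)) ∈ P := by
      have h3 : (q : ℤ) ∈ P.under ℤ := by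
        rw [← hPp.over]
        exact Ideal.mem_span_singleton_self _
      have h4 : algebraMap ℤ (𝓞 (KK ℓ)) (q : ℤ) ∈ P := h3
      rw [map_natCast] at h4
      exact h4
    have hPbot : P ≠ ⊥ := by
      rintro rfl
      have h3 : (q : 𝓞 (KK ℓ)) = 0 := hqP
      exact hq.ne_zero (by exact_mod_cast h3)
    refine ⟨hPbot, ?_⟩
    have hPm : P.IsMaximal := hP.isMaximal hPbot
    have hcop : ∀ r : ℕ, Nat.Coprime r q → (r : 𝓞 (KK ℓ)) ∉ P := by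
      intro r hr hrP
      refine hP.ne_top ((Ideal.eq_top_iff_one P).2 ?_)
      obtain ⟨u, v, huv⟩ := Int.isCoprime_iff_gcd_eq_one.2 (show Int.gcd (r : ℤ) (q : ℤ) = 1 by
        rw [Int.gcd_natCast_natCast]; exact hr)
      have h3 : (u : 𝓞 (KK ℓ)) * r + v * q = 1 := by
        have h4 := congrArg (Int.cast : ℤ → 𝓞 (KK ℓ)) huv
        push_cast at h4
        exact h4
      rw [← h3]
      exact P.add_mem (P.mul_mem_left _ hrP) (P.mul_mem_left _ hqP)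
    have hℓP : (ℓ : 𝓞 (KK ℓ)) ∉ P :=
      hcop ℓ ((Nat.coprime_primes hℓ hq).2 hqℓ.symm)
    have h2P : (2 : 𝓞 (KK ℓ)) ∉ P := by
      have h3 := hcop 2 ((Nat.coprime_primes Nat.prime_two hq).2 hq2.symm)
      exact_mod_cast h3
    have haP : a ∉ P := by
      intro h
      refine h2P ?_
      rw [← ha]
      exact P.pow_mem_of_mem h ℓ hℓ0
    have hzP : z ∉ P := by
      intro h
      refine hP.ne_top ((Ideal.eq_top_iff_one P).2 ?_)
      rw [← hz]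
      exact P.pow_mem_of_mem h ℓ hℓ0
    obtain ⟨c, hc⟩ : ∃ c : ℤ, a - c ∈ P := by
      refine exists_int hqP ?_
      rw [hm, pow_mul, ha]
      exact two_pow_mem hqP h2
    obtain ⟨d, hd⟩ : ∃ d : ℤ, z - d ∈ P := by
      refine exists_int hqP ?_
      rw [hm, pow_mul, hz, one_pow, sub_self]
      exact P.zero_mem
    intro σ hσ
    have hmem : ∀ x ∈ P, σ • x ∈ P := by
      intro x hx
      have h3 : σ • x ∈ σ • P := Ideal.smul_mem_pointwise_smul σ x P hx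
      rw [hσ] at h3
      exact h3
    have hsm : ∀ n : ℤ, σ • (n : 𝓞 (KK ℓ)) = n := fun n =>
      map_intCast (MulSemiringAction.toRingHom (KK ℓ ≃ₐ[ℚ] KK ℓ) (𝓞 (KK ℓ)) σ) n
    have hdiff : ∀ (x : 𝓞 (KK ℓ)) (n : ℤ), x - n ∈ P → σ • x - x ∈ P := by
      intro x n hx
      have h3 := hmem _ hx
      rw [smul_sub, hsm] at h3
      have h4 := P.sub_mem h3 hx
      rwa [sub_sub_sub_cancel_right] at h4
    have hza : σ • a = a := by
      refine eq_of_sub_mem hP hℓP ?_ haP (hdiff a c hc)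
      rw [← smul_pow', ha]
      exact hsm 2
    have hzz : σ • z = z := by
      refine eq_of_sub_mem hP hℓP ?_ hzP (hdiff z d hd)
      rw [← smul_pow', hz, smul_one]
    refine hgen σ ?_ ?_
    · exact congrArg (fun x : 𝓞 (KK ℓ) => (x : KK ℓ)) hza
    · exact congrArg (fun x : 𝓞 (KK ℓ) => (x : KK ℓ)) hzz
  -- counting
  obtain ⟨⟨P, hP, hPp⟩⟩ := (inferInstance : Nonempty (p.primesOver (𝓞 (KK ℓ))))
  have hcard : (p.primesOver (𝓞 (KK ℓ))).ncard = Nat.card (KK ℓ ≃ₐ[ℚ] KK ℓ) := by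
    rw [← Algebra.IsInvariant.orbit_eq_primesOver ℤ (𝓞 (KK ℓ)) (KK ℓ ≃ₐ[ℚ] KK ℓ) p P]
    have h3 := Nat.card_congr (MulAction.orbitProdStabilizerEquivGroup (KK ℓ ≃ₐ[ℚ] KK ℓ) P)
    rw [Nat.card_prod] at h3
    have h4 : Nat.card (MulAction.stabilizer (KK ℓ ≃ₐ[ℚ] KK ℓ) P) = 1 := by
      rw [Subgroup.card_eq_one, Subgroup.eq_bot_iff_forall]
      intro σ hσ
      exact (key P hP hPp).2 σ hσ
    rw [h4, mul_one] at h3
    exact h3
  have hfund := Ideal.ncard_primesOver_mul_ramificationIdxIn_mul_inertiaDegIn p (𝓞 (KK ℓ))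
    (KK ℓ ≃ₐ[ℚ] KK ℓ)
  have hfin : (p.primesOver (𝓞 (KK ℓ))).Finite := Algebra.QuasiFinite.finite_primesOver p
  have hpos : 0 < Nat.card (KK ℓ ≃ₐ[ℚ] KK ℓ) := Nat.card_pos
  rw [hcard] at hfund
  have hef : p.ramificationIdxIn (𝓞 (KK ℓ)) * p.inertiaDegIn (𝓞 (KK ℓ)) = 1 :=
    Nat.eq_of_mul_eq_mul_left hpos (by rw [hfund, mul_one])
  have hf : p.inertiaDegIn (𝓞 (KK ℓ)) = 1 := Nat.eq_one_of_mul_eq_one_left hef
  refine ⟨hfin.toFinset, ?_, ?_⟩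
  · rw [← Set.ncard_eq_toFinset_card _ hfin, hcard]
    exact IsGaloisGroup.card_eq_finrank (KK ℓ ≃ₐ[ℚ] KK ℓ) ℚ (KK ℓ)
  · intro Q hQ
    obtain ⟨hQ1, hQ2⟩ := hfin.mem_toFinset.1 hQ
    refine ⟨hQ1, (key Q hQ1 hQ2).1, ?_⟩
    have hQm : Q.IsMaximal := hQ1.isMaximal (key Q hQ1 hQ2).1
    have h5 := Ideal.absNorm_eq_pow_inertiaDeg' (p := q) Q hq
    rw [h5, Ideal.inertiaDeg'_eq_inertiaDeg]
    rw [← Ideal.inertiaDegIn_eq_inertiaDeg p Q (KK ℓ ≃ₐ[ℚ] KK ℓ), hf, pow_one]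

end Pool.Agent.SPO
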