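import Mathlib

/-!
# Package P09: prime ideals in a window, from the pole of the Dedekind zeta function

Copy the private lemmas `swt`, `ZZ`, `zz_empty_lim`, `zz_insert` (and what they need) of
`Pool/Agent/CMG/SplitTriv.lean`: `ZZ T s = ∑ N(I)^{-s}` over the nonzero ideals `I` which are not
divisible by
the primes of `T`; `(s-1) ZZ ∅ s → κ > 0` for `s ↓ 1`, and `ZZ T s = ZZ (insert q T) s + N(q)^{-s}
ZZ T s`. Also
`s ≤ t → ZZ T t ≤ ZZ T s` (`zz_anti` in `Pool/Agent/SLow/Dens.lean`).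

By induction on `T` (finite sets of primes): `ZZ T s = (∏_{P ∈ T} (1 - N(P)^{-s})) ZZ ∅ s` for `s
> 1` close to `1`
(finite values). Hence for `1 < s₁ < s₂` (close to `1`)
`ZZ ∅ s₁/ZZ ∅ s₂ = (ZZ T s₁/ZZ T s₂) ∏_{P ∈ T} (1 - N(P)^{-s₂})/(1 - N(P)^{-s₁})
  ≥ ∏_{P ∈ T} (1 - N(P)^{-s₂})/(1 - N(P)^{-s₁}) ≥ exp(∑_{P ∈ T} (N(P)^{-s₁} - N(P)^{-s₂}))`,
because `u ↦ -log(1-u) - u` is increasing on `[0, 1)`.
Let `s₁ = 1 + 1/log Y`, `s₂ = 1 + 2/log Y`. The left side tends to `2` for `Y → ∞`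
(`(s₂-1)/(s₁-1) = 2`), so it is `≤ 2.1` for large `Y`. If `Y < N ≤ Y²`, `u = log N/log Y ∈ (1,
2]`, then
`N^{-s₁} - N^{-s₂} = (1/N)(e^{-u} - e^{-2u}) ≥ (1/N)(e^{-2} - e^{-4}) ≥ 0.11/N` (`e^{-u} -
e^{-2u}` is decreasing for
`u ≥ log 2`). So `∑_{P ∈ T} 1/N(P) ≤ log(2.1)/0.11 ≤ 0.75/0.11 ≤ 7`.
-/

set_option autoImplicit false

namespace Pool.Agent.SPO

open Filter NumberField Topology UniqueFactorizationMonoid
open scoped ENNReal

section

variable {K : Type} [Field K] [NumberField K]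

/-- the summand of the zeta function -/
private noncomputable def swt (s : ℝ) (I : Ideal (𝓞 K)) : ℝ≥0∞ := ENNReal.ofReal ((Ideal.absNorm I : ℝ) ^ (-s))

private lemma swt_mul (s : ℝ) (I J : Ideal (𝓞 K)) : swt s (I * J) = swt s I * swt s J := by
  rw [swt, swt, swt, map_mul, Nat.cast_mul, Real.mul_rpow (Nat.cast_nonneg _) (Nat.cast_nonneg _),
    ENNReal.ofReal_mul (by positivity)]

open Classical in
/-- the sum over the nonzero ideals which are prime to `T` -/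
private noncomputable def ZZ (T : Finset (Ideal (𝓞 K))) (s : ℝ) : ℝ≥0∞ :=
  ∑' I : Ideal (𝓞 K), if I ≠ ⊥ ∧ ∀ p ∈ T, ¬ p ∣ I then swt s I else 0

variable (K) in
/-- the coefficients of the zeta function -/
private noncomputable def cf (s : ℝ) (n : ℕ) : ℝ :=
  if n = 0 then 0 else (Nat.card {I : Ideal (𝓞 K) // Ideal.absNorm I = n} : ℝ) * (n : ℝ) ^ (-s)

private lemma cf_nonneg (s : ℝ) (n : ℕ) : 0 ≤ cf K s n := by
  rw [cf]
  split_ifs
  · exact le_rfl
  · positivity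

private lemma zz_empty (s : ℝ) : ZZ (∅ : Finset (Ideal (𝓞 K))) s =
    ∑' n : ℕ, ENNReal.ofReal (cf K s n) := by
  classical
  rw [ZZ, ← (Equiv.sigmaFiberEquiv (fun I : Ideal (𝓞 K) => Ideal.absNorm I)).tsum_eq,
    ENNReal.tsum_sigma']
  refine tsum_congr fun n => ?_
  rw [cf]
  split_ifs with hn
  · rw [ENNReal.ofReal_zero, ENNReal.tsum_eq_zero]
    rintro ⟨I, hI⟩
    have h1 : I = ⊥ := Ideal.absNorm_eq_zero_iff.1 (hI.trans hn)
    simp [Equiv.sigmaFiberEquiv, h1]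
  · have hfin : Finite {I : Ideal (𝓞 K) // Ideal.absNorm I = n} :=
      Ideal.finite_setOfPred_absNorm_eq n
    have h2 : ∀ I : {I : Ideal (𝓞 K) // Ideal.absNorm I = n},
        (if (Equiv.sigmaFiberEquiv (fun I : Ideal (𝓞 K) => Ideal.absNorm I) ⟨n, I⟩) ≠ ⊥ ∧
          ∀ p ∈ (∅ : Finset (Ideal (𝓞 K))),
            ¬ p ∣ (Equiv.sigmaFiberEquiv (fun I : Ideal (𝓞 K) => Ideal.absNorm I) ⟨n, I⟩)
        then swt s (Equiv.sigmaFiberEquiv (fun I : Ideal (𝓞 K) => Ideal.absNorm I) ⟨n, I⟩)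
        else 0) = ENNReal.ofReal ((n : ℝ) ^ (-s)) := by
      rintro ⟨I, hI⟩
      have h1 : I ≠ ⊥ := by
        rintro rfl
        rw [Ideal.absNorm_bot] at hI
        exact hn hI.symm
      simp [Equiv.sigmaFiberEquiv, h1, swt, hI]
    rw [tsum_congr h2]
    have := Fintype.ofFinite {I : Ideal (𝓞 K) // Ideal.absNorm I = n}
    rw [tsum_fintype, Finset.sum_const, Finset.card_univ, nsmul_eq_mul, Nat.card_eq_fintype_card,
      ENNReal.ofReal_mul (Nat.cast_nonneg _), ENNReal.ofReal_natCast]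

private lemma zeta_eq_tsum (s : ℝ) :
    dedekindZeta K s = ((∑' n : ℕ, cf K s n : ℝ) : ℂ) := by
  rw [dedekindZeta, LSeries, Complex.ofReal_tsum]
  refine tsum_congr fun n => ?_
  rw [LSeries.term_def, cf]
  split_ifs with hn
  · simp
  · rw [Complex.ofReal_mul, Complex.ofReal_cpow (Nat.cast_nonneg n), Complex.ofReal_neg,
      Complex.ofReal_natCast, Complex.ofReal_natCast, Complex.cpow_neg, div_eq_mul_inv]

/-- the pole -/
private lemma zz_empty_lim : ∃ κ : ℝ, 0 < κ ∧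
    (∀ᶠ s in 𝓝[>] (1 : ℝ), ZZ (∅ : Finset (Ideal (𝓞 K))) s ≠ ⊤) ∧
    Tendsto (fun s : ℝ => (s - 1) * (ZZ (∅ : Finset (Ideal (𝓞 K))) s).toReal) (𝓝[>] 1) (𝓝 κ) := by
  have h1 := tendsto_sub_one_mul_dedekindZeta_nhdsGT K
  have h2 : Tendsto (fun s : ℝ => (s - 1) * ∑' n : ℕ, cf K s n) (𝓝[>] 1)
      (𝓝 (dedekindZeta_residue K)) := by
    have h3 := (Complex.continuous_re.tendsto _).comp h1
    refine (h3.congr fun s => ?_)
    rw [Function.comp_apply, zeta_eq_tsum, ← Complex.ofReal_one, ← Complex.ofReal_sub,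
      ← Complex.ofReal_mul, Complex.ofReal_re]
  have h3 : ∀ᶠ s in 𝓝[>] (1 : ℝ), Summable (cf K s) := by
    filter_upwards [h2.eventually (eventually_gt_nhds (dedekindZeta_residue_pos K))] with s hs
    by_contra h
    rw [tsum_eq_zero_of_not_summable h, mul_zero] at hs
    exact lt_irrefl _ hs
  refine ⟨dedekindZeta_residue K, dedekindZeta_residue_pos K, ?_, ?_⟩
  · filter_upwards [h3] with s hs
    rw [zz_empty, ← ENNReal.ofReal_tsum_of_nonneg (cf_nonneg s) hs]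
    exact ENNReal.ofReal_ne_top
  · refine h2.congr' ?_
    filter_upwards [h3] with s hs
    rw [zz_empty, ← ENNReal.ofReal_tsum_of_nonneg (cf_nonneg s) hs,
      ENNReal.toReal_ofReal (tsum_nonneg (cf_nonneg s))]

/-- one more prime -/
private lemma zz_insert {T : Finset (Ideal (𝓞 K))} (hT : ∀ p ∈ T, Prime p) {q : Ideal (𝓞 K)}
    (hq : Prime q) (hqT : q ∉ T) (s : ℝ) :
    ZZ T s = ZZ (insert q T) s + swt s q * ZZ T s := by
  classical
  conv_lhs => rw [ZZ]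
  conv_rhs => rw [ZZ, ZZ]
  have h1 : ∀ I : Ideal (𝓞 K), (if I ≠ ⊥ ∧ ∀ p ∈ T, ¬ p ∣ I then swt s I else 0) =
      (if I ≠ ⊥ ∧ ∀ p ∈ insert q T, ¬ p ∣ I then swt s I else 0) +
        (if (I ≠ ⊥ ∧ ∀ p ∈ T, ¬ p ∣ I) ∧ q ∣ I then swt s I else 0) := by
    intro I
    by_cases h2 : I ≠ ⊥ ∧ ∀ p ∈ T, ¬ p ∣ I
    · by_cases h3 : q ∣ I
      · rw [if_pos h2, if_neg, if_pos ⟨h2, h3⟩, zero_add]
        intro h4
        exact h4.2 q (Finset.mem_insert_self q T) h3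
      · rw [if_pos h2, if_pos, if_neg fun h4 => h3 h4.2, add_zero]
        refine ⟨h2.1, fun p hp => ?_⟩
        rcases Finset.mem_insert.1 hp with rfl | hp
        · exact h3
        · exact h2.2 p hp
    · rw [if_neg h2, if_neg, if_neg fun h4 => h2 h4.1, add_zero]
      intro h4
      exact h2 ⟨h4.1, fun p hp => h4.2 p (Finset.mem_insert_of_mem hp)⟩
  conv_lhs => rw [tsum_congr h1, ENNReal.tsum_add]
  congr 1
  rw [← ENNReal.tsum_mul_left]
  have hinj : Function.Injective fun J : Ideal (𝓞 K) => q * J := fun I J h =>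
    mul_left_cancel₀ hq.ne_zero h
  rw [← hinj.tsum_eq]
  · refine tsum_congr fun J => ?_
    have h2 : ((q * J ≠ ⊥ ∧ ∀ p ∈ T, ¬ p ∣ q * J) ∧ q ∣ q * J) ↔ (J ≠ ⊥ ∧ ∀ p ∈ T, ¬ p ∣ J) := by
      constructor
      · rintro ⟨⟨h3, h4⟩, -⟩
        refine ⟨?_, fun p hp h5 => h4 p hp (h5.mul_left q)⟩
        rintro rfl
        apply h3
        rw [← Ideal.zero_eq_bot, mul_zero]
      · rintro ⟨h3, h4⟩
        refine ⟨⟨?_, fun p hp h5 => ?_⟩, dvd_mul_right q J⟩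
        · rw [← Ideal.zero_eq_bot] at h3 ⊢
          exact mul_ne_zero hq.ne_zero h3
        · rcases (hT p hp).dvd_or_dvd h5 with h6 | h6
          · apply hqT
            have h7 := ((hT p hp).dvd_prime_iff_associated hq).1 h6
            rw [← associated_iff_eq.1 h7]
            exact hp
          · exact h4 p hp h6
    simp only [h2]
    split_ifs
    · rw [swt_mul]
    · rw [mul_zero]
  · intro I hI
    rw [Function.mem_support] at hI
    have h2 : (I ≠ ⊥ ∧ ∀ p ∈ T, ¬ p ∣ I) ∧ q ∣ I := by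
      by_contra h3
      rw [if_neg h3] at hI
      exact hI rfl
    obtain ⟨J, rfl⟩ := h2.2
    exact ⟨J, rfl⟩

private lemma one_le_norm {I : Ideal (𝓞 K)} (hI : I ≠ ⊥) : (1 : ℝ) ≤ (Ideal.absNorm I : ℝ) := by
  have h3 : Ideal.absNorm I ≠ 0 := fun h => hI (Ideal.absNorm_eq_zero_iff.1 h)
  exact_mod_cast Nat.one_le_iff_ne_zero.2 h3

private lemma swt_anti {s t : ℝ} (h : s ≤ t) {I : Ideal (𝓞 K)} (hI : I ≠ ⊥) :
    swt t I ≤ swt s I :=
  ENNReal.ofReal_le_ofReal (Real.rpow_le_rpow_of_exponent_le (one_le_norm hI) (by linarith))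

private lemma zz_anti (T : Finset (Ideal (𝓞 K))) {s t : ℝ} (h : s ≤ t) : ZZ T t ≤ ZZ T s := by
  classical
  unfold ZZ
  refine ENNReal.tsum_le_tsum fun I => ?_
  split_ifs with h1
  · exact swt_anti h h1.1
  · exact le_rfl

private lemma zz_ne_top {s : ℝ} (hs : 1 < s) : ZZ (∅ : Finset (Ideal (𝓞 K))) s ≠ ⊤ := by
  obtain ⟨κ, -, h1, -⟩ := zz_empty_lim (K := K)
  have h2 : ∀ᶠ t in 𝓝[>] (1 : ℝ), t < s :=
    (eventually_lt_nhds hs).filter_mono nhdsWithin_le_nhds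
  obtain ⟨t, ht1, ht2⟩ := (h1.and h2).exists
  exact ne_top_of_le_ne_top ht1 (zz_anti _ ht2.le)

private lemma zz_prod (T : Finset (Ideal (𝓞 K))) (hT : ∀ p ∈ T, Prime p) {s : ℝ} (hs : 1 < s) :
    ZZ T s ≠ ⊤ ∧ (ZZ T s).toReal = (ZZ (∅ : Finset (Ideal (𝓞 K))) s).toReal *
      ∏ P ∈ T, (1 - (Ideal.absNorm P : ℝ) ^ (-s)) := by
  classical
  induction T using Finset.induction_on with
  | empty =>
    refine ⟨zz_ne_top hs, ?_⟩
    rw [Finset.prod_empty, mul_one]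
  | insert q T hqT ih =>
    have hq := hT q (Finset.mem_insert_self q T)
    have hT' : ∀ p ∈ T, Prime p := fun p hp => hT p (Finset.mem_insert_of_mem hp)
    obtain ⟨h1, h2⟩ := ih hT'
    have h4 := zz_insert hT' hq hqT s
    have h5 : ZZ (insert q T) s ≠ ⊤ := fun h => h1 (by rw [h4, h, top_add])
    refine ⟨h5, ?_⟩
    have h6 : swt s q * ZZ T s ≠ ⊤ := ENNReal.mul_ne_top ENNReal.ofReal_ne_top h1
    have h7 := congrArg ENNReal.toReal h4
    rw [ENNReal.toReal_add h5 h6, ENNReal.toReal_mul, swt,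
      ENNReal.toReal_ofReal (by positivity), h2] at h7
    rw [Finset.prod_insert hqT]
    linear_combination -h7

end

private lemma one_sub_le {u v : ℝ} (hv : 0 ≤ v) (huv : v ≤ u) (hv1 : v ≤ 1) :
    1 - u ≤ (1 - v) * Real.exp (-(u - v)) := by
  have h1 := Real.add_one_le_exp (-(u - v))
  have h2 : (1 - v) * (-(u - v) + 1) ≤ (1 - v) * Real.exp (-(u - v)) :=
    mul_le_mul_of_nonneg_left h1 (by linarith)
  have h3 : 0 ≤ v * (u - v) := mul_nonneg hv (by linarith)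
  nlinarith

private lemma win_aux {N L : ℝ} (hN : 0 < N) (hL : 0 < L) (h1 : L < Real.log N)
    (h2 : Real.log N ≤ 2 * L) :
    0.11 * (1 / N) ≤ N ^ (-(1 + 1 / L)) - N ^ (-(1 + 2 / L)) := by
  have e1 : N ^ (-(1 + 1 / L)) = 1 / N * Real.exp (-(Real.log N / L)) := by
    rw [Real.rpow_def_of_pos hN]
    have : Real.log N * -(1 + 1 / L) = -Real.log N + -(Real.log N / L) := by
      field_simp
      ring
    rw [this, Real.exp_add, Real.exp_neg, Real.exp_log hN, one_div]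
  have e2 : N ^ (-(1 + 2 / L)) = 1 / N * Real.exp (-(Real.log N / L)) ^ 2 := by
    rw [Real.rpow_def_of_pos hN]
    have : Real.log N * -(1 + 2 / L) = -Real.log N + (-(Real.log N / L) + -(Real.log N / L)) := by
      field_simp
      ring
    rw [this, Real.exp_add, Real.exp_neg, Real.exp_log hN, one_div, Real.exp_add]
    ring
  rw [e1, e2]
  set x := Real.exp (-(Real.log N / L)) with hx
  have hu1 : 1 ≤ Real.log N / L := by
    rw [le_div_iff₀ hL]
    linarith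
  have hu2 : Real.log N / L ≤ 2 := by
    rw [div_le_iff₀ hL]
    exact h2
  have hx1 : x ≤ 0.5 := by
    have h3 : x ≤ Real.exp (-1) := Real.exp_le_exp.2 (by linarith)
    have h4 := Real.exp_neg_one_lt_d9
    norm_num at h4 ⊢
    linarith
  have hx2 : 0.135 ≤ x := by
    have h3 : Real.exp (-2) ≤ x := Real.exp_le_exp.2 (by linarith)
    have h4 := Real.exp_neg_one_gt_d9
    have h5 : Real.exp (-2) = Real.exp (-1) * Real.exp (-1) := by
      rw [← Real.exp_add]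
      norm_num
    norm_num at h4 ⊢
    nlinarith
  have h3 : 0.11 ≤ x - x ^ 2 := by nlinarith
  have h4 : (0 : ℝ) ≤ 1 / N := by positivity
  nlinarith [mul_le_mul_of_nonneg_right h3 h4]

private lemma exp_bound {x : ℝ} (h : Real.exp x ≤ 2.1) : x ≤ 0.75 := by
  by_contra h1
  push Not at h1
  have h2 : Real.exp 0.75 < 2.1 := lt_of_lt_of_le (Real.exp_lt_exp.2 h1) h
  have h3 : Real.exp 0.75 ^ 4 < 2.1 ^ 4 := pow_lt_pow_left₀ h2 (Real.exp_pos _).le (by norm_num)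
  have h4 : Real.exp 0.75 ^ 4 = Real.exp 1 ^ 3 := by
    rw [← Real.exp_nat_mul, ← Real.exp_nat_mul]
    norm_num
  rw [h4] at h3
  have h5 : (2.7 : ℝ) < Real.exp 1 := by
    have := Real.exp_one_gt_d9
    norm_num at this ⊢
    linarith
  have h6 : (2.7 : ℝ) ^ 3 < Real.exp 1 ^ 3 := pow_lt_pow_left₀ h5 (by norm_num) (by norm_num)
  norm_num at h3 h6
  linarith

private lemma tend_aux (c : ℝ) (hc : 0 < c) :
    Tendsto (fun Y : ℕ => 1 + c / Real.log Y) atTop (𝓝[>] 1) := by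
  have h0 : Tendsto (fun Y : ℕ => Real.log (Y : ℝ)) atTop atTop :=
    Real.tendsto_log_atTop.comp tendsto_natCast_atTop_atTop
  rw [tendsto_nhdsWithin_iff]
  constructor
  · have h1 : Tendsto (fun Y : ℕ => c / Real.log (Y : ℝ)) atTop (𝓝 0) := h0.const_div_atTop c
    have h2 := h1.const_add 1
    rwa [add_zero] at h2
  · filter_upwards [h0.eventually_gt_atTop 0] with Y hY
    have : 0 < c / Real.log (Y : ℝ) := div_pos hc hY
    simp only [Set.mem_Ioi]
    linarith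

theorem zeta_window (K : Type) [Field K] [NumberField K] : ∀ᶠ Y : ℕ in atTop,
    ∀ T : Finset (Ideal (𝓞 K)), (∀ P ∈ T, P.IsPrime ∧ P ≠ ⊥ ∧ Y < Ideal.absNorm P ∧
      Ideal.absNorm P ≤ Y ^ 2) → ∑ P ∈ T, (1 : ℝ) / Ideal.absNorm P ≤ 7 := by
  classical
  obtain ⟨κ, hκ, -, hlim⟩ := zz_empty_lim (K := K)
  have hl1 := (hlim.comp (tend_aux 1 one_pos)).eventually_lt_const
    (show κ < 1.01 * κ by norm_num; linarith)
  have hl2 := (hlim.comp (tend_aux 2 two_pos)).eventually_const_lt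
    (show 0.99 * κ < κ by norm_num; linarith)
  filter_upwards [hl1, hl2, eventually_ge_atTop 2] with Y hY1 hY2 hY3 T hT
  have hY3' : (2 : ℝ) ≤ (Y : ℝ) := by exact_mod_cast hY3
  have hL : 0 < Real.log (Y : ℝ) := Real.log_pos (by linarith)
  have hs1 : 1 < 1 + 1 / Real.log (Y : ℝ) := by
    have := div_pos one_pos hL
    linarith
  have hs2 : 1 < 1 + 2 / Real.log (Y : ℝ) := by
    have := div_pos two_pos hL
    linarith
  have hs12 : 1 + 1 / Real.log (Y : ℝ) ≤ 1 + 2 / Real.log (Y : ℝ) := by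
    have : 1 / Real.log (Y : ℝ) ≤ 2 / Real.log (Y : ℝ) :=
      div_le_div_of_nonneg_right (by norm_num) hL.le
    linarith
  have hTp : ∀ p ∈ T, Prime p := fun p hp => Ideal.prime_of_isPrime (hT p hp).2.1 (hT p hp).1
  obtain ⟨hf1, he1⟩ := zz_prod T hTp hs1
  obtain ⟨hf2, he2⟩ := zz_prod T hTp hs2
  have hle : (ZZ T (1 + 2 / Real.log (Y : ℝ))).toReal ≤ (ZZ T (1 + 1 / Real.log (Y : ℝ))).toReal :=
    ENNReal.toReal_mono hf1 (zz_anti T hs12)
  rw [he1, he2] at hle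
  simp only [Function.comp_apply] at hY1 hY2
  set a1 := (ZZ (∅ : Finset (Ideal (𝓞 K))) (1 + 1 / Real.log (Y : ℝ))).toReal with ha1
  set a2 := (ZZ (∅ : Finset (Ideal (𝓞 K))) (1 + 2 / Real.log (Y : ℝ))).toReal with ha2
  -- the ratio
  have hr : a1 ≤ 2.1 * a2 ∧ 0 < a2 := by
    have h1 : a1 < 1.01 * κ * Real.log (Y : ℝ) := by
      have h2 : (1 + 1 / Real.log (Y : ℝ) - 1) * a1 = a1 / Real.log (Y : ℝ) := by ring
      rw [h2, div_lt_iff₀ hL] at hY1
      exact hY1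
    have h3 : 0.99 * κ * Real.log (Y : ℝ) < 2 * a2 := by
      have h2 : (1 + 2 / Real.log (Y : ℝ) - 1) * a2 = 2 * a2 / Real.log (Y : ℝ) := by ring
      rw [h2, lt_div_iff₀ hL] at hY2
      exact hY2
    have h4 : 0 < κ * Real.log (Y : ℝ) := mul_pos hκ hL
    constructor
    · norm_num at h1 h3 ⊢
      nlinarith
    · norm_num at h3
      nlinarith
  obtain ⟨hr1, hr2⟩ := hr
  have hNp : ∀ P ∈ T, (Y : ℝ) < (Ideal.absNorm P : ℝ) := fun P hP => by
    exact_mod_cast (hT P hP).2.2.1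
  have hNp2 : ∀ P ∈ T, (Ideal.absNorm P : ℝ) ≤ (Y : ℝ) ^ 2 := fun P hP => by
    exact_mod_cast (hT P hP).2.2.2
  have hwin : ∀ P ∈ T, 0.11 * (1 / (Ideal.absNorm P : ℝ)) ≤
      (Ideal.absNorm P : ℝ) ^ (-(1 + 1 / Real.log (Y : ℝ))) -
        (Ideal.absNorm P : ℝ) ^ (-(1 + 2 / Real.log (Y : ℝ))) := by
    intro P hP
    have h1 := hNp P hP
    refine win_aux (by linarith) hL (Real.log_lt_log (by linarith) h1) ?_
    have h2 := Real.log_le_log (by linarith) (hNp2 P hP)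
    rwa [Real.log_pow, Nat.cast_ofNat] at h2
  have hv0 : ∀ P ∈ T, 0 < 1 - (Ideal.absNorm P : ℝ) ^ (-(1 + 2 / Real.log (Y : ℝ))) := by
    intro P hP
    have h1 := hNp P hP
    have h2 : (Ideal.absNorm P : ℝ) ^ (-(1 + 2 / Real.log (Y : ℝ))) < 1 :=
      Real.rpow_lt_one_of_one_lt_of_neg (by linarith) (by linarith)
    linarith
  have hprod : ∏ P ∈ T, (1 - (Ideal.absNorm P : ℝ) ^ (-(1 + 1 / Real.log (Y : ℝ)))) ≤
      (∏ P ∈ T, (1 - (Ideal.absNorm P : ℝ) ^ (-(1 + 2 / Real.log (Y : ℝ))))) *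
      Real.exp (-∑ P ∈ T, ((Ideal.absNorm P : ℝ) ^ (-(1 + 1 / Real.log (Y : ℝ))) -
        (Ideal.absNorm P : ℝ) ^ (-(1 + 2 / Real.log (Y : ℝ))))) := by
    rw [← Finset.sum_neg_distrib, Real.exp_sum, ← Finset.prod_mul_distrib]
    refine Finset.prod_le_prod ?_ ?_
    · intro P hP
      have h1 := hNp P hP
      have h2 : (Ideal.absNorm P : ℝ) ^ (-(1 + 1 / Real.log (Y : ℝ))) < 1 :=
        Real.rpow_lt_one_of_one_lt_of_neg (by linarith) (by linarith)
      linarith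
    · intro P hP
      have h1 := hNp P hP
      have h2 := hwin P hP
      have h3 : 0 ≤ 0.11 * (1 / (Ideal.absNorm P : ℝ)) := by positivity
      exact one_sub_le (by positivity) (by linarith) (by linarith [hv0 P hP])
  have hpp : 0 < ∏ P ∈ T, (1 - (Ideal.absNorm P : ℝ) ^ (-(1 + 2 / Real.log (Y : ℝ)))) :=
    Finset.prod_pos hv0
  set S := ∑ P ∈ T, ((Ideal.absNorm P : ℝ) ^ (-(1 + 1 / Real.log (Y : ℝ))) -
        (Ideal.absNorm P : ℝ) ^ (-(1 + 2 / Real.log (Y : ℝ)))) with hS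
  set Q := ∏ P ∈ T, (1 - (Ideal.absNorm P : ℝ) ^ (-(1 + 2 / Real.log (Y : ℝ)))) with hQ
  have ha10 : 0 ≤ a1 := ENNReal.toReal_nonneg
  have h1 : a2 * Q ≤ a1 * (Q * Real.exp (-S)) :=
    hle.trans (mul_le_mul_of_nonneg_left hprod ha10)
  have h2 : a2 ≤ a1 * Real.exp (-S) := by
    have h3 : a2 * Q ≤ (a1 * Real.exp (-S)) * Q := by linarith
    exact le_of_mul_le_mul_right h3 hpp
  have h3 : Real.exp S ≤ 2.1 := by
    have h4 : a2 * Real.exp S ≤ a1 := by
      have h5 := mul_le_mul_of_nonneg_right h2 (Real.exp_pos S).le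
      rwa [mul_assoc, ← Real.exp_add, neg_add_cancel, Real.exp_zero, mul_one] at h5
    have h5 : Real.exp S * a2 ≤ 2.1 * a2 := by linarith
    exact le_of_mul_le_mul_right h5 hr2
  have h4 := exp_bound h3
  have h5 : ∑ P ∈ T, 0.11 * (1 / (Ideal.absNorm P : ℝ)) ≤ S := Finset.sum_le_sum hwin
  rw [← Finset.mul_sum] at h5
  norm_num at h4 h5 ⊢
  linarith

end Pool.Agent.SPO
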