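import Pool.Agent.SPO.Defs
import Pool.Agent.SPO.ZetaWin
import Pool.Agent.SPO.KSplit

/-!
# Package P12: primes for which 2 is an `ℓ`-th power residue

Let `Y` be large as in `zeta_window (KK ℓ)`. For every `q` of the set take `T_q` from
`split_primes`; for
different `q` they are disjoint (norms `q`). The union `T` satisfies the hypothesis of
`zeta_window`, and
`∑_{P ∈ T} 1/N(P) = ∑_q n/q`, `n = [KK ℓ : ℚ] ≥ ℓ(ℓ-1)`. So `ℓ(ℓ-1) ∑ 1/q ≤ 7`.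
-/

set_option autoImplicit false

namespace Pool.Agent.SPO

open Finset Filter

theorem kummer_window {ℓ : ℕ} (hℓ : ℓ.Prime) : ∀ᶠ Y : ℕ in atTop,
    ∑ q ∈ (Ioc Y (Y ^ 2)).filter (fun q => (q.Prime ∧ q ≠ 2) ∧ ℓ ∣ q - 1 ∧
      (2 : ZMod q) ^ ((q - 1) / ℓ) = 1), (1 : ℝ) / q ≤ 7 / (ℓ * ((ℓ : ℝ) - 1)) := by
  classical
  filter_upwards [zeta_window (KK ℓ)] with Y hY
  obtain ⟨S, hS⟩ : ∃ S : Finset ℕ, S = (Ioc Y (Y ^ 2)).filter (fun q => (q.Prime ∧ q ≠ 2) ∧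
      ℓ ∣ q - 1 ∧ (2 : ZMod q) ^ ((q - 1) / ℓ) = 1) := ⟨_, rfl⟩
  rw [← hS]
  have hS' : ∀ q ∈ S, (Y < q ∧ q ≤ Y ^ 2) ∧ (q.Prime ∧ q ≠ 2) ∧ ℓ ∣ q - 1 ∧
      (2 : ZMod q) ^ ((q - 1) / ℓ) = 1 := by
    intro q hq
    rw [hS, mem_filter, mem_Ioc] at hq
    exact hq
  have hex : ∀ q, ∃ T : Finset (Ideal (NumberField.RingOfIntegers (KK ℓ))), q ∈ S →
      (T.card = Module.finrank ℚ (KK ℓ) ∧
        ∀ P ∈ T, P.IsPrime ∧ P ≠ ⊥ ∧ Ideal.absNorm P = q) := by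
    intro q
    by_cases hq : q ∈ S
    · obtain ⟨-, ⟨h2, h3⟩, h4, h5⟩ := hS' q hq
      obtain ⟨T, hT1, hT2⟩ := split_primes hℓ h2 h3 h4 h5
      exact ⟨T, fun _ => ⟨hT1, hT2⟩⟩
    · exact ⟨∅, fun h => absurd h hq⟩
  choose T hT using hex
  have h1 := hY (S.biUnion T) (by
    intro P hP
    obtain ⟨q, hq, hPq⟩ := Finset.mem_biUnion.1 hP
    obtain ⟨h2, h3, h4⟩ := (hT q hq).2 P hPq
    exact ⟨h2, h3, by rw [h4]; exact (hS' q hq).1.1, by rw [h4]; exact (hS' q hq).1.2⟩)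
  rw [Finset.sum_biUnion (by
    intro q hq q' hq' hne
    refine Finset.disjoint_left.2 fun P hP hP' => hne ?_
    rw [← ((hT q hq).2 P hP).2.2, ((hT q' hq').2 P hP').2.2])] at h1
  have h2 : ∀ q ∈ S, ∑ P ∈ T q, (1 : ℝ) / Ideal.absNorm P =
      (Module.finrank ℚ (KK ℓ) : ℝ) * (1 / q) := by
    intro q hq
    rw [← (hT q hq).1, ← nsmul_eq_mul, ← Finset.sum_const]
    refine Finset.sum_congr rfl fun P hP => ?_
    rw [((hT q hq).2 P hP).2.2]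
  rw [Finset.sum_congr rfl h2, ← Finset.mul_sum] at h1
  have h3 : (0 : ℝ) ≤ ∑ q ∈ S, (1 : ℝ) / q := Finset.sum_nonneg fun q _ => by positivity
  have h4 : ((ℓ : ℝ) * ((ℓ : ℝ) - 1)) ≤ (Module.finrank ℚ (KK ℓ) : ℝ) := by
    have h5 : ((ℓ * (ℓ - 1) : ℕ) : ℝ) ≤ (Module.finrank ℚ (KK ℓ) : ℝ) := by
      exact_mod_cast degree_ge hℓ
    rwa [Nat.cast_mul, Nat.cast_sub hℓ.one_le, Nat.cast_one] at h5
  have h6 : (2 : ℝ) ≤ (ℓ : ℝ) := by exact_mod_cast hℓ.two_le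
  rw [le_div_iff₀ (mul_pos (by linarith) (by linarith)), mul_comm]
  exact (mul_le_mul_of_nonneg_right h4 h3).trans h1

end Pool.Agent.SPO
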