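import Pool.Agent.SPO.Shift

/-!
# Package C02: sums of many powers of 2 are equidistributed modulo an odd number

`P = 1` is trivial (`ρ = 0` is not allowed for `k = 0`; use `ρ = 1/2`: both sides: the set is
everything,
`M^k/M^k - 1/1 = 0`). Let `P ≥ 3`, `o = orderOf (2 : ZMod P)`, `o ≥ 2` (`o = 1` would give `2 =
1`), `e = ZMod.stdAddChar`,
`φ(b) = (1/o) ∑_{j<o} e(b 2^j)`. For `b ≠ 0` the numbers `e(b)` and `e(2b)` of absolute value `1`
are different
(`ZMod.injective_stdAddChar`), so `‖φ(b)‖ < 1`. `ρ` = maximum of `‖φ(b)‖` over `b ≠ 0`.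

If `o ∣ M` then `(1/M) ∑_{x : ZMod M} e(b 2^{x.val}) = φ(b)` (each residue mod `o` occurs `M/o`
times), and by
orthogonality `#{a | SS P a = x}/M^k = (1/P) ∑_b e(-b x) φ(b)^k`; the term `b = 0` is `1/P`, the
others
contribute at most `ρ^k (P-1)/P` in absolute value.
-/

set_option autoImplicit false

namespace Pool.Agent.SPO

open Finset

/-- the standard additive character -/
private noncomputable def ee {P : ℕ} [NeZero P] (x : ZMod P) : ℂ := ZMod.stdAddChar x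

private theorem ee_norm {P : ℕ} [NeZero P] (x : ZMod P) : ‖ee x‖ = 1 := by
  rw [ee, ZMod.stdAddChar_apply, Circle.norm_coe]

private theorem ee_add {P : ℕ} [NeZero P] (x y : ZMod P) : ee (x + y) = ee x * ee y :=
  AddChar.map_add_eq_mul _ x y

private theorem ee_zero {P : ℕ} [NeZero P] : ee (0 : ZMod P) = 1 := AddChar.map_zero_eq_one _

private theorem ee_inj {P : ℕ} [NeZero P] {x y : ZMod P} (h : ee x = ee y) : x = y :=
  ZMod.injective_stdAddChar h

private theorem ee_sum {P : ℕ} [NeZero P] {ι : Type*} (s : Finset ι) (f : ι → ZMod P) :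
    ee (∑ i ∈ s, f i) = ∏ i ∈ s, ee (f i) := by
  classical
  induction s using Finset.induction_on with
  | empty => rw [sum_empty, prod_empty, ee_zero]
  | insert i s hi ih => rw [sum_insert hi, prod_insert hi, ee_add, ih]

private theorem ee_orth {P : ℕ} [NeZero P] (y : ZMod P) :
    ∑ b : ZMod P, ee (b * y) = if y = 0 then (P : ℂ) else 0 := by
  have h := AddChar.sum_mulShift (R' := ℂ) y (ZMod.isPrimitive_stdAddChar P)
  rw [ZMod.card] at h
  have h2 : ∑ b : ZMod P, ee (b * y) = ∑ x : ZMod P, ZMod.stdAddChar (x * y) := rfl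
  rw [h2, h]
  split_ifs <;> simp

private theorem norm_add_lt {z w : ℂ} (hz : ‖z‖ = 1) (hw : ‖w‖ = 1) (h : z ≠ w) :
    ‖z + w‖ < 2 := by
  have h1 := parallelogram_law_with_norm ℝ z w
  have h2 : 0 < ‖z - w‖ := norm_pos_iff.2 (sub_ne_zero.2 h)
  rw [hz, hw] at h1
  nlinarith [norm_nonneg (z + w)]

/-- the sum over a period -/
private noncomputable def ph {P : ℕ} [NeZero P] (b : ZMod P) : ℂ :=
  ∑ j ∈ range (orderOf (2 : ZMod P)), ee (b * 2 ^ j)

private theorem o_pos {P : ℕ} [NeZero P] (hodd : P % 2 = 1) : 0 < orderOf (2 : ZMod P) := by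
  have hc : Nat.Coprime 2 P := Nat.coprime_two_left.2 (Nat.odd_iff.2 hodd)
  have h1 : ((ZMod.unitOfCoprime 2 hc : (ZMod P)ˣ) : ZMod P) = 2 := by
    rw [ZMod.coe_unitOfCoprime]
    norm_num
  rw [← h1, orderOf_units]
  exact orderOf_pos _

private theorem ph_lt {P : ℕ} [NeZero P] (hodd : P % 2 = 1) {b : ZMod P} (hb : b ≠ 0) :
    ‖ph b‖ < orderOf (2 : ZMod P) := by
  have ho := o_pos hodd
  have ho1 : orderOf (2 : ZMod P) ≠ 1 := by
    intro h
    rw [orderOf_eq_one_iff] at h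
    have h1 : (1 : ZMod P) = 0 := by linear_combination h
    exact hb (by rw [← mul_one b, h1, mul_zero])
  obtain ⟨r, hr⟩ : ∃ r, orderOf (2 : ZMod P) = 2 + r := ⟨orderOf (2 : ZMod P) - 2, by omega⟩
  rw [ph, hr, sum_range_add, sum_range_succ, sum_range_one]
  have hne : ee (b * 2 ^ 0) ≠ ee (b * 2 ^ 1) := by
    intro h
    have h1 := ee_inj h
    rw [pow_zero, pow_one, mul_one] at h1
    exact hb (by linear_combination -h1)
  have h1 := norm_add_lt (ee_norm _) (ee_norm _) hne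
  have h2 : ‖∑ x ∈ range r, ee (b * 2 ^ (2 + x))‖ ≤ r := by
    refine (norm_sum_le _ _).trans (le_of_eq ?_)
    simp [ee_norm]
  refine (norm_add_le _ _).trans_lt ?_
  push_cast
  linarith

private theorem sum_period (g : ℕ → ℂ) (o m : ℕ) (hg : ∀ n, g (n + o) = g n) :
    ∑ n ∈ range (o * m), g n = m * ∑ n ∈ range o, g n := by
  induction m with
  | zero => simp
  | succ m ih =>
    have h1 : ∀ k n, g (o * k + n) = g n := by
      intro k n
      induction k with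
      | zero => simp
      | succ k ihk =>
        rw [← ihk, ← hg (o * k + n)]
        congr 1
        ring
    rw [mul_add, mul_one, sum_range_add, ih, sum_congr rfl fun n _ => h1 m n]
    push_cast
    ring

private theorem sum_zmod (M : ℕ) [NeZero M] (g : ℕ → ℂ) :
    ∑ x : ZMod M, g x.val = ∑ n ∈ range M, g n := by
  obtain ⟨m, rfl⟩ : ∃ m, M = m + 1 := ⟨M - 1, by have := NeZero.pos M; omega⟩
  exact Fin.sum_univ_eq_sum_range g (m + 1)

private theorem sum_M {P : ℕ} [NeZero P] (M : ℕ) [NeZero M]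
    (h : orderOf (2 : ZMod P) ∣ M) (b : ZMod P) :
    ∑ x : ZMod M, ee (b * 2 ^ x.val) = ((M / orderOf (2 : ZMod P) : ℕ) : ℂ) * ph b := by
  obtain ⟨m, hm⟩ := h
  have ho : 0 < orderOf (2 : ZMod P) := by
    rcases Nat.eq_zero_or_pos (orderOf (2 : ZMod P)) with h0 | h0
    · exact absurd (by rw [hm, h0, zero_mul]) (NeZero.ne M)
    · exact h0
  rw [sum_zmod M fun n => ee (b * 2 ^ n), ph]
  have h1 : M / orderOf (2 : ZMod P) = m := by
    rw [hm, Nat.mul_div_cancel_left _ ho]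
  rw [h1]
  nth_rewrite 1 [hm]
  refine sum_period (fun n => ee (b * 2 ^ n)) _ m fun n => ?_
  have h2 : (2 : ZMod P) ^ (n + orderOf (2 : ZMod P)) = 2 ^ n := by
    rw [pow_add, pow_orderOf_eq_one, mul_one]
  change ee (b * 2 ^ (n + orderOf (2 : ZMod P))) = ee (b * 2 ^ n)
  rw [h2]

private theorem count_eq {P : ℕ} [NeZero P] (k M : ℕ) [NeZero M] (x : ZMod P) :
    (P : ℂ) * (#{a : Fin k → ZMod M | SS P a = x} : ℂ) =
      ∑ b : ZMod P, ee (b * -x) * (∑ y : ZMod M, ee (b * 2 ^ y.val)) ^ k := by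
  have h1 : ∀ a : Fin k → ZMod M, (if SS P a = x then (P : ℂ) else 0) =
      ∑ b : ZMod P, ee (b * -x) * ∏ m, ee (b * 2 ^ (a m).val) := by
    intro a
    have h2 := ee_orth (SS P a - x)
    simp only [sub_eq_zero] at h2
    rw [← h2]
    refine sum_congr rfl fun b _ => ?_
    rw [← ee_sum, ← ee_add, ← mul_sum]
    congr 1
    rw [SS]
    ring
  have h3 : (P : ℂ) * (#{a : Fin k → ZMod M | SS P a = x} : ℂ) =
      ∑ a : Fin k → ZMod M, if SS P a = x then (P : ℂ) else 0 := by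
    rw [card_filter]
    push_cast
    rw [mul_sum]
    refine sum_congr rfl fun a _ => ?_
    split_ifs <;> simp
  rw [h3, sum_congr rfl fun a _ => h1 a, sum_comm]
  refine sum_congr rfl fun b _ => ?_
  rw [← mul_sum, Fintype.sum_pow]

theorem mix (P : ℕ) [NeZero P] (hodd : P % 2 = 1) : ∃ ρ : ℝ, 0 ≤ ρ ∧ ρ < 1 ∧
    ∀ (k M : ℕ) [NeZero M], orderOf (2 : ZMod P) ∣ M → ∀ x : ZMod P,
      |(#{a : Fin k → ZMod M | SS P a = x} : ℝ) / (M : ℝ) ^ k - 1 / P| ≤ ρ ^ k := by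
  classical
  have ho : (0 : ℝ) < orderOf (2 : ZMod P) := by exact_mod_cast o_pos hodd
  obtain ⟨ρ, hρ0, hρ1, hρ⟩ : ∃ ρ : ℝ, 0 ≤ ρ ∧ ρ < 1 ∧
      ∀ b : ZMod P, b ≠ 0 → ‖ph b‖ ≤ ρ * orderOf (2 : ZMod P) := by
    obtain ⟨b₀, hb₀⟩ := Finite.exists_max fun b : ZMod P =>
      if b = 0 then (0 : ℝ) else ‖ph b‖ / orderOf (2 : ZMod P)
    refine ⟨if b₀ = 0 then (0 : ℝ) else ‖ph b₀‖ / orderOf (2 : ZMod P), ?_, ?_, fun b hb => ?_⟩
    · split_ifs
      · exact le_rfl
      · positivity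
    · split_ifs with h
      · exact zero_lt_one
      · rw [div_lt_one ho]
        exact ph_lt hodd h
    · have h1 := hb₀ b
      simp only [if_neg hb] at h1
      rw [div_le_iff₀ ho] at h1
      exact h1
  refine ⟨ρ, hρ0, hρ1, fun k M hM hdvd x => ?_⟩
  have hMr : (0 : ℝ) < M := by exact_mod_cast NeZero.pos M
  have hPr : (0 : ℝ) < P := by exact_mod_cast NeZero.pos P
  have hG : ∀ b : ZMod P, b ≠ 0 → ‖∑ y : ZMod M, ee (b * 2 ^ y.val)‖ ≤ ρ * M := by
    intro b hb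
    rw [sum_M M hdvd b, norm_mul, Complex.norm_natCast]
    have h1 : ((M / orderOf (2 : ZMod P) : ℕ) : ℝ) * orderOf (2 : ZMod P) = M := by
      exact_mod_cast Nat.div_mul_cancel hdvd
    calc ((M / orderOf (2 : ZMod P) : ℕ) : ℝ) * ‖ph b‖ ≤
          ((M / orderOf (2 : ZMod P) : ℕ) : ℝ) * (ρ * orderOf (2 : ZMod P)) :=
          mul_le_mul_of_nonneg_left (hρ b hb) (Nat.cast_nonneg _)
      _ = ρ * (((M / orderOf (2 : ZMod P) : ℕ) : ℝ) * orderOf (2 : ZMod P)) := by ring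
      _ = ρ * M := by rw [h1]
  have h0 : ee ((0 : ZMod P) * -x) * (∑ y : ZMod M, ee ((0 : ZMod P) * 2 ^ y.val)) ^ k =
      (M : ℂ) ^ k := by
    simp only [zero_mul, ee_zero, one_mul, sum_const, card_univ, ZMod.card, nsmul_eq_mul, mul_one]
  have h1 : (P : ℂ) * (#{a : Fin k → ZMod M | SS P a = x} : ℂ) - (M : ℂ) ^ k =
      ∑ b ∈ univ.erase (0 : ZMod P), ee (b * -x) * (∑ y : ZMod M, ee (b * 2 ^ y.val)) ^ k := by
    rw [count_eq, ← add_sum_erase univ _ (mem_univ (0 : ZMod P)), h0, add_sub_cancel_left]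
  have h2 : ‖(P : ℂ) * (#{a : Fin k → ZMod M | SS P a = x} : ℂ) - (M : ℂ) ^ k‖ ≤
      P * (ρ * M) ^ k := by
    rw [h1]
    refine (norm_sum_le _ _).trans ?_
    calc ∑ b ∈ univ.erase (0 : ZMod P), ‖ee (b * -x) * (∑ y : ZMod M, ee (b * 2 ^ y.val)) ^ k‖ ≤
          ∑ b ∈ univ.erase (0 : ZMod P), (ρ * M) ^ k := by
          refine sum_le_sum fun b hb => ?_
          rw [norm_mul, ee_norm, one_mul, norm_pow]
          exact pow_le_pow_left₀ (norm_nonneg _) (hG b (mem_erase.1 hb).1) k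
      _ ≤ ∑ b : ZMod P, (ρ * M) ^ k :=
          sum_le_sum_of_subset_of_nonneg (erase_subset _ _) fun _ _ _ => by positivity
      _ = P * (ρ * M) ^ k := by
          rw [sum_const, card_univ, ZMod.card, nsmul_eq_mul]
  have h3 : (P : ℂ) * (#{a : Fin k → ZMod M | SS P a = x} : ℂ) - (M : ℂ) ^ k =
      (((P : ℝ) * (#{a : Fin k → ZMod M | SS P a = x} : ℝ) - (M : ℝ) ^ k : ℝ) : ℂ) := by
    push_cast
    ring
  rw [h3, Complex.norm_real, Real.norm_eq_abs] at h2
  have h4 : (#{a : Fin k → ZMod M | SS P a = x} : ℝ) / (M : ℝ) ^ k - 1 / P =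
      ((P : ℝ) * (#{a : Fin k → ZMod M | SS P a = x} : ℝ) - (M : ℝ) ^ k) / (P * (M : ℝ) ^ k) := by
    field_simp
  rw [h4, abs_div, abs_of_pos (by positivity : (0 : ℝ) < P * (M : ℝ) ^ k),
    div_le_iff₀ (by positivity)]
  refine h2.trans (le_of_eq ?_)
  rw [mul_pow]
  ring

end Pool.Agent.SPO
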