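import Mathlib

/-!
# Package C05: the recursion over the scales (real numbers only)

`exists_eta`: the series `∑ B^t C exp(-(c 2^(t-1)))` converges (ratio test; `exp(-u) ≤ n!/u^n`),
choose `T` with
`∑_{t > T} ≤ 1/64`, then `η` with `η ∑_{t ≤ T} B^t ≤ 1/64` and `η ≤ η'`.

`recur`: by induction on `i` from `i₁` prove the stronger statement: `W (i'+1) ≥ W i'/2` for `i₁ ≤
i' < i`.
Given this, `W i' ≥ w₀/2^(i'-i₁) > 0` for `i₁ ≤ i' ≤ i`, and `W j ≤ 4 B^(i-j) W i` for all `j ≤ i`
(for `j ≥ i₁` because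
`W j ≤ 2^(i-j) W i`, for `j < i₁` by `h1` and `B ≥ 2`). So
`∑_t σ i t · 2 W (i-t) ≤ 8 W i ∑_t B^t σ i t ≤ W i/4`, and `β i ≤ w₀/2^(i-i₁)/4 ≤ W i/4`; `h2`
gives
`W (i+1) ≥ W i/2`.
-/

set_option autoImplicit false

namespace Pool.Agent.SPO

open Finset

theorem exists_eta {B C c η' : ℝ} (hB : 1 ≤ B) (hC : 0 < C) (hc : 0 < c) (hη' : 0 < η') :
    ∃ η : ℝ, 0 < η ∧ η ≤ η' ∧ ∀ (i : ℕ) (σ : ℕ → ℝ), (∀ t, 0 ≤ σ t ∧ σ t ≤ η) →
      (∀ t ≥ 1, σ t ≤ C * Real.exp (-(c * 2 ^ (t - 1)))) →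
      ∑ t ∈ range (i + 1), B ^ t * σ t ≤ 1 / 32 := by
  have hB0 : 0 < B := by linarith
  obtain ⟨n, hn⟩ := pow_unbounded_of_one_lt (2 * B) (one_lt_two)
  obtain ⟨K, hK⟩ : ∃ K : ℝ, K = B * C * (n.factorial : ℝ) / c ^ n := ⟨_, rfl⟩
  have hK0 : 0 < K := by
    rw [hK]
    positivity
  have key : ∀ s : ℕ, B ^ (s + 1) * (C * Real.exp (-(c * 2 ^ s))) ≤ K * (1 / 2) ^ s := by
    intro s
    have hu : 0 < c * 2 ^ s := by positivity
    have h1 : Real.exp (-(c * 2 ^ s)) ≤ (n.factorial : ℝ) / (c * 2 ^ s) ^ n := by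
      have h2 := Real.pow_div_factorial_le_exp (c * 2 ^ s) hu.le n
      rw [Real.exp_neg, inv_eq_one_div, div_le_div_iff₀ (Real.exp_pos _) (by positivity), one_mul]
      rw [div_le_iff₀ (by positivity)] at h2
      linarith
    have h2 : B / 2 ^ n ≤ 1 / 2 := by
      rw [div_le_div_iff₀ (by positivity) (by norm_num)]
      linarith
    calc B ^ (s + 1) * (C * Real.exp (-(c * 2 ^ s)))
        ≤ B ^ (s + 1) * (C * ((n.factorial : ℝ) / (c * 2 ^ s) ^ n)) := by gcongr
      _ = K * (B / 2 ^ n) ^ s := by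
          rw [hK, div_pow, mul_pow, ← pow_mul, ← pow_mul, mul_comm s n, pow_succ]
          field_simp
      _ ≤ K * (1 / 2) ^ s := by gcongr
  obtain ⟨T, hT⟩ := exists_pow_lt_of_lt_one (show (0 : ℝ) < 1 / (128 * K) by positivity)
    (show (1 / 2 : ℝ) < 1 by norm_num)
  have hT' : K * (1 / 2) ^ T * 2 ≤ 1 / 64 := by
    rw [lt_div_iff₀ (by positivity)] at hT
    linarith
  obtain ⟨S, hS⟩ : ∃ S : ℝ, S = ∑ t ∈ range (T + 1), B ^ t := ⟨_, rfl⟩
  have hS0 : 0 < S := by
    rw [hS]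
    exact sum_pos (fun t _ => by positivity) ⟨0, mem_range.2 (by omega)⟩
  refine ⟨min η' (1 / (64 * S)), lt_min hη' (by positivity), min_le_left _ _, ?_⟩
  intro i σ h1 h2
  have hη1 : min η' (1 / (64 * S)) * S ≤ 1 / 64 := by
    calc min η' (1 / (64 * S)) * S ≤ 1 / (64 * S) * S :=
          mul_le_mul_of_nonneg_right (min_le_right _ _) hS0.le
      _ = 1 / 64 := by field_simp
  have h3 : ∀ m ≤ T + 1, ∑ t ∈ range m, B ^ t * σ t ≤ 1 / 64 := by
    intro m hm
    calc ∑ t ∈ range m, B ^ t * σ t ≤ ∑ t ∈ range (T + 1), B ^ t * σ t :=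
          sum_le_sum_of_subset_of_nonneg (range_subset_range.2 hm)
            fun t _ _ => mul_nonneg (by positivity) (h1 t).1
      _ ≤ ∑ t ∈ range (T + 1), B ^ t * min η' (1 / (64 * S)) :=
          sum_le_sum fun t _ => mul_le_mul_of_nonneg_left (h1 t).2 (by positivity)
      _ = min η' (1 / (64 * S)) * S := by rw [← sum_mul, ← hS, mul_comm]
      _ ≤ 1 / 64 := hη1
  rcases Nat.lt_or_ge i (T + 1) with h4 | h4
  · have h5 := h3 (i + 1) (by omega)
    linarith
  · obtain ⟨r, hr⟩ : ∃ r, i + 1 = (T + 1) + r := ⟨i - T, by omega⟩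
    rw [hr, sum_range_add]
    have h5 := h3 (T + 1) le_rfl
    have h6 : ∑ x ∈ range r, B ^ (T + 1 + x) * σ (T + 1 + x) ≤ 1 / 64 := by
      calc ∑ x ∈ range r, B ^ (T + 1 + x) * σ (T + 1 + x)
          ≤ ∑ x ∈ range r, K * (1 / 2) ^ T * (1 / 2) ^ x := by
            refine sum_le_sum fun x _ => ?_
            have h7 := h2 (T + 1 + x) (by omega)
            have e1 : T + 1 + x - 1 = T + x := by omega
            have e2 : T + 1 + x = (T + x) + 1 := by omega
            rw [e1] at h7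
            calc B ^ (T + 1 + x) * σ (T + 1 + x)
                ≤ B ^ (T + 1 + x) * (C * Real.exp (-(c * 2 ^ (T + x)))) :=
                  mul_le_mul_of_nonneg_left h7 (by positivity)
              _ = B ^ ((T + x) + 1) * (C * Real.exp (-(c * 2 ^ (T + x)))) := by rw [e2]
              _ ≤ K * (1 / 2) ^ (T + x) := key (T + x)
              _ = K * (1 / 2) ^ T * (1 / 2) ^ x := by rw [pow_add, mul_assoc]
        _ = K * (1 / 2) ^ T * ∑ x ∈ range r, (1 / 2 : ℝ) ^ x := by rw [mul_sum]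
        _ ≤ K * (1 / 2) ^ T * 2 :=
            mul_le_mul_of_nonneg_left (sum_geometric_two_le r) (by positivity)
        _ ≤ 1 / 64 := hT'
    linarith

theorem recur {B w₀ : ℝ} {W : ℕ → ℝ} {σ : ℕ → ℕ → ℝ} {β : ℕ → ℝ} {i₁ I : ℕ} (hB : 2 ≤ B)
    (h1 : ∀ j ≤ i₁, W j ≤ 4 * B ^ (i₁ - j) * W i₁)
    (h2 : ∀ i, i₁ ≤ i → i < I →
      W i - ∑ t ∈ range (i + 1), σ i t * (2 * W (i - t)) - β i ≤ W (i + 1))
    (hσ : ∀ i t, 0 ≤ σ i t)
    (h3 : ∀ i, i₁ ≤ i → i < I → ∑ t ∈ range (i + 1), B ^ t * σ i t ≤ 1 / 32)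
    (hw : 0 < w₀) (hW : w₀ ≤ W i₁) (h4 : ∀ i, i₁ ≤ i → i < I → β i ≤ w₀ / 2 ^ (i - i₁) / 4) :
    ∀ i, i₁ ≤ i → i ≤ I → w₀ / 2 ^ (i - i₁) ≤ W i := by
  have hB0 : 0 < B := by linarith
  -- consequences of the halving property
  have low : ∀ i, (∀ k, i₁ ≤ k → k < i → W k / 2 ≤ W (k + 1)) → ∀ k, i₁ ≤ k → k ≤ i →
      w₀ / 2 ^ (k - i₁) ≤ W k := by
    intro i hP k hk
    induction k, hk using Nat.le_induction with
    | base =>
      intro _
      rw [Nat.sub_self, pow_zero, div_one]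
      exact hW
    | succ k hk ih =>
      intro hki
      have h5 := ih (by omega)
      have h6 := hP k hk (by omega)
      have e : k + 1 - i₁ = (k - i₁) + 1 := by omega
      rw [e, pow_succ, ← div_div]
      linarith
  have up : ∀ i, (∀ k, i₁ ≤ k → k < i → W k / 2 ≤ W (k + 1)) → ∀ j, i₁ ≤ j → ∀ k, j ≤ k → k ≤ i →
      W j ≤ 2 ^ (k - j) * W k := by
    intro i hP j hj k hk
    induction k, hk using Nat.le_induction with
    | base =>
      intro _
      rw [Nat.sub_self, pow_zero, one_mul]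
    | succ k hk ih =>
      intro hki
      have h5 := ih (by omega)
      have h6 := hP k (by omega) (by omega)
      have e : k + 1 - j = (k - j) + 1 := by omega
      rw [e, pow_succ]
      have h7 : W k ≤ 2 * W (k + 1) := by linarith
      calc W j ≤ 2 ^ (k - j) * W k := h5
        _ ≤ 2 ^ (k - j) * (2 * W (k + 1)) := mul_le_mul_of_nonneg_left h7 (by positivity)
        _ = 2 ^ (k - j) * 2 * W (k + 1) := by ring
  have main : ∀ i, i ≤ I → ∀ k, i₁ ≤ k → k < i → W k / 2 ≤ W (k + 1) := by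
    intro i
    induction i with
    | zero => exact fun _ k _ hk => absurd hk (Nat.not_lt_zero k)
    | succ i ih =>
      intro hi k hk hki
      have hP := ih (by omega)
      rcases Nat.lt_or_ge k i with h5 | h5
      · exact hP k hk h5
      have hik : k = i := by omega
      subst hik
      have hlow := low k hP k hk le_rfl
      have hpos : 0 < W k := lt_of_lt_of_le (by positivity) hlow
      have hj : ∀ t ∈ range (k + 1), W (k - t) ≤ 4 * B ^ t * W k := by
        intro t ht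
        rw [mem_range] at ht
        rcases Nat.lt_or_ge (k - t) i₁ with h6 | h6
        · have h7 := h1 (k - t) h6.le
          have h8 := up k hP i₁ le_rfl k hk le_rfl
          have h9 : (2 : ℝ) ^ (k - i₁) ≤ B ^ (k - i₁) := pow_le_pow_left₀ (by norm_num) hB _
          calc W (k - t) ≤ 4 * B ^ (i₁ - (k - t)) * W i₁ := h7
            _ ≤ 4 * B ^ (i₁ - (k - t)) * (B ^ (k - i₁) * W k) := by
                refine mul_le_mul_of_nonneg_left (h8.trans ?_) (by positivity)
                exact mul_le_mul_of_nonneg_right h9 hpos.le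
            _ = 4 * (B ^ (i₁ - (k - t)) * B ^ (k - i₁)) * W k := by ring
            _ = 4 * B ^ t * W k := by
                rw [← pow_add]
                congr 3
                omega
        · have h7 := up k hP (k - t) h6 k (Nat.sub_le k t) le_rfl
          have e : k - (k - t) = t := by omega
          rw [e] at h7
          have h9 : (2 : ℝ) ^ t ≤ B ^ t := pow_le_pow_left₀ (by norm_num) hB _
          have h10 : 0 < B ^ t * W k := by positivity
          calc W (k - t) ≤ 2 ^ t * W k := h7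
            _ ≤ B ^ t * W k := mul_le_mul_of_nonneg_right h9 hpos.le
            _ ≤ 4 * B ^ t * W k := by linarith
      have hsum : ∑ t ∈ range (k + 1), σ k t * (2 * W (k - t)) ≤ W k / 4 := by
        calc ∑ t ∈ range (k + 1), σ k t * (2 * W (k - t))
            ≤ ∑ t ∈ range (k + 1), 8 * W k * (B ^ t * σ k t) := by
              refine sum_le_sum fun t ht => ?_
              have h7 := mul_le_mul_of_nonneg_left (hj t ht) (hσ k t)
              linarith
          _ = 8 * W k * ∑ t ∈ range (k + 1), B ^ t * σ k t := by rw [mul_sum]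
          _ ≤ 8 * W k * (1 / 32) :=
              mul_le_mul_of_nonneg_left (h3 k hk (by omega)) (by positivity)
          _ = W k / 4 := by ring
      have h6 := h2 k hk (by omega)
      have h7 := h4 k hk (by omega)
      linarith
  intro i hi hI
  exact low i (main i hI) i hi le_rfl

end Pool.Agent.SPO
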