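import Mathlib

/-!
# Package A11: boundedly many representations as a sum of `k` powers of 2

Induction on `k`: `C_0 = 1`, `C_{k+1} = (k+1)² C_k`. Let `n = ∑_{m < k+1} 2^{a m}`, `v = v_2(n)`
(`n > 0`). Modulo
`2^{v+1}` the sum of the terms with `a m ≤ v` is `2^v`, so this sum is at least `2^v`, and one of
its at most
`k + 1 ≤ 2^k` terms is at least `2^v/(k+1)`, so there is `m` with `v - k ≤ a m ≤ v`. For each of
the `k + 1`
possibilities of `m` and the `k + 1` possibilities of `a m`, the remaining exponents (a function on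
`Fin k`, by `Fin.succAbove`, `Fin.removeNth`) have sum `n - 2^{a m}`: at most `C_k` possibilities.
-/

set_option autoImplicit false

namespace Pool.Agent.SPO

open Finset

/-- Some exponent is close to the 2-adic valuation of the sum. -/
private theorem exists_near {k n v : ℕ} (a : Fin (k + 1) → ℕ) (hs : ∑ m, 2 ^ a m = n)
    (hv : 2 ^ v ∣ n) (hv' : ¬ 2 ^ (v + 1) ∣ n) : ∃ m, v - k ≤ a m ∧ a m ≤ v := by
  classical
  by_contra hcon
  push Not at hcon
  have hsplit : ∑ m with a m ≤ v, 2 ^ a m + ∑ m with ¬ a m ≤ v, 2 ^ a m = n := by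
    rw [Finset.sum_filter_add_sum_filter_not, hs]
  have hbig : 2 ^ (v + 1) ∣ ∑ m with ¬ a m ≤ v, 2 ^ a m := by
    refine Finset.dvd_sum fun m hm => ?_
    have : ¬ a m ≤ v := (Finset.mem_filter.1 hm).2
    exact pow_dvd_pow 2 (by omega)
  have hT0 : ∑ m with a m ≤ v, 2 ^ a m ≠ 0 := by
    intro h0
    rw [h0, zero_add] at hsplit
    exact hv' (hsplit ▸ hbig)
  have hTd : 2 ^ v ∣ ∑ m with a m ≤ v, 2 ^ a m := by
    have h1 : 2 ^ v ∣ ∑ m with ¬ a m ≤ v, 2 ^ a m :=
      (pow_dvd_pow 2 (Nat.le_succ v)).trans hbig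
    rw [← hsplit] at hv
    exact (Nat.dvd_add_left h1).1 hv
  have hTge : 2 ^ v ≤ ∑ m with a m ≤ v, 2 ^ a m := Nat.le_of_dvd (Nat.pos_of_ne_zero hT0) hTd
  obtain ⟨m0, hm0⟩ : ∃ m, a m ≤ v := by
    by_contra h
    push Not at h
    apply hT0
    rw [Finset.sum_eq_zero]
    intro m hm
    exact absurd (Finset.mem_filter.1 hm).2 (not_le.2 (h m))
  have hvk : k + 1 ≤ v := by
    have := hcon m0
    by_contra hlt
    have h1 : v - k ≤ a m0 := by omega
    have := this h1
    omega
  have hle : ∑ m with a m ≤ v, 2 ^ a m ≤ (k + 1) * 2 ^ (v - k - 1) := by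
    have h1 : ∀ m ∈ (Finset.univ : Finset (Fin (k + 1))).filter (fun m => a m ≤ v),
        2 ^ a m ≤ 2 ^ (v - k - 1) := by
      intro m hm
      have h2 := (Finset.mem_filter.1 hm).2
      have h3 : a m < v - k := by
        by_contra h
        have := hcon m (by omega)
        omega
      exact Nat.pow_le_pow_right (by norm_num) (by omega)
    refine (Finset.sum_le_card_nsmul _ _ _ h1).trans ?_
    rw [smul_eq_mul]
    refine Nat.mul_le_mul_right _ ?_
    refine (Finset.card_filter_le _ _).trans ?_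
    simp
  have hlt : (k + 1) * 2 ^ (v - k - 1) < 2 ^ v := by
    have h1 : k + 1 < 2 ^ (k + 1) := Nat.lt_two_pow_self
    have h2 : 2 ^ v = 2 ^ (k + 1) * 2 ^ (v - k - 1) := by
      rw [← pow_add]
      congr 1
      omega
    rw [h2]
    exact Nat.mul_lt_mul_of_pos_right h1 (by positivity)
  omega

theorem rep_count (k : ℕ) : ∃ C : ℕ, ∀ (n : ℕ) (S : Finset (Fin k → ℕ)),
    (∀ a ∈ S, ∑ m, 2 ^ a m = n) → #S ≤ C := by
  classical
  induction k with
  | zero =>
    refine ⟨1, fun n S _ => ?_⟩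
    exact Finset.card_le_one.2 fun a _ b _ => Subsingleton.elim a b
  | succ k ih =>
    obtain ⟨C, hC⟩ := ih
    refine ⟨C * ((k + 1) * (k + 1)), fun n S hS => ?_⟩
    rcases S.eq_empty_or_nonempty with rfl | ⟨a0, ha0⟩
    · simp
    have hn : n ≠ 0 := by
      rw [← hS a0 ha0]
      have : 0 < ∑ m, 2 ^ a0 m :=
        Finset.sum_pos (fun m _ => by positivity) Finset.univ_nonempty
      omega
    obtain ⟨v, hv, hv'⟩ : ∃ v, 2 ^ v ∣ n ∧ ¬ 2 ^ (v + 1) ∣ n :=
      ⟨n.factorization 2, Nat.ordProj_dvd n 2, Nat.pow_succ_factorization_not_dvd hn Nat.prime_two⟩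
    have hex : ∀ a : Fin (k + 1) → ℕ, ∃ m, a ∈ S → v - k ≤ a m ∧ a m ≤ v := by
      intro a
      by_cases ha : a ∈ S
      · obtain ⟨m, hm⟩ := exists_near a (hS a ha) hv hv'
        exact ⟨m, fun _ => hm⟩
      · exact ⟨0, fun h => absurd h ha⟩
    choose c hc using hex
    have key := Finset.card_le_mul_card_image_of_maps_to (s := S)
      (t := (Finset.univ : Finset (Fin (k + 1))) ×ˢ Finset.Icc (v - k) v)
      (f := fun a => (c a, a (c a)))
      (fun a ha => Finset.mem_product.2
        ⟨Finset.mem_univ _, Finset.mem_Icc.2 (hc a ha)⟩) C ?_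
    · refine key.trans (Nat.mul_le_mul_left _ ?_)
      rw [Finset.card_product, Finset.card_univ, Fintype.card_fin, Nat.card_Icc]
      exact Nat.mul_le_mul_left _ (by omega)
    · rintro ⟨m, e⟩ _
      have hinj : Set.InjOn (fun a : Fin (k + 1) → ℕ => m.removeNth a)
          (S.filter fun a => (c a, a (c a)) = (m, e)) := by
        intro a ha b hb hab
        have ha2 := (Finset.mem_filter.1 (Finset.mem_coe.1 ha)).2
        have hb2 := (Finset.mem_filter.1 (Finset.mem_coe.1 hb)).2
        rw [Prod.mk.injEq] at ha2 hb2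
        have ham : a m = e := by rw [← ha2.1]; exact ha2.2
        have hbm : b m = e := by rw [← hb2.1]; exact hb2.2
        have h1 : ∀ j, a (m.succAbove j) = b (m.succAbove j) := fun j => congrFun hab j
        funext i
        rcases eq_or_ne i m with rfl | hi
        · rw [ham, hbm]
        · obtain ⟨j, rfl⟩ := Fin.exists_succAbove_eq hi
          exact h1 j
      rw [← Finset.card_image_of_injOn hinj]
      refine hC (n - 2 ^ e) _ fun b hb => ?_
      obtain ⟨a, ha, rfl⟩ := Finset.mem_image.1 hb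
      have ha1 := (Finset.mem_filter.1 ha).1
      have ha2 := (Finset.mem_filter.1 ha).2
      rw [Prod.mk.injEq] at ha2
      have ham : a m = e := by rw [← ha2.1]; exact ha2.2
      have hsum := hS a ha1
      rw [Fin.sum_univ_succAbove _ m, ham] at hsum
      have : ∑ j, 2 ^ (m.removeNth a) j = ∑ j, 2 ^ a (m.succAbove j) := rfl
      rw [this]
      omega

end Pool.Agent.SPO
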