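import Pool.Agent.ExpSum.Sieve

/-!
# Package P01: Selberg's sieve with a divisor-closed set of moduli

Generalise `Pool/Agent/ExpSum/Selberg.lean` and `Sieve.lean` (copy and adapt; there the set of
moduli is
`sqf D`, here an arbitrary finite set `S ∋ 1` of squarefree numbers which is closed under
divisors).
Write `S₀ = ∑_{l ∈ S} 1/φ(l) > 0`. Weights for `d ∈ S`:
`λ_d = (μ(d) d/φ(d)) (∑_{l ∈ S, d ∣ l} 1/φ(l/d)) / S₀` (equivalently `λ_d = d ∑_{l ∈ S, d ∣ l}
μ(l/d) y_l`,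
`y_l = μ(l)/(φ(l)S₀)`). Then `λ_1 = 1`, `∑_{d,e ∈ S} λ_d λ_e/lcm(d,e) = 1/S₀` (write `gcd(d,e) =
∑_{l ∣ gcd} φ(l)`,
the divisors of elements of `S` are in `S`), and `|λ_d| ≤ 1`: `d/φ(d) = ∑_{k ∣ d} 1/φ(k)` for
squarefree `d`, and
`(k, l) ↦ k l/d` maps `{k ∣ d} × {l ∈ S : d ∣ l}` injectively into `S` (a divisor of `l`), with
`φ(k l/d) = φ(k) φ(l/d)`.

For `i ∈ I` put `g(i) = ∑_{d ∈ S, d ∣ n i} λ_d`; if no `d ∈ S`, `d ≠ 1`, divides `n i` then `g(i)
= 1`. So the
left side is at most `∑_{i ∈ I} g(i)² = ∑_{d,e ∈ S} λ_d λ_e #{i ∈ I : lcm(d,e) ∣ n i}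
≤ X ∑ λ_d λ_e/lcm(d,e) + ∑_{d,e} 1 = X/S₀ + |S|²`.
-/

set_option autoImplicit false

namespace Pool.Agent.SPO

open Finset

private theorem sg_pos0 {S : Finset ℕ} (hsq : ∀ l ∈ S, Squarefree l) {l : ℕ} (h : l ∈ S) :
    0 < l := Nat.pos_of_ne_zero (hsq l h).ne_zero

private theorem sg_phi {S : Finset ℕ} (hsq : ∀ l ∈ S, Squarefree l) {l : ℕ} (h : l ∈ S) :
    (0 : ℝ) < Nat.totient l := by
  exact_mod_cast Nat.totient_pos.2 (sg_pos0 hsq h)

/-- the sum of the reciprocals of the values of the totient function -/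
private noncomputable def sgS (S : Finset ℕ) : ℝ := ∑ l ∈ S, 1 / (Nat.totient l : ℝ)

/-- the numbers `y_l` -/
private noncomputable def sgY (S : Finset ℕ) (l : ℕ) : ℝ :=
  (ArithmeticFunction.moebius l : ℝ) / (Nat.totient l * sgS S)

/-- Selberg weights -/
private noncomputable def sgL (S : Finset ℕ) (d : ℕ) : ℝ :=
  d * ∑ l ∈ S.filter (d ∣ ·), (ArithmeticFunction.moebius (l / d) : ℝ) * sgY S l

private theorem sgS_pos {S : Finset ℕ} (h1 : 1 ∈ S) : 0 < sgS S := by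
  have h2 := Finset.single_le_sum (s := S) (f := fun l : ℕ => 1 / (Nat.totient l : ℝ))
    (fun l _ => by positivity) h1
  refine lt_of_lt_of_le ?_ h2
  simp

private theorem sum_sgL_div {S : Finset ℕ} (hsq : ∀ l ∈ S, Squarefree l)
    (hdiv : ∀ l ∈ S, ∀ d, d ∣ l → d ∈ S) {l : ℕ} (hl : l ∈ S) :
    ∑ d ∈ S.filter (l ∣ ·), sgL S d / d = sgY S l := by
  have h1 : ∀ d ∈ S.filter (l ∣ ·), sgL S d / d =
      ∑ m ∈ S.filter (d ∣ ·), (ArithmeticFunction.moebius (m / d) : ℝ) * sgY S m := by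
    intro d hd
    have : (d : ℝ) ≠ 0 := by
      have := sg_pos0 hsq (mem_filter.1 hd).1
      exact_mod_cast (by omega : d ≠ 0)
    rw [sgL, mul_div_cancel_left₀ _ this]
  rw [Finset.sum_congr rfl h1]
  have h2 : ∑ d ∈ S.filter (l ∣ ·), ∑ m ∈ S.filter (d ∣ ·),
      (ArithmeticFunction.moebius (m / d) : ℝ) * sgY S m =
      ∑ m ∈ S.filter (l ∣ ·), ∑ d ∈ m.divisors.filter (l ∣ ·),
      (ArithmeticFunction.moebius (m / d) : ℝ) * sgY S m := by
    refine Finset.sum_comm' ?_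
    intro d m
    simp only [mem_filter, Nat.mem_divisors]
    constructor
    · rintro ⟨⟨h1, h2⟩, h3, h4⟩
      exact ⟨⟨⟨h4, (hsq m h3).ne_zero⟩, h2⟩, h3, h2.trans h4⟩
    · rintro ⟨⟨⟨h1, h2⟩, h3⟩, h4, h5⟩
      exact ⟨⟨hdiv m h4 d h1, h3⟩, h4, h1⟩
  rw [h2]
  have h3 : ∀ m ∈ S.filter (l ∣ ·), ∑ d ∈ m.divisors.filter (l ∣ ·),
      (ArithmeticFunction.moebius (m / d) : ℝ) * sgY S m = if l = m then sgY S m else 0 := by
    intro m hm
    rw [mem_filter] at hm
    rw [← Finset.sum_mul]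
    have h4 := ExpSum.sum_moebius_between (l := l) (m := m) (sg_pos0 hsq hl).ne' hm.2
      (sg_pos0 hsq hm.1).ne'
    have h5 : ∑ d ∈ m.divisors.filter (l ∣ ·), (ArithmeticFunction.moebius (m / d) : ℝ) =
        if l = m then 1 else 0 := by
      have := congrArg (fun z : ℤ => (z : ℝ)) h4
      push_cast at this
      exact this
    rw [h5]
    split_ifs <;> simp
  rw [Finset.sum_congr rfl h3, Finset.sum_ite_eq, if_pos]
  rw [mem_filter]
  exact ⟨hl, dvd_rfl⟩

private theorem sgL_one {S : Finset ℕ} (h1 : 1 ∈ S) (hsq : ∀ l ∈ S, Squarefree l) :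
    sgL S 1 = 1 := by
  have hS := sgS_pos h1
  rw [sgL]
  have h1 : S.filter (1 ∣ ·) = S := by
    refine Finset.filter_true_of_mem fun l _ => one_dvd l
  rw [h1, Nat.cast_one, one_mul]
  have h2 : ∀ l ∈ S, (ArithmeticFunction.moebius (l / 1) : ℝ) * sgY S l =
      1 / (Nat.totient l : ℝ) / sgS S := by
    intro l hl
    have h3 := ArithmeticFunction.moebius_sq_eq_one_of_squarefree (hsq l hl)
    have h4 : (ArithmeticFunction.moebius l : ℝ) * (ArithmeticFunction.moebius l : ℝ) = 1 := by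
      have := congrArg (fun z : ℤ => (z : ℝ)) h3
      push_cast at this
      rw [pow_two] at this
      exact this
    rw [Nat.div_one, sgY]
    have h5 := sg_phi hsq hl
    field_simp
    nlinarith [h4]
  rw [Finset.sum_congr rfl h2, ← Finset.sum_div]
  exact div_self hS.ne'

/-- The quadratic form of the weights. -/
private theorem sum_sgL_lcm {S : Finset ℕ} (h1 : 1 ∈ S) (hsq : ∀ l ∈ S, Squarefree l)
    (hdiv : ∀ l ∈ S, ∀ d, d ∣ l → d ∈ S) :
    ∑ d ∈ S, ∑ e ∈ S, sgL S d * sgL S e / (Nat.lcm d e : ℝ) = 1 / sgS S := by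
  have hS := sgS_pos h1
  have hpos : ∀ d ∈ S, (0 : ℝ) < d := fun d hd => by
    have := sg_pos0 hsq hd
    exact_mod_cast this
  have h1 : ∀ d ∈ S, ∀ e ∈ S, sgL S d * sgL S e / (Nat.lcm d e : ℝ) =
      ∑ l ∈ S, (Nat.totient l : ℝ) * ((if l ∣ d then sgL S d / d else 0) *
        (if l ∣ e then sgL S e / e else 0)) := by
    intro d hd e he
    have hd0 := hpos d hd
    have he0 := hpos e he
    have hg : (Nat.gcd d e : ℝ) * (Nat.lcm d e : ℝ) = d * e := by
      exact_mod_cast Nat.gcd_mul_lcm d e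
    have hg0 : (0 : ℝ) < Nat.gcd d e := by
      have : 0 < Nat.gcd d e := Nat.gcd_pos_of_pos_left _ (by exact_mod_cast hd0)
      exact_mod_cast this
    have hl0 : (0 : ℝ) < Nat.lcm d e := by
      have : 0 < Nat.lcm d e := Nat.lcm_pos (by exact_mod_cast hd0) (by exact_mod_cast he0)
      exact_mod_cast this
    have h2 : (Nat.gcd d e : ℝ) =
        ∑ l ∈ S, if l ∣ d ∧ l ∣ e then (Nat.totient l : ℝ) else 0 := by
      rw [← Finset.sum_filter]
      have h3 := Nat.sum_totient (Nat.gcd d e)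
      have h4 : (Nat.gcd d e).divisors = S.filter (fun l => l ∣ d ∧ l ∣ e) := by
        ext l
        rw [Nat.mem_divisors, mem_filter, Nat.dvd_gcd_iff]
        constructor
        · rintro ⟨⟨ha, hb⟩, hc⟩
          exact ⟨hdiv d hd l ha, ha, hb⟩
        · rintro ⟨_, ha, hb⟩
          refine ⟨⟨ha, hb⟩, ?_⟩
          exact_mod_cast hg0.ne'
      rw [← h4]
      exact_mod_cast h3.symm
    have h5 : sgL S d * sgL S e / (Nat.lcm d e : ℝ) =
        (Nat.gcd d e : ℝ) * ((sgL S d / d) * (sgL S e / e)) := by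
      field_simp
      linear_combination (-(sgL S d * sgL S e)) * hg
    rw [h5, h2, Finset.sum_mul]
    refine Finset.sum_congr rfl fun l _ => ?_
    by_cases ha : l ∣ d <;> by_cases hb : l ∣ e <;> simp [ha, hb]
  rw [Finset.sum_congr rfl fun d hd => Finset.sum_congr rfl fun e he => h1 d hd e he]
  have h6 : ∑ d ∈ S, ∑ e ∈ S, ∑ l ∈ S, (Nat.totient l : ℝ) *
      ((if l ∣ d then sgL S d / d else 0) * (if l ∣ e then sgL S e / e else 0)) =
      ∑ l ∈ S, (Nat.totient l : ℝ) * (sgY S l * sgY S l) := by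
    calc _ = ∑ d ∈ S, ∑ l ∈ S, ∑ e ∈ S, (Nat.totient l : ℝ) *
          ((if l ∣ d then sgL S d / d else 0) * (if l ∣ e then sgL S e / e else 0)) := by
          refine Finset.sum_congr rfl fun d _ => Finset.sum_comm
      _ = ∑ l ∈ S, ∑ d ∈ S, ∑ e ∈ S, (Nat.totient l : ℝ) *
          ((if l ∣ d then sgL S d / d else 0) * (if l ∣ e then sgL S e / e else 0)) :=
          Finset.sum_comm
      _ = _ := by
          refine Finset.sum_congr rfl fun l hl => ?_
          rw [← sum_sgL_div hsq hdiv hl, Finset.sum_filter, Finset.sum_mul_sum, Finset.mul_sum]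
          refine Finset.sum_congr rfl fun d _ => ?_
          rw [Finset.mul_sum]
  rw [h6]
  have h7 : ∀ l ∈ S, (Nat.totient l : ℝ) * (sgY S l * sgY S l) =
      1 / (Nat.totient l : ℝ) * (1 / sgS S ^ 2) := by
    intro l hl
    have h3 := ArithmeticFunction.moebius_sq_eq_one_of_squarefree (hsq l hl)
    have h4 : (ArithmeticFunction.moebius l : ℝ) ^ 2 = 1 := by
      have := congrArg (fun z : ℤ => (z : ℝ)) h3
      push_cast at this
      exact this
    have h5 := sg_phi hsq hl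
    rw [sgY]
    field_simp
    rw [h4]
  rw [Finset.sum_congr rfl h7, ← Finset.sum_mul]
  change sgS S * _ = _
  field_simp

private theorem sgL_eq {S : Finset ℕ} (hsq : ∀ l ∈ S, Squarefree l) {d : ℕ} (hd : d ∈ S) :
    sgL S d = (ArithmeticFunction.moebius d : ℝ) * ((d : ℝ) / Nat.totient d *
      ∑ l ∈ S.filter (d ∣ ·), 1 / (Nat.totient (l / d) : ℝ)) / sgS S := by
  rw [sgL, Finset.mul_sum, Finset.mul_sum, Finset.mul_sum, Finset.sum_div]
  refine Finset.sum_congr rfl fun l hl => ?_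
  rw [mem_filter] at hl
  obtain ⟨hl, m, rfl⟩ := hl
  have hdpos : 0 < d := sg_pos0 hsq hd
  rw [Nat.mul_div_cancel_left _ hdpos]
  have hsq := hsq _ hl
  have hcop : Nat.Coprime d m := Nat.coprime_of_squarefree_mul hsq
  have hm : Squarefree m := hsq.squarefree_of_dvd (dvd_mul_left m d)
  rw [sgY, ArithmeticFunction.isMultiplicative_moebius.map_mul_of_coprime hcop,
    Nat.totient_mul hcop]
  have h4 : (ArithmeticFunction.moebius m : ℝ) ^ 2 = 1 := by
    have := congrArg (fun z : ℤ => (z : ℝ))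
      (ArithmeticFunction.moebius_sq_eq_one_of_squarefree hm)
    push_cast at this
    exact this
  push_cast
  have e : (ArithmeticFunction.moebius m : ℝ) *
      ((ArithmeticFunction.moebius d : ℝ) * (ArithmeticFunction.moebius m : ℝ)) =
      ArithmeticFunction.moebius d := by
    linear_combination (ArithmeticFunction.moebius d : ℝ) * h4
  calc (d : ℝ) * ((ArithmeticFunction.moebius m : ℝ) * ((ArithmeticFunction.moebius d : ℝ) *
        (ArithmeticFunction.moebius m : ℝ) /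
          ((Nat.totient d : ℝ) * (Nat.totient m : ℝ) * sgS S)))
      = (d : ℝ) * ((ArithmeticFunction.moebius m : ℝ) * ((ArithmeticFunction.moebius d : ℝ) *
        (ArithmeticFunction.moebius m : ℝ))) /
          ((Nat.totient d : ℝ) * (Nat.totient m : ℝ) * sgS S) := by ring
    _ = (d : ℝ) * (ArithmeticFunction.moebius d : ℝ) /
        ((Nat.totient d : ℝ) * (Nat.totient m : ℝ) * sgS S) := by rw [e]
    _ = _ := by
      rw [div_eq_mul_inv, mul_inv, mul_inv, div_eq_mul_inv, div_eq_mul_inv, one_div]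
      ring

private theorem sum_le_sgS {S : Finset ℕ} (hsq : ∀ l ∈ S, Squarefree l)
    (hdiv : ∀ l ∈ S, ∀ d, d ∣ l → d ∈ S) {d : ℕ} (hd : d ∈ S) :
    (d : ℝ) / Nat.totient d * ∑ l ∈ S.filter (d ∣ ·), 1 / (Nat.totient (l / d) : ℝ) ≤
      sgS S := by
  have hdpos : 0 < d := sg_pos0 hsq hd
  rw [ExpSum.div_totient (hsq d hd), Finset.sum_mul_sum]
  rw [← Finset.sum_product']
  set T := d.divisors ×ˢ S.filter (d ∣ ·) with hT
  have key : ∀ x ∈ T, x.1 ∣ d ∧ x.1 ≠ 0 ∧ (∃ m, x.2 = d * m ∧ x.2 / d = m ∧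
      Nat.Coprime d m ∧ Squarefree m ∧ m ≠ 0 ∧ d * m ∈ S) := by
    intro x hx
    rw [hT, mem_product, Nat.mem_divisors, mem_filter] at hx
    obtain ⟨⟨h1, h2⟩, h3, m, h6⟩ := hx
    have h7 : Squarefree (d * m) := h6 ▸ hsq _ h3
    refine ⟨h1, ne_zero_of_dvd_ne_zero h2 h1, m, h6, ?_, Nat.coprime_of_squarefree_mul h7,
      h7.squarefree_of_dvd (dvd_mul_left m d), ?_, h6 ▸ h3⟩
    · rw [h6, Nat.mul_div_cancel_left _ hdpos]
    · rintro rfl
      simp at h7
  have h1 : ∀ x ∈ T, 1 / (Nat.totient x.1 : ℝ) * (1 / (Nat.totient (x.2 / d) : ℝ)) =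
      1 / (Nat.totient (x.1 * (x.2 / d)) : ℝ) := by
    intro x hx
    obtain ⟨ha, _, m, _, hb, hc, _⟩ := key x hx
    rw [hb, Nat.totient_mul (Nat.Coprime.coprime_dvd_left ha hc), Nat.cast_mul]
    rw [one_div_mul_one_div]
  rw [Finset.sum_congr rfl h1]
  have hinj : Set.InjOn (fun x : ℕ × ℕ => x.1 * (x.2 / d)) (T : Set (ℕ × ℕ)) := by
    intro x hx y hy hxy
    obtain ⟨a1, a2, m, a3, a4, a5, a6, a7, a8⟩ := key x hx
    obtain ⟨b1, b2, m', b3, b4, b5, b6, b7, b8⟩ := key y hy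
    simp only [a4, b4] at hxy
    have e1 : Nat.gcd (x.1 * m) d = x.1 := by
      have : Nat.Coprime m d := a5.symm
      rw [Nat.Coprime.gcd_mul_right_cancel x.1 this]
      exact Nat.gcd_eq_left a1
    have e2 : Nat.gcd (y.1 * m') d = y.1 := by
      have : Nat.Coprime m' d := b5.symm
      rw [Nat.Coprime.gcd_mul_right_cancel y.1 this]
      exact Nat.gcd_eq_left b1
    have e3 : x.1 = y.1 := by rw [← e1, ← e2, hxy]
    have e4 : m = m' := by
      rw [e3] at hxy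
      exact Nat.eq_of_mul_eq_mul_left (Nat.pos_of_ne_zero b2) hxy
    refine Prod.ext e3 ?_
    rw [a3, b3, e4]
  have e5 := Finset.sum_image (s := T) (g := fun x : ℕ × ℕ => x.1 * (x.2 / d))
    (f := fun j : ℕ => 1 / (Nat.totient j : ℝ)) hinj
  rw [← e5]
  refine Finset.sum_le_sum_of_subset_of_nonneg ?_ fun _ _ _ => by positivity
  intro j hj
  obtain ⟨x, hx, rfl⟩ := mem_image.1 hj
  obtain ⟨a1, a2, m, a3, a4, a5, a6, a7, a8⟩ := key x hx
  simp only [a4]
  exact hdiv _ a8 _ (Nat.mul_dvd_mul_right a1 m)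

private theorem abs_sgL_le {S : Finset ℕ} (h1 : 1 ∈ S) (hsq : ∀ l ∈ S, Squarefree l)
    (hdiv : ∀ l ∈ S, ∀ d, d ∣ l → d ∈ S) {d : ℕ} (hd : d ∈ S) : |sgL S d| ≤ 1 := by
  have hS := sgS_pos h1
  rw [sgL_eq hsq hd, abs_div, abs_of_pos hS, div_le_one hS, abs_mul]
  have h1 : |(ArithmeticFunction.moebius d : ℝ)| ≤ 1 := by
    have := ArithmeticFunction.abs_moebius_le_one (n := d)
    exact_mod_cast this
  have h2 : 0 ≤ (d : ℝ) / Nat.totient d *
      ∑ l ∈ S.filter (d ∣ ·), 1 / (Nat.totient (l / d) : ℝ) := by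
    positivity
  rw [abs_of_nonneg h2]
  calc _ ≤ 1 * ((d : ℝ) / Nat.totient d *
        ∑ l ∈ S.filter (d ∣ ·), 1 / (Nat.totient (l / d) : ℝ)) :=
        mul_le_mul_of_nonneg_right h1 h2
    _ ≤ _ := by rw [one_mul]; exact sum_le_sgS hsq hdiv hd

theorem selberg_set {ι : Type*} {S : Finset ℕ} (h1 : 1 ∈ S) (hsq : ∀ l ∈ S, Squarefree l)
    (hdiv : ∀ l ∈ S, ∀ d, d ∣ l → d ∈ S) (I : Finset ι) (n : ι → ℕ) {X : ℝ} (hX : 0 ≤ X)
    (hR : ∀ d ∈ S, ∀ e ∈ S, |(#{i ∈ I | Nat.lcm d e ∣ n i} : ℝ) - X / (Nat.lcm d e : ℝ)| ≤ 1) :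
    (#{i ∈ I | ∀ d ∈ S, d ∣ n i → d = 1} : ℝ) ≤
      X / (∑ l ∈ S, 1 / (Nat.totient l : ℝ)) + (#S : ℝ) ^ 2 := by
  have hS := sgS_pos h1
  set g : ι → ℝ := fun i => ∑ d ∈ S.filter (· ∣ n i), sgL S d with hg
  have h2 : (#{i ∈ I | ∀ d ∈ S, d ∣ n i → d = 1} : ℝ) ≤ ∑ i ∈ I, g i ^ 2 := by
    calc (#{i ∈ I | ∀ d ∈ S, d ∣ n i → d = 1} : ℝ)
        = ∑ i ∈ I with ∀ d ∈ S, d ∣ n i → d = 1, g i ^ 2 := by
          rw [Finset.card_eq_sum_ones, Nat.cast_sum]
          refine Finset.sum_congr rfl fun i hi => ?_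
          rw [mem_filter] at hi
          have : S.filter (· ∣ n i) = {1} := by
            ext d
            rw [mem_filter, mem_singleton]
            constructor
            · rintro ⟨h3, h4⟩
              exact hi.2 d h3 h4
            · rintro rfl
              exact ⟨h1, one_dvd _⟩
          rw [hg]
          simp only [this, Finset.sum_singleton, sgL_one h1 hsq]
          norm_num
      _ ≤ ∑ i ∈ I, g i ^ 2 := by
          refine Finset.sum_le_sum_of_subset_of_nonneg (Finset.filter_subset _ _) ?_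
          intro x hx _
          exact sq_nonneg _
  have h3 : ∑ i ∈ I, g i ^ 2 = ∑ d ∈ S, ∑ e ∈ S,
      sgL S d * sgL S e * (#{i ∈ I | Nat.lcm d e ∣ n i} : ℝ) := by
    have e1 : ∀ i, g i ^ 2 = ∑ d ∈ S, ∑ e ∈ S,
        sgL S d * sgL S e * (if Nat.lcm d e ∣ n i then 1 else 0) := by
      intro i
      rw [pow_two, hg]
      simp only
      rw [Finset.sum_filter, Finset.sum_mul_sum]
      refine Finset.sum_congr rfl fun d _ => ?_
      refine Finset.sum_congr rfl fun e _ => ?_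
      by_cases ha : d ∣ n i <;> by_cases hb : e ∣ n i
      · have : Nat.lcm d e ∣ n i := Nat.lcm_dvd ha hb
        simp only [ha, hb, this, if_true]
        ring
      · have : ¬ Nat.lcm d e ∣ n i := fun h => hb ((Nat.dvd_lcm_right d e).trans h)
        simp [hb, this]
      · have : ¬ Nat.lcm d e ∣ n i := fun h => ha ((Nat.dvd_lcm_left d e).trans h)
        simp [ha, this]
      · have : ¬ Nat.lcm d e ∣ n i := fun h => ha ((Nat.dvd_lcm_left d e).trans h)
        simp [ha, this]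
    rw [Finset.sum_congr rfl fun x _ => e1 x]
    rw [Finset.sum_comm]
    refine Finset.sum_congr rfl fun d _ => ?_
    rw [Finset.sum_comm]
    refine Finset.sum_congr rfl fun e _ => ?_
    rw [← Finset.mul_sum, ← Finset.sum_filter, Finset.sum_const, nsmul_eq_mul, mul_one]
  have h4 : ∑ d ∈ S, ∑ e ∈ S,
      sgL S d * sgL S e * (#{i ∈ I | Nat.lcm d e ∣ n i} : ℝ) ≤
      X * (1 / sgS S) + ∑ d ∈ S, ∑ e ∈ S, (1 : ℝ) := by
    rw [← sum_sgL_lcm h1 hsq hdiv, Finset.mul_sum, ← Finset.sum_add_distrib]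
    refine Finset.sum_le_sum fun d hd => ?_
    rw [Finset.mul_sum, ← Finset.sum_add_distrib]
    refine Finset.sum_le_sum fun e he => ?_
    have h4 := hR d hd e he
    have h5 : |sgL S d * sgL S e| ≤ 1 := by
      rw [abs_mul]
      have a := abs_sgL_le h1 hsq hdiv hd
      have b := abs_sgL_le h1 hsq hdiv he
      nlinarith [abs_nonneg (sgL S d), abs_nonneg (sgL S e)]
    have h6 : sgL S d * sgL S e * ((#{i ∈ I | Nat.lcm d e ∣ n i} : ℝ) -
        X / (Nat.lcm d e : ℝ)) ≤ 1 := by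
      refine (le_abs_self _).trans ?_
      rw [abs_mul]
      calc |sgL S d * sgL S e| *
            |(#{i ∈ I | Nat.lcm d e ∣ n i} : ℝ) - X / (Nat.lcm d e : ℝ)|
          ≤ 1 * |(#{i ∈ I | Nat.lcm d e ∣ n i} : ℝ) - X / (Nat.lcm d e : ℝ)| :=
            mul_le_mul_of_nonneg_right h5 (abs_nonneg _)
        _ ≤ _ := by rw [one_mul]; exact h4
    have h7 : sgL S d * sgL S e * (#{i ∈ I | Nat.lcm d e ∣ n i} : ℝ) =
        X * (sgL S d * sgL S e / (Nat.lcm d e : ℝ)) +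
        sgL S d * sgL S e * ((#{i ∈ I | Nat.lcm d e ∣ n i} : ℝ) - X / (Nat.lcm d e : ℝ)) := by
      ring
    rw [h7]
    linarith
  have h5 : ∑ d ∈ S, ∑ e ∈ S, (1 : ℝ) = (#S : ℝ) ^ 2 := by
    rw [Finset.sum_const, Finset.sum_const, nsmul_eq_mul, nsmul_eq_mul, mul_one, pow_two]
  have h6 : X / (∑ l ∈ S, 1 / (Nat.totient l : ℝ)) = X * (1 / sgS S) := by
    rw [mul_one_div]
    rfl
  rw [h6, ← h5]
  linarith

end Pool.Agent.SPO
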