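import Pool.Agent.SPO.Smo
import Pool.Agent.SPO.Ord
import Pool.Agent.SPO.Coset

/-!
# Package C01: conditioning on the smooth components of the exponents

`two_pow_val_add`: `(x+y).val = (x.val + y.val) % M` and `od q ∣ M` (`pow_mod_orderOf`).

`good_step`. `k₀, q₀` from `coset_sum`. Put `M' = smo y M` (`M' ∣ M`, `M' ≠ 0`). For `t : Fin k →
ZMod M`
consider the translation `a ↦ a + M' t` of `Fin k → ZMod M`.
(a) `GS k M z T` is invariant: for `p ∈ T`, `od p ∣ p - 1` has all prime factors `≤ p ≤ y`, so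
`od p = smo y (od p) ∣ smo y M = M'` (`smo_eq_self`, `smo_dvd_smo`) and `2^{(M' t_m).val} = 1`
modulo `p`.
(b) Modulo `q`: `2^{(a_m + M' t_m).val} = 2^{a_m.val} g^{t_m.val}` with `g = 2^{M'}`, a unit of
order
`od q/gcd(od q, M') = od q/smo y (od q)` (`orderOf_pow`, `gcd_smo`), which divides `od q ∣ M`.
(c) Count the pairs `(a, t)` with `a ∈ GS`, `SS q (a + M' t) = z q`. For fixed `t` the translation
is a
bijection of `GS`, so their number is `M^k #{a ∈ GS | SS q a = z q}`. For fixed `a` the number of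
`t` is at
most `2M^k/q` by `coset_sum` (`ZMod M ≃ Fin M`, `u_m = 2^{a_m.val}`).

`bad_step`: `bad_sum` with `g = 2`.
-/

set_option autoImplicit false

namespace Pool.Agent.SPO

open Finset

/-- the sum of the powers of `2` with the exponents `a`, modulo `q` -/
def SS {k M : ℕ} (q : ℕ) (a : Fin k → ZMod M) : ZMod q := ∑ m, (2 : ZMod q) ^ (a m).val

/-- the exponent vectors for which the sum avoids `z q` for all `q ∈ T` -/
def GS (k M : ℕ) [NeZero M] (z : (q : ℕ) → ZMod q) (T : Finset ℕ) : Finset (Fin k → ZMod M) :=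
  univ.filter (fun a => ∀ q ∈ T, SS q a ≠ z q)

theorem two_pow_val_add {q M : ℕ} [NeZero M] (h : od q ∣ M) (x y : ZMod M) :
    (2 : ZMod q) ^ (x + y).val = 2 ^ x.val * 2 ^ y.val := by
  have h1 : (2 : ZMod q) ^ M = 1 := orderOf_dvd_iff_pow_eq_one.1 h
  rw [ZMod.val_add, ← pow_eq_pow_mod (x.val + y.val) h1, pow_add]

private theorem pow_val_natCast {q M : ℕ} [NeZero M] (h : od q ∣ M) (n : ℕ) :
    (2 : ZMod q) ^ ((n : ZMod M)).val = 2 ^ n := by
  have h1 : (2 : ZMod q) ^ M = 1 := orderOf_dvd_iff_pow_eq_one.1 h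
  rw [ZMod.val_natCast, ← pow_eq_pow_mod n h1]

theorem good_step : ∃ k₀ q₀ : ℕ, ∀ k ≥ k₀, ∀ (M : ℕ) [NeZero M] (z : (q : ℕ) → ZMod q)
    (T : Finset ℕ) (y : ℕ), (∀ p ∈ T, (p.Prime ∧ p ≠ 2) ∧ p ≤ y ∧ od p ∣ M) →
    ∀ q : ℕ, q.Prime → q ≠ 2 → q₀ ≤ q → od q ∣ M → q ≤ (od q / smo y (od q)) ^ 8 →
    (#{a ∈ GS k M z T | SS q a = z q} : ℝ) * q ≤ 2 * #(GS k M z T) := by
  classical
  obtain ⟨k₀, q₀, hcs⟩ := coset_sum
  refine ⟨k₀, q₀, fun k hk M _ z T y hT q hq hq2 hqq hod hq8 => ?_⟩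
  haveI : Fact q.Prime := ⟨hq⟩
  have hM : M ≠ 0 := NeZero.ne M
  have hMpos : 0 < M := Nat.pos_of_ne_zero hM
  set M' := smo y M with hM'
  obtain ⟨g2, hg2, hg2o⟩ := exists_unit_two hq hq2
  have hgo : orderOf (g2 ^ M') = od q / smo y (od q) := by
    rw [orderOf_pow, hg2o, hM', gcd_smo y hM hod]
  have hgd : orderOf (g2 ^ M') ∣ M := (orderOf_pow_dvd M').trans (hg2o ▸ hod)
  let sh : (Fin k → Fin M) → Fin k → ZMod M := fun t m => ((M' * (t m : ℕ) : ℕ) : ZMod M)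
  have hshT : ∀ p ∈ T, ∀ t a, SS p (a + sh t) = SS p a := by
    intro p hp t a
    obtain ⟨⟨hpp, hp2⟩, hpy, hpM⟩ := hT p hp
    unfold SS
    refine sum_congr rfl fun m _ => ?_
    have h1 : od p ∣ M' := by
      have h2 : smo y (od p) = od p := smo_eq_self (od_pos hpp hp2).ne' fun r hr hrd => by
        have h3 : r ≤ p - 1 := Nat.le_of_dvd (by have := hpp.two_le; omega)
          (hrd.trans (od_dvd hpp hp2))
        omega
      rw [← h2]
      exact smo_dvd_smo y hM hpM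
    have h4 : (2 : ZMod p) ^ M' = 1 := orderOf_dvd_iff_pow_eq_one.1 h1
    rw [Pi.add_apply, two_pow_val_add hpM, pow_val_natCast hpM, pow_mul, h4, one_pow, mul_one]
  have hshq : ∀ t a, SS q (a + sh t) = ∑ m, ((g2 ^ (a m).val : (ZMod q)ˣ) : ZMod q) *
      ((g2 ^ M' : (ZMod q)ˣ) : ZMod q) ^ (t m : ℕ) := by
    intro t a
    unfold SS
    refine sum_congr rfl fun m _ => ?_
    rw [Pi.add_apply, two_pow_val_add hod, pow_val_natCast hod, pow_mul,
      Units.val_pow_eq_pow_val, Units.val_pow_eq_pow_val, hg2]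
  have hGS : ∀ t a, a + sh t ∈ GS k M z T ↔ a ∈ GS k M z T := by
    intro t a
    unfold GS
    rw [mem_filter, mem_filter]
    refine and_congr (by simp) (forall₂_congr fun p hp => ?_)
    rw [hshT p hp]
  have hbij : ∀ t, #{a ∈ GS k M z T | SS q (a + sh t) = z q} =
      #{a ∈ GS k M z T | SS q a = z q} := by
    intro t
    refine card_bij (fun a _ => a + sh t) ?_ ?_ ?_
    · intro a ha
      rw [mem_filter] at ha ⊢
      exact ⟨(hGS t a).2 ha.1, ha.2⟩
    · intro a _ b _ h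
      exact add_right_cancel h
    · intro b hb
      rw [mem_filter] at hb
      refine ⟨b - sh t, ?_, sub_add_cancel _ _⟩
      rw [mem_filter, sub_add_cancel]
      refine ⟨?_, hb.2⟩
      rw [← hGS t, sub_add_cancel]
      exact hb.1
  have hcount : ((M : ℝ) ^ k) * (#{a ∈ GS k M z T | SS q a = z q} : ℝ) =
      ∑ a ∈ GS k M z T, (#{t : Fin k → Fin M | SS q (a + sh t) = z q} : ℝ) := by
    have h1 : ∑ t : Fin k → Fin M, #{a ∈ GS k M z T | SS q (a + sh t) = z q} =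
        ∑ a ∈ GS k M z T, #{t : Fin k → Fin M | SS q (a + sh t) = z q} := by
      simp only [card_filter]
      rw [sum_comm]
    have h2 : ∑ t : Fin k → Fin M, #{a ∈ GS k M z T | SS q (a + sh t) = z q} =
        M ^ k * #{a ∈ GS k M z T | SS q a = z q} := by
      rw [sum_congr rfl fun t _ => hbij t, sum_const, card_univ, Fintype.card_fun,
        Fintype.card_fin, Fintype.card_fin, smul_eq_mul]
    rw [← Nat.cast_sum, ← h1, h2]
    push_cast
    ring
  have hle : ∀ a ∈ GS k M z T,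
      (#{t : Fin k → Fin M | SS q (a + sh t) = z q} : ℝ) * q ≤ 2 * (M : ℝ) ^ k := by
    intro a _
    have h1 := hcs k hk q hqq (g2 ^ M') (by rw [hgo]; exact hq8) M hMpos hgd
      (fun m => g2 ^ (a m).val) (z q)
    simp only [hshq]
    exact h1
  have hMk : (0 : ℝ) < (M : ℝ) ^ k := by positivity
  have hfin : ((M : ℝ) ^ k) * ((#{a ∈ GS k M z T | SS q a = z q} : ℝ) * q) ≤
      ((M : ℝ) ^ k) * (2 * #(GS k M z T)) := by
    calc _ = ∑ a ∈ GS k M z T,
          (#{t : Fin k → Fin M | SS q (a + sh t) = z q} : ℝ) * q := by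
          rw [← mul_assoc, hcount, sum_mul]
      _ ≤ ∑ _a ∈ GS k M z T, 2 * (M : ℝ) ^ k := sum_le_sum hle
      _ = _ := by
          rw [sum_const, nsmul_eq_mul]
          ring
  exact le_of_mul_le_mul_left hfin hMk

theorem bad_step : ∃ k₀ d₀ : ℕ, ∀ k ≥ k₀, ∀ (M : ℕ) [NeZero M] (q : ℕ), q.Prime → q ≠ 2 →
    d₀ ≤ od q → od q ^ 4 ≤ q → od q ∣ M → ∀ z : ZMod q,
    (#{a : Fin k → ZMod M | SS q a = z} : ℝ) ^ 2 * (od q : ℝ) ^ 7 ≤ ((M : ℝ) ^ k) ^ 2 := by
  classical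
  obtain ⟨k₀, d₀, hbs⟩ := bad_sum
  refine ⟨k₀, d₀, fun k hk M _ q hq hq2 hd hdq hod z => ?_⟩
  haveI : Fact q.Prime := ⟨hq⟩
  have hMpos : 0 < M := Nat.pos_of_ne_zero (NeZero.ne M)
  obtain ⟨g2, hg2, hg2o⟩ := exists_unit_two hq hq2
  have h1 := hbs k hk q g2 (by rw [hg2o]; exact hd) (by rw [hg2o]; exact hdq) M hMpos
    (by rw [hg2o]; exact hod) z
  rw [hg2o] at h1
  have h2 : #{a : Fin k → ZMod M | SS q a = z} ≤
      #{t : Fin k → Fin M | ∑ m, (g2 : ZMod q) ^ (t m : ℕ) = z} := by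
    refine card_le_card_of_injOn (fun a m => ⟨(a m).val, ZMod.val_lt _⟩) ?_ ?_
    · intro a ha
      rw [mem_coe, mem_filter] at ha
      rw [mem_coe, mem_filter]
      refine ⟨mem_univ _, ?_⟩
      rw [hg2]
      exact ha.2
    · intro a _ b _ h
      funext m
      have h3 := congrFun h m
      exact ZMod.val_injective M (Fin.mk.inj_iff.1 h3)
  refine le_trans (mul_le_mul_of_nonneg_right ?_ (by positivity)) h1
  exact pow_le_pow_left₀ (by positivity) (by exact_mod_cast h2) 2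

end Pool.Agent.SPO
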