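import Pool.Agent.SPO.Mix
import Pool.Agent.SPO.CRT

/-!
# Package C04: small primes

It suffices to prove this for `T' = T` (with `k₀` depending on `T`) and then to take the maximum
of the
`k₀` over the finitely many subsets. Let `P = ∏_{q ∈ T} q`, odd, `ρ` from `mix P`. If `od q ∣ M`
for all `q ∈ T` then
`2^M = 1` modulo all `q ∈ T`, so modulo `P` (squarefree), and `orderOf (2 : ZMod P) ∣ M`. Let
`X = {x : ZMod P | ∀ q ∈ T, (x.val : ZMod q) ≠ z q}`; `#X = ∏ (q - 1) = P ∏ (1 - 1/q)`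
(`crt_count`). As `q ∣ P`,
`SS q a` is the image of `SS P a` (`ZMod.castHom`; the image of `x : ZMod P` is `(x.val : ZMod
q)`), so
`GS k M z T = {a | SS P a ∈ X}` and `|#GS/M^k - #X/P| ≤ P ρ^k`. Choose `k₀` such that
`P ρ^k ≤ (1/2) ∏_{q ∈ T} (1 - 1/q)` for `k ≥ k₀`.
-/

set_option autoImplicit false

namespace Pool.Agent.SPO

open Finset

private theorem Small_ord {T : Finset ℕ} (hT : ∀ q ∈ T, q.Prime ∧ q ≠ 2) {M : ℕ}
    (hM : ∀ q ∈ T, od q ∣ M) : orderOf (2 : ZMod (∏ q ∈ T, q)) ∣ M := by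
  rw [orderOf_dvd_iff_pow_eq_one]
  have h1 : (∏ q ∈ T, q) ∣ 2 ^ M - 1 := by
    refine Finset.prod_primes_dvd _ (fun q hq => (hT q hq).1.prime) fun q hq => ?_
    have h2 : (2 : ZMod q) ^ M = 1 := orderOf_dvd_iff_pow_eq_one.1 (hM q hq)
    rw [← ZMod.natCast_eq_zero_iff, Nat.cast_sub Nat.one_le_two_pow]
    push_cast
    rw [h2, sub_self]
  rw [← ZMod.natCast_eq_zero_iff, Nat.cast_sub Nat.one_le_two_pow] at h1
  push_cast at h1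
  exact sub_eq_zero.1 h1

private theorem Small_SS {P q : ℕ} [NeZero P] (h : q ∣ P) {k M : ℕ} (a : Fin k → ZMod M) :
    (((SS P a).val : ℕ) : ZMod q) = SS q a := by
  rw [ZMod.natCast_val, ← ZMod.castHom_apply (h := h)]
  unfold SS
  rw [map_sum]
  refine sum_congr rfl fun m _ => ?_
  rw [map_pow, map_ofNat]

private theorem Small_cardX {T : Finset ℕ} (hT : ∀ q ∈ T, q.Prime ∧ q ≠ 2)
    [NeZero (∏ q ∈ T, q)] (z : (q : ℕ) → ZMod q) :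
    #{x : ZMod (∏ q ∈ T, q) | ∀ q ∈ T, ((x.val : ℕ) : ZMod q) ≠ z q} = ∏ q ∈ T, (q - 1) := by
  rw [← crt_count T (fun q hq => (hT q hq).1) z]
  refine card_bij (fun x _ => x.val) ?_ ?_ ?_
  · intro x hx
    rw [mem_filter, mem_range]
    exact ⟨ZMod.val_lt x, (mem_filter.1 hx).2⟩
  · intro x _ y _ hxy
    exact ZMod.val_injective _ hxy
  · intro n hn
    rw [mem_filter, mem_range] at hn
    have h1 : ((n : ℕ) : ZMod (∏ q ∈ T, q)).val = n := ZMod.val_natCast_of_lt hn.1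
    refine ⟨(n : ZMod (∏ q ∈ T, q)), ?_, h1⟩
    rw [mem_filter]
    refine ⟨mem_univ _, ?_⟩
    rw [h1]
    exact hn.2

private theorem Small_one (T : Finset ℕ) (hT : ∀ q ∈ T, q.Prime ∧ q ≠ 2) : ∃ k₀ : ℕ, ∀ k ≥ k₀,
    ∀ (M : ℕ) [NeZero M], (∀ q ∈ T, od q ∣ M) → ∀ z : (q : ℕ) → ZMod q,
      (1 / 2) * (∏ q ∈ T, (1 - 1 / (q : ℝ))) * (M : ℝ) ^ k ≤ #(GS k M z T) ∧
      (#(GS k M z T) : ℝ) ≤ 2 * (∏ q ∈ T, (1 - 1 / (q : ℝ))) * (M : ℝ) ^ k := by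
  have hP0 : ∏ q ∈ T, q ≠ 0 := prod_ne_zero_iff.2 fun q hq => (hT q hq).1.ne_zero
  have : NeZero (∏ q ∈ T, q) := ⟨hP0⟩
  have hodd : (∏ q ∈ T, q) % 2 = 1 := by
    rw [← Nat.odd_iff]
    refine Finset.prod_induction _ Odd (fun a b ha hb => ha.mul hb) odd_one fun q hq => ?_
    exact (hT q hq).1.odd_of_ne_two (hT q hq).2
  obtain ⟨ρ, hρ0, hρ1, hρ⟩ := mix (∏ q ∈ T, q) hodd
  have hc : 0 < ∏ q ∈ T, (1 - 1 / (q : ℝ)) := by
    refine prod_pos fun q hq => ?_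
    have h1 : (1 : ℝ) < q := by exact_mod_cast (hT q hq).1.one_lt
    rw [sub_pos, div_lt_one (by linarith)]
    exact h1
  have hlim : Filter.Tendsto (fun k : ℕ => ((∏ q ∈ T, q : ℕ) : ℝ) * ρ ^ k) Filter.atTop
      (nhds (((∏ q ∈ T, q : ℕ) : ℝ) * 0)) :=
    (tendsto_pow_atTop_nhds_zero_of_lt_one hρ0 hρ1).const_mul _
  rw [mul_zero] at hlim
  obtain ⟨k₀, hk₀⟩ := Filter.eventually_atTop.1
    (hlim.eventually_le_const (half_pos hc))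
  refine ⟨k₀, fun k hk M _ hM z => ?_⟩
  have hM0 : (0 : ℝ) < (M : ℝ) ^ k := by
    have h1 : 0 < M := Nat.pos_of_ne_zero (NeZero.ne M)
    positivity
  have hk1 := hk₀ k hk
  have hord := Small_ord hT hM
  obtain ⟨X, hX⟩ : ∃ X : Finset (ZMod (∏ q ∈ T, q)), X =
    ({x : ZMod (∏ q ∈ T, q) | ∀ q ∈ T, ((x.val : ℕ) : ZMod q) ≠ z q} : Finset _) := ⟨_, rfl⟩
  have hXc : (#X : ℝ) / ((∏ q ∈ T, q : ℕ) : ℝ) = ∏ q ∈ T, (1 - 1 / (q : ℝ)) := by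
    rw [hX, Small_cardX hT z, Nat.cast_prod, Nat.cast_prod, ← prod_div_distrib]
    refine prod_congr rfl fun q hq => ?_
    have h1 : (q : ℝ) ≠ 0 := by exact_mod_cast (hT q hq).1.ne_zero
    rw [Nat.cast_sub (hT q hq).1.one_lt.le, Nat.cast_one, sub_div, div_self h1]
  have hmem : ∀ a : Fin k → ZMod M, a ∈ GS k M z T ↔ SS (∏ q ∈ T, q) a ∈ X := by
    intro a
    rw [hX, GS, mem_filter, mem_filter]
    have h1 : ∀ q ∈ T, (((SS (∏ q ∈ T, q) a).val : ℕ) : ZMod q) = SS q a :=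
      fun q hq => Small_SS (dvd_prod_of_mem _ hq) a
    constructor
    · rintro ⟨_, h2⟩
      refine ⟨mem_univ _, fun q hq => ?_⟩
      rw [h1 q hq]
      exact h2 q hq
    · rintro ⟨_, h2⟩
      refine ⟨mem_univ _, fun q hq => ?_⟩
      rw [← h1 q hq]
      exact h2 q hq
  have hcard : #(GS k M z T) = ∑ x ∈ X, #{a : Fin k → ZMod M | SS (∏ q ∈ T, q) a = x} := by
    rw [card_eq_sum_card_fiberwise (f := fun a => SS (∏ q ∈ T, q) a) (t := X)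
      (fun a ha => (hmem a).1 ha)]
    refine sum_congr rfl fun x hx => ?_
    congr 1
    ext a
    rw [mem_filter, mem_filter]
    constructor
    · rintro ⟨_, h2⟩
      exact ⟨mem_univ _, h2⟩
    · rintro ⟨_, h2⟩
      refine ⟨(hmem a).2 ?_, h2⟩
      rw [h2]
      exact hx
  have hdiff : |(#(GS k M z T) : ℝ) / (M : ℝ) ^ k - ∏ q ∈ T, (1 - 1 / (q : ℝ))| ≤
      ((∏ q ∈ T, q : ℕ) : ℝ) * ρ ^ k := by
    have h1 : (#(GS k M z T) : ℝ) / (M : ℝ) ^ k - ∏ q ∈ T, (1 - 1 / (q : ℝ)) =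
        ∑ x ∈ X, ((#{a : Fin k → ZMod M | SS (∏ q ∈ T, q) a = x} : ℝ) / (M : ℝ) ^ k -
          1 / ((∏ q ∈ T, q : ℕ) : ℝ)) := by
      rw [sum_sub_distrib, ← sum_div, sum_const, nsmul_eq_mul, mul_one_div, hXc, hcard]
      push_cast
      rfl
    rw [h1]
    refine (abs_sum_le_sum_abs _ _).trans ?_
    have h2 : ∀ x ∈ X, |(#{a : Fin k → ZMod M | SS (∏ q ∈ T, q) a = x} : ℝ) / (M : ℝ) ^ k -
        1 / ((∏ q ∈ T, q : ℕ) : ℝ)| ≤ ρ ^ k := fun x _ => hρ k M hord x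
    refine (sum_le_sum h2).trans ?_
    rw [sum_const, nsmul_eq_mul]
    refine mul_le_mul_of_nonneg_right ?_ (pow_nonneg hρ0 k)
    have h3 : #X ≤ ∏ q ∈ T, q := by
      have h4 := card_le_univ X
      rwa [ZMod.card] at h4
    exact_mod_cast h3
  have hd := abs_le.1 (hdiff.trans hk1)
  constructor
  · have h1 : (1 / 2) * (∏ q ∈ T, (1 - 1 / (q : ℝ))) ≤ (#(GS k M z T) : ℝ) / (M : ℝ) ^ k := by
      linarith [hd.1]
    rwa [le_div_iff₀ hM0] at h1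
  · have h1 : (#(GS k M z T) : ℝ) / (M : ℝ) ^ k ≤ 2 * (∏ q ∈ T, (1 - 1 / (q : ℝ))) := by
      linarith [hd.2]
    rwa [div_le_iff₀ hM0] at h1

theorem small_primes (T : Finset ℕ) (hT : ∀ q ∈ T, q.Prime ∧ q ≠ 2) : ∃ k₀ : ℕ, ∀ k ≥ k₀,
    ∀ T' ⊆ T, ∀ (M : ℕ) [NeZero M], (∀ q ∈ T', od q ∣ M) → ∀ z : (q : ℕ) → ZMod q,
      (1 / 2) * (∏ q ∈ T', (1 - 1 / (q : ℝ))) * (M : ℝ) ^ k ≤ #(GS k M z T') ∧
      (#(GS k M z T') : ℝ) ≤ 2 * (∏ q ∈ T', (1 - 1 / (q : ℝ))) * (M : ℝ) ^ k := by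
  classical
  have h1 : ∀ T' : Finset ℕ, ∃ k₀ : ℕ, T' ⊆ T → ∀ k ≥ k₀,
      ∀ (M : ℕ) [NeZero M], (∀ q ∈ T', od q ∣ M) → ∀ z : (q : ℕ) → ZMod q,
      (1 / 2) * (∏ q ∈ T', (1 - 1 / (q : ℝ))) * (M : ℝ) ^ k ≤ #(GS k M z T') ∧
      (#(GS k M z T') : ℝ) ≤ 2 * (∏ q ∈ T', (1 - 1 / (q : ℝ))) * (M : ℝ) ^ k := by
    intro T'
    by_cases h : T' ⊆ T
    · obtain ⟨k₀, hk₀⟩ := Small_one T' fun q hq => hT q (h hq)
      exact ⟨k₀, fun _ => hk₀⟩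
    · exact ⟨0, fun h' => absurd h' h⟩
  choose f hf using h1
  refine ⟨T.powerset.sup f, fun k hk T' hT' => hf T' hT' k ?_⟩
  exact (le_sup (f := f) (mem_powerset.2 hT')).trans hk

end Pool.Agent.SPO
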