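import Pool.Agent.SPO.Defs

/-!
# Package P05: the smooth part of a number

`smo y n = ∏_{p ∣ n, p ≤ y} p^{v_p(n)}`. All statements follow from
`n = ∏_{p ∣ n} p^{v_p(n)}` (`Nat.prod_factorization_pow_eq_self`,
`Nat.factorization_prod_pow_eq_self`)
and comparison of factorizations. For `exists_dvd_window`: let `d` be the smallest divisor of `m`
with
`Y ≤ d⁸` (`m` itself is one). If `d = 1` then `d⁴ = 1 ≤ Y`. Otherwise let `p` be a prime divisor
of `d`;
`d/p` is a smaller divisor of `m`, so `(d/p)⁸ < Y`, and `p ≤ y` gives `d⁸ < Y p⁸ ≤ Y y⁸ ≤ Y²`, `d⁴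
< Y`.
-/

set_option autoImplicit false

namespace Pool.Agent.SPO

open Finset

theorem smo_pos (y n : ℕ) : 0 < smo y n := by
  refine prod_pos fun p hp => ?_
  rw [mem_filter] at hp
  exact pow_pos (Nat.prime_of_mem_primeFactors hp.1).pos _

private theorem fac_smo (y n p : ℕ) :
    (smo y n).factorization p = if p ≤ y then n.factorization p else 0 := by
  have h1 : smo y n = (n.factorization.filter (· ≤ y)).prod (fun p k => p ^ k) := by
    unfold smo
    rw [Finsupp.prod, Finsupp.support_filter, Nat.support_factorization]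
    refine prod_congr rfl fun p hp => ?_
    rw [mem_filter] at hp
    rw [Finsupp.filter_apply_pos (fun x => x ≤ y) n.factorization hp.2]
  have h2 : (smo y n).factorization = n.factorization.filter (· ≤ y) := by
    rw [h1]
    refine Nat.prod_pow_factorization_eq_self fun p hp => ?_
    rw [Finsupp.support_filter, mem_filter, Nat.support_factorization] at hp
    exact Nat.prime_of_mem_primeFactors hp.1
  rw [h2, Finsupp.filter_apply]

theorem smo_dvd (y : ℕ) {n : ℕ} (hn : n ≠ 0) : smo y n ∣ n := by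
  rw [← Nat.factorization_le_iff_dvd (smo_pos y n).ne' hn]
  intro p
  rw [fac_smo]
  split_ifs
  · exact le_rfl
  · exact Nat.zero_le _

theorem le_of_prime_dvd_smo {y n p : ℕ} (hp : p.Prime) (h : p ∣ smo y n) : p ≤ y := by
  have h1 := hp.factorization_pos_of_dvd (smo_pos y n).ne' h
  rw [fac_smo] at h1
  by_contra hcon
  rw [if_neg hcon] at h1
  exact lt_irrefl _ h1

theorem smo_dvd_smo (y : ℕ) {d n : ℕ} (hn : n ≠ 0) (h : d ∣ n) : smo y d ∣ smo y n := by
  have hd : d ≠ 0 := fun h0 => hn (by rw [h0] at h; exact Nat.eq_zero_of_zero_dvd h)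
  rw [← Nat.factorization_le_iff_dvd (smo_pos y d).ne' (smo_pos y n).ne']
  intro p
  rw [fac_smo, fac_smo]
  split_ifs
  · exact (Nat.factorization_le_iff_dvd hd hn).2 h p
  · exact le_rfl

theorem smo_dvd_smo_of_le {y y' : ℕ} (h : y ≤ y') (n : ℕ) : smo y n ∣ smo y' n := by
  rw [← Nat.factorization_le_iff_dvd (smo_pos y n).ne' (smo_pos y' n).ne']
  intro p
  rw [fac_smo, fac_smo]
  split_ifs with h1 h2
  · exact le_rfl
  · exact absurd (h1.trans h) h2
  · exact Nat.zero_le _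
  · exact le_rfl

theorem smo_eq_self {y n : ℕ} (hn : n ≠ 0) (h : ∀ p : ℕ, p.Prime → p ∣ n → p ≤ y) :
    smo y n = n := by
  refine Nat.eq_of_factorization_eq (smo_pos y n).ne' hn fun p => ?_
  rw [fac_smo]
  split_ifs with h1
  · rfl
  · by_contra hcon
    have hp : p ∈ n.primeFactors := by
      rw [← Nat.support_factorization, Finsupp.mem_support_iff]
      exact fun h0 => hcon h0.symm
    exact h1 (h p (Nat.prime_of_mem_primeFactors hp) (Nat.dvd_of_mem_primeFactors hp))

theorem smo_one (n : ℕ) : smo 1 n = 1 := by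
  refine prod_eq_one fun p hp => ?_
  rw [mem_filter] at hp
  exact absurd (Nat.prime_of_mem_primeFactors hp.1).one_lt (not_lt.2 hp.2)

theorem lt_of_prime_dvd_div_smo {y n p : ℕ} (hn : n ≠ 0) (hp : p.Prime) (h : p ∣ n / smo y n) :
    y < p := by
  have h0 : n / smo y n ≠ 0 := by
    intro h0
    have h1 := Nat.div_mul_cancel (smo_dvd y hn)
    rw [h0, zero_mul] at h1
    exact hn h1.symm
  have h1 := hp.factorization_pos_of_dvd h0 h
  rw [Nat.factorization_div (smo_dvd y hn), Finsupp.tsub_apply, fac_smo] at h1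
  by_contra hcon
  rw [if_pos (not_lt.1 hcon), Nat.sub_self] at h1
  exact lt_irrefl _ h1

/-- the gcd of a divisor `d` of `M` with the smooth part of `M` -/
theorem gcd_smo (y : ℕ) {d M : ℕ} (hM : M ≠ 0) (h : d ∣ M) : Nat.gcd d (smo y M) = smo y d := by
  have hd : d ≠ 0 := fun h0 => hM (by rw [h0] at h; exact Nat.eq_zero_of_zero_dvd h)
  refine Nat.eq_of_factorization_eq (Nat.gcd_pos_of_pos_left _ (Nat.pos_of_ne_zero hd)).ne'
    (smo_pos y d).ne' fun p => ?_
  rw [Nat.factorization_gcd hd (smo_pos y M).ne', Finsupp.inf_apply, fac_smo, fac_smo]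
  split_ifs
  · exact inf_eq_left.2 ((Nat.factorization_le_iff_dvd hd hM).2 h p)
  · exact inf_eq_right.2 (Nat.zero_le _)

theorem exists_dvd_window {m y Y : ℕ} (hm : m ≠ 0) (hy : ∀ p : ℕ, p.Prime → p ∣ m → p ≤ y)
    (hyY : y ^ 8 ≤ Y) (hY : 1 ≤ Y) (hmY : Y ≤ m ^ 8) : ∃ d, d ∣ m ∧ Y ≤ d ^ 8 ∧ d ^ 4 ≤ Y := by
  classical
  have hex : ∃ d, d ∣ m ∧ Y ≤ d ^ 8 := ⟨m, dvd_rfl, hmY⟩
  obtain ⟨h1, h2⟩ := Nat.find_spec hex
  have hmin := fun d' (h : d' < Nat.find hex) => Nat.find_min hex h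
  generalize Nat.find hex = d at h1 h2 hmin
  refine ⟨d, h1, h2, ?_⟩
  by_cases hd1 : d = 1
  · rw [hd1, one_pow]
    exact hY
  · obtain ⟨p, hp, hpd⟩ := Nat.exists_prime_and_dvd hd1
    obtain ⟨e, rfl⟩ := hpd
    have he0 : e ≠ 0 := by
      rintro rfl
      rw [mul_zero] at h1
      exact hm (Nat.eq_zero_of_zero_dvd h1)
    have he : e < p * e := by
      calc e = 1 * e := (one_mul e).symm
        _ < p * e := Nat.mul_lt_mul_of_pos_right hp.one_lt (Nat.pos_of_ne_zero he0)
    have h3 : e ^ 8 < Y := by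
      by_contra hcon
      exact hmin e he ⟨(Dvd.intro_left p rfl).trans h1, not_lt.1 hcon⟩
    have h4 : p ≤ y := hy p hp ((Dvd.intro e rfl).trans h1)
    have h5 : p ^ 8 ≤ Y := (Nat.pow_le_pow_left h4 8).trans hyY
    have h6 : (p * e) ^ 8 ≤ Y * Y := by
      rw [mul_pow]
      exact Nat.mul_le_mul h5 h3.le
    by_contra hcon
    rw [not_le] at hcon
    have h7 : Y * Y < (p * e) ^ 4 * (p * e) ^ 4 := Nat.mul_lt_mul'' hcon hcon
    have h8 : (p * e) ^ 4 * (p * e) ^ 4 = (p * e) ^ 8 := by ring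
    omega

end Pool.Agent.SPO
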