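import Pool.Agent.SPO.Window
import Pool.Agent.SPO.Smo
import Pool.Agent.SPO.GgSum

/-!
# Package P08: primes `q` of a window for which `q - 1` has a large smooth part

Let `C₁` be as in `window_sum`, `c = 1/32`, `C = C₁ e^{32}` (so `C ≥ C₁ e`). Let `j' = max(j, 3)`,
so
`j' ≤ j + 2` and `smo (Z j) n ≤ smo (Z j') n` (`smo_dvd_smo_of_le`, `smo_pos`, `Nat.le_of_dvd`).

Case 1, `i < j' + 3`: `i - j ≤ 4`, `exp(-c 2^{i-j}) ≥ e^{-1/2}`, and the sum is `≤ C₁` by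
`win_sum_le`.

Case 2, `i ≥ j' + 3`: put `y = Z j' ≥ 16`, `Y = Z i`, `y⁸ ≤ Y` (`8 · 2^{j'-1} ≤ 2^{i-1}`), `σ =
1/log y`. Let `q` be in the
set, `m = smo y (q-1)`: `Y ≤ m⁸`, and by `exists_dvd_window` there is `d ∣ m`, `Y ≤ d⁸`, `d⁴ ≤ Y`;
all prime
factors of `d` are `≤ y`. So `d^σ = ∑_{D ∣ d} gg σ D ≤ ∑_{D ∈ T, D ∣ q-1} gg σ D` where
`T = {D ∈ [1, Y] : D⁴ ≤ Y, all prime factors ≤ y}` (`gg ≥ 0`), and `d^σ ≥ Y^{σ/8} = exp(log Y/(8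
log y)) =
exp(2^{i-j'}/8)`. Summing `1/q` over the set and exchanging the sums:
`exp(2^{i-j'}/8) ∑ 1/q ≤ ∑_{D ∈ T} gg σ D ∑_{q ∈ (Y, Y²], q ≡ 1 mod D} 1/q ≤ ∑_{D ∈ T} gg σ D
C₁/φ(D) ≤ C₁ e^{32}`
(`window_sum` with `r = 1`: `D ∣ q - 1` iff `q % D = 1 % D` as `q ≥ 1`; `sum_gg_div_le`). Finally
`2^{i-j'}/8 ≥ 2^{i-j}/32`.
-/

set_option autoImplicit false

namespace Pool.Agent.SPO

open Finset

private theorem log_Z (k : ℕ) : Real.log (Z (k + 1)) = 2 ^ k * Real.log 2 := by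
  rw [Z_succ]
  push_cast
  rw [Real.log_pow]
  push_cast
  ring

private theorem core {t k q : ℕ} {T : Finset ℕ} (hk : 3 ≤ k)
    (hT : ∀ D : ℕ, D ≠ 0 → D ^ 4 ≤ Z (t + 1 + k) →
      (∀ p : ℕ, p.Prime → p ∣ D → p ≤ Z (t + 1)) → D ∈ T) (hq : 2 ≤ q)
    (h : Z (t + 1 + k) ≤ smo (Z (t + 1)) (q - 1) ^ 8) :
    Real.exp (2 ^ k / 8) ≤ ∑ D ∈ T.filter (fun D => D ∣ q - 1), gg (1 / Real.log (Z (t + 1))) D := by
  have hyY : Z (t + 1) ^ 8 ≤ Z (t + 1 + k) := by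
    have h1 : Z (t + 1) ^ 8 = Z (t + 1 + 3) := by
      rw [show t + 1 + 3 = (t + 3) + 1 by ring, Z_succ, Z_succ, ← pow_mul]
      congr 1
      ring
    rw [h1]
    exact Z_mono (by omega)
  have hly : 0 < Real.log (Z (t + 1)) := by
    rw [log_Z]
    exact mul_pos (by positivity) (Real.log_pos one_lt_two)
  have hlY : Real.log (Z (t + 1 + k)) = 2 ^ k * Real.log (Z (t + 1)) := by
    rw [show t + 1 + k = (t + k) + 1 by ring, log_Z, log_Z, pow_add]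
    ring
  obtain ⟨d, hdm, hd1, hd2⟩ := exists_dvd_window (smo_pos (Z (t + 1)) (q - 1)).ne'
    (fun p hp h => le_of_prime_dvd_smo hp h) hyY (Z_pos _) h
  have hd0 : d ≠ 0 := by
    rintro rfl
    have h1 := Z_pos (t + 1 + k)
    rw [zero_pow (by norm_num)] at hd1
    omega
  have hdq : d ∣ q - 1 := hdm.trans (smo_dvd _ (by omega))
  have hσ : 0 ≤ 1 / Real.log (Z (t + 1)) := by positivity
  have h1 := sum_gg (1 / Real.log (Z (t + 1))) hd0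
  have h2 : ∑ D ∈ d.divisors, gg (1 / Real.log (Z (t + 1))) D ≤
      ∑ D ∈ T.filter (fun D => D ∣ q - 1), gg (1 / Real.log (Z (t + 1))) D := by
    refine sum_le_sum_of_subset_of_nonneg (fun D hD => ?_) fun _ _ _ => gg_nonneg hσ _
    have hDd : D ∣ d := Nat.dvd_of_mem_divisors hD
    have hD0 : D ≠ 0 := (Nat.pos_of_mem_divisors hD).ne'
    refine mem_filter.2 ⟨hT D hD0 ?_ ?_, hDd.trans hdq⟩
    · exact (Nat.pow_le_pow_left (Nat.le_of_dvd (Nat.pos_of_ne_zero hd0) hDd) 4).trans hd2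
    · intro p hp hpD
      exact le_of_prime_dvd_smo hp ((hpD.trans hDd).trans hdm)
  refine le_trans ?_ h2
  rw [h1, Real.rpow_def_of_pos (by exact_mod_cast Nat.pos_of_ne_zero hd0), Real.exp_le_exp]
  have h3 : Real.log (Z (t + 1 + k)) ≤ 8 * Real.log d := by
    have h4 : ((Z (t + 1 + k) : ℕ) : ℝ) ≤ (d : ℝ) ^ 8 := by exact_mod_cast hd1
    have h5 := Real.log_le_log (by exact_mod_cast Z_pos (t + 1 + k)) h4
    rw [Real.log_pow] at h5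
    exact_mod_cast h5
  rw [hlY] at h3
  rw [mul_one_div, le_div_iff₀ hly]
  linarith

private theorem main_case {C₁ : ℝ} (hC₁ : 1 ≤ C₁)
    (hwin : ∀ D Y r : ℕ, 1 ≤ D → 2 ≤ Y → D ^ 4 ≤ Y →
      ∑ q ∈ (Ioc Y (Y ^ 2)).filter (fun q => q.Prime ∧ q % D = r % D), (1 : ℝ) / q ≤
        C₁ / Nat.totient D) {t k : ℕ} (hk : 3 ≤ k) (ht : 2 ≤ t) :
    Real.exp (2 ^ k / 8) * ∑ q ∈ (win (t + 1 + k)).filter
      (fun q => Z (t + 1 + k) ≤ smo (Z (t + 1)) (q - 1) ^ 8), (1 : ℝ) / q ≤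
      C₁ * Real.exp 32 := by
  classical
  obtain ⟨S, hS⟩ : ∃ S, S = (win (t + 1 + k)).filter
      (fun q => Z (t + 1 + k) ≤ smo (Z (t + 1)) (q - 1) ^ 8) := ⟨_, rfl⟩
  obtain ⟨T, hT⟩ : ∃ T : Finset ℕ, T = (Icc 1 (Z (t + 1 + k))).filter (fun D =>
      D ^ 4 ≤ Z (t + 1 + k) ∧ ∀ p : ℕ, p.Prime → p ∣ D → p ≤ Z (t + 1)) := ⟨_, rfl⟩
  obtain ⟨g, hg⟩ : ∃ g : ℕ → ℝ, g = gg (1 / Real.log (Z (t + 1))) := ⟨_, rfl⟩
  have hy16 : 16 ≤ Z (t + 1) := by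
    have h1 : Z 3 = 16 := by rw [Z_succ]; norm_num
    rw [← h1]
    exact Z_mono (by omega)
  have hY2 : 2 ≤ Z (t + 1 + k) := by
    have h1 := Z_mono (show t + 1 ≤ t + 1 + k by omega)
    omega
  have hg0 : ∀ D, 0 ≤ g D := by
    intro D
    rw [hg]
    refine gg_nonneg ?_ D
    have h1 : 0 ≤ Real.log (Z (t + 1)) := Real.log_natCast_nonneg _
    positivity
  have hmT : ∀ D : ℕ, D ≠ 0 → D ^ 4 ≤ Z (t + 1 + k) →
      (∀ p : ℕ, p.Prime → p ∣ D → p ≤ Z (t + 1)) → D ∈ T := by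
    intro D hD0 hD4 hp
    rw [hT, mem_filter, mem_Icc]
    refine ⟨⟨Nat.pos_of_ne_zero hD0, ?_⟩, hD4, hp⟩
    exact (Nat.le_self_pow (by norm_num) D).trans hD4
  have h1 : ∀ q ∈ S, Real.exp (2 ^ k / 8) * ((1 : ℝ) / q) ≤
      ∑ D ∈ T, if D ∣ q - 1 then g D * ((1 : ℝ) / q) else 0 := by
    intro q hq
    rw [hS, mem_filter, mem_win] at hq
    obtain ⟨⟨-, hqp, -⟩, hq2⟩ := hq
    have h2 := core hk hmT hqp.two_le hq2
    rw [← hg] at h2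
    rw [← sum_filter, ← sum_mul]
    exact mul_le_mul_of_nonneg_right h2 (by positivity)
  have h2 : ∀ D ∈ T, (∑ q ∈ S, if D ∣ q - 1 then g D * ((1 : ℝ) / q) else 0) ≤
      C₁ * (g D / Nat.totient D) := by
    intro D hD
    rw [hT, mem_filter, mem_Icc] at hD
    rw [← sum_filter, ← mul_sum]
    have h3 : ∑ q ∈ S.filter (fun q => D ∣ q - 1), (1 : ℝ) / q ≤
        ∑ q ∈ (Ioc (Z (t + 1 + k)) (Z (t + 1 + k) ^ 2)).filter
          (fun q => q.Prime ∧ q % D = 1 % D), (1 : ℝ) / q := by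
      refine sum_le_sum_of_subset_of_nonneg (fun q hq => ?_) fun _ _ _ => by positivity
      rw [mem_filter, hS, mem_filter, mem_win] at hq
      obtain ⟨⟨⟨⟨h4, h5⟩, hqp, -⟩, -⟩, h6⟩ := hq
      rw [mem_filter, mem_Ioc, ← Z_sq (by omega)]
      exact ⟨⟨h4, h5⟩, hqp, ((Nat.modEq_iff_dvd' hqp.one_le).2 h6).symm⟩
    have h4 := h3.trans (hwin D (Z (t + 1 + k)) 1 hD.1.1 hY2 hD.2.1)
    calc g D * ∑ q ∈ S.filter (fun q => D ∣ q - 1), (1 : ℝ) / q ≤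
          g D * (C₁ / Nat.totient D) := mul_le_mul_of_nonneg_left h4 (hg0 D)
      _ = C₁ * (g D / Nat.totient D) := by ring
  have h3 : ∑ D ∈ T, g D / Nat.totient D ≤ Real.exp 32 := by
    rw [hg]
    refine sum_gg_div_le hy16 T fun D hD => ?_
    rw [hT, mem_filter, mem_Icc] at hD
    exact ⟨by omega, hD.2.2⟩
  rw [← hS, mul_sum]
  calc ∑ q ∈ S, Real.exp (2 ^ k / 8) * ((1 : ℝ) / q) ≤
        ∑ q ∈ S, ∑ D ∈ T, (if D ∣ q - 1 then g D * ((1 : ℝ) / q) else 0) := sum_le_sum h1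
    _ = ∑ D ∈ T, ∑ q ∈ S, (if D ∣ q - 1 then g D * ((1 : ℝ) / q) else 0) := sum_comm
    _ ≤ ∑ D ∈ T, C₁ * (g D / Nat.totient D) := sum_le_sum h2
    _ = C₁ * ∑ D ∈ T, g D / Nat.totient D := by rw [mul_sum]
    _ ≤ C₁ * Real.exp 32 := mul_le_mul_of_nonneg_left h3 (by linarith)

theorem smooth_window : ∃ C c : ℝ, 0 < C ∧ 0 < c ∧ ∀ i j : ℕ, 1 ≤ j → j ≤ i →
    ∑ q ∈ (win i).filter (fun q => Z i ≤ smo (Z j) (q - 1) ^ 8), (1 : ℝ) / q ≤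
      C * Real.exp (-(c * 2 ^ (i - j))) := by
  obtain ⟨C₁, hC₁, hwin⟩ := window_sum
  have h32 : 0 < Real.exp 32 := Real.exp_pos _
  refine ⟨C₁ * Real.exp 32, 1 / 32, by positivity, by norm_num, fun i j hj hji => ?_⟩
  by_cases hi : i < max j 3 + 3
  · have h1 : i - j ≤ 4 := by omega
    have h2 : (2 : ℝ) ^ (i - j) ≤ 2 ^ 4 := pow_le_pow_right₀ (by norm_num) h1
    have h3 : ∑ q ∈ (win i).filter (fun q => Z i ≤ smo (Z j) (q - 1) ^ 8), (1 : ℝ) / q ≤ C₁ :=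
      (sum_le_sum_of_subset_of_nonneg (filter_subset _ _) fun _ _ _ => by positivity).trans
        (win_sum_le hwin (by linarith) i)
    refine h3.trans ?_
    rw [mul_assoc, ← Real.exp_add]
    have h4 : 1 ≤ Real.exp (32 + -(1 / 32 * 2 ^ (i - j))) := Real.one_le_exp (by linarith)
    nlinarith
  · obtain ⟨t, ht⟩ : ∃ t, max j 3 = t + 1 := ⟨max j 3 - 1, by omega⟩
    obtain ⟨k, hk⟩ : ∃ k, i = t + 1 + k := ⟨i - (t + 1), by omega⟩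
    subst hk
    have hk3 : 3 ≤ k := by omega
    have h1 := main_case hC₁ hwin hk3 (show 2 ≤ t by omega)
    have h2 : ∑ q ∈ (win (t + 1 + k)).filter
        (fun q => Z (t + 1 + k) ≤ smo (Z j) (q - 1) ^ 8), (1 : ℝ) / q ≤
        ∑ q ∈ (win (t + 1 + k)).filter
        (fun q => Z (t + 1 + k) ≤ smo (Z (t + 1)) (q - 1) ^ 8), (1 : ℝ) / q := by
      refine sum_le_sum_of_subset_of_nonneg (fun q hq => ?_) fun _ _ _ => by positivity
      rw [mem_filter] at hq ⊢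
      refine ⟨hq.1, hq.2.trans (Nat.pow_le_pow_left ?_ 8)⟩
      exact Nat.le_of_dvd (smo_pos _ _) (smo_dvd_smo_of_le (Z_mono (by omega)) _)
    refine h2.trans ?_
    have hE : 0 < Real.exp (2 ^ k / 8) := Real.exp_pos _
    have h3 : (2 : ℝ) ^ (t + 1 + k - j) ≤ 2 ^ (k + 2) :=
      pow_le_pow_right₀ (by norm_num) (by omega)
    rw [pow_add] at h3
    have h4 : Real.exp (-(2 ^ k / 8)) ≤ Real.exp (-(1 / 32 * 2 ^ (t + 1 + k - j))) :=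
      Real.exp_le_exp.2 (by linarith)
    refine le_trans ?_ (mul_le_mul_of_nonneg_left h4 (by positivity))
    rw [Real.exp_neg, ← div_eq_mul_inv, le_div_iff₀ hE, mul_comm]
    exact h1

end Pool.Agent.SPO
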