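import Pool.Agent.SPO.Step
import Pool.Agent.SPO.Small
import Pool.Agent.SPO.Recur

/-!
# Package C08: the stage theorem

Let `C₁ ≥ 1` be from `window_sum` (`win_sum_le`), `C, c, k₀', i₂` from `window_step`, `B = max(2,
exp(2C₁))`, `η` from
`exists_eta` with `η' = 1/20`. Given `Q, i₀`: choose `i₁ ≥ max(i₀, i₂, 1)` with
`C (2/5)^{i₁} ≤ w₀/4`, `w₀ := (1/2) exp(-2C₁i₀ - i₁/10)` (possible: `(2/5) e^{1/10} < 1`). `T =
prs Q i₁`,
`k₀ = max(k₀', k₀ of small_primes T)`; `c := w₀`.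

Let `I ≥ i₁`, `M` with `od q ∣ M` for `q ∈ prs Q I`, and `W j = #GS k M z (prs Q j)/M^k`.
`recur` with `β i = C (2/5)^i`, `σ i` from `window_step` (for `i ≥ i₁`):
* `h2` is `window_step` divided by `M^k` (`prs Q (i+1) ⊆ prs Q I` for `i < I`);
* `h3` is `exists_eta` (`σ i t ≤ ∑_{win i ∩ Q} 1/q ≤ η` as `i ≥ i₀`);
* `h1`, `hW`: for `j ≤ i₁`, `T' = prs Q j ⊆ T`: by `small_primes`
  `W j ≤ 2 ∏_{prs Q j} (1 - 1/q)`, `W i₁ ≥ (1/2) ∏_{prs Q i₁} (1 - 1/q)`. As `1 - 1/q ≥ exp(-2/q)`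
(`q ≥ 3`) and the
  primes of `prs Q i₁ \ prs Q j` are in the windows `j, ..., i₁ - 1`:
  `W j ≤ 4 exp(2C₁(i₁-j)) W i₁ ≤ 4 B^(i₁-j) W i₁`; and
  `W i₁ ≥ (1/2) exp(-2 ∑_{prs Q i₁} 1/q) ≥ (1/2) exp(-2C₁i₀ - 2ηi₁) ≥ w₀` (windows below `i₀`:
`C₁` each, the
  others: `η ≤ 1/20` each);
* `h4`: `C (2/5)^i ≤ C (2/5)^{i₁} (1/2)^{i-i₁} ≤ w₀/2^{i-i₁}/4`.
Conclusion at `i = I`: `W I ≥ w₀/2^(I-i₁) ≥ w₀/2^I`.
-/

set_option autoImplicit false

namespace Pool.Agent.SPO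

open Finset

private theorem exp_le_one_sub {x : ℝ} (h0 : 0 ≤ x) (h1 : x ≤ 1 / 2) :
    Real.exp (-(2 * x)) ≤ 1 - x := by
  rw [Real.exp_neg, inv_le_comm₀ (Real.exp_pos _) (by linarith)]
  have h2 : 2 * x + 1 ≤ Real.exp (2 * x) := Real.add_one_le_exp _
  refine le_trans ?_ h2
  rw [inv_le_iff_one_le_mul₀ (by linarith)]
  nlinarith

private theorem prod_ge (s : Finset ℕ) (hs : ∀ q ∈ s, 2 ≤ q) :
    Real.exp (-(2 * ∑ q ∈ s, (1 : ℝ) / q)) ≤ ∏ q ∈ s, (1 - 1 / (q : ℝ)) := by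
  rw [mul_sum, ← sum_neg_distrib, Real.exp_sum]
  refine prod_le_prod (fun q _ => (Real.exp_pos _).le) fun q hq => ?_
  have h2 : (2 : ℝ) ≤ q := by exact_mod_cast hs q hq
  exact exp_le_one_sub (by positivity) (one_div_le_one_div_of_le two_pos h2)

private theorem prs_zero (Q : Set ℕ) : prs Q 0 = ∅ := by
  refine eq_empty_of_forall_notMem fun q hq => ?_
  have h := (mem_prs.mp hq).1
  rw [Z_zero] at h
  omega

private theorem prs_mono (Q : Set ℕ) {i j : ℕ} (h : i ≤ j) : prs Q i ⊆ prs Q j := fun q hq => by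
  have h1 := mem_prs.mp hq
  exact mem_prs.mpr ⟨⟨h1.1.1, h1.1.2.trans (Z_mono h)⟩, h1.2⟩

open Classical in
private theorem prs_succ (Q : Set ℕ) (i : ℕ) :
    Disjoint (prs Q i) ((win i).filter (fun q => q ∈ Q)) ∧
      prs Q (i + 1) = prs Q i ∪ (win i).filter (fun q => q ∈ Q) := by
  constructor
  · rw [disjoint_left]
    intro q h1 h2
    have h3 := (mem_prs.mp h1).1.2
    have h4 := (mem_win.mp (mem_filter.mp h2).1).1.1
    omega
  · ext q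
    rw [mem_union, mem_prs, mem_prs, mem_filter, mem_win]
    constructor
    · rintro ⟨⟨h1, h2⟩, h3, h4⟩
      by_cases h5 : q ≤ Z i
      · exact Or.inl ⟨⟨h1, h5⟩, h3, h4⟩
      · exact Or.inr ⟨⟨⟨not_le.mp h5, h2⟩, h3⟩, h4⟩
    · rintro (⟨⟨h1, h2⟩, h3, h4⟩ | ⟨⟨⟨h1, h2⟩, h3⟩, h4⟩)
      · exact ⟨⟨h1, h2.trans (Z_mono (Nat.le_succ i))⟩, h3, h4⟩
      · exact ⟨⟨h3.1.one_lt, h2⟩, h3, h4⟩

open Classical in
private theorem prod_prs_ge (Q : Set ℕ) {j i : ℕ} (h : j ≤ i) :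
    (∏ q ∈ prs Q j, (1 - 1 / (q : ℝ))) *
      Real.exp (-(2 * ∑ l ∈ Ico j i, ∑ q ∈ (win l).filter (fun q => q ∈ Q), (1 : ℝ) / q)) ≤
      ∏ q ∈ prs Q i, (1 - 1 / (q : ℝ)) := by
  induction i, h using Nat.le_induction with
  | base => simp
  | succ i h ih =>
    rw [(prs_succ Q i).2, prod_union (prs_succ Q i).1, sum_Ico_succ_top h, mul_add, neg_add,
      Real.exp_add, ← mul_assoc]
    have h1 : Real.exp (-(2 * ∑ q ∈ (win i).filter (fun q => q ∈ Q), (1 : ℝ) / q)) ≤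
        ∏ q ∈ (win i).filter (fun q => q ∈ Q), (1 - 1 / (q : ℝ)) :=
      prod_ge _ fun q hq => (mem_win.mp (mem_filter.mp hq).1).2.1.two_le
    refine mul_le_mul ih h1 (Real.exp_pos _).le (prod_nonneg fun q hq => ?_)
    have h2 : (1 : ℝ) ≤ q := by exact_mod_cast (mem_prs.mp hq).1.1.le
    have h3 : (1 : ℝ) / q ≤ 1 := by
      rw [div_le_one (by linarith)]
      exact h2
    linarith

open Classical in
theorem stage : ∃ η : ℝ, 0 < η ∧ ∀ (Q : Set ℕ) (i₀ : ℕ),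
    (∀ i ≥ i₀, ∑ q ∈ (win i).filter (fun q => q ∈ Q), (1 : ℝ) / q ≤ η) →
    ∃ k₀ : ℕ, ∀ k ≥ k₀, ∃ (c : ℝ) (i₁ : ℕ), 0 < c ∧ ∀ I ≥ i₁, ∀ (M : ℕ) [NeZero M],
      (∀ q ∈ prs Q I, od q ∣ M) → ∀ z : (q : ℕ) → ZMod q,
        c / 2 ^ I * (M : ℝ) ^ k ≤ #(GS k M z (prs Q I)) := by
  obtain ⟨C₁, hC₁, hwin⟩ := window_sum
  have hwin' := win_sum_le hwin (zero_le_one.trans hC₁)
  obtain ⟨C, c, k₀', i₂, hC, hc, hstep⟩ := window_step
  set B : ℝ := max 2 (Real.exp (2 * C₁)) with hB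
  have hB2 : 2 ≤ B := le_max_left _ _
  obtain ⟨η, hη, hη20, heta⟩ := exists_eta (B := B) (C := C) (c := c) (η' := 1 / 20)
    (by linarith) hC hc (by norm_num)
  refine ⟨η, hη, fun Q i₀ hQ => ?_⟩
  -- the number `i₁`
  have hlim : Filter.Tendsto (fun i : ℕ => C * (2 / 5 * Real.exp (1 / 10)) ^ i) Filter.atTop
      (nhds 0) := by
    have h1 : 2 / 5 * Real.exp (1 / 10) < 1 := by
      have h3 : Real.exp (1 / 10) * Real.exp (9 / 10) = Real.exp 1 := by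
        rw [← Real.exp_add]
        norm_num
      have h4 : (9 / 10 : ℝ) + 1 ≤ Real.exp (9 / 10) := Real.add_one_le_exp _
      have h5 : 0 < Real.exp (1 / 10) := Real.exp_pos _
      have h6 := Real.exp_one_lt_d9
      have h7 : Real.exp (1 / 10) * ((9 / 10 : ℝ) + 1) ≤ Real.exp 1 := by
        rw [← h3]
        exact mul_le_mul_of_nonneg_left h4 h5.le
      linarith
    have h7 := (tendsto_pow_atTop_nhds_zero_of_lt_one (by positivity) h1).const_mul C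
    rwa [mul_zero] at h7
  obtain ⟨i₁, hi₁lim, hi₁⟩ := ((hlim.eventually_le_const
    (show (0 : ℝ) < 1 / 8 * Real.exp (-(2 * C₁ * i₀)) by positivity)).and
    (Filter.eventually_ge_atTop (max i₀ i₂))).exists
  have hi₀₁ : i₀ ≤ i₁ := (le_max_left _ _).trans hi₁
  have hi₂₁ : i₂ ≤ i₁ := (le_max_right _ _).trans hi₁
  set w₀ : ℝ := 1 / 2 * Real.exp (-(2 * (C₁ * i₀ + i₁ / 20))) with hw₀
  have hw₀pos : 0 < w₀ := by positivity
  have hCw : C * (2 / 5) ^ i₁ ≤ w₀ / 4 := by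
    have h1 : w₀ / 4 = 1 / 8 * Real.exp (-(2 * C₁ * i₀)) * Real.exp (-(i₁ * (1 / 10))) := by
      rw [hw₀, mul_assoc (1 / 8), ← Real.exp_add, show -(2 * (C₁ * (i₀ : ℝ) + i₁ / 20)) =
        -(2 * C₁ * i₀) + -(i₁ * (1 / 10)) by ring]
      ring
    rw [h1, Real.exp_neg (i₁ * (1 / 10)), ← div_eq_mul_inv, le_div_iff₀ (Real.exp_pos _),
      Real.exp_nat_mul, mul_assoc, ← mul_pow]
    exact hi₁lim
  obtain ⟨ks, hks⟩ := small_primes (prs Q i₁) fun q hq => (mem_prs.mp hq).2.1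
  refine ⟨max k₀' ks, fun k hk => ⟨w₀, i₁, hw₀pos, fun I hI M _ hM z => ?_⟩⟩
  have hk1 : k₀' ≤ k := (le_max_left _ _).trans hk
  have hk2 : ks ≤ k := (le_max_right _ _).trans hk
  have hMpos : 0 < (M : ℝ) ^ k := by
    have : 0 < M := Nat.pos_of_ne_zero (NeZero.ne M)
    positivity
  choose σ hσ1 hσ2 hσ3 using hstep k hk1 Q
  let σ' : ℕ → ℕ → ℝ := fun i t => if h : i₂ ≤ i then σ i h t else 0
  have hσ' : ∀ i (h : i₂ ≤ i), σ' i = σ i h := fun i h => by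
    funext t
    simp only [σ', dif_pos h]
  set W : ℕ → ℝ := fun j => (#(GS k M z (prs Q j)) : ℝ) / (M : ℝ) ^ k with hW
  have hWmul : ∀ j, W j * (M : ℝ) ^ k = (#(GS k M z (prs Q j)) : ℝ) := fun j => by
    rw [hW]
    exact div_mul_cancel₀ _ hMpos.ne'
  have hMj : ∀ j ≤ I, ∀ q ∈ prs Q j, od q ∣ M := fun j hj q hq => hM q (prs_mono Q hj hq)
  have hsmall : ∀ j ≤ i₁, (1 / 2) * (∏ q ∈ prs Q j, (1 - 1 / (q : ℝ))) ≤ W j ∧
      W j ≤ 2 * (∏ q ∈ prs Q j, (1 - 1 / (q : ℝ))) := by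
    intro j hj
    obtain ⟨h1, h2⟩ := hks k hk2 (prs Q j) (prs_mono Q hj) M (hMj j (hj.trans hI)) z
    rw [← hWmul j] at h1 h2
    exact ⟨le_of_mul_le_mul_right h1 hMpos, le_of_mul_le_mul_right h2 hMpos⟩
  have hfilt : ∀ l, ∑ q ∈ (win l).filter (fun q => q ∈ Q), (1 : ℝ) / q ≤ C₁ := fun l =>
    (sum_le_sum_of_subset_of_nonneg (filter_subset _ _) fun q _ _ => by positivity).trans (hwin' l)
  -- the inequality `h1` of `recur`
  have hr1 : ∀ j ≤ i₁, W j ≤ 4 * B ^ (i₁ - j) * W i₁ := by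
    intro j hj
    have h1 := prod_prs_ge Q hj
    have h2 : ∑ l ∈ Ico j i₁, ∑ q ∈ (win l).filter (fun q => q ∈ Q), (1 : ℝ) / q ≤
        C₁ * ((i₁ - j : ℕ) : ℝ) := by
      calc _ ≤ ∑ l ∈ Ico j i₁, C₁ := sum_le_sum fun l _ => hfilt l
        _ = C₁ * ((i₁ - j : ℕ) : ℝ) := by
          rw [sum_const, Nat.card_Ico, nsmul_eq_mul, mul_comm]
    have h3 : Real.exp (2 * (C₁ * ((i₁ - j : ℕ) : ℝ))) ≤ B ^ (i₁ - j) := by
      rw [show 2 * (C₁ * ((i₁ - j : ℕ) : ℝ)) = ((i₁ - j : ℕ) : ℝ) * (2 * C₁) by ring,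
        Real.exp_nat_mul]
      exact pow_le_pow_left₀ (Real.exp_pos _).le (le_max_right _ _) _
    have hPj : 0 ≤ ∏ q ∈ prs Q j, (1 - 1 / (q : ℝ)) := prod_nonneg fun q hq => by
      have h2 : (1 : ℝ) ≤ q := by exact_mod_cast (mem_prs.mp hq).1.1.le
      have h3 : (1 : ℝ) / q ≤ 1 := by
        rw [div_le_one (by linarith)]
        exact h2
      linarith
    have h4 : (∏ q ∈ prs Q j, (1 - 1 / (q : ℝ))) ≤
        B ^ (i₁ - j) * ∏ q ∈ prs Q i₁, (1 - 1 / (q : ℝ)) := by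
      have h5 : (∏ q ∈ prs Q j, (1 - 1 / (q : ℝ))) *
          Real.exp (-(2 * (C₁ * ((i₁ - j : ℕ) : ℝ)))) ≤ ∏ q ∈ prs Q i₁, (1 - 1 / (q : ℝ)) := by
        refine le_trans (mul_le_mul_of_nonneg_left (Real.exp_le_exp.mpr ?_) hPj) h1
        linarith
      rw [Real.exp_neg, ← div_eq_mul_inv, div_le_iff₀ (Real.exp_pos _)] at h5
      have hPi : 0 ≤ ∏ q ∈ prs Q i₁, (1 - 1 / (q : ℝ)) := prod_nonneg fun q hq => by
        have h2 : (1 : ℝ) ≤ q := by exact_mod_cast (mem_prs.mp hq).1.1.le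
        have h3 : (1 : ℝ) / q ≤ 1 := by
          rw [div_le_one (by linarith)]
          exact h2
        linarith
      calc _ ≤ (∏ q ∈ prs Q i₁, (1 - 1 / (q : ℝ))) * Real.exp (2 * (C₁ * ((i₁ - j : ℕ) : ℝ))) := h5
        _ ≤ (∏ q ∈ prs Q i₁, (1 - 1 / (q : ℝ))) * B ^ (i₁ - j) :=
          mul_le_mul_of_nonneg_left h3 hPi
        _ = _ := mul_comm _ _
    have h6 := (hsmall j hj).2
    have h7 := (hsmall i₁ le_rfl).1
    have hBp : 0 ≤ B ^ (i₁ - j) := by positivity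
    have h8 : (∏ q ∈ prs Q i₁, (1 - 1 / (q : ℝ))) ≤ 2 * W i₁ := by linarith
    have h9 := mul_le_mul_of_nonneg_left h8 hBp
    nlinarith
  -- the inequality `hW` of `recur`
  have hr2 : w₀ ≤ W i₁ := by
    refine le_trans ?_ (hsmall i₁ le_rfl).1
    have h1 := prod_prs_ge Q (Nat.zero_le i₁)
    rw [prs_zero, prod_empty, one_mul] at h1
    rw [hw₀]
    refine mul_le_mul_of_nonneg_left (le_trans (Real.exp_le_exp.mpr ?_) h1) (by norm_num)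
    have h2 : ∑ l ∈ Ico 0 i₁, ∑ q ∈ (win l).filter (fun q => q ∈ Q), (1 : ℝ) / q ≤
        C₁ * i₀ + i₁ / 20 := by
      rw [← sum_Ico_consecutive _ (Nat.zero_le i₀) hi₀₁]
      refine add_le_add ?_ ?_
      · calc _ ≤ ∑ l ∈ Ico 0 i₀, C₁ := sum_le_sum fun l _ => hfilt l
          _ = C₁ * i₀ := by rw [sum_const, Nat.card_Ico, nsmul_eq_mul, Nat.sub_zero, mul_comm]
      · calc _ ≤ ∑ l ∈ Ico i₀ i₁, (1 / 20 : ℝ) :=
              sum_le_sum fun l hl => (hQ l (mem_Ico.mp hl).1).trans hη20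
          _ = ((i₁ - i₀ : ℕ) : ℝ) * (1 / 20) := by rw [sum_const, Nat.card_Ico, nsmul_eq_mul]
          _ ≤ (i₁ : ℝ) * (1 / 20) := by
              refine mul_le_mul_of_nonneg_right ?_ (by norm_num)
              exact_mod_cast Nat.sub_le i₁ i₀
          _ = (i₁ : ℝ) / 20 := by ring
    linarith
  have hrec := recur (B := B) (w₀ := w₀) (W := W) (σ := σ') (β := fun i => C * (2 / 5) ^ i)
    (i₁ := i₁) (I := I) hB2 hr1 (fun i h1 h2 => ?_) (fun i t => ?_) (fun i h1 h2 => ?_) hw₀pos hr2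
    (fun i h1 h2 => ?_) I hI le_rfl
  · rw [← hWmul I]
    refine mul_le_mul_of_nonneg_right (le_trans ?_ hrec) hMpos.le
    exact div_le_div_of_nonneg_left hw₀pos.le (by positivity)
      (pow_le_pow_right₀ one_le_two (Nat.sub_le _ _))
  · -- h2
    have h3 : i₂ ≤ i := hi₂₁.trans h1
    have h4 := hσ3 i h3 M z (hMj (i + 1) h2)
    rw [hσ' i h3]
    rw [← hWmul i, ← hWmul (i + 1)] at h4
    have h5 : ∑ t ∈ range (i + 1), σ i h3 t * (2 * (#(GS k M z (prs Q (i - t))) : ℝ)) =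
        (∑ t ∈ range (i + 1), σ i h3 t * (2 * W (i - t))) * (M : ℝ) ^ k := by
      rw [sum_mul]
      refine sum_congr rfl fun t _ => ?_
      rw [← hWmul (i - t)]
      ring
    rw [h5] at h4
    have h6 : (W i - ∑ t ∈ range (i + 1), σ i h3 t * (2 * W (i - t)) - C * (2 / 5) ^ i) *
        (M : ℝ) ^ k ≤ W (i + 1) * (M : ℝ) ^ k := by linarith
    exact le_of_mul_le_mul_right h6 hMpos
  · by_cases h : i₂ ≤ i
    · rw [hσ' i h]
      exact (hσ1 i h t).1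
    · simp only [σ', dif_neg h, le_refl]
  · have h3 : i₂ ≤ i := hi₂₁.trans h1
    rw [hσ' i h3]
    exact heta i (σ i h3) (fun t => ⟨(hσ1 i h3 t).1, (hσ1 i h3 t).2.trans
      (hQ i (hi₀₁.trans h1))⟩) (hσ2 i h3)
  · show C * (2 / 5) ^ i ≤ w₀ / 2 ^ (i - i₁) / 4
    obtain ⟨m, rfl⟩ := Nat.exists_eq_add_of_le h1
    rw [Nat.add_sub_cancel_left, pow_add, ← mul_assoc]
    have h3 : (2 / 5 : ℝ) ^ m ≤ (1 / 2) ^ m := pow_le_pow_left₀ (by norm_num) (by norm_num) m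
    calc C * (2 / 5) ^ i₁ * (2 / 5) ^ m ≤ w₀ / 4 * (1 / 2) ^ m :=
          mul_le_mul hCw h3 (by positivity) (by positivity)
      _ = w₀ / 2 ^ m / 4 := by
          rw [one_div, inv_pow]
          ring

end Pool.Agent.SPO
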