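import Pool.Agent.SPO.Shift

/-!
# Package C06: the primes with a small order of 2

`k₀, d₀` from `bad_step`; `i₂` such that `2^(i₂-1) ≥ max(d₀, 1)`, `i₂ ≥ 1`. Let `q ∈ win i`, `od
q^4 < q`. Then
`2^(2^(i-1)) = Z i < q < 2^(od q)` (`lt_two_pow_od`), so `D := 2^(i-1) < od q = d`. By `bad_step`
`#{a | SS q a = z q} ≤ d^(-7/2) M^k`, and at most `d` primes have `od q = d` (`card_od_le`). Sum:
`≤ M^k ∑_{d > D} d · d^(-7/2) ≤ M^k ∑_{d > D} d^(-5/2) ≤ M^k · D^(-3/2)` (comparison with the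
integral, or
`d^(-5/2) ≤ (d-1)^(-3/2) - d^(-3/2)`), and `D^(-3/2) = 2^(3/2) 2^(-3i/2) ≤ 3 (2/5)^i` as `2^(-3/2)
< 2/5`.
-/

set_option autoImplicit false

namespace Pool.Agent.SPO

open Finset

private theorem tele_step {d : ℕ} (hd : 1 ≤ d) :
    1 / (((d + 1 : ℕ) : ℝ) ^ 2 * √((d + 1 : ℕ) : ℝ)) ≤
      1 / ((d : ℝ) * √(d : ℝ)) - 1 / (((d + 1 : ℕ) : ℝ) * √((d + 1 : ℕ) : ℝ)) := by
  have hd0 : (0 : ℝ) < d := by exact_mod_cast hd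
  have h1 : 0 < √(d : ℝ) := Real.sqrt_pos.2 hd0
  have h2 : √(d : ℝ) ≤ √((d + 1 : ℕ) : ℝ) := Real.sqrt_le_sqrt (by push_cast; linarith)
  have h3 : 0 < √((d + 1 : ℕ) : ℝ) := h1.trans_le h2
  have h4 : 1 / ((d : ℝ) * √((d + 1 : ℕ) : ℝ)) ≤ 1 / ((d : ℝ) * √(d : ℝ)) :=
    one_div_le_one_div_of_le (mul_pos hd0 h1) (mul_le_mul_of_nonneg_left h2 hd0.le)
  have h5 : 1 / ((d : ℝ) * √((d + 1 : ℕ) : ℝ)) - 1 / (((d + 1 : ℕ) : ℝ) * √((d + 1 : ℕ) : ℝ)) =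
      1 / ((d : ℝ) * ((d + 1 : ℕ) : ℝ) * √((d + 1 : ℕ) : ℝ)) := by
    have h6 : ((d + 1 : ℕ) : ℝ) ≠ 0 := by positivity
    field_simp
    push_cast
    ring
  have h7 : 1 / (((d + 1 : ℕ) : ℝ) ^ 2 * √((d + 1 : ℕ) : ℝ)) ≤
      1 / ((d : ℝ) * ((d + 1 : ℕ) : ℝ) * √((d + 1 : ℕ) : ℝ)) := by
    refine one_div_le_one_div_of_le (by positivity) ?_
    refine mul_le_mul_of_nonneg_right ?_ h3.le
    rw [pow_two]
    refine mul_le_mul_of_nonneg_right ?_ (by positivity)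
    push_cast
    linarith
  linarith

private theorem tele {D : ℕ} (hD : 1 ≤ D) {N : ℕ} (hN : D ≤ N) :
    ∑ d ∈ Ioc D N, 1 / ((d : ℝ) ^ 2 * √(d : ℝ)) ≤
      1 / ((D : ℝ) * √(D : ℝ)) - 1 / ((N : ℝ) * √(N : ℝ)) := by
  induction N, hN using Nat.le_induction with
  | base => simp
  | succ N hN ih =>
    rw [sum_Ioc_succ_top hN]
    have := tele_step (hD.trans hN)
    linarith

open Classical in
theorem step_bad : ∃ (C : ℝ) (k₀ i₂ : ℕ), 0 < C ∧ ∀ k ≥ k₀, ∀ (Q : Set ℕ) (i : ℕ), i₂ ≤ i →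
    ∀ (M : ℕ) [NeZero M], (∀ q ∈ (win i).filter (fun q => q ∈ Q), od q ∣ M) →
    ∀ z : (q : ℕ) → ZMod q,
      ∑ q ∈ (win i).filter (fun q => q ∈ Q ∧ od q ^ 4 < q),
        (#{a : Fin k → ZMod M | SS q a = z q} : ℝ) ≤ C * (2 / 5) ^ i * (M : ℝ) ^ k := by
  obtain ⟨k₀, d₀, hbad⟩ := bad_step
  refine ⟨3, k₀, d₀ + 1, by norm_num, ?_⟩
  intro k hk Q i hi M _ hM z
  obtain ⟨j, rfl⟩ : ∃ j, i = j + 1 := ⟨i - 1, by omega⟩
  have hj : d₀ ≤ 2 ^ j := by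
    have h1 : j < 2 ^ j := Nat.lt_two_pow_self
    omega
  have hj1 : 1 ≤ 2 ^ j := Nat.one_le_two_pow
  set T := (win (j + 1)).filter (fun q => q ∈ Q ∧ od q ^ 4 < q) with hT
  have hTp : ∀ q ∈ T, q.Prime ∧ q ≠ 2 := by
    intro q hq
    exact (mem_win.1 (mem_filter.1 hq).1).2
  have hTd : ∀ q ∈ T, 2 ^ j < od q := by
    intro q hq
    have h1 := mem_win.1 (mem_filter.1 hq).1
    have h2 := h1.1.1.trans (lt_two_pow_od h1.2.1 h1.2.2)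
    rw [Z_succ] at h2
    exact (Nat.pow_lt_pow_iff_right (by norm_num)).1 h2
  have hMk : (0 : ℝ) ≤ (M : ℝ) ^ k := by positivity
  -- the bound for one prime
  have h1 : ∀ q ∈ T, (#{a : Fin k → ZMod M | SS q a = z q} : ℝ) ≤
      (M : ℝ) ^ k * (1 / ((od q : ℝ) ^ 3 * √(od q : ℝ))) := by
    intro q hq
    have hq' := mem_filter.1 hq
    have h2 := hbad k hk M q (hTp q hq).1 (hTp q hq).2 (hj.trans (hTd q hq).le) hq'.2.2.le
      (hM q (mem_filter.2 ⟨hq'.1, hq'.2.1⟩)) (z q)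
    have hd0 : (0 : ℝ) < od q := by
      exact_mod_cast (Nat.zero_le _).trans_lt (hTd q hq)
    have h3 : 0 < (od q : ℝ) ^ 3 * √(od q : ℝ) := by positivity
    rw [mul_one_div, le_div_iff₀ h3]
    refine (pow_le_pow_iff_left₀ (by positivity) hMk (by norm_num : (2 : ℕ) ≠ 0)).1 ?_
    refine le_trans (le_of_eq ?_) h2
    have h4 : √(od q : ℝ) ^ 2 = od q := Real.sq_sqrt hd0.le
    rw [mul_pow, mul_pow, h4, ← pow_mul, ← pow_succ]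
  have h2 : ∑ q ∈ T, (1 / ((od q : ℝ) ^ 3 * √(od q : ℝ))) ≤
      ∑ d ∈ T.image od, 1 / ((d : ℝ) ^ 2 * √(d : ℝ)) := by
    rw [sum_comp (fun d : ℕ => 1 / ((d : ℝ) ^ 3 * √(d : ℝ))) od]
    refine sum_le_sum fun d hd => ?_
    have hd0 : (0 : ℝ) < d := by
      obtain ⟨q, hq, rfl⟩ := mem_image.1 hd
      exact_mod_cast (Nat.zero_le _).trans_lt (hTd q hq)
    have h3 : (#(T.filter fun q => od q = d) : ℝ) ≤ d := by
      exact_mod_cast card_od_le T hTp d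
    have h4 : 0 < (d : ℝ) ^ 3 * √(d : ℝ) := by positivity
    rw [nsmul_eq_mul]
    refine (mul_le_mul_of_nonneg_right h3 (by positivity)).trans (le_of_eq ?_)
    have h5 : √(d : ℝ) ≠ 0 := (Real.sqrt_pos.2 hd0).ne'
    field_simp
  have h3 : ∑ d ∈ T.image od, 1 / ((d : ℝ) ^ 2 * √(d : ℝ)) ≤
      1 / (((2 ^ j : ℕ) : ℝ) * √((2 ^ j : ℕ) : ℝ)) := by
    have h4 : T.image od ⊆ Ioc (2 ^ j) (max (2 ^ j) ((T.image od).sup id)) := by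
      intro d hd
      refine mem_Ioc.2 ⟨?_, le_max_of_le_right (le_sup (f := id) hd)⟩
      obtain ⟨q, hq, rfl⟩ := mem_image.1 hd
      exact hTd q hq
    refine (sum_le_sum_of_subset_of_nonneg h4 fun d _ _ => by positivity).trans ?_
    have h5 := tele hj1 (le_max_left (2 ^ j) ((T.image od).sup id))
    have h6 : 0 ≤ 1 / (((max (2 ^ j) ((T.image od).sup id) : ℕ) : ℝ) *
        √((max (2 ^ j) ((T.image od).sup id) : ℕ) : ℝ)) := by positivity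
    linarith
  have h4 : 1 / (((2 ^ j : ℕ) : ℝ) * √((2 ^ j : ℕ) : ℝ)) ≤ 3 * (2 / 5) ^ (j + 1) := by
    refine (pow_le_pow_iff_left₀ (by positivity) (by positivity) (by norm_num : (2 : ℕ) ≠ 0)).1 ?_
    have h5 : √((2 ^ j : ℕ) : ℝ) ^ 2 = (2 : ℝ) ^ j := by
      rw [Real.sq_sqrt (by positivity)]
      push_cast
      rfl
    rw [div_pow, mul_pow, h5, one_pow, mul_pow]
    push_cast
    have h6 : 1 / (((2 : ℝ) ^ j) ^ 2 * 2 ^ j) = (1 / 8) ^ j := by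
      rw [← pow_succ, ← pow_mul, mul_comm j, pow_mul, one_div, one_div, inv_pow]
      norm_num
    have h7 : (3 : ℝ) ^ 2 * ((2 / 5) ^ (j + 1)) ^ 2 = 36 / 25 * (4 / 25) ^ j := by
      rw [← pow_mul, mul_comm (j + 1), pow_mul, pow_succ]
      norm_num
      ring
    rw [h6, h7]
    have h8 : ((1 : ℝ) / 8) ^ j ≤ (4 / 25) ^ j :=
      pow_le_pow_left₀ (by norm_num) (by norm_num) j
    have h9 : (0 : ℝ) ≤ (4 / 25) ^ j := by positivity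
    linarith
  calc ∑ q ∈ T, (#{a : Fin k → ZMod M | SS q a = z q} : ℝ)
      ≤ ∑ q ∈ T, (M : ℝ) ^ k * (1 / ((od q : ℝ) ^ 3 * √(od q : ℝ))) := sum_le_sum h1
    _ = (M : ℝ) ^ k * ∑ q ∈ T, (1 / ((od q : ℝ) ^ 3 * √(od q : ℝ))) := (mul_sum _ _ _).symm
    _ ≤ (M : ℝ) ^ k * (3 * (2 / 5) ^ (j + 1)) :=
      mul_le_mul_of_nonneg_left ((h2.trans h3).trans h4) hMk
    _ = 3 * (2 / 5) ^ (j + 1) * (M : ℝ) ^ k := by ring

end Pool.Agent.SPO
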