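import Pool.Agent.SPO.SmoothWin
import Pool.Agent.SPO.StepBad

/-!
# Package C07: one step over a window

`C` = sum of the constants of `smooth_window` and `step_bad`, `c` from `smooth_window`; `k₀` the
maximum of those
of `good_step`, `step_bad`; `i₂ ≥ 1` at least that of `step_bad` and with `Z i₂ ≥ q₀`
(`good_step`).

For `q ∈ win i` with `q ≤ od q^4` (good) let `j = j(q)` be the largest `j ≤ i` with
`q ≤ (od q/smo (Z j) (od q))^8` (`Nat.findGreatest`); `j = 0` has this property: `smo 1 _ = 1` and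
`q ≤ od q^4 ≤ od q^8`. If `j < i` then `q > r^8`, `r = od q/s`, `s = smo (Z (j+1)) (od q)`, `od q
= r s`, so
`s^8 = od q^8/r^8 > q²/q = q > Z i`; and `s` divides `smo (Z (j+1)) (q-1)` (`smo_dvd_smo`,
`od_dvd`), so
`Z i ≤ smo (Z (j+1)) (q-1)^8`.
`σ t = ∑ 1/q` over the good `q ∈ win i`, `q ∈ Q` with `j(q) = i - t` (for `t ≤ i`, and `σ t = 0`
for `t > i`). For
`1 ≤ t ≤ i`: `σ t ≤ C exp(-(c 2^(i-(j+1))))` with `j + 1 = i - t + 1`, `i - (j+1) = t - 1`
(`smooth_window`).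

Main inequality. `prs Q (i+1) = prs Q i ∪ {q ∈ win i : q ∈ Q}` (`1 < q ≤ Z i` or `Z i < q ≤ Z
(i+1)`), so
`#GS (prs Q (i+1)) ≥ #GS (prs Q i) - ∑_{q ∈ win i, q ∈ Q} #{a ∈ GS (prs Q i) | SS q a = z q}`. A
bad `q`: at most
`#{a | SS q a = z q}`, `step_bad`. A good `q` with `j = j(q)`: `GS (prs Q i) ⊆ GS (prs Q j)` and
`good_step` with
`T = prs Q j`, `y = Z j`: at most `(2/q) #GS (prs Q j)`. Group by `t = i - j(q)`.
-/

set_option autoImplicit false

namespace Pool.Agent.SPO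

open Finset

private theorem lt_smo {q y : ℕ} (hq : q.Prime) (h2 : q ≠ 2) (hg : q ≤ od q ^ 4)
    (h : ¬ q ≤ (od q / smo y (od q)) ^ 8) : q ≤ smo y (q - 1) ^ 8 := by
  have hod := od_pos hq h2
  obtain ⟨s, hs⟩ : ∃ s, s = smo y (od q) := ⟨_, rfl⟩
  have hs0 : 0 < s := by
    rw [hs]
    exact smo_pos _ _
  obtain ⟨r, hr⟩ := smo_dvd y hod.ne'
  rw [← hs] at hr h
  have hrs : od q / s = r := by
    rw [hr]
    exact Nat.mul_div_cancel_left r hs0
  rw [hrs] at h
  have h' : r ^ 8 < q := not_le.1 h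
  have h3 : q * q ≤ r ^ 8 * s ^ 8 := by
    calc q * q ≤ od q ^ 4 * od q ^ 4 := Nat.mul_le_mul hg hg
      _ = r ^ 8 * s ^ 8 := by
          rw [hr]
          ring
  have h4 : r ^ 8 * s ^ 8 < q * s ^ 8 := Nat.mul_lt_mul_of_pos_right h' (by positivity)
  have h5 : q < s ^ 8 := lt_of_mul_lt_mul_left (h3.trans_lt h4) (Nat.zero_le _)
  have h6 : s ≤ smo y (q - 1) := by
    rw [hs]
    refine Nat.le_of_dvd (smo_pos _ _) (smo_dvd_smo y ?_ (od_dvd hq h2))
    have := hq.two_le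
    omega
  exact h5.le.trans (Nat.pow_le_pow_left h6 8)

private theorem GS_anti {k M : ℕ} [NeZero M] {z : (q : ℕ) → ZMod q} {T T' : Finset ℕ}
    (h : T ⊆ T') : GS k M z T' ⊆ GS k M z T := by
  intro a ha
  rw [GS, mem_filter] at ha ⊢
  exact ⟨ha.1, fun q hq => ha.2 q (h hq)⟩

private theorem prs_mono (Q : Set ℕ) {i j : ℕ} (h : i ≤ j) : prs Q i ⊆ prs Q j := by
  intro q hq
  rw [mem_prs] at hq ⊢
  exact ⟨⟨hq.1.1, hq.1.2.trans (Z_mono h)⟩, hq.2⟩

open Classical in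
theorem window_step : ∃ (C c : ℝ) (k₀ i₂ : ℕ), 0 < C ∧ 0 < c ∧ ∀ k ≥ k₀, ∀ (Q : Set ℕ) (i : ℕ),
    i₂ ≤ i → ∃ σ : ℕ → ℝ,
      (∀ t, 0 ≤ σ t ∧ σ t ≤ ∑ q ∈ (win i).filter (fun q => q ∈ Q), (1 : ℝ) / q) ∧
      (∀ t ≥ 1, σ t ≤ C * Real.exp (-(c * 2 ^ (t - 1)))) ∧
      ∀ (M : ℕ) [NeZero M] (z : (q : ℕ) → ZMod q), (∀ q ∈ prs Q (i + 1), od q ∣ M) →
        (#(GS k M z (prs Q i)) : ℝ) -
          ∑ t ∈ range (i + 1), σ t * (2 * (#(GS k M z (prs Q (i - t))) : ℝ)) -
          C * (2 / 5) ^ i * (M : ℝ) ^ k ≤ #(GS k M z (prs Q (i + 1))) := by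
  obtain ⟨C₁, c, hC₁, hc, hsm⟩ := smooth_window
  obtain ⟨C₂, kb, ib, hC₂, hbad⟩ := step_bad
  obtain ⟨kg, q₀, hgood⟩ := good_step
  refine ⟨C₁ + C₂, c, max kg kb, max ib (q₀ + 1), by positivity, hc, ?_⟩
  intro k hk Q i hi
  have hkg : kg ≤ k := (le_max_left _ _).trans hk
  have hkb : kb ≤ k := (le_max_right _ _).trans hk
  have hib : ib ≤ i := (le_max_left _ _).trans hi
  have hiq : q₀ + 1 ≤ i := (le_max_right _ _).trans hi
  have hZq : q₀ ≤ Z i := by
    have h1 : Z (q₀ + 1) ≤ Z i := Z_mono hiq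
    rw [Z_succ] at h1
    have h2 : q₀ < 2 ^ q₀ := Nat.lt_two_pow_self
    have h3 : 2 ^ q₀ < 2 ^ 2 ^ q₀ := Nat.lt_two_pow_self
    omega
  obtain ⟨P, hP⟩ : ∃ P : ℕ → ℕ → Prop, P = fun q j => q ≤ (od q / smo (Z j) (od q)) ^ 8 :=
    ⟨_, rfl⟩
  have hPi : ∀ q j, P q j ↔ q ≤ (od q / smo (Z j) (od q)) ^ 8 := fun q j => by rw [hP]
  obtain ⟨jj, hjj⟩ : ∃ jj : ℕ → ℕ, jj = fun q => Nat.findGreatest (P q) i := ⟨_, rfl⟩
  have hjle : ∀ q, jj q ≤ i := fun q => by
    rw [hjj]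
    exact Nat.findGreatest_le i
  obtain ⟨G, hG⟩ : ∃ G : Finset ℕ, G = (win i).filter (fun q => q ∈ Q ∧ q ≤ od q ^ 4) := ⟨_, rfl⟩
  have hGm : ∀ q, q ∈ G ↔ q ∈ win i ∧ q ∈ Q ∧ q ≤ od q ^ 4 := fun q => by
    rw [hG, mem_filter]
  have hpos : ∀ q : ℕ, (0 : ℝ) ≤ 1 / (q : ℝ) := fun q => by positivity
  refine ⟨fun t => ∑ q ∈ G.filter (fun q => i - jj q = t), (1 : ℝ) / q, ?_, ?_, ?_⟩
  · intro t
    refine ⟨sum_nonneg fun q _ => hpos q, ?_⟩
    refine sum_le_sum_of_subset_of_nonneg ?_ fun q _ _ => hpos q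
    intro q hq
    rw [mem_filter, hGm] at hq
    rw [mem_filter]
    exact ⟨hq.1.1, hq.1.2.1⟩
  · intro t ht
    rcases le_or_gt t i with hti | hti
    · have h1 := hsm i (i - t + 1) (by omega) (by omega)
      have h2 : i - (i - t + 1) = t - 1 := by omega
      rw [h2] at h1
      have h3 : ∑ q ∈ G.filter (fun q => i - jj q = t), (1 : ℝ) / q ≤
          ∑ q ∈ (win i).filter (fun q => Z i ≤ smo (Z (i - t + 1)) (q - 1) ^ 8),
            (1 : ℝ) / q := by
        refine sum_le_sum_of_subset_of_nonneg ?_ fun q _ _ => hpos q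
        intro q hq
        rw [mem_filter, hGm] at hq
        obtain ⟨⟨hw, hQ, hg⟩, hq⟩ := hq
        have hle := hjle q
        have hj : jj q + 1 = i - t + 1 := by omega
        obtain ⟨⟨hq1, hq2⟩, hq3, hq4⟩ := mem_win.1 hw
        rw [mem_filter]
        refine ⟨hw, ?_⟩
        have hn : ¬ P q (jj q + 1) := by
          have h5 : Nat.findGreatest (P q) i < jj q + 1 := by
            rw [hjj]
            exact Nat.lt_succ_self _
          exact Nat.findGreatest_is_greatest h5 (by omega)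
        rw [hPi, hj] at hn
        exact hq1.le.trans (lt_smo hq3 hq4 hg hn)
      refine h3.trans (h1.trans ?_)
      exact mul_le_mul_of_nonneg_right (by linarith) (Real.exp_pos _).le
    · have h1 : G.filter (fun q => i - jj q = t) = ∅ := by
        rw [filter_eq_empty_iff]
        intro q _
        omega
      change ∑ q ∈ G.filter (fun q => i - jj q = t), (1 : ℝ) / q ≤ _
      rw [h1, sum_empty]
      positivity
  · intro M _ z hM
    have hwin : ∀ q ∈ (win i).filter (fun q => q ∈ Q), q ∈ prs Q (i + 1) := by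
      intro q hq
      rw [mem_filter, mem_win] at hq
      rw [mem_prs]
      have := hq.1.2.1.one_lt
      exact ⟨⟨this, hq.1.1.2⟩, hq.1.2, hq.2⟩
    -- bad primes
    have hb := hbad k hkb Q i hib M (fun q hq => hM q (hwin q hq)) z
    -- good primes
    have hg : ∀ q ∈ G, (#{a ∈ GS k M z (prs Q i) | SS q a = z q} : ℝ) ≤
        1 / (q : ℝ) * (2 * (#(GS k M z (prs Q (i - (i - jj q)))) : ℝ)) := by
      intro q hq
      obtain ⟨hw, hQ, hg⟩ := (hGm q).1 hq
      obtain ⟨⟨hq1, hq2⟩, hq3, hq4⟩ := mem_win.1 hw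
      have hle := hjle q
      have hii : i - (i - jj q) = jj q := by omega
      rw [hii]
      have hsp : P q (jj q) := by
        have h0 : P q 0 := by
          rw [hPi, Z_zero, smo_one, Nat.div_one]
          exact hg.trans (Nat.pow_le_pow_right (od_pos hq3 hq4) (by norm_num))
        rw [hjj]
        exact Nat.findGreatest_spec (Nat.zero_le i) h0
      rw [hPi] at hsp
      have h1 := hgood k hkg M z (prs Q (jj q)) (Z (jj q)) (fun p hp => by
        have hp' := hM p (prs_mono Q (by omega) hp)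
        rw [mem_prs] at hp
        exact ⟨hp.2.1, hp.1.2, hp'⟩) q hq3 hq4 (hZq.trans hq1.le)
        (hM q (hwin q (mem_filter.2 ⟨hw, hQ⟩))) hsp
      have h2 : (#{a ∈ GS k M z (prs Q i) | SS q a = z q} : ℝ) ≤
          #{a ∈ GS k M z (prs Q (jj q)) | SS q a = z q} := by
        exact_mod_cast card_le_card (filter_subset_filter _ (GS_anti (prs_mono Q hle)))
      have hq0 : (0 : ℝ) < q := by exact_mod_cast hq3.pos
      refine h2.trans ?_
      rw [one_div, inv_mul_eq_div, le_div_iff₀ hq0]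
      exact h1
    -- the union bound
    have hun : (#(GS k M z (prs Q i)) : ℝ) ≤ #(GS k M z (prs Q (i + 1))) +
        ∑ q ∈ (win i).filter (fun q => q ∈ Q),
          (#{a ∈ GS k M z (prs Q i) | SS q a = z q} : ℝ) := by
      have h1 : GS k M z (prs Q i) ⊆ GS k M z (prs Q (i + 1)) ∪
          ((win i).filter (fun q => q ∈ Q)).biUnion
            (fun q => {a ∈ GS k M z (prs Q i) | SS q a = z q}) := by
        intro a ha
        rw [mem_union, mem_biUnion]
        by_cases h : ∃ q ∈ (win i).filter (fun q => q ∈ Q), SS q a = z q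
        · obtain ⟨q, hq, hq'⟩ := h
          exact Or.inr ⟨q, hq, mem_filter.2 ⟨ha, hq'⟩⟩
        · push Not at h
          refine Or.inl ?_
          rw [GS, mem_filter] at ha ⊢
          refine ⟨mem_univ _, fun q hq => ?_⟩
          rcases le_or_gt q (Z i) with h5 | h5
          · refine ha.2 q ?_
            rw [mem_prs] at hq ⊢
            exact ⟨⟨hq.1.1, h5⟩, hq.2⟩
          · rw [mem_prs] at hq
            exact h q (mem_filter.2 ⟨mem_win.2 ⟨⟨h5, hq.1.2⟩, hq.2.1⟩, hq.2.2⟩)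
      have h2 := (card_le_card h1).trans
        ((card_union_le _ _).trans (Nat.add_le_add_left card_biUnion_le _))
      exact_mod_cast h2
    have hsplit : ∑ q ∈ (win i).filter (fun q => q ∈ Q),
        (#{a ∈ GS k M z (prs Q i) | SS q a = z q} : ℝ) ≤
        ∑ q ∈ G, (#{a ∈ GS k M z (prs Q i) | SS q a = z q} : ℝ) +
        ∑ q ∈ (win i).filter (fun q => q ∈ Q ∧ od q ^ 4 < q),
          (#{a : Fin k → ZMod M | SS q a = z q} : ℝ) := by
      have h1 : (win i).filter (fun q => q ∈ Q) ⊆ G ∪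
          (win i).filter (fun q => q ∈ Q ∧ od q ^ 4 < q) := by
        intro q hq
        rw [mem_filter] at hq
        rw [mem_union, hGm, mem_filter]
        rcases le_or_gt q (od q ^ 4) with h5 | h5
        · exact Or.inl ⟨hq.1, hq.2, h5⟩
        · exact Or.inr ⟨hq.1, hq.2, h5⟩
      refine (sum_le_sum_of_subset_of_nonneg h1 fun q _ _ => Nat.cast_nonneg _).trans ?_
      have h2 : ∑ q ∈ (win i).filter (fun q => q ∈ Q ∧ od q ^ 4 < q),
          (#{a ∈ GS k M z (prs Q i) | SS q a = z q} : ℝ) ≤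
          ∑ q ∈ (win i).filter (fun q => q ∈ Q ∧ od q ^ 4 < q),
          (#{a : Fin k → ZMod M | SS q a = z q} : ℝ) := by
        refine sum_le_sum fun q _ => ?_
        exact_mod_cast card_le_card (filter_subset_filter _ (subset_univ _))
      refine le_trans ?_ (add_le_add le_rfl h2)
      rw [← sum_union_inter]
      exact le_add_of_nonneg_right (sum_nonneg fun q _ => Nat.cast_nonneg _)
    have hsum : ∑ q ∈ G, (#{a ∈ GS k M z (prs Q i) | SS q a = z q} : ℝ) ≤
        ∑ t ∈ range (i + 1), (∑ q ∈ G.filter (fun q => i - jj q = t), (1 : ℝ) / q) *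
          (2 * (#(GS k M z (prs Q (i - t))) : ℝ)) := by
      refine (sum_le_sum hg).trans (le_of_eq ?_)
      rw [← sum_fiberwise_of_maps_to (s := G) (t := range (i + 1)) (g := fun q => i - jj q)
        (fun q _ => mem_range.2 (by omega))]
      refine sum_congr rfl fun t _ => ?_
      rw [sum_mul]
      refine sum_congr rfl fun q hq => ?_
      rw [(mem_filter.1 hq).2]
    have hMk : (0 : ℝ) ≤ (2 / 5) ^ i * (M : ℝ) ^ k := by positivity
    have hC : C₂ * (2 / 5) ^ i * (M : ℝ) ^ k ≤ (C₁ + C₂) * (2 / 5) ^ i * (M : ℝ) ^ k := by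
      rw [mul_assoc, mul_assoc]
      exact mul_le_mul_of_nonneg_right (by linarith) hMk
    linarith

end Pool.Agent.SPO
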