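import Pool.Agent.SPO.Defs
import Pool.Agent.SPO.BTd

/-!
# Package P04: sums of `1/q` over a window `(Y, Y²]`

Cover `(Y, Y²]` by the intervals `(2^j Y, 2^(j+1) Y]`, `0 ≤ j ≤ log₂ Y` (`2^(⌊log₂ Y⌋+1) Y > Y²`).
By `bt_dyadic`
(`D² ≤ D⁴ ≤ Y ≤ 2^j Y`) each contributes at most `C/(φ(D) log(2^j Y)) ≤ C/(φ(D) log Y)`, and the
number of
intervals is at most `log₂ Y + 1 ≤ 2 log₂ Y = (2/log 2) log Y`. So `C₁ = max(1, 3C)`.

`win_sum_le`: for `i ≥ 1` it is the case `D = 1` (`Y = Z i`); `win 0` is empty (no odd prime in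
`(1, 2]`).
`prs_sum_le`: `prs Q I` is contained in the union of the `win i`, `i < I`.
-/

set_option autoImplicit false

namespace Pool.Agent.SPO

open Finset

theorem window_sum : ∃ C₁ : ℝ, 1 ≤ C₁ ∧ ∀ D Y r : ℕ, 1 ≤ D → 2 ≤ Y → D ^ 4 ≤ Y →
    ∑ q ∈ (Ioc Y (Y ^ 2)).filter (fun q => q.Prime ∧ q % D = r % D), (1 : ℝ) / q ≤
      C₁ / Nat.totient D := by
  obtain ⟨C, hC, h⟩ := bt_dyadic
  refine ⟨max 1 (3 * C), le_max_left _ _, fun D Y r hD hY hDY => ?_⟩
  have hY0 : 0 < Y := by omega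
  have hYr : (2 : ℝ) ≤ Y := by exact_mod_cast hY
  have hlogY : 0 < Real.log Y := Real.log_pos (by linarith)
  have hphi : (0 : ℝ) < Nat.totient D := by
    exact_mod_cast Nat.totient_pos.2 (by omega)
  have key : ∀ k : ℕ, ∑ q ∈ (Ioc Y (2 ^ k * Y)).filter (fun q => q.Prime ∧ q % D = r % D),
      (1 : ℝ) / q ≤ k * (C / (Nat.totient D * Real.log Y)) := by
    intro k
    induction k with
    | zero => simp
    | succ k ih =>
      have hk1 : 1 ≤ 2 ^ k := Nat.one_le_two_pow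
      have hkY : Y ≤ 2 ^ k * Y := Nat.le_mul_of_pos_left Y (by omega)
      have hsub : (Ioc Y (2 ^ (k + 1) * Y)).filter (fun q => q.Prime ∧ q % D = r % D) ⊆
          (Ioc Y (2 ^ k * Y)).filter (fun q => q.Prime ∧ q % D = r % D) ∪
          (Ioc (2 ^ k * Y) (2 * (2 ^ k * Y))).filter (fun q => q.Prime ∧ q % D = r % D) := by
        intro q hq
        rw [mem_filter, mem_Ioc] at hq
        rw [mem_union, mem_filter, mem_filter, mem_Ioc, mem_Ioc]
        have e : 2 ^ (k + 1) * Y = 2 * (2 ^ k * Y) := by ring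
        rw [e] at hq
        rcases le_or_gt q (2 ^ k * Y) with h1 | h1
        · exact Or.inl ⟨⟨hq.1.1, h1⟩, hq.2⟩
        · exact Or.inr ⟨⟨h1, hq.1.2⟩, hq.2⟩
      have hnn : ∀ q : ℕ, (0 : ℝ) ≤ 1 / (q : ℝ) := fun q => by positivity
      have h1 : ∑ q ∈ (Ioc Y (2 ^ (k + 1) * Y)).filter (fun q => q.Prime ∧ q % D = r % D),
          (1 : ℝ) / q ≤
          ∑ q ∈ (Ioc Y (2 ^ k * Y)).filter (fun q => q.Prime ∧ q % D = r % D), (1 : ℝ) / q +
          ∑ q ∈ (Ioc (2 ^ k * Y) (2 * (2 ^ k * Y))).filter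
            (fun q => q.Prime ∧ q % D = r % D), (1 : ℝ) / q := by
        refine (sum_le_sum_of_subset_of_nonneg hsub fun q _ _ => hnn q).trans ?_
        rw [← sum_union_inter]
        exact le_add_of_nonneg_right (sum_nonneg fun q _ => hnn q)
      have hx : D ^ 2 ≤ 2 ^ k * Y :=
        ((Nat.pow_le_pow_right hD (by norm_num)).trans hDY).trans hkY
      have h2 := h D (2 ^ k * Y) r hD (hY.trans hkY) hx
      have hXpos : (0 : ℝ) < ((2 ^ k * Y : ℕ) : ℝ) := by
        exact_mod_cast Nat.mul_pos (by omega) hY0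
      have hlogX : Real.log Y ≤ Real.log ((2 ^ k * Y : ℕ) : ℝ) :=
        Real.log_le_log (by linarith) (by exact_mod_cast hkY)
      have h3 : ∑ q ∈ (Ioc (2 ^ k * Y) (2 * (2 ^ k * Y))).filter
          (fun q => q.Prime ∧ q % D = r % D), (1 : ℝ) / q ≤
          C / (Nat.totient D * Real.log Y) := by
        calc _ ≤ ∑ q ∈ (Ioc (2 ^ k * Y) (2 * (2 ^ k * Y))).filter
              (fun q => q.Prime ∧ q % D = r % D), (1 : ℝ) / ((2 ^ k * Y : ℕ) : ℝ) := by
              refine sum_le_sum fun q hq => ?_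
              rw [mem_filter, mem_Ioc] at hq
              exact one_div_le_one_div_of_le hXpos (by exact_mod_cast hq.1.1.le)
          _ = (#{q ∈ Ioc (2 ^ k * Y) (2 * (2 ^ k * Y)) | q.Prime ∧ q % D = r % D} : ℝ) *
              (1 / ((2 ^ k * Y : ℕ) : ℝ)) := by
              rw [sum_const, nsmul_eq_mul]
          _ ≤ (C * ((2 ^ k * Y : ℕ) : ℝ) / (Nat.totient D * Real.log ((2 ^ k * Y : ℕ) : ℝ))) *
              (1 / ((2 ^ k * Y : ℕ) : ℝ)) :=
              mul_le_mul_of_nonneg_right h2 (by positivity)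
          _ = C / (Nat.totient D * Real.log ((2 ^ k * Y : ℕ) : ℝ)) := by
              have hl : 0 < Real.log ((2 ^ k * Y : ℕ) : ℝ) := hlogY.trans_le hlogX
              field_simp
          _ ≤ C / (Nat.totient D * Real.log Y) := by
              refine div_le_div_of_nonneg_left hC.le (by positivity) ?_
              exact mul_le_mul_of_nonneg_left hlogX hphi.le
      refine h1.trans ((add_le_add ih h3).trans (le_of_eq ?_))
      push_cast
      ring
  set L := Nat.log 2 Y with hL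
  have hL1 : 2 ^ L ≤ Y := Nat.pow_log_le_self 2 (by omega)
  have hL2 : Y < 2 ^ (L + 1) := Nat.lt_pow_succ_log_self (by norm_num) Y
  have hsub : (Ioc Y (Y ^ 2)).filter (fun q => q.Prime ∧ q % D = r % D) ⊆
      (Ioc Y (2 ^ (L + 1) * Y)).filter (fun q => q.Prime ∧ q % D = r % D) := by
    refine filter_subset_filter _ (Ioc_subset_Ioc_right ?_)
    rw [sq]
    exact Nat.mul_le_mul_right Y hL2.le
  have h4 : (L : ℝ) * Real.log 2 ≤ Real.log Y := by
    rw [← Real.log_pow]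
    exact Real.log_le_log (by positivity) (by exact_mod_cast hL1)
  have h5 : Real.log 2 ≤ Real.log Y := Real.log_le_log (by norm_num) hYr
  have h6 : 0.6931471803 < Real.log 2 := Real.log_two_gt_d9
  have h7 : ((L + 1 : ℕ) : ℝ) ≤ 3 * Real.log Y := by
    push_cast
    nlinarith
  calc _ ≤ ∑ q ∈ (Ioc Y (2 ^ (L + 1) * Y)).filter (fun q => q.Prime ∧ q % D = r % D),
        (1 : ℝ) / q := sum_le_sum_of_subset_of_nonneg hsub fun q _ _ => by positivity
    _ ≤ ((L + 1 : ℕ) : ℝ) * (C / (Nat.totient D * Real.log Y)) := key (L + 1)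
    _ ≤ (3 * Real.log Y) * (C / (Nat.totient D * Real.log Y)) :=
        mul_le_mul_of_nonneg_right h7 (by positivity)
    _ = 3 * C / Nat.totient D := by field_simp
    _ ≤ max 1 (3 * C) / Nat.totient D :=
        div_le_div_of_nonneg_right (le_max_right _ _) hphi.le

theorem win_sum_le {C₁ : ℝ} (hC : ∀ D Y r : ℕ, 1 ≤ D → 2 ≤ Y → D ^ 4 ≤ Y →
    ∑ q ∈ (Ioc Y (Y ^ 2)).filter (fun q => q.Prime ∧ q % D = r % D), (1 : ℝ) / q ≤
      C₁ / Nat.totient D) (h0 : 0 ≤ C₁) (i : ℕ) : ∑ q ∈ win i, (1 : ℝ) / q ≤ C₁ := by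
  rcases Nat.eq_zero_or_pos i with rfl | hi
  · have he : win 0 = ∅ := by
      rw [Finset.eq_empty_iff_forall_notMem]
      intro q hq
      rw [mem_win, Z_zero, Z_succ] at hq
      obtain ⟨⟨h1, h2⟩, -, h3⟩ := hq
      norm_num at h2
      omega
    rw [he, sum_empty]
    exact h0
  · have hZ : 2 ≤ Z i := by
      obtain ⟨j, rfl⟩ : ∃ j, i = j + 1 := ⟨i - 1, by omega⟩
      rw [Z_succ]
      calc 2 = 2 ^ 1 := rfl
        _ ≤ 2 ^ 2 ^ j := Nat.pow_le_pow_right two_pos Nat.one_le_two_pow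
    have h1 := hC 1 (Z i) 0 le_rfl hZ (by rw [one_pow]; omega)
    rw [Nat.totient_one, Nat.cast_one, div_one] at h1
    refine le_trans (sum_le_sum_of_subset_of_nonneg ?_ fun q _ _ => by positivity) h1
    intro q hq
    rw [mem_win, Z_sq hi] at hq
    rw [mem_filter, mem_Ioc]
    exact ⟨hq.1, hq.2.1, by rw [Nat.mod_one, Nat.mod_one]⟩

theorem prs_sum_le {C₁ : ℝ} (hC : ∀ i, ∑ q ∈ win i, (1 : ℝ) / q ≤ C₁) (Q : Set ℕ) (I : ℕ) :
    ∑ q ∈ prs Q I, (1 : ℝ) / q ≤ C₁ * I := by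
  classical
  induction I with
  | zero =>
    have he : prs Q 0 = ∅ := by
      rw [Finset.eq_empty_iff_forall_notMem]
      intro q hq
      rw [mem_prs, Z_zero] at hq
      omega
    rw [he, sum_empty]
    simp
  | succ I ih =>
    have hsub : prs Q (I + 1) ⊆ prs Q I ∪ win I := by
      intro q hq
      rw [mem_prs] at hq
      rw [mem_union, mem_prs, mem_win]
      rcases le_or_gt q (Z I) with h1 | h1
      · exact Or.inl ⟨⟨hq.1.1, h1⟩, hq.2⟩
      · exact Or.inr ⟨⟨h1, hq.1.2⟩, hq.2.1⟩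
    have hnn : ∀ q : ℕ, (0 : ℝ) ≤ 1 / (q : ℝ) := fun q => by positivity
    have h1 : ∑ q ∈ prs Q (I + 1), (1 : ℝ) / q ≤
        ∑ q ∈ prs Q I, (1 : ℝ) / q + ∑ q ∈ win I, (1 : ℝ) / q := by
      refine (sum_le_sum_of_subset_of_nonneg hsub fun q _ _ => hnn q).trans ?_
      rw [← sum_union_inter]
      exact le_add_of_nonneg_right (sum_nonneg fun q _ => hnn q)
    refine h1.trans ((add_le_add ih (hC I)).trans (le_of_eq ?_))
    push_cast
    ring

end Pool.Agent.SPO
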